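import Pool.Agent.ENC.Stmts

/-!
# Choice of the blow-up (module ENC_ALP)
-/

set_option autoImplicit false

namespace Pool.Agent.ENC

theorem t_ALP : St_ALP := by
  intro P R a hP hPR ha ha2
  have hP1 : (1 : ℝ) ≤ P := by exact_mod_cast hP
  have hPR' : (P : ℝ) ≤ R := by exact_mod_cast hPR
  have hR1 : (1 : ℝ) ≤ R := le_trans hP1 hPR'
  have hinv : 2 ≤ 1 / a := by
    rw [le_div_iff₀ ha]; linarith
  have haa : a * (1 / a) = 1 := by field_simp
  set t : ℝ := R * (1 / a - 1) / P with ht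
  have htp : 0 < t := by
    rw [ht]
    apply div_pos _ (by linarith)
    apply mul_pos (by linarith) (by linarith)
  have hf1 : t ≤ (⌈t⌉₊ : ℝ) := Nat.le_ceil t
  have hf2 : (⌈t⌉₊ : ℝ) < t + 1 := Nat.ceil_lt_add_one htp.le
  have hPt : (P : ℝ) * t = R * (1 / a - 1) := by
    rw [ht]; field_simp
  have h1 : (R : ℝ) * (1 / a - 1) ≤ P * (⌈t⌉₊ : ℝ) := by
    rw [← hPt]; exact mul_le_mul_of_nonneg_left hf1 (by linarith)
  have h2 : (P : ℝ) * (⌈t⌉₊ : ℝ) ≤ R * (1 / a - 1) + P := by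
    have : (P : ℝ) * (⌈t⌉₊ : ℝ) ≤ P * (t + 1) := mul_le_mul_of_nonneg_left hf2.le (by linarith)
    rw [mul_add, hPt] at this; linarith
  have hcast : ((P * ⌈t⌉₊ + R : ℕ) : ℝ) = P * (⌈t⌉₊ : ℝ) + R := by push_cast; ring
  refine ⟨⌈t⌉₊, Nat.one_le_iff_ne_zero.mpr ?_, ?_, ?_, ?_⟩
  · intro h0
    rw [h0] at hf1
    simp only [Nat.cast_zero] at hf1
    linarith
  · rw [hcast, le_div_iff₀ (by nlinarith)]
    have h3 : (P : ℝ) * (⌈t⌉₊ : ℝ) + R ≤ 2 * (R * (1 / a)) := by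
      have : (R : ℝ) * 2 ≤ R * (1 / a) := mul_le_mul_of_nonneg_left hinv (by linarith)
      nlinarith
    calc a / 2 * ((P : ℝ) * (⌈t⌉₊ : ℝ) + R) ≤ a / 2 * (2 * (R * (1 / a))) :=
          mul_le_mul_of_nonneg_left h3 (by linarith)
      _ = R * (a * (1 / a)) := by ring
      _ = R := by rw [haa, mul_one]
  · rw [hcast, div_le_iff₀ (by nlinarith)]
    have h3 : (R : ℝ) * (1 / a) ≤ P * (⌈t⌉₊ : ℝ) + R := by nlinarith
    calc (R : ℝ) = a * (R * (1 / a)) := by rw [mul_left_comm, haa, mul_one]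
      _ ≤ a * ((P : ℝ) * (⌈t⌉₊ : ℝ) + R) := mul_le_mul_of_nonneg_left h3 ha.le
  · have h4 : t ≤ R * (1 / a - 1) := by
      rw [← hPt]
      nlinarith
    have h5 : 2 * (R : ℝ) / a = 2 * (R * (1 / a)) := by ring
    rw [h5]
    have h6 : 0 ≤ (R : ℝ) * (1 / a) := by positivity
    nlinarith

end Pool.Agent.ENC
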