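import Pool.Agent.ENC.Stmts

/-!
ENC_ANT: on a regular graph the entropy distance is antitone (MP_1e9518_pr).
-/

namespace Pool.Agent.ENC

open Finset Filter Topology Pool.Agent.LazyWalk

namespace M_ANT

/-- Jensen for `phi`. -/
theorem phi_sum_le {K : Type} [Fintype K] (w p : K → ℝ) (hw : ∀ k, 0 ≤ w k) (hs : ∑ k, w k = 1)
    (hp : ∀ k, 0 ≤ p k) : phi (∑ k, w k * p k) ≤ ∑ k, w k * phi (p k) := by
  have h := Real.convexOn_mul_log.map_sum_le (t := Finset.univ) (w := w) (p := p)
    (fun k _ => hw k) hs (fun k _ => hp k)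
  simpa [phi, smul_eq_mul] using h

theorem rel_ent {V : Type} [Fintype V] (G : SimpleGraph V) (t : ℕ) (x : V) :
    relEnt G t x = (∑ y, phi ((Fintype.card V : ℝ) * stepProb G t x y)) / Fintype.card V := by
  have : Nonempty V := ⟨x⟩
  have hc : (Fintype.card V : ℝ) ≠ 0 := by
    exact_mod_cast Fintype.card_ne_zero
  unfold relEnt phi
  rw [Finset.sum_div]
  refine Finset.sum_congr rfl fun y _ => ?_
  rw [show stepProb G t x y / (1 / (Fintype.card V : ℝ)) = (Fintype.card V : ℝ) * stepProb G t x y by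
    rw [div_div_eq_mul_div, div_one, mul_comm]]
  field_simp

theorem relEnt_le {V : Type} [Fintype V] (G : SimpleGraph V) (t : ℕ) (x : V) :
    relEnt G t x ≤ entDist G t :=
  le_ciSup (f := fun x : V => relEnt G t x) (Set.finite_range _).bddAbove x

theorem rel_succ {V : Type} [Fintype V] (G : SimpleGraph V) {d : ℕ} (h : Reg G d) (t : ℕ) (x : V) :
    relEnt G (t + 1) x ≤ ∑ z, lazyWalk G x z * relEnt G t z := by
  simp only [rel_ent]
  have h1 : ∀ y, phi ((Fintype.card V : ℝ) * stepProb G (t + 1) x y)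
      ≤ ∑ z, lazyWalk G x z * phi ((Fintype.card V : ℝ) * stepProb G t z y) := by
    intro y
    have h2 : (Fintype.card V : ℝ) * stepProb G (t + 1) x y
        = ∑ z, lazyWalk G x z * ((Fintype.card V : ℝ) * stepProb G t z y) := by
      rw [stepProb_succ', Finset.mul_sum]
      exact Finset.sum_congr rfl fun z _ => by ring
    rw [h2]
    exact phi_sum_le _ _ (fun z => lazyWalk_nonneg G x z) (lazyWalk_row_sum h x)
      (fun z => mul_nonneg (Nat.cast_nonneg _) (stepProb_nonneg t z y))
  calc (∑ y, phi ((Fintype.card V : ℝ) * stepProb G (t + 1) x y)) / (Fintype.card V : ℝ)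
      ≤ (∑ y, ∑ z, lazyWalk G x z * phi ((Fintype.card V : ℝ) * stepProb G t z y))
          / (Fintype.card V : ℝ) :=
        div_le_div_of_nonneg_right (Finset.sum_le_sum fun y _ => h1 y) (Nat.cast_nonneg _)
    _ = ∑ z, lazyWalk G x z *
          ((∑ y, phi ((Fintype.card V : ℝ) * stepProb G t z y)) / (Fintype.card V : ℝ)) := by
        rw [Finset.sum_comm, Finset.sum_div]
        refine Finset.sum_congr rfl fun z _ => ?_
        rw [← Finset.mul_sum, mul_div_assoc]

end M_ANT

open M_ANT in
theorem t_ANT : St_ANT := by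
  intro V _ _ G d h
  refine antitone_nat_of_succ_le fun t => ?_
  refine ciSup_le fun x => ?_
  refine (rel_succ G h t x).trans ?_
  calc ∑ z, lazyWalk G x z * relEnt G t z ≤ ∑ z, lazyWalk G x z * entDist G t :=
        Finset.sum_le_sum fun z _ =>
          mul_le_mul_of_nonneg_left (relEnt_le G t z) (lazyWalk_nonneg G x z)
    _ = entDist G t := by rw [← Finset.sum_mul, lazyWalk_row_sum h, one_mul]

end Pool.Agent.ENC
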