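import Pool.Agent.ENC.Stmts

/-!
Module ENC_CAR: cardinalities of the increment sets and of the lamp group.
-/

namespace Pool.Agent.ENC

open Finset Filter Topology Pool.Agent.LazyWalk

namespace M_CAR

lemma inc1_inj {D M : ℕ} : Function.Injective
    (fun p : (Fin D → ZMod 2) × (Fin (D + 1) → Fin M → ZMod 2) => inc1 p.1 p.2) := by
  rintro ⟨x, g⟩ ⟨x', g'⟩ h
  have h1 : (fun i j m => hat x i * g j m : Ten D M) = fun i j m => hat x' i * g' j m :=
    congrArg Prod.fst h
  have h2 : x = x' := congrArg Prod.snd h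
  have h3 : g = g' := by
    funext j m
    have h4 := congrFun (congrFun (congrFun h1 0) j) m
    simpa [hat] using h4
  rw [h2, h3]

lemma inc2_inj {D M : ℕ} : Function.Injective
    (fun p : (Fin D → ZMod 2) × (Fin (D + 1) → Fin M → ZMod 2) => inc2 p.1 p.2) := by
  rintro ⟨x, g⟩ ⟨x', g'⟩ h
  have h1 : (fun i j m => g i m * hat x j : Ten D M) = fun i j m => g' i m * hat x' j :=
    congrArg Prod.fst h
  have h2 : x = x' := congrArg Prod.snd h
  have h3 : g = g' := by
    funext i m
    have h4 := congrFun (congrFun (congrFun h1 i) 0) m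
    simpa [hat] using h4
  rw [h2, h3]

lemma card_dom (D M : ℕ) :
    (univ : Finset ((Fin D → ZMod 2) × (Fin (D + 1) → Fin M → ZMod 2))).card =
      2 ^ (D + (D + 1) * M) := by
  rw [card_univ, Fintype.card_prod]
  simp only [Fintype.card_fun, ZMod.card, Fintype.card_fin]
  rw [← pow_mul, ← pow_add, mul_comm M (D + 1)]

end M_CAR

theorem t_CAR : St_CAR := by
  intro D M
  refine ⟨?_, ?_, ?_, ?_, ?_, ?_⟩
  · rw [S1, card_image_of_injective _ M_CAR.inc1_inj, M_CAR.card_dom]
  · rw [S2, card_image_of_injective _ M_CAR.inc2_inj, M_CAR.card_dom]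
  · rw [S1, mem_image]
    refine ⟨(0, 0), mem_univ _, ?_⟩
    simp only [inc1]
    refine Prod.ext ?_ rfl
    funext i j m
    simp
  · rw [S2, mem_image]
    refine ⟨(0, 0), mem_univ _, ?_⟩
    simp only [inc2]
    refine Prod.ext ?_ rfl
    funext i j m
    simp
  · rw [Fintype.card_prod]
    simp only [Fintype.card_fun, ZMod.card, Fintype.card_fin]
    rw [← pow_mul, ← pow_mul, ← pow_add]
    congr 1
    ring
  · intro a
    refine Prod.ext ?_ ?_
    · funext i j m
      exact ZMod.neg_eq_self_mod_two _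
    · funext i
      exact ZMod.neg_eq_self_mod_two _

end Pool.Agent.ENC
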