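import Pool.Agent.ENC.Stmts

/-!
# ENC_CHE: Chebyshev for the magnetisation
-/

set_option autoImplicit false

namespace Pool.Agent.ENC

open Finset

namespace M_CHE

theorem lw_nonneg (n : ℕ) (o : Option (Fin n)) : 0 ≤ lw n o := by
  unfold lw
  cases o <;> simp

theorem ww_nonneg {n m : ℕ} (w : Wd n m) : 0 ≤ ww w := by
  unfold ww
  exact Finset.prod_nonneg fun r _ => lw_nonneg n (w r)

end M_CHE

open Classical in
theorem t_CHE (h1 : St_MOM) : St_CHE := by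
  intro n m b hn hb
  obtain ⟨e0, e1, e2⟩ := h1 n m b (by omega) hb
  have hn' : (2 : ℝ) ≤ n := by exact_mod_cast hn
  have hnpos : (0 : ℝ) < n := by linarith
  have hr : (0 : ℝ) < 1 - 1 / (n : ℝ) := by
    rw [sub_pos, div_lt_one hnpos]; linarith
  have hr2 : (0 : ℝ) ≤ 1 - 2 / (n : ℝ) := by
    rw [sub_nonneg, div_le_one hnpos]; linarith
  set μ : ℝ := n * (1 - 1 / (n : ℝ)) ^ b with hμ
  have hμpos : 0 < μ := mul_pos hnpos (pow_pos hr b)
  have hle : (1 - 2 / (n : ℝ)) ^ b ≤ ((1 - 1 / (n : ℝ)) ^ b) ^ 2 := by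
    rw [← pow_mul, mul_comm, pow_mul]
    refine pow_le_pow_left₀ hr2 ?_ b
    have : (1 - 1 / (n : ℝ)) ^ 2 = 1 - 2 / (n : ℝ) + (1 / (n : ℝ)) ^ 2 := by ring
    rw [this]
    nlinarith [sq_nonneg (1 / (n : ℝ))]
  have hpt : ∀ w : Wd n m, (if mag (pre w b) ≤ (1 / 2) * μ then ww w else 0) ≤
      4 / μ ^ 2 * (ww w * (mag (pre w b) - μ) ^ 2) := by
    intro w
    have hw := M_CHE.ww_nonneg w
    split_ifs with h
    · have h2 : μ ^ 2 ≤ 4 * (mag (pre w b) - μ) ^ 2 := by nlinarith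
      rw [div_mul_eq_mul_div, le_div_iff₀ (by positivity)]
      nlinarith
    · positivity
  refine (Finset.sum_le_sum fun w _ => hpt w).trans ?_
  rw [← Finset.mul_sum]
  have hsum : ∑ w : Wd n m, ww w * (mag (pre w b) - μ) ^ 2 =
      (n + ((n : ℝ) ^ 2 - n) * (1 - 2 / (n : ℝ)) ^ b) - μ ^ 2 := by
    have : ∀ w : Wd n m, ww w * (mag (pre w b) - μ) ^ 2 =
        ww w * mag (pre w b) ^ 2 - 2 * μ * (ww w * mag (pre w b)) + μ ^ 2 * ww w := by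
      intro w; ring
    rw [Finset.sum_congr rfl fun w _ => this w, Finset.sum_add_distrib, Finset.sum_sub_distrib,
      ← Finset.mul_sum, ← Finset.mul_sum, e0, e1, e2]
    ring
  have hvar : ∑ w : Wd n m, ww w * (mag (pre w b) - μ) ^ 2 ≤ n := by
    rw [hsum]
    have h3 : ((n : ℝ) ^ 2 - n) * (1 - 2 / (n : ℝ)) ^ b ≤ μ ^ 2 := by
      rw [hμ, mul_pow]
      have h4 : 0 ≤ (1 - 2 / (n : ℝ)) ^ b := pow_nonneg hr2 b
      have h5 : ((n : ℝ) ^ 2 - n) ≤ (n : ℝ) ^ 2 := by linarith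
      calc ((n : ℝ) ^ 2 - n) * (1 - 2 / (n : ℝ)) ^ b
          ≤ (n : ℝ) ^ 2 * (1 - 2 / (n : ℝ)) ^ b := mul_le_mul_of_nonneg_right h5 h4
        _ ≤ (n : ℝ) ^ 2 * ((1 - 1 / (n : ℝ)) ^ b) ^ 2 :=
            mul_le_mul_of_nonneg_left hle (by positivity)
    linarith
  calc 4 / μ ^ 2 * ∑ w : Wd n m, ww w * (mag (pre w b) - μ) ^ 2
      ≤ 4 / μ ^ 2 * n := mul_le_mul_of_nonneg_left hvar (by positivity)
    _ = 4 / (n * (1 - 1 / (n : ℝ)) ^ (2 * b)) := by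
        rw [hμ, mul_pow, ← pow_mul, mul_comm b 2]
        have : (1 - 1 / (n : ℝ)) ^ (2 * b) ≠ 0 := (pow_pos hr _).ne'
        field_simp

end Pool.Agent.ENC
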