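import Pool.Agent.ENC.Stmts

/-!
Module ENC_CHN for MP_1e9518_pr: chain rule for the entropy of a mixture.
-/

namespace Pool.Agent.ENC

namespace M_CHN

open Finset

/-- Pointwise inequality behind the chain rule. -/
lemma phi_mix {K : Type} [Fintype K] (a g : K → ℝ) (ha : ∀ k, 0 ≤ a k) (hg : ∀ k, 0 ≤ g k) :
    phi (∑ k, a k * g k) ≤ (∑ k, a k * g k) * Real.log (∑ k, a k) + ∑ k, a k * phi (g k) := by
  have hQ : 0 ≤ ∑ k, a k := Finset.sum_nonneg fun k _ => ha k
  rcases hQ.lt_or_eq with h0 | h0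
  · have h1 : phi (∑ k, a k / (∑ i, a i) * g k) ≤ ∑ k, a k / (∑ i, a i) * phi (g k) := by
      have h2 := Real.convexOn_mul_log.map_sum_le (t := (univ : Finset K))
        (w := fun k => a k / ∑ i, a i) (p := g) (fun k _ => div_nonneg (ha k) hQ)
        (by rw [← Finset.sum_div]; exact div_self h0.ne') (fun k _ => hg k)
      exact h2
    have h3 : ∑ k, a k * g k = (∑ i, a i) * ∑ k, a k / (∑ i, a i) * g k := by
      rw [Finset.mul_sum]
      refine Finset.sum_congr rfl fun k _ => ?_
      field_simp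
    have h4 : ∑ k, a k * phi (g k) = (∑ i, a i) * ∑ k, a k / (∑ i, a i) * phi (g k) := by
      rw [Finset.mul_sum]
      refine Finset.sum_congr rfl fun k _ => ?_
      field_simp
    rw [h3, h4]
    set Q : ℝ := ∑ i, a i with hQd
    set A : ℝ := ∑ k, a k / Q * g k with hA
    by_cases hA0 : A = 0
    · have h5 : phi (Q * A) = 0 := by
        unfold phi
        rw [hA0, mul_zero, zero_mul]
      have h6 : phi A = 0 := by
        unfold phi
        rw [hA0, zero_mul]
      rw [h5, hA0, mul_zero, zero_mul, zero_add]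
      rw [h6] at h1
      exact mul_nonneg h0.le h1
    · have h5 : phi (Q * A) = Q * A * Real.log Q + Q * phi A := by
        unfold phi
        rw [Real.log_mul h0.ne' hA0]
        ring
      rw [h5]
      have h6 := mul_le_mul_of_nonneg_left h1 h0.le
      linarith
  · have h1 : ∀ k, a k = 0 := by
      intro k
      have h2 := (Finset.sum_eq_zero_iff_of_nonneg (fun k _ => ha k)).1 h0.symm
      exact h2 k (mem_univ k)
    have h2 : ∑ k, a k * g k = 0 := Finset.sum_eq_zero fun k _ => by rw [h1 k, zero_mul]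
    have h3 : ∑ k, a k * phi (g k) = 0 := Finset.sum_eq_zero fun k _ => by rw [h1 k, zero_mul]
    rw [h2, h3, zero_mul, zero_add]
    unfold phi
    rw [zero_mul]

lemma avg_mono {X : Type} [Fintype X] (f g : X → ℝ) (h : ∀ x, f x ≤ g x) : avg f ≤ avg g := by
  unfold avg
  exact div_le_div_of_nonneg_right (Finset.sum_le_sum fun x _ => h x) (Nat.cast_nonneg _)

lemma avg_add {X : Type} [Fintype X] (f g : X → ℝ) : avg (fun x => f x + g x) = avg f + avg g := by
  unfold avg
  rw [Finset.sum_add_distrib, add_div]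

lemma avg_sum {X K : Type} [Fintype X] [Fintype K] (w : K → ℝ) (f : K → X → ℝ) :
    avg (fun x => ∑ k, w k * f k x) = ∑ k, w k * avg (f k) := by
  unfold avg
  rw [Finset.sum_comm, Finset.sum_div]
  refine Finset.sum_congr rfl fun k _ => ?_
  rw [← Finset.mul_sum, mul_div_assoc]

lemma avg_split {A B C : Type} [Fintype A] [Fintype B] [Fintype C] (F : B → ℝ) (G : A × C → ℝ) :
    avg (fun v : A × B × C => F v.2.1 * G (v.1, v.2.2)) = avg F * avg G := by
  unfold avg
  have h1 : ∑ v : A × B × C, F v.2.1 * G (v.1, v.2.2) = (∑ b, F b) * ∑ p : A × C, G p := by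
    rw [Fintype.sum_prod_type, Fintype.sum_prod_type, Finset.mul_sum]
    refine Finset.sum_congr rfl fun a _ => ?_
    rw [Fintype.sum_prod_type, Finset.sum_mul]
    refine Finset.sum_congr rfl fun b _ => ?_
    rw [Finset.mul_sum]
  have h2 : (Fintype.card (A × B × C) : ℝ) = Fintype.card B * Fintype.card (A × C) := by
    rw [Fintype.card_prod, Fintype.card_prod, Fintype.card_prod]
    push_cast
    ring
  rw [h1, h2, mul_div_mul_comm]

lemma avg_point (n : ℕ) (x : Cube n) :
    avg (fun h : Cube n => if x = h then (2 : ℝ) ^ n else 0) = 1 := by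
  unfold avg
  rw [Finset.sum_ite_eq, if_pos (mem_univ x)]
  have h1 : (Fintype.card (Cube n) : ℝ) = 2 ^ n := by
    have h2 : Fintype.card (Cube n) = 2 ^ n := by
      rw [Fintype.card_fun, ZMod.card, Fintype.card_fin]
    rw [h2]
    push_cast
    rfl
  rw [h1]
  exact div_self (pow_ne_zero n two_ne_zero)

lemma dJ_nonneg {J : Type} [AddCommGroup J] [Fintype J] [DecidableEq J] (b : Bool) (j : J) :
    0 ≤ dJ b j := by
  unfold dJ
  split_ifs
  · exact zero_le_one
  · exact Nat.cast_nonneg _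
  · exact le_refl 0

end M_CHN

open M_CHN in
theorem t_CHN (h1 : St_EP) (h2 : St_DN) (h3 : St_EB) : St_CHN := by
  intro n Λ J _ _ _ _ _ _ S1 S2 hS1 hS2 K _ w st hw hw1
  obtain ⟨d1, d2, _, _, d5, _, _⟩ := h2 n Λ J S1 S2 hS1 hS2
  have : Nonempty Λ := ⟨0⟩
  have : Nonempty J := ⟨0⟩
  -- product densities
  have hG : ∀ k : K,
      avg (fun v : (Cube n → Λ) × J => (∏ z, dlam S1 S2 ((st k).2.1 z) (v.1 z)) *
        dJ (st k).2.2 v.2) = 1 ∧
      Ent (fun v : (Cube n → Λ) × J => (∏ z, dlam S1 S2 ((st k).2.1 z) (v.1 z)) *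
        dJ (st k).2.2 v.2) = dentr J S1 S2 (st k) := by
    intro k
    exact h1 (Cube n) Λ J (fun z => dlam S1 S2 ((st k).2.1 z)) (dJ (st k).2.2)
      (fun z a => d1 _ a) (fun z => d2 _) (fun j => dJ_nonneg _ j) (d5 _)
  set G : K → (Cube n → Λ) × J → ℝ := fun k v =>
    (∏ z, dlam S1 S2 ((st k).2.1 z) (v.1 z)) * dJ (st k).2.2 v.2 with hGd
  set c : K → Cube n → ℝ := fun k h => if (st k).1 = h then (2 : ℝ) ^ n else 0 with hcd
  have hc0 : ∀ k h, 0 ≤ c k h := by
    intro k h
    show 0 ≤ (if (st k).1 = h then (2 : ℝ) ^ n else 0)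
    split_ifs
    · exact pow_nonneg zero_le_two n
    · exact le_refl 0
  have hG0 : ∀ k v, 0 ≤ G k v := by
    intro k v
    exact mul_nonneg (Finset.prod_nonneg fun z _ => d1 _ _) (dJ_nonneg _ _)
  have hdens : ∀ (k : K) (v : Vt n Λ J),
      dens S1 S2 (st k) v = c k v.2.1 * G k (v.1, v.2.2) := by
    intro k v
    show (if v.2.1 = (st k).1 then (2 : ℝ) ^ n else 0) *
        (∏ z, dlam S1 S2 ((st k).2.1 z) (v.1 z)) * dJ (st k).2.2 v.2.2 =
      (if (st k).1 = v.2.1 then (2 : ℝ) ^ n else 0) *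
        ((∏ z, dlam S1 S2 ((st k).2.1 z) (v.1 z)) * dJ (st k).2.2 v.2.2)
    by_cases hh : (st k).1 = v.2.1
    · rw [if_pos hh, if_pos hh.symm, mul_assoc]
    · rw [if_neg hh, if_neg (fun h => hh h.symm), mul_assoc]
  -- pointwise bound
  have hpt : ∀ v : Vt n Λ J, phi (∑ k, w k * dens S1 S2 (st k) v) ≤
      (∑ k, w k * (c k v.2.1 * Real.log (∑ i, w i * c i v.2.1) * G k (v.1, v.2.2))) +
        ∑ k, w k * (c k v.2.1 * phi (G k (v.1, v.2.2))) := by
    intro v
    have e1 : ∑ k, w k * dens S1 S2 (st k) v = ∑ k, (w k * c k v.2.1) * G k (v.1, v.2.2) := by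
      refine Finset.sum_congr rfl fun k _ => ?_
      rw [hdens k v, mul_assoc]
    have e2 := phi_mix (fun k => w k * c k v.2.1) (fun k => G k (v.1, v.2.2))
      (fun k => mul_nonneg (hw k) (hc0 k _)) (fun k => hG0 k _)
    rw [e1]
    refine e2.trans (le_of_eq ?_)
    rw [Finset.sum_mul]
    congr 1
    · refine Finset.sum_congr rfl fun k _ => ?_
      ring
    · refine Finset.sum_congr rfl fun k _ => ?_
      ring
  have hcalc : Ent (fun v : Vt n Λ J => ∑ k, w k * dens S1 S2 (st k) v) ≤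
      avg (fun v : Vt n Λ J =>
        (∑ k, w k * (c k v.2.1 * Real.log (∑ i, w i * c i v.2.1) * G k (v.1, v.2.2))) +
          ∑ k, w k * (c k v.2.1 * phi (G k (v.1, v.2.2)))) := by
    unfold Ent
    exact avg_mono _ _ hpt
  refine hcalc.trans (le_of_eq ?_)
  rw [avg_add]
  congr 1
  · rw [avg_sum w (fun k (v : Vt n Λ J) =>
      c k v.2.1 * Real.log (∑ i, w i * c i v.2.1) * G k (v.1, v.2.2))]
    have e3 : ∀ k : K, avg (fun v : Vt n Λ J =>
        c k v.2.1 * Real.log (∑ i, w i * c i v.2.1) * G k (v.1, v.2.2)) =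
        avg (fun h : Cube n => c k h * Real.log (∑ i, w i * c i h)) := by
      intro k
      have e4 := avg_split (A := Cube n → Λ) (B := Cube n) (C := J)
        (fun h : Cube n => c k h * Real.log (∑ i, w i * c i h)) (G k)
      rw [(hG k).1, mul_one] at e4
      exact e4
    rw [Finset.sum_congr rfl fun k _ => by rw [e3 k]]
    rw [← avg_sum w (fun k (h : Cube n) => c k h * Real.log (∑ i, w i * c i h))]
    unfold Ent
    congr 1
    funext h
    show ∑ k, w k * (c k h * Real.log (∑ i, w i * c i h)) =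
      (∑ k, w k * c k h) * Real.log (∑ k, w k * c k h)
    rw [Finset.sum_mul]
    refine Finset.sum_congr rfl fun k _ => ?_
    ring
  · rw [avg_sum w (fun k (v : Vt n Λ J) => c k v.2.1 * phi (G k (v.1, v.2.2)))]
    refine Finset.sum_congr rfl fun k _ => ?_
    congr 1
    have e4 := avg_split (A := Cube n → Λ) (B := Cube n) (C := J) (c k) (fun p => phi (G k p))
    rw [e4, avg_point n (st k).1, one_mul]
    exact (hG k).2

end Pool.Agent.ENC
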