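import Pool.Agent.ENC.Stmts

/-!
Module ENC_CNT (MP_1e9518_pr): Chebyshev bound for the number of moves of a word.
-/

namespace Pool.Agent.ENC

open Finset Filter Topology Pool.Agent.LazyWalk

namespace M_CNT

/-- Indicator of a move. -/
noncomputable def mv {n : ℕ} (o : Option (Fin n)) : ℝ := if o ≠ none then 1 else 0

lemma sum_lw (n : ℕ) (hn : 1 ≤ n) : ∑ o : Option (Fin n), lw n o = 1 := by
  have h0 : (n : ℝ) ≠ 0 := by positivity
  rw [Fintype.sum_option]
  simp only [lw, Finset.sum_const, Finset.card_univ, Fintype.card_fin, nsmul_eq_mul]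
  field_simp
  norm_num

lemma sum_lw_mv (n : ℕ) (hn : 1 ≤ n) :
    ∑ o : Option (Fin n), lw n o * (mv o - 1 / 2) = 0 := by
  have h0 : (n : ℝ) ≠ 0 := by positivity
  rw [Fintype.sum_option]
  simp only [lw, mv, Finset.sum_const, Finset.card_univ, Fintype.card_fin, nsmul_eq_mul, ne_eq,
    not_true_eq_false, if_false, reduceCtorEq, not_false_eq_true, if_true]
  field_simp
  norm_num

lemma sum_lw_mv2 (n : ℕ) (hn : 1 ≤ n) :
    ∑ o : Option (Fin n), lw n o * (mv o - 1 / 2) ^ 2 = 1 / 4 := by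
  have h0 : (n : ℝ) ≠ 0 := by positivity
  rw [Fintype.sum_option]
  simp only [lw, mv, Finset.sum_const, Finset.card_univ, Fintype.card_fin, nsmul_eq_mul, ne_eq,
    not_true_eq_false, if_false, reduceCtorEq, not_false_eq_true, if_true]
  field_simp
  norm_num

lemma cnt_eq {n m : ℕ} (w : Wd n m) : (cnt w : ℝ) = ∑ r, mv (w r) := by
  unfold cnt mv
  rw [Finset.card_filter]
  push_cast
  rfl

lemma ww_cons {n m : ℕ} (o : Option (Fin n)) (w : Wd n m) :
    ww (n := n) (m := m + 1) (Fin.cons o w) = lw n o * ww w := by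
  unfold ww
  rw [Fin.prod_univ_succ]
  simp

lemma cnt_cons {n m : ℕ} (o : Option (Fin n)) (w : Wd n m) :
    (cnt (n := n) (m := m + 1) (Fin.cons o w) : ℝ) = mv o + cnt w := by
  rw [cnt_eq, cnt_eq, Fin.sum_univ_succ]
  simp

lemma sum_cons {n m : ℕ} (f : Wd n (m + 1) → ℝ) :
    ∑ w : Wd n (m + 1), f w = ∑ o : Option (Fin n), ∑ w : Wd n m, f (Fin.cons o w) := by
  rw [← Fintype.sum_prod_type']
  exact (Fintype.sum_equiv (Fin.consEquiv fun _ : Fin (m + 1) => Option (Fin n)) _ _
    (fun x => rfl)).symm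

lemma moments (n : ℕ) (hn : 1 ≤ n) : ∀ m : ℕ,
    (∑ w : Wd n m, ww w = 1) ∧ (∑ w : Wd n m, ww w * ((cnt w : ℝ) - m / 2) = 0) ∧
    (∑ w : Wd n m, ww w * ((cnt w : ℝ) - m / 2) ^ 2 = (m : ℝ) / 4) := by
  intro m
  induction m with
  | zero =>
    refine ⟨?_, ?_, ?_⟩ <;> simp [ww, cnt]
  | succ m ih =>
    obtain ⟨h0, h1, h2⟩ := ih
    refine ⟨?_, ?_, ?_⟩
    · rw [sum_cons]
      simp_rw [ww_cons, ← Finset.mul_sum, h0, mul_one]
      exact sum_lw n hn
    · rw [sum_cons]
      have key : ∀ o : Option (Fin n), ∑ w : Wd n m, ww (n := n) (m := m + 1) (Fin.cons o w) *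
          ((cnt (n := n) (m := m + 1) (Fin.cons o w) : ℝ) - ((m + 1 : ℕ) : ℝ) / 2) =
          lw n o * (mv o - 1 / 2) := by
        intro o
        have : ∀ w : Wd n m, ww (n := n) (m := m + 1) (Fin.cons o w) *
          ((cnt (n := n) (m := m + 1) (Fin.cons o w) : ℝ) - ((m + 1 : ℕ) : ℝ) / 2) =
          lw n o * (ww w * ((cnt w : ℝ) - m / 2)) + lw n o * (mv o - 1 / 2) * ww w := by
          intro w
          rw [ww_cons, cnt_cons]
          push_cast
          ring
        simp_rw [this]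
        rw [Finset.sum_add_distrib, ← Finset.mul_sum, ← Finset.mul_sum, h0, h1]
        ring
      simp_rw [key]
      exact sum_lw_mv n hn
    · rw [sum_cons]
      have key : ∀ o : Option (Fin n), ∑ w : Wd n m, ww (n := n) (m := m + 1) (Fin.cons o w) *
          ((cnt (n := n) (m := m + 1) (Fin.cons o w) : ℝ) - ((m + 1 : ℕ) : ℝ) / 2) ^ 2 =
          lw n o * ((m : ℝ) / 4) + lw n o * (mv o - 1 / 2) ^ 2 := by
        intro o
        have : ∀ w : Wd n m, ww (n := n) (m := m + 1) (Fin.cons o w) *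
          ((cnt (n := n) (m := m + 1) (Fin.cons o w) : ℝ) - ((m + 1 : ℕ) : ℝ) / 2) ^ 2 =
          lw n o * (ww w * ((cnt w : ℝ) - m / 2) ^ 2) +
          2 * (lw n o * (mv o - 1 / 2)) * (ww w * ((cnt w : ℝ) - m / 2)) +
          lw n o * (mv o - 1 / 2) ^ 2 * ww w := by
          intro w
          rw [ww_cons, cnt_cons]
          push_cast
          ring
        simp_rw [this]
        rw [Finset.sum_add_distrib, Finset.sum_add_distrib, ← Finset.mul_sum, ← Finset.mul_sum,
          ← Finset.mul_sum, h0, h1, h2]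
        ring
      simp_rw [key]
      rw [Finset.sum_add_distrib, ← Finset.sum_mul, sum_lw n hn, sum_lw_mv2 n hn]
      push_cast
      ring

lemma lw_nonneg {n : ℕ} (o : Option (Fin n)) : 0 ≤ lw n o := by
  cases o with
  | none => simp [lw]
  | some i => simp only [lw]; positivity

lemma ww_nonneg {n m : ℕ} (w : Wd n m) : 0 ≤ ww w :=
  Finset.prod_nonneg fun r _ => lw_nonneg (w r)

end M_CNT

open M_CNT in
/-- ENC_CNT. -/
theorem t_CNT : St_CNT := by
  intro n m u hn hu
  obtain ⟨h0, h1, h2⟩ := moments n hn m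
  have hpos : 0 < (u : ℝ) - m / 2 := by linarith
  have hle : ∀ w : Wd n m, (if u < cnt w then ww w else 0) * ((u : ℝ) - m / 2) ^ 2 ≤
      ww w * ((cnt w : ℝ) - m / 2) ^ 2 := by
    intro w
    have hw := ww_nonneg w
    by_cases h : u < cnt w
    · rw [if_pos h]
      have h' : (u : ℝ) < cnt w := by exact_mod_cast h
      apply mul_le_mul_of_nonneg_left _ hw
      apply pow_le_pow_left₀ hpos.le
      linarith
    · rw [if_neg h, zero_mul]
      positivity
  have hsum := Finset.sum_le_sum fun w (_ : w ∈ (univ : Finset (Wd n m))) => hle w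
  rw [← Finset.sum_mul, h2] at hsum
  have hsq : 0 < 4 * ((u : ℝ) - m / 2) ^ 2 := by positivity
  rw [le_div_iff₀ hsq]
  linarith

end Pool.Agent.ENC
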