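import Pool.Agent.ENC.Stmts

/-!
Module ENC_CSI: the number of common moves in direction `i` does not depend on `i`.
-/

namespace Pool.Agent.ENC

open Finset

namespace M_CSI

theorem wt_comp {n : ℕ} (σ : Equiv.Perm (Fin n)) (z : Cube n) :
    wt (fun j => z (σ j)) = wt z := by
  unfold wt
  rw [Finset.card_filter, Finset.card_filter]
  exact Equiv.sum_comp σ (fun j => if z j ≠ 0 then 1 else 0)

theorem sub_ee_comp {n : ℕ} (i i' : Fin n) (z : Cube n) :
    (fun j => (z - ee i) (Equiv.swap i i' j)) = (fun j => z (Equiv.swap i i' j)) - ee i' := by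
  funext j
  simp only [Pi.sub_apply, ee, Pi.single_apply]
  have h : (Equiv.swap i i' j = i) ↔ (j = i') := by
    constructor
    · intro h
      have h2 := congrArg (Equiv.swap i i') h
      simpa using h2
    · rintro rfl
      simp
  by_cases hj : j = i'
  · rw [if_pos (h.2 hj), if_pos hj]
  · rw [if_neg (fun hh => hj (h.1 hh)), if_neg hj]

theorem inc_card_congr {Λ : Type} [Fintype Λ] {n : ℕ} (S1 S2 : Finset Λ) (hc : S1.card = S2.card)
    (x x' y y' : Cube n) (h : wt x = wt y) (h' : wt x' = wt y') :
    (inc S1 S2 x x').card = (inc S1 S2 y y').card := by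
  unfold inc
  rw [h, h']

end M_CSI

theorem t_CSI : St_CSI := by
  intro n Λ J _ _ _ S1 S2 hc i i'
  unfold cS
  congr 1
  let e : Cube n ≃ Cube n :=
    { toFun := fun z j => z (Equiv.swap i i' j)
      invFun := fun z j => z (Equiv.swap i i' j)
      left_inv := fun z => by funext j; simp
      right_inv := fun z => by funext j; simp }
  refine Fintype.prod_equiv e _ _ fun z => ?_
  have h1 : wt z = wt (e z) := (M_CSI.wt_comp (Equiv.swap i i') z).symm
  have h2 : wt (z - ee i) = wt (e z - ee i') := by
    have h3 := M_CSI.wt_comp (Equiv.swap i i') (z - ee i)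
    rw [M_CSI.sub_ee_comp] at h3
    exact h3.symm
  exact M_CSI.inc_card_congr S1 S2 hc _ _ _ _ h1 h2

end Pool.Agent.ENC
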