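import Pool.Agent.ENC.Stmts

/-!
ENC_DN: basic facts on the densities.
-/

namespace Pool.Agent.ENC.M_DN

open Finset

section
variable {Λ : Type} [AddCommGroup Λ] [Fintype Λ] [DecidableEq Λ]

lemma avgOn_nonneg (S : Finset Λ) (g : Λ → ℝ) (h : ∀ a, 0 ≤ g a) (a : Λ) : 0 ≤ avgOn S g a :=
  div_nonneg (Finset.sum_nonneg fun _ _ => h _) (Nat.cast_nonneg _)

lemma iter_nonneg (S : Finset Λ) (k : ℕ) (g : Λ → ℝ) (h : ∀ a, 0 ≤ g a) (a : Λ) :
    0 ≤ ((avgOn S)^[k] g) a := by
  induction k generalizing a with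
  | zero => exact h a
  | succ k ih =>
    rw [Function.iterate_succ_apply']
    exact avgOn_nonneg S _ ih a

lemma sum_avgOn (S : Finset Λ) (hS : S.Nonempty) (g : Λ → ℝ) :
    ∑ a, avgOn S g a = ∑ a, g a := by
  have hc : (S.card : ℝ) ≠ 0 := by
    have := Finset.card_pos.2 hS
    positivity
  unfold avgOn
  rw [← Finset.sum_div, Finset.sum_comm]
  have : ∀ b ∈ S, ∑ a, g (a + b) = ∑ a, g a := fun b _ =>
    Fintype.sum_equiv (Equiv.addRight b) _ _ (fun a => rfl)
  rw [Finset.sum_congr rfl this, Finset.sum_const, nsmul_eq_mul]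
  field_simp

lemma sum_iter (S : Finset Λ) (hS : S.Nonempty) (k : ℕ) (g : Λ → ℝ) :
    ∑ a, ((avgOn S)^[k] g) a = ∑ a, g a := by
  induction k with
  | zero => rfl
  | succ k ih =>
    rw [Function.iterate_succ_apply', sum_avgOn S hS, ih]

lemma commute_avgOn (S T : Finset Λ) : Function.Commute (avgOn (Λ := Λ) S) (avgOn T) := by
  intro g
  funext a
  unfold avgOn
  rw [← Finset.sum_div, ← Finset.sum_div, Finset.sum_comm, div_div, div_div, mul_comm]
  congr 1
  refine Finset.sum_congr rfl fun b _ => Finset.sum_congr rfl fun c _ => ?_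
  congr 1
  exact add_right_comm _ _ _

lemma card_ne (X : Type) [Fintype X] [Nonempty X] : (Fintype.card X : ℝ) ≠ 0 :=
  Nat.cast_ne_zero.2 Fintype.card_ne_zero

lemma sum_dzero : ∑ a, dzero Λ a = Fintype.card Λ := by
  unfold dzero
  simp

lemma sum_dlam (S1 S2 : Finset Λ) (h1 : S1.Nonempty) (h2 : S2.Nonempty) (o : Option (ℕ × ℕ)) :
    ∑ a, dlam S1 S2 o a = Fintype.card Λ := by
  cases o with
  | none => simp [dlam]
  | some p =>
    simp only [dlam, GG]
    rw [sum_iter S1 h1, sum_iter S2 h2, sum_dzero]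

lemma dlam_nonneg (S1 S2 : Finset Λ) (o : Option (ℕ × ℕ)) (a : Λ) : 0 ≤ dlam S1 S2 o a := by
  cases o with
  | none => simp [dlam]
  | some p =>
    simp only [dlam, GG]
    refine iter_nonneg _ _ _ (iter_nonneg _ _ _ ?_) a
    intro b
    unfold dzero
    split_ifs <;> positivity

lemma sum_dJ {J : Type} [AddCommGroup J] [Fintype J] [DecidableEq J] (b : Bool) :
    ∑ j, dJ (J := J) b j = Fintype.card J := by
  cases b <;> simp [dJ]

lemma dJ_nonneg {J : Type} [AddCommGroup J] [Fintype J] [DecidableEq J] (b : Bool) (j : J) :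
    0 ≤ dJ (J := J) b j := by
  unfold dJ
  split_ifs <;> positivity

lemma sum_dens (n : ℕ) (J : Type) [AddCommGroup J] [Fintype J] [DecidableEq J]
    (S1 S2 : Finset Λ) (h1 : S1.Nonempty) (h2 : S2.Nonempty) (s : HS n) :
    ∑ v : Vt n Λ J, dens S1 S2 s v = Fintype.card (Vt n Λ J) := by
  have hprod : ∑ f : Cube n → Λ, ∏ z, dlam S1 S2 (s.2.1 z) (f z)
      = (Fintype.card Λ : ℝ) ^ Fintype.card (Cube n) := by
    have h := Finset.prod_univ_sum (fun _ : Cube n => (univ : Finset Λ))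
      (fun z a => dlam S1 S2 (s.2.1 z) a)
    rw [Fintype.piFinset_univ] at h
    rw [← h, Finset.prod_congr rfl (fun z _ => sum_dlam S1 S2 h1 h2 (s.2.1 z)),
      Finset.prod_const, Finset.card_univ]
  have hcube : (Fintype.card (Cube n) : ℝ) = 2 ^ n := by
    simp [Cube, ZMod.card]
  have hh : ∑ h : Cube n, (if h = s.1 then (2 : ℝ) ^ n else 0) = 2 ^ n := by
    simp
  rw [Fintype.sum_prod_type]
  have : ∀ f : Cube n → Λ, ∑ p : Cube n × J, dens S1 S2 s (f, p)
      = (∏ z, dlam S1 S2 (s.2.1 z) (f z)) * (2 ^ n * Fintype.card J) := by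
    intro f
    rw [Fintype.sum_prod_type]
    simp only [dens]
    have : ∀ h : Cube n, ∑ j : J, (if h = s.1 then (2 : ℝ) ^ n else 0) *
        (∏ z, dlam S1 S2 (s.2.1 z) (f z)) * dJ s.2.2 j
        = (if h = s.1 then (2 : ℝ) ^ n else 0) *
        ((∏ z, dlam S1 S2 (s.2.1 z) (f z)) * Fintype.card J) := by
      intro h
      rw [← Finset.mul_sum, sum_dJ, mul_assoc]
    rw [Finset.sum_congr rfl (fun h _ => this h), ← Finset.sum_mul, hh]
    ring
  rw [Finset.sum_congr rfl (fun f _ => this f), ← Finset.sum_mul, hprod]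
  have hc : Fintype.card (Vt n Λ J)
      = Fintype.card Λ ^ Fintype.card (Cube n) * (Fintype.card (Cube n) * Fintype.card J) := by
    rw [Fintype.card_prod, Fintype.card_prod,
      show Fintype.card (Cube n → Λ) = Fintype.card Λ ^ Fintype.card (Cube n) from
        Fintype.card_fun]
  rw [hc, Nat.cast_mul, Nat.cast_mul, Nat.cast_pow, hcube]

end

end Pool.Agent.ENC.M_DN

namespace Pool.Agent.ENC

open Finset

theorem t_DN : St_DN := by
  intro n Λ J _ _ _ _ _ _ S1 S2 h1 h2
  refine ⟨M_DN.dlam_nonneg S1 S2, ?_, ?_, ?_, ?_, ?_, ?_⟩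
  · intro o
    unfold avg
    rw [M_DN.sum_dlam S1 S2 h1 h2, div_self (M_DN.card_ne Λ)]
  · intro k l
    unfold GG
    rw [Function.iterate_succ_apply']
  · intro k l
    unfold GG
    rw [Function.iterate_succ_apply' (avgOn S2)]
    exact ((M_DN.commute_avgOn S2 S1).iterate_right k) _
  · intro b
    unfold avg
    rw [M_DN.sum_dJ, div_self (M_DN.card_ne J)]
  · intro s v
    unfold dens
    refine mul_nonneg (mul_nonneg ?_ ?_) (M_DN.dJ_nonneg _ _)
    · split_ifs <;> positivity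
    · exact Finset.prod_nonneg fun z _ => M_DN.dlam_nonneg S1 S2 _ _
  · intro s
    unfold avg
    rw [M_DN.sum_dens n J S1 S2 h1 h2 s, div_self]
    exact M_DN.card_ne (Vt n Λ J)

end Pool.Agent.ENC
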