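import Pool.Agent.ENC.Stmts

/-!
Lower bound for the probability of `Bad` (Duhamel expansion of the hidden chain).
-/

namespace Pool.Agent.ENC

open Finset Filter Topology Pool.Agent.LazyWalk

namespace M_DUH

lemma lw_nonneg (n : ℕ) (o : Option (Fin n)) : 0 ≤ lw n o := by
  cases o with
  | none => simp [lw]
  | some i => simp only [lw]; positivity

lemma ww_nonneg {n m : ℕ} (w : Wd n m) : 0 ≤ ww w :=
  Finset.prod_nonneg fun r _ => lw_nonneg n (w r)

lemma ibad_nonneg {n : ℕ} (u : ℕ) (s : HS n) : 0 ≤ ibad u s := by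
  unfold ibad; split_ifs <;> norm_num

lemma ibad_of {n : ℕ} {u : ℕ} {s : HS n} (h : Bad u s) : ibad u s = 1 := by
  unfold ibad; rw [if_pos h]

lemma nop_mono {n : ℕ} {Φ Ψ : HS n → ℝ} (h : ∀ s, Φ s ≤ Ψ s) (s : HS n) :
    Nop n Φ s ≤ Nop n Ψ s := by
  unfold Nop
  have h1 : ∑ i, Φ (stepS i s) ≤ ∑ i, Ψ (stepS i s) := Finset.sum_le_sum fun i _ => h _
  have h2 : (0 : ℝ) ≤ 1 / (2 * n) := by positivity
  have h3 := mul_le_mul_of_nonneg_left h1 h2
  have h4 := h s
  linarith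

lemma nop_nonneg {n : ℕ} {Φ : HS n → ℝ} (h : ∀ s, 0 ≤ Φ s) (s : HS n) : 0 ≤ Nop n Φ s := by
  unfold Nop
  have h1 : 0 ≤ ∑ i, Φ (stepS i s) := Finset.sum_nonneg fun i _ => h _
  have h2 : (0 : ℝ) ≤ 1 / (2 * n) := by positivity
  have h3 := mul_nonneg h2 h1
  have h4 := h s
  linarith

lemma nop_smul {n : ℕ} (c : ℝ) (Φ : HS n → ℝ) (s : HS n) :
    Nop n (fun s => c * Φ s) s = c * Nop n Φ s := by
  unfold Nop
  rw [← Finset.mul_sum]; ring

lemma nop_sum {n : ℕ} {ι : Type} (S : Finset ι) (Φ : ι → HS n → ℝ) (s : HS n) :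
    Nop n (fun s => ∑ a ∈ S, Φ a s) s = ∑ a ∈ S, Nop n (Φ a) s := by
  unfold Nop
  rw [Finset.sum_comm, Finset.mul_sum, Finset.mul_sum, ← Finset.sum_add_distrib]

lemma nopit_nonneg {n : ℕ} {Φ : HS n → ℝ} (h : ∀ s, 0 ≤ Φ s) (m : ℕ) :
    ∀ s : HS n, 0 ≤ (Nop n)^[m] Φ s := by
  induction m with
  | zero => simpa using h
  | succ m ih => intro s; rw [Function.iterate_succ_apply']; exact nop_nonneg ih s

lemma eop_nonneg {n : ℕ} {α : ℝ} (h0 : 0 ≤ α) (h1 : α ≤ 1) {Φ : HS n → ℝ} (h : ∀ s, 0 ≤ Φ s)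
    (s : HS n) : 0 ≤ Eop n α Φ s := by
  unfold Eop
  have a1 : 0 ≤ ∑ i, Φ (stepS i s) := Finset.sum_nonneg fun i _ => h _
  have a2 : (0 : ℝ) ≤ (1 - α) / (2 * n) := div_nonneg (by linarith) (by positivity)
  have a3 := mul_nonneg a2 a1
  have a4 := h s
  have a5 := mul_nonneg (by linarith : (0 : ℝ) ≤ α / 2) (h (stepR s))
  linarith

lemma eopit_nonneg {n : ℕ} {α : ℝ} (h0 : 0 ≤ α) (h1 : α ≤ 1) {Φ : HS n → ℝ} (h : ∀ s, 0 ≤ Φ s)
    (m : ℕ) : ∀ s : HS n, 0 ≤ (Eop n α)^[m] Φ s := by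
  induction m with
  | zero => simpa using h
  | succ m ih => intro s; rw [Function.iterate_succ_apply']; exact eop_nonneg h0 h1 ih s

lemma eop_ge {n : ℕ} {α : ℝ} (h0 : 0 ≤ α) {Φ : HS n → ℝ} (h : ∀ s, 0 ≤ Φ s) (s : HS n) :
    (1 - α) * Nop n Φ s + α / 2 * Φ (stepR s) ≤ Eop n α Φ s := by
  have e : Eop n α Φ s = (1 - α) * Nop n Φ s + α / 2 * Φ (stepR s) + α / 2 * Φ s := by
    unfold Eop Nop; ring
  rw [e]
  have := mul_nonneg (by linarith : (0 : ℝ) ≤ α / 2) (h s)
  linarith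

lemma eopit_ge {n : ℕ} {α : ℝ} (h0 : 0 ≤ α) (h1 : α ≤ 1) {Φ : HS n → ℝ} (h : ∀ s, 0 ≤ Φ s)
    (m : ℕ) : ∀ s : HS n, (1 - α) ^ m * (Nop n)^[m] Φ s ≤ (Eop n α)^[m] Φ s := by
  induction m with
  | zero => intro s; simp
  | succ m ih =>
    intro s
    rw [Function.iterate_succ_apply', Function.iterate_succ_apply']
    have a1 := eop_ge h0 (eopit_nonneg h0 h1 h m) s
    have a2 := nop_mono ih s
    rw [nop_smul] at a2
    have a3 := mul_nonneg (by linarith : (0 : ℝ) ≤ α / 2) (eopit_nonneg h0 h1 h m (stepR s))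
    have a4 := mul_le_mul_of_nonneg_left a2 (by linarith : (0 : ℝ) ≤ 1 - α)
    calc (1 - α) ^ (m + 1) * Nop n ((Nop n)^[m] Φ) s
        = (1 - α) * ((1 - α) ^ m * Nop n ((Nop n)^[m] Φ) s) := by ring
      _ ≤ (1 - α) * Nop n ((Eop n α)^[m] Φ) s := a4
      _ ≤ Eop n α ((Eop n α)^[m] Φ) s := by linarith

lemma duhamel {n : ℕ} {α : ℝ} (h0 : 0 ≤ α) (h1 : α ≤ 1) {Φ : HS n → ℝ} (h : ∀ s, 0 ≤ Φ s)
    (t : ℕ) : ∀ s : HS n,
    ∑ a ∈ range (t + 1), α / 2 * (1 - α) ^ t *
      (Nop n)^[a] (fun s => (Nop n)^[t - a] Φ (stepR s)) s ≤ (Eop n α)^[t + 1] Φ s := by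
  induction t with
  | zero =>
    intro s
    have a1 := eop_ge h0 h s
    have a2 := mul_nonneg (by linarith : (0 : ℝ) ≤ 1 - α) (nop_nonneg h s)
    simp only [zero_add, range_one, sum_singleton, pow_zero, Function.iterate_zero, id_eq,
      Nat.sub_zero, Function.iterate_one, mul_one]
    linarith
  | succ t ih =>
    intro s
    rw [Function.iterate_succ_apply' (Eop n α) (t + 1)]
    have a1 := eop_ge h0 (eopit_nonneg h0 h1 h (t + 1)) s
    have a2 := nop_mono ih s
    rw [nop_sum] at a2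
    have a4 := mul_le_mul_of_nonneg_left a2 (by linarith : (0 : ℝ) ≤ 1 - α)
    have a5 := mul_le_mul_of_nonneg_left (eopit_ge h0 h1 h (t + 1) (stepR s))
      (by linarith : (0 : ℝ) ≤ α / 2)
    refine le_trans ?_ a1
    rw [Finset.sum_range_succ']
    refine add_le_add ?_ ?_
    · refine le_trans (le_of_eq ?_) a4
      rw [Finset.mul_sum]
      refine Finset.sum_congr rfl fun a _ => ?_
      rw [nop_smul, Function.iterate_succ_apply', Nat.succ_sub_succ]
      ring
    · refine le_trans (le_of_eq ?_) a5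
      simp only [Function.iterate_zero, id_eq, Nat.sub_zero]
      ring

lemma neg_one_cube {n : ℕ} (x : Cube n) : x - (x + 1) = 1 := by
  funext i
  simp only [Pi.sub_apply, Pi.add_apply, Pi.one_apply]
  have : ∀ a : ZMod 2, a - (a + 1) = 1 := by decide
  exact this _

open scoped Classical in
lemma term_ge (hw : St_WRD) (hr : St_RUN) (hv : St_REV) (n u a b : ℕ) (g : ℝ) (hg : 0 ≤ g)
    (ha : g ≤ ∑ w : Wd n a, (if good2 u w then ww w else 0))
    (hb : g ≤ ∑ w : Wd n b, (if good2 u w then ww w else 0)) :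
    g ^ 2 ≤ (Nop n)^[a] (fun s => (Nop n)^[b] (ibad u) (stepR s)) (s0 n) := by
  rw [hw]
  rw [← hv n a u] at ha
  have key : ∀ w : Wd n a, (if good1 u w then ww w else 0) * g ≤
      ww w * (Nop n)^[b] (ibad u) (stepR (run a w (s0 n))) := by
    intro w
    split_ifs with hgood
    · refine mul_le_mul_of_nonneg_left ?_ (ww_nonneg w)
      refine le_trans hb ?_
      rw [hw]
      refine Finset.sum_le_sum fun w' _ => ?_
      split_ifs with hgood'
      · have hz := (hr n a u w).2.1 hgood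
        set s := run a w (s0 n) with hs
        have h3 := (hr n b u w').2.2 hgood' (stepR s) s.1 (cnt w) 0 (by
          simp only [stepR, true_or, if_true]
          exact hz) (by
          simp only [stepR]
          exact neg_one_cube _)
        have hbad : Bad u (run b w' (stepR s)) :=
          ⟨s.1, cnt w, 0 + cnt w', h3, hgood.2, by rw [zero_add]; exact hgood'.2⟩
        rw [ibad_of hbad, mul_one]
      · exact mul_nonneg (ww_nonneg w') (ibad_nonneg u _)
    · rw [zero_mul]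
      exact mul_nonneg (ww_nonneg w) (nopit_nonneg (ibad_nonneg u) b _)
  calc g ^ 2 = g * g := by ring
    _ ≤ (∑ w : Wd n a, (if good1 u w then ww w else 0)) * g :=
        mul_le_mul_of_nonneg_right ha hg
    _ = ∑ w : Wd n a, (if good1 u w then ww w else 0) * g := Finset.sum_mul _ _ _
    _ ≤ _ := Finset.sum_le_sum fun w _ => key w

end M_DUH

open M_DUH in
theorem t_DUH (h1 : St_WRD) (h2 : St_RUN) (h3 : St_REV) : St_DUH := by
  classical
  intro n u mx α g hn hα0 hα1 hg hgood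
  refine ⟨fun m hm => ?_, fun t p q hpq hqt hqm htm => ?_⟩
  · refine le_trans ?_ (eopit_ge hα0 hα1 (ibad_nonneg u) m (s0 n))
    refine mul_le_mul_of_nonneg_left ?_ (pow_nonneg (by linarith) _)
    rw [h1]
    refine le_trans (hgood m hm) ?_
    refine Finset.sum_le_sum fun w _ => ?_
    split_ifs with hw
    · have hb : Bad u (run m w (s0 n)) := ⟨0, cnt w, 0, (h2 n m u w).1 hw, hw.2, Nat.zero_le _⟩
      rw [ibad_of hb, mul_one]
    · exact mul_nonneg (ww_nonneg w) (ibad_nonneg u _)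
  · rcases Nat.eq_zero_or_pos t with rfl | ht
    · have hq : q = 0 := by omega
      have hp : p = 0 := by omega
      subst hq; subst hp
      simpa using ibad_nonneg u (s0 n)
    · obtain ⟨t', rfl⟩ : ∃ t', t = t' + 1 := ⟨t - 1, by omega⟩
      refine le_trans ?_ (duhamel hα0 hα1 (ibad_nonneg u) t' (s0 n))
      have hsub : Finset.Ico p q ⊆ range (t' + 1) := by
        intro a ha
        rw [Finset.mem_Ico] at ha
        rw [Finset.mem_range]; omega
      refine le_trans ?_ (Finset.sum_le_sum_of_subset_of_nonneg hsub fun a _ _ =>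
        mul_nonneg (mul_nonneg (by linarith) (pow_nonneg (by linarith) _))
          (nopit_nonneg (fun s => nopit_nonneg (ibad_nonneg u) _ _) a _))
      have hc : ∀ a ∈ Finset.Ico p q, α / 2 * (1 - α) ^ (t' + 1) * g ^ 2 ≤
          α / 2 * (1 - α) ^ t' *
            (Nop n)^[a] (fun s => (Nop n)^[t' - a] (ibad u) (stepR s)) (s0 n) := by
        intro a ha
        rw [Finset.mem_Ico] at ha
        have hterm := term_ge h1 h2 h3 n u a (t' - a) g hg (hgood a (by omega))
          (hgood (t' - a) (by omega))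
        have hp1 : (1 - α) ^ (t' + 1) ≤ (1 - α) ^ t' :=
          pow_le_pow_of_le_one (by linarith) (by linarith) (Nat.le_succ _)
        have hp0 : 0 ≤ (1 - α) ^ t' := pow_nonneg (by linarith) _
        calc α / 2 * (1 - α) ^ (t' + 1) * g ^ 2
            ≤ α / 2 * (1 - α) ^ t' * g ^ 2 := by
              refine mul_le_mul_of_nonneg_right ?_ (sq_nonneg g)
              exact mul_le_mul_of_nonneg_left hp1 (by linarith)
          _ ≤ _ := mul_le_mul_of_nonneg_left hterm (mul_nonneg (by linarith) hp0)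
      calc ((q : ℝ) - p) * (α / 2) * (1 - α) ^ (t' + 1) * g ^ 2
          = ∑ a ∈ Finset.Ico p q, α / 2 * (1 - α) ^ (t' + 1) * g ^ 2 := by
            rw [Finset.sum_const, Nat.card_Ico, nsmul_eq_mul, Nat.cast_sub hpq]; ring
        _ ≤ _ := Finset.sum_le_sum hc

end Pool.Agent.ENC
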