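import Pool.Agent.ENC.Stmts

/-!
# ENC_EB: bounds for the entropy of a density   (helper67)
-/

namespace Pool.Agent.ENC

open Finset Filter Topology Pool.Agent.LazyWalk

namespace M_EB

theorem avg_mono {X : Type} [Fintype X] {g h : X → ℝ} (hgh : ∀ x, g x ≤ h x) : avg g ≤ avg h :=
  div_le_div_of_nonneg_right (Finset.sum_le_sum fun x _ => hgh x) (Nat.cast_nonneg _)

theorem avg_mul_const {X : Type} [Fintype X] (g : X → ℝ) (c : ℝ) :
    avg (fun x => g x * c) = avg g * c := by
  unfold avg
  rw [← Finset.sum_mul, div_mul_eq_mul_div]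

theorem avg_sub_one {X : Type} [Fintype X] [Nonempty X] (g : X → ℝ) :
    avg (fun x => g x - 1) = avg g - 1 := by
  unfold avg
  have h : (Fintype.card X : ℝ) ≠ 0 := by exact_mod_cast Fintype.card_ne_zero
  rw [Finset.sum_sub_distrib, sub_div, Finset.sum_const, Finset.card_univ, nsmul_eq_mul, mul_one,
    div_self h]

theorem sub_one_le_phi {x : ℝ} (hx : 0 ≤ x) : x - 1 ≤ phi x := by
  unfold phi
  rcases hx.eq_or_lt with rfl | h
  · norm_num
  · have h1 := Real.one_sub_inv_le_log_of_pos h
    have h2 := mul_le_mul_of_nonneg_left h1 h.le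
    rw [mul_sub, mul_one, mul_inv_cancel₀ h.ne'] at h2
    exact h2

theorem le_card {X : Type} [Fintype X] [Nonempty X] (g : X → ℝ) (hg : ∀ x, 0 ≤ g x)
    (h1 : avg g = 1) (x : X) : g x ≤ Fintype.card X := by
  unfold avg at h1
  have h : (0 : ℝ) < Fintype.card X := by exact_mod_cast Fintype.card_pos
  rw [div_eq_iff h.ne', one_mul] at h1
  rw [← h1]
  exact Finset.single_le_sum (fun y _ => hg y) (Finset.mem_univ x)

theorem phi_le {x c : ℝ} (hx : 0 ≤ x) (hc : x ≤ c) : phi x ≤ x * Real.log c := by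
  unfold phi
  rcases hx.eq_or_lt with rfl | h
  · simp
  · exact mul_le_mul_of_nonneg_left (Real.log_le_log h hc) h.le

end M_EB

theorem t_EB : St_EB := by
  intro X _ _ g hg h1
  constructor
  · have h := M_EB.avg_mono (fun x => M_EB.sub_one_le_phi (hg x))
    rw [M_EB.avg_sub_one, h1, sub_self] at h
    exact h
  · have h := M_EB.avg_mono (fun x => M_EB.phi_le (hg x) (M_EB.le_card g hg h1 x))
    rw [M_EB.avg_mul_const, h1, one_mul] at h
    exact h

end Pool.Agent.ENC
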