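import Pool.Agent.ENC.Stmts

/-!
ENC_EC: convexity of the entropy.
-/

namespace Pool.Agent.ENC

open Finset Filter Topology Pool.Agent.LazyWalk

namespace M_EC

/-- Jensen for `phi`. -/
theorem phi_sum_le {K : Type} [Fintype K] (w p : K → ℝ) (hw : ∀ k, 0 ≤ w k) (hs : ∑ k, w k = 1)
    (hp : ∀ k, 0 ≤ p k) : phi (∑ k, w k * p k) ≤ ∑ k, w k * phi (p k) := by
  have h := Real.convexOn_mul_log.map_sum_le (t := Finset.univ) (w := w) (p := p)
    (fun k _ => hw k) hs (fun k _ => hp k)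
  simpa [phi, smul_eq_mul] using h

end M_EC

theorem t_EC : St_EC := by
  intro X K _ _ w g hw hs hg
  have h1 : ∀ x, phi (∑ k, w k * g k x) ≤ ∑ k, w k * phi (g k x) := fun x =>
    M_EC.phi_sum_le w (fun k => g k x) hw hs (fun k => hg k x)
  have h2 : ∑ x, phi (∑ k, w k * g k x) ≤ ∑ x, ∑ k, w k * phi (g k x) :=
    Finset.sum_le_sum fun x _ => h1 x
  unfold Ent avg
  calc (∑ x, phi (∑ k, w k * g k x)) / (Fintype.card X : ℝ)
      ≤ (∑ x, ∑ k, w k * phi (g k x)) / (Fintype.card X : ℝ) :=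
        div_le_div_of_nonneg_right h2 (Nat.cast_nonneg _)
    _ = ∑ k, w k * ((∑ x, phi (g k x)) / (Fintype.card X : ℝ)) := by
        rw [Finset.sum_comm, Finset.sum_div]
        refine Finset.sum_congr rfl fun k _ => ?_
        rw [← Finset.mul_sum, mul_div_assoc]

end Pool.Agent.ENC
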