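import Pool.Agent.ENC.Stmts

/-!
# ENC_EP
-/

namespace Pool.Agent.ENC

open Finset Filter Topology Pool.Agent.LazyWalk

namespace M_EP

theorem phi_zero : phi 0 = 0 := by rw [phi, zero_mul]

theorem phi_mul (a b : ℝ) : phi (a * b) = phi a * b + a * phi b := by
  rcases eq_or_ne a 0 with rfl | ha
  · rw [zero_mul, phi_zero, zero_mul, zero_mul, zero_add]
  rcases eq_or_ne b 0 with rfl | hb
  · rw [mul_zero, phi_zero, mul_zero, mul_zero, zero_add]
  rw [phi, phi, phi, Real.log_mul ha hb]
  ring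

theorem phi_prod {Z : Type} [DecidableEq Z] (s : Finset Z) (f : Z → ℝ) :
    phi (∏ z ∈ s, f z) = ∑ z ∈ s, phi (f z) * ∏ w ∈ s.erase z, f w := by
  induction s using Finset.induction_on with
  | empty => rw [prod_empty, sum_empty, phi, Real.log_one, mul_zero]
  | insert a s ha ih =>
    rw [prod_insert ha, phi_mul, sum_insert ha, erase_insert ha, ih, mul_sum]
    congr 1
    refine sum_congr rfl fun z hz => ?_
    have hne : a ≠ z := fun h => ha (h ▸ hz)
    rw [erase_insert_of_ne hne, prod_insert (fun h => ha (mem_of_mem_erase h))]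
    ring

section
variable {X Y : Type} [Fintype X] [Fintype Y]

theorem avg_add (f g : X → ℝ) : avg (fun x => f x + g x) = avg f + avg g := by
  rw [avg, avg, avg, sum_add_distrib, add_div]

theorem avg_sum {K : Type} (s : Finset K) (f : K → X → ℝ) :
    avg (fun x => ∑ k ∈ s, f k x) = ∑ k ∈ s, avg (f k) := by
  simp only [avg]
  rw [sum_comm, sum_div]

theorem avg_prod (f : X → ℝ) (g : Y → ℝ) :
    avg (fun v : X × Y => f v.1 * g v.2) = avg f * avg g := by
  simp only [avg]
  rw [Fintype.sum_prod_type, Fintype.card_prod, Nat.cast_mul, div_mul_div_comm, sum_mul_sum]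

end

section
variable {Z Λ : Type} [Fintype Z] [DecidableEq Z] [Fintype Λ]

theorem avg_pi (h : Z → Λ → ℝ) : avg (fun x : Z → Λ => ∏ z, h z (x z)) = ∏ z, avg (h z) := by
  classical
  simp only [avg]
  rw [prod_div_distrib, prod_univ_sum, Fintype.piFinset_univ, prod_const, card_univ,
    Fintype.card_fun, Nat.cast_pow]

theorem avg_one [Nonempty Λ] (g : Z → Λ → ℝ) (h : ∀ z, avg (g z) = 1) :
    avg (fun x : Z → Λ => ∏ z, g z (x z)) = 1 := by
  rw [avg_pi]
  exact prod_eq_one fun z _ => h z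

theorem ent_pi (g : Z → Λ → ℝ) (h : ∀ z, avg (g z) = 1) :
    Ent (fun x : Z → Λ => ∏ z, g z (x z)) = ∑ z, Ent (g z) := by
  have h1 : Ent (fun x : Z → Λ => ∏ z, g z (x z)) =
      avg (fun x : Z → Λ => ∑ z, phi (g z (x z)) * ∏ w ∈ univ.erase z, g w (x w)) := by
    rw [Ent]
    congr 1
    funext x
    exact phi_prod univ fun z => g z (x z)
  rw [h1, avg_sum]
  refine sum_congr rfl fun z₀ _ => ?_
  have h2 : (fun x : Z → Λ => phi (g z₀ (x z₀)) * ∏ w ∈ univ.erase z₀, g w (x w)) =
      fun x : Z → Λ => ∏ z, Function.update g z₀ (fun a => phi (g z₀ a)) z (x z) := by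
    funext x
    rw [← mul_prod_erase univ _ (mem_univ z₀), Function.update_self]
    congr 1
    refine prod_congr rfl fun w hw => ?_
    rw [Function.update_of_ne (ne_of_mem_erase hw)]
  rw [h2, avg_pi, ← mul_prod_erase univ _ (mem_univ z₀), Function.update_self]
  have h3 : ∏ w ∈ univ.erase z₀, avg (Function.update g z₀ (fun a => phi (g z₀ a)) w) = 1 := by
    refine prod_eq_one fun w hw => ?_
    rw [Function.update_of_ne (ne_of_mem_erase hw)]
    exact h w
  rw [h3, mul_one, Ent]

end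

end M_EP

open M_EP in
theorem t_EP : St_EP := by
  intro Z Λ J _ _ _ _ _ _ g q _ hg _ hq
  constructor
  · rw [avg_prod (fun x : Z → Λ => ∏ z, g z (x z)) q, avg_one g hg, hq, one_mul]
  · have h1 : Ent (fun v : (Z → Λ) × J => (∏ z, g z (v.1 z)) * q v.2) =
        avg (fun v : (Z → Λ) × J => phi (∏ z, g z (v.1 z)) * q v.2 +
          (∏ z, g z (v.1 z)) * phi (q v.2)) := by
      rw [Ent]
      congr 1
      funext v
      exact phi_mul _ _
    rw [h1, avg_add (fun v : (Z → Λ) × J => phi (∏ z, g z (v.1 z)) * q v.2)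
      (fun v : (Z → Λ) × J => (∏ z, g z (v.1 z)) * phi (q v.2)),
      avg_prod (fun x : Z → Λ => phi (∏ z, g z (x z))) q,
      avg_prod (fun x : Z → Λ => ∏ z, g z (x z)) (fun j => phi (q j)), avg_one g hg, hq, mul_one,
      one_mul, ← ent_pi g hg]
    rfl

end Pool.Agent.ENC
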