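import Pool.Agent.ENC.Stmts

/-!
`Ent g ≤ avg g² - 1` for a density `g`.
-/

namespace Pool.Agent.ENC

namespace M_EQ

lemma phi_le {x : ℝ} (hx : 0 ≤ x) : phi x ≤ x ^ 2 - x := by
  unfold phi
  rcases hx.eq_or_lt with h | h
  · subst h; simp
  · have := Real.log_le_sub_one_of_pos h
    nlinarith

end M_EQ

theorem t_EQ : St_EQ := by
  intro X _ _ g hg hav
  have hc : (0 : ℝ) < Fintype.card X := by exact_mod_cast Fintype.card_pos
  have h1 : ∑ x, g x = Fintype.card X := by
    have h := hav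
    unfold avg at h
    rwa [div_eq_one_iff_eq hc.ne'] at h
  have h2 : ∑ x, phi (g x) ≤ ∑ x, g x ^ 2 - ∑ x, g x := by
    rw [← Finset.sum_sub_distrib]
    exact Finset.sum_le_sum fun x _ => M_EQ.phi_le (hg x)
  unfold Ent avg
  rw [h1] at h2
  rw [le_sub_iff_add_le, div_add_one hc.ne', div_le_div_iff_of_pos_right hc]
  linarith

end Pool.Agent.ENC
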