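import Pool.Agent.ENC.Stmts

/-!
ENC_EX1: exponential convergence of the lamps.
-/

namespace Pool.Agent.ENC

open Finset Filter Topology Pool.Agent.LazyWalk

namespace M_EX1

/-- Invariant of a state reached with `k` common moves. -/
def Inv {n : ℕ} (k : ℕ) (s : HS n) : Prop :=
  (∀ z, s.2.1 z = none ∨ ∃ a b, s.2.1 z = some (a, b) ∧ a + b = k) ∧ (s.2.2 = false → k = 0)

lemma inv_s0 (n : ℕ) : Inv 0 (s0 n) :=
  ⟨fun _ => Or.inr ⟨0, 0, rfl, rfl⟩, fun _ => rfl⟩

lemma inv_stepS {n k : ℕ} {s : HS n} (h : Inv k s) (i : Fin n) : Inv (k + 1) (stepS i s) := by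
  refine ⟨fun z => ?_, fun hf => ?_⟩
  · show upd (z - s.1) (z - (s.1 + ee i)) (s.2.1 z) = none ∨ _
    unfold stepS
    dsimp only
    unfold upd
    rcases h.1 z with h0 | ⟨a, b, hab, hk⟩
    · rw [h0]
      split_ifs <;> simp
    · rw [hab]
      split_ifs
      · left; rfl
      · right
        exact ⟨a + 1, b, rfl, by omega⟩
      · right
        exact ⟨a, b + 1, rfl, by omega⟩
  · exact absurd hf (by simp [stepS])

lemma inv_stepR {n k : ℕ} {s : HS n} (h : Inv k s) : Inv k (stepR s) := by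
  refine ⟨fun z => ?_, fun hf => h.2 hf⟩
  unfold stepR
  dsimp only
  split_ifs
  · exact h.1 z
  · left; rfl

lemma Eop_sub (n : ℕ) (α : ℝ) (Φ Ψ : HS n → ℝ) :
    Eop n α (fun s => Φ s - Ψ s) = fun s => Eop n α Φ s - Eop n α Ψ s := by
  funext s
  unfold Eop
  rw [Finset.sum_sub_distrib]
  ring

lemma Eop_iter_sub (n : ℕ) (α : ℝ) (Φ Ψ : HS n → ℝ) (t : ℕ) :
    (Eop n α)^[t] (fun s => Φ s - Ψ s) = fun s => (Eop n α)^[t] Φ s - (Eop n α)^[t] Ψ s := by
  induction t with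
  | zero => rfl
  | succ t ih =>
    rw [Function.iterate_succ_apply', ih, Eop_sub]
    funext s
    rw [Function.iterate_succ_apply', Function.iterate_succ_apply']

lemma Eop_bound {n : ℕ} (hn : 1 ≤ n) {α : ℝ} (h0 : 0 ≤ α) (h1 : α ≤ 1) {Φ : HS n → ℝ} {C : ℝ}
    (hΦ : ∀ k s, Inv k s → |Φ s| ≤ C * (3 / 4) ^ k) (t : ℕ) :
    ∀ k s, Inv k s → |(Eop n α)^[t] Φ s| ≤ C * (3 / 4) ^ k * (7 / 8 + α / 8) ^ t := by
  induction t with
  | zero =>
    intro k s h
    simpa using hΦ k s h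
  | succ t ih =>
    intro k s h
    rw [Function.iterate_succ_apply']
    set Ψ := (Eop n α)^[t] Φ with hΨ
    have e1 := ih k s h
    have e2 : ∀ i : Fin n, |Ψ (stepS i s)| ≤ C * (3 / 4) ^ (k + 1) * (7 / 8 + α / 8) ^ t :=
      fun i => ih (k + 1) _ (inv_stepS h i)
    have e3 := ih k _ (inv_stepR h)
    have hn' : (0 : ℝ) < n := by exact_mod_cast hn
    have e4 : |∑ i, Ψ (stepS i s)| ≤ n * (C * (3 / 4) ^ (k + 1) * (7 / 8 + α / 8) ^ t) := by
      refine (Finset.abs_sum_le_sum_abs _ _).trans ?_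
      refine (Finset.sum_le_sum fun i _ => e2 i).trans ?_
      simp
    have hc : 0 ≤ (1 - α) / (2 * n) := by
      apply div_nonneg <;> linarith
    unfold Eop
    have e5 : |1 / 2 * Ψ s + (1 - α) / (2 * n) * ∑ i, Ψ (stepS i s) + α / 2 * Ψ (stepR s)| ≤
        1 / 2 * |Ψ s| + (1 - α) / (2 * n) * |∑ i, Ψ (stepS i s)| + α / 2 * |Ψ (stepR s)| := by
      refine (abs_add_le _ _).trans ?_
      refine add_le_add ((abs_add_le _ _).trans (add_le_add ?_ ?_)) ?_
      · rw [abs_mul, abs_of_nonneg (by norm_num : (0 : ℝ) ≤ 1 / 2)]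
      · rw [abs_mul, abs_of_nonneg hc]
      · rw [abs_mul, abs_of_nonneg (by linarith : (0 : ℝ) ≤ α / 2)]
    refine e5.trans ?_
    have e6 : (1 - α) / (2 * n) * |∑ i, Ψ (stepS i s)| ≤
        (1 - α) / (2 * n) * (n * (C * (3 / 4) ^ (k + 1) * (7 / 8 + α / 8) ^ t)) :=
      mul_le_mul_of_nonneg_left e4 hc
    have e7 : (1 - α) / (2 * n) * (n * (C * (3 / 4) ^ (k + 1) * (7 / 8 + α / 8) ^ t)) =
        (1 - α) / 2 * (3 / 4) * (C * (3 / 4) ^ k * (7 / 8 + α / 8) ^ t) := by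
      rw [pow_succ]
      field_simp
    have e8 : α / 2 * |Ψ (stepR s)| ≤ α / 2 * (C * (3 / 4) ^ k * (7 / 8 + α / 8) ^ t) :=
      mul_le_mul_of_nonneg_left e3 (by linarith)
    have e9 : C * (3 / 4) ^ k * (7 / 8 + α / 8) ^ (t + 1) =
        1 / 2 * (C * (3 / 4) ^ k * (7 / 8 + α / 8) ^ t) +
        (1 - α) / 2 * (3 / 4) * (C * (3 / 4) ^ k * (7 / 8 + α / 8) ^ t) +
        α / 2 * (C * (3 / 4) ^ k * (7 / 8 + α / 8) ^ t) := by
      rw [pow_succ]
      ring
    rw [e9]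
    linarith

lemma prod_bound {ι : Type} [DecidableEq ι] (s : Finset ι) (f : ι → ℝ) {B ε : ℝ} (hB : 0 ≤ B)
    (hε : 0 ≤ ε) (hεB : ε ≤ B) (hf : ∀ z, |f z - 1| ≤ ε) :
    |∏ z ∈ s, f z - 1| ≤ s.card * (1 + B) ^ s.card * ε := by
  induction s using Finset.induction_on with
  | empty => simp
  | insert a s ha ih =>
    rw [Finset.prod_insert ha, Finset.card_insert_of_notMem ha]
    have e1 : f a * ∏ z ∈ s, f z - 1 = f a * (∏ z ∈ s, f z - 1) + (f a - 1) := by ring
    rw [e1]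
    have e2 : |f a| ≤ 1 + B := by
      have : f a = 1 + (f a - 1) := by ring
      rw [this]
      refine (abs_add_le _ _).trans ?_
      rw [abs_one]
      linarith [hf a]
    have hp : (1 : ℝ) ≤ (1 + B) ^ (s.card + 1) := one_le_pow₀ (by linarith)
    calc |f a * (∏ z ∈ s, f z - 1) + (f a - 1)|
        ≤ |f a| * |∏ z ∈ s, f z - 1| + |f a - 1| := by
          refine (abs_add_le _ _).trans ?_
          rw [abs_mul]
      _ ≤ (1 + B) * (s.card * (1 + B) ^ s.card * ε) + ε :=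
          add_le_add (mul_le_mul e2 ih (abs_nonneg _) (by linarith)) (hf a)
      _ ≤ (s.card * (1 + B) ^ (s.card + 1) * ε) + (1 + B) ^ (s.card + 1) * ε := by
          have : ε ≤ (1 + B) ^ (s.card + 1) * ε := le_mul_of_one_le_left hε hp
          have h2 : (1 + B) * (s.card * (1 + B) ^ s.card * ε) =
              s.card * (1 + B) ^ (s.card + 1) * ε := by rw [pow_succ]; ring
          rw [h2]
          linarith
      _ = ((s.card + 1 : ℕ) : ℝ) * (1 + B) ^ (s.card + 1) * ε := by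
          push_cast; ring

lemma dens_bound {n : ℕ} {Λ J : Type} [AddCommGroup Λ] [Fintype Λ] [DecidableEq Λ]
    [AddCommGroup J] [Fintype J] [DecidableEq J] (S1 S2 : Finset Λ) {B : ℝ} (hB : 0 ≤ B)
    (hG : ∀ k l a, |GG S1 S2 k l a - 1| ≤ B * (3 / 4) ^ (k + l)) (v : Vt n Λ J) (k : ℕ) (s : HS n)
    (h : Inv k s) :
    |dens S1 S2 s v - (if s.1 = v.2.1 then (2 : ℝ) ^ n else 0)| ≤
      (2 ^ n * (Fintype.card (Cube n) * (1 + B) ^ Fintype.card (Cube n) * B *
        (1 + Fintype.card J) + Fintype.card J)) * (3 / 4) ^ k := by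
  have hq0 : (0 : ℝ) < (3 / 4) ^ k := by positivity
  have hq1 : ((3 : ℝ) / 4) ^ k ≤ 1 := pow_le_one₀ (by norm_num) (by norm_num)
  have hJ : (1 : ℝ) ≤ Fintype.card J := by
    have : 0 < Fintype.card J := Fintype.card_pos_iff.mpr ⟨0⟩
    exact_mod_cast this
  have e1 : ∀ z, |dlam S1 S2 (s.2.1 z) (v.1 z) - 1| ≤ B * (3 / 4) ^ k := by
    intro z
    rcases h.1 z with h0 | ⟨a, b, hab, hk⟩
    · rw [h0]
      simp only [dlam, sub_self, abs_zero]
      positivity
    · rw [hab, ← hk]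
      exact hG a b (v.1 z)
  have e2 : |∏ z, dlam S1 S2 (s.2.1 z) (v.1 z) - 1| ≤
      Fintype.card (Cube n) * (1 + B) ^ Fintype.card (Cube n) * (B * (3 / 4) ^ k) := by
    have := prod_bound (univ : Finset (Cube n)) (fun z => dlam S1 S2 (s.2.1 z) (v.1 z)) hB
      (mul_nonneg hB hq0.le) (mul_le_of_le_one_right hB hq1) e1
    rwa [Finset.card_univ] at this
  have e3 : |dJ s.2.2 v.2.2 - 1| ≤ Fintype.card J * (3 / 4) ^ k := by
    rcases hb : s.2.2 with _ | _
    · rw [h.2 hb]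
      simp only [dJ, Bool.false_eq_true, if_false, pow_zero, mul_one]
      split_ifs
      · rw [abs_of_nonneg (by linarith)]
        linarith
      · rw [zero_sub, abs_neg, abs_one]
        exact hJ
    · simp only [dJ, if_true, sub_self, abs_zero]
      positivity
  have e4 : |dJ s.2.2 v.2.2| ≤ 1 + Fintype.card J := by
    have : dJ s.2.2 v.2.2 = 1 + (dJ s.2.2 v.2.2 - 1) := by ring
    rw [this]
    refine (abs_add_le _ _).trans ?_
    rw [abs_one]
    have : (Fintype.card J : ℝ) * (3 / 4) ^ k ≤ Fintype.card J :=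
      mul_le_of_le_one_right (by linarith) hq1
    linarith
  set P := ∏ z, dlam S1 S2 (s.2.1 z) (v.1 z) with hP
  set d := dJ s.2.2 v.2.2 with hd
  set N : ℝ := Fintype.card (Cube n) * (1 + B) ^ Fintype.card (Cube n) with hN
  have hN0 : 0 ≤ N := by positivity
  have e5 : |P * d - 1| ≤ (N * B * (1 + Fintype.card J) + Fintype.card J) * (3 / 4) ^ k := by
    have : P * d - 1 = (P - 1) * d + (d - 1) := by ring
    rw [this]
    refine (abs_add_le _ _).trans ?_
    rw [abs_mul]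
    have := mul_le_mul e2 e4 (abs_nonneg _) (by positivity)
    nlinarith [this, e3]
  unfold dens
  rw [← hP, ← hd]
  by_cases hv : s.1 = v.2.1
  · rw [if_pos hv, if_pos hv.symm]
    have : (2 : ℝ) ^ n * P * d - 2 ^ n = 2 ^ n * (P * d - 1) := by ring
    rw [this, abs_mul, abs_of_nonneg (by positivity : (0 : ℝ) ≤ 2 ^ n)]
    calc (2 : ℝ) ^ n * |P * d - 1|
        ≤ 2 ^ n * ((N * B * (1 + Fintype.card J) + Fintype.card J) * (3 / 4) ^ k) :=
          mul_le_mul_of_nonneg_left e5 (by positivity)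
      _ = _ := by ring
  · rw [if_neg hv, if_neg (fun h => hv h.symm)]
    simp only [zero_mul, sub_self, abs_zero]
    positivity

end M_EX1

open M_EX1 in
theorem t_EX1 : St_EX1 := by
  intro n Λ J _ _ _ _ _ _ S1 S2 α B hn h0 h1 hB hG
  refine ⟨(2 ^ n * (Fintype.card (Cube n) * (1 + B) ^ Fintype.card (Cube n) * B *
        (1 + Fintype.card J) + Fintype.card J)), fun t v => ?_⟩
  have key := Eop_bound hn h0 h1
    (Φ := fun s => dens S1 S2 s v - (if s.1 = v.2.1 then (2 : ℝ) ^ n else 0))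
    (fun k s h => dens_bound S1 S2 hB hG v k s h) t 0 (s0 n) (inv_s0 n)
  rw [Eop_iter_sub] at key
  simpa using key

end Pool.Agent.ENC
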