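import Pool.Agent.ENC.Stmts

/-!
ENC_EXC: uniform exponential convergence of the walk (MP_1e9518_pr).
-/

namespace Pool.Agent.ENC

open Finset Filter Topology Pool.Agent.LazyWalk

namespace M_EXC

open scoped Classical in
theorem deg_iso {V : Type} [Fintype V] (G : SimpleGraph V) (φ : G ≃g G) (x : V) :
    G.degree (φ x) = G.degree x := by
  rw [degree_eq_card_filter, degree_eq_card_filter]
  refine (Finset.card_bij (fun y _ => φ y) ?_ ?_ ?_).symm
  · intro y hy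
    rw [mem_filter] at hy ⊢
    exact ⟨mem_univ _, φ.map_adj_iff.2 hy.2⟩
  · intro y _ z _ h
    exact φ.injective h
  · intro z hz
    rw [mem_filter] at hz
    obtain ⟨y, rfl⟩ := φ.surjective z
    exact ⟨y, mem_filter.2 ⟨mem_univ _, φ.map_adj_iff.1 hz.2⟩, rfl⟩

theorem lazy_iso {V : Type} [Fintype V] (G : SimpleGraph V) (φ : G ≃g G) (x y : V) :
    lazyWalk G (φ x) (φ y) = lazyWalk G x y := by
  unfold lazyWalk
  simp only [Matrix.of_apply]
  rw [deg_iso G φ x]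
  have h1 : φ x = φ y ↔ x = y := φ.injective.eq_iff
  have h2 : G.Adj (φ x) (φ y) ↔ G.Adj x y := φ.map_adj_iff
  classical
  exact congrArg₂ (· + ·) (if_congr h1 rfl rfl) (if_congr h2 rfl rfl)

theorem step_iso {V : Type} [Fintype V] (G : SimpleGraph V) (φ : G ≃g G) (t : ℕ) (x y : V) :
    stepProb G t (φ x) (φ y) = stepProb G t x y := by
  induction t generalizing x y with
  | zero =>
    rw [stepProb_zero, stepProb_zero]
    have h1 : φ x = φ y ↔ x = y := φ.injective.eq_iff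
    classical
    exact if_congr h1 rfl rfl
  | succ t ih =>
    rw [stepProb_succ, stepProb_succ, ← Equiv.sum_comp φ.toEquiv]
    refine Finset.sum_congr rfl fun z _ => ?_
    have h1 : φ.toEquiv z = φ z := rfl
    rw [h1, ih, lazy_iso]

end M_EXC

/-- ENC_EXC. -/
theorem t_EXC (h1 : St_EXP) (h2 : St_HQ) (h3 : St_EX1) (h4 : St_TRG) : St_EXC := by
  intro n Λ J _ _ _ _ _ _ S1 S2 c B hS1 hS2 hn hneg hc hcS hB hGG
  have hn0 : (0 : ℝ) < n := by
    have : 0 < n := by omega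
    exact_mod_cast this
  have hn8 : (8 : ℝ) ≤ n := by exact_mod_cast hn
  have hcR : (0 : ℝ) ≤ (cR n Λ : ℝ) := Nat.cast_nonneg _
  have hncpos : (0 : ℝ) < (n : ℝ) * c := by
    have : (1 : ℝ) ≤ c := by exact_mod_cast hc
    exact mul_pos hn0 (by linarith)
  have hden : (((n * c + cR n Λ : ℕ)) : ℝ) = (n : ℝ) * c + cR n Λ := by push_cast; ring
  have hdpos : (0 : ℝ) < (((n * c + cR n Λ : ℕ)) : ℝ) := by rw [hden]; linarith
  obtain ⟨α, hα⟩ : ∃ α : ℝ, α = (cR n Λ : ℝ) / ((n * c + cR n Λ : ℕ) : ℝ) := ⟨_, rfl⟩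
  rw [← hα]
  have hα0 : 0 ≤ α := by rw [hα]; exact div_nonneg hcR hdpos.le
  have hα1 : α < 1 := by
    rw [hα, div_lt_one hdpos, hden]
    linarith
  have hq : (1 - α) / n ≤ (1 - α) / 8 :=
    div_le_div_of_nonneg_left (by linarith) (by norm_num) hn8
  have hq0 : 0 < (1 - α) / n := div_pos (by linarith) hn0
  obtain ⟨C, hC⟩ := h3 n Λ J S1 S2 α B (by omega) hα0 hα1.le hB hGG
  refine ⟨by linarith, by linarith, |C| + 2 ^ n * n, fun t x y => ?_⟩
  obtain ⟨φ, hφ⟩ := h4 n Λ J S1 S2 x 0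
  have e1 : stepProb (LG n Λ J S1 S2) t x y = stepProb (LG n Λ J S1 S2) t 0 (φ y) := by
    rw [← hφ, M_EXC.step_iso]
  rw [e1]
  have e2 := h1 n Λ J S1 S2 c hS1 hS2 (by omega) hneg hcS t (φ y)
  rw [← hα] at e2
  rw [e2]
  have e3 := hC t (φ y)
  have e4 := h2 n α (by omega) hα0 hα1.le t (φ y).2.1
  rw [e4] at e3
  have e5 := Dual.G_sub_one_le hα0 hα1.le (by omega : 0 < n) (zeros_le (φ y).2.1) t
  have e6 : Dual.rho n α 1 = 1 - (1 - α) / n := by
    unfold Dual.rho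
    rw [Nat.cast_one, mul_one]
  rw [e6] at e5
  have hbase : (7 / 8 + α / 8) ^ t ≤ (1 - (1 - α) / n) ^ t := by
    refine pow_le_pow_left₀ (by linarith) ?_ t
    linarith
  have hb0 : (0 : ℝ) ≤ (7 / 8 + α / 8) ^ t := by
    refine pow_nonneg (by linarith) t
  have e7 : C * (7 / 8 + α / 8) ^ t ≤ |C| * (1 - (1 - α) / n) ^ t :=
    (mul_le_mul_of_nonneg_right (le_abs_self C) hb0).trans
      (mul_le_mul_of_nonneg_left hbase (abs_nonneg C))
  have e8 := abs_sub_le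
    ((Eop n α)^[t] (fun s => dens S1 S2 s (φ y)) (s0 n))
    (Dual.G n α t (zeros (φ y).2.1)) 1
  calc _ ≤ _ := e8
    _ ≤ |C| * (1 - (1 - α) / n) ^ t + 2 ^ n * n * (1 - (1 - α) / n) ^ t :=
        add_le_add (e3.trans e7) e5
    _ = (|C| + 2 ^ n * n) * (1 - (1 - α) / n) ^ t := by ring

end Pool.Agent.ENC
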