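import Pool.Agent.ENC.Stmts

/-!
ENC_EXP: the density of the walk is the expectation of `dens` over the hidden chain.
-/

namespace Pool.Agent.ENC

open Finset Filter Topology Pool.Agent.LazyWalk

namespace M_EXP

lemma Eop_sum (n : ℕ) (α : ℝ) {ι : Type} [Fintype ι] (w : ι → ℝ) (Φ : ι → HS n → ℝ) :
    Eop n α (fun s => ∑ z, w z * Φ z s) = fun s => ∑ z, w z * Eop n α (Φ z) s := by
  funext s
  unfold Eop
  simp only [Finset.mul_sum]
  rw [Finset.sum_comm, ← Finset.sum_add_distrib, ← Finset.sum_add_distrib]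
  refine Finset.sum_congr rfl fun z _ => ?_
  rw [mul_add, mul_add, Finset.mul_sum]
  congr 1
  · congr 1
    · ring
    · refine Finset.sum_congr rfl fun i _ => ?_
      ring
  · ring

lemma iter_sum (n : ℕ) (α : ℝ) {ι : Type} [Fintype ι] (w : ι → ℝ) (t : ℕ) :
    ∀ Φ : ι → HS n → ℝ, (Eop n α)^[t] (fun s => ∑ z, w z * Φ z s) =
      fun s => ∑ z, w z * (Eop n α)^[t] (Φ z) s := by
  induction t with
  | zero => intro Φ; rfl
  | succ t ih =>
    intro Φ
    rw [Function.iterate_succ_apply, Eop_sum, ih]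
    rfl

lemma base (n : ℕ) (Λ J : Type) [AddCommGroup Λ] [Fintype Λ] [DecidableEq Λ]
    [AddCommGroup J] [Fintype J] [DecidableEq J] (S1 S2 : Finset Λ) (v : Vt n Λ J) :
    (Fintype.card (Vt n Λ J) : ℝ) * (if (0 : Vt n Λ J) = v then (1 : ℝ) else 0) =
      dens S1 S2 (s0 n) v := by
  unfold dens s0
  by_cases hv : (0 : Vt n Λ J) = v
  · rw [if_pos hv, ← hv]
    have hc : Fintype.card (Vt n Λ J) = Fintype.card Λ ^ (2 ^ n) * (2 ^ n * Fintype.card J) := by
      rw [Fintype.card_prod, Fintype.card_prod, Fintype.card_fun, Fintype.card_fun, ZMod.card,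
        Fintype.card_fin]
    rw [hc]
    simp only [Prod.snd_zero, Prod.fst_zero, if_true, dlam, dJ, Pi.zero_apply, GG, dzero,
      Function.iterate_zero, id, Finset.prod_const, Finset.card_univ, Fintype.card_fun, ZMod.card,
      Fintype.card_fin]
    push_cast
    simp
    ring
  · rw [if_neg hv, mul_zero]
    by_cases h1 : v.2.1 = 0
    · by_cases h2 : v.2.2 = 0
      · have h3 : v.1 ≠ 0 := by
          intro h3
          apply hv
          refine Prod.ext h3.symm (Prod.ext h1.symm h2.symm)
        obtain ⟨z, hz⟩ := Function.ne_iff.mp h3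
        have : ∏ z, dlam S1 S2 (some (0, 0)) (v.1 z) = 0 := by
          refine Finset.prod_eq_zero (Finset.mem_univ z) ?_
          simp only [dlam, GG, Function.iterate_zero, id, dzero]
          rw [if_neg (by simpa using hz)]
        simp only
        rw [this]
        ring
      · have : dJ (J := J) false v.2.2 = 0 := by
          unfold dJ
          rw [if_neg (by simp), if_neg h2]
        simp only
        rw [this, mul_zero]
    · simp only
      rw [if_neg h1]
      ring

end M_EXP

open M_EXP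

theorem t_EXP (h1 : St_LW) (h2 : St_SS) (h3 : St_SR) : St_EXP := by
  classical
  intro n Λ J _ _ _ _ _ _ S1 S2 c hS1 hS2 hn hneg hc t
  obtain ⟨hreg, hLW⟩ := h1 n Λ J S1 S2 c hn hneg hc
  have hD : (0 : ℝ) < ((n * c + cR n Λ : ℕ) : ℝ) := by exact_mod_cast hreg.1
  have hn0 : (0 : ℝ) < n := by
    have : 0 < n := by omega
    exact_mod_cast this
  have key : ∀ (s : HS n) (v : Vt n Λ J),
      ∑ z, lazyWalk (LG n Λ J S1 S2) v z * dens S1 S2 s z =
        Eop n ((cR n Λ : ℝ) / ((n * c + cR n Λ : ℕ) : ℝ)) (fun s => dens S1 S2 s v) s := by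
    intro s v
    have e := hLW (fun z => dens S1 S2 s z) v
    rw [e]
    have e2 : ∀ i : Fin n, ∑ v', (if adjS S1 S2 i v v' then dens S1 S2 s v' else 0) =
        (c : ℝ) * dens S1 S2 (stepS i s) v := by
      intro i
      rw [h2 n Λ J S1 S2 hS1 hS2 i s v, hc i]
    have e3 := h3 n Λ J S1 S2 hS1 hS2 (by omega) s v
    rw [e3, Finset.sum_congr rfl fun i _ => e2 i]
    unfold Eop
    rw [← Finset.mul_sum]
    have hD' : (n : ℝ) * c + (cR n Λ : ℝ) ≠ 0 := by
      have := hD.ne'
      push_cast at this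
      exact this
    push_cast
    field_simp
    ring
  induction t with
  | zero =>
    intro v
    rw [stepProb_zero]
    simp only [Function.iterate_zero, id]
    rw [← base n Λ J S1 S2 v]
    congr 1
    by_cases h0 : (0 : Vt n Λ J) = v
    · rw [if_pos h0, if_pos h0]
    · rw [if_neg h0, if_neg h0]
  | succ t ih =>
    intro v
    rw [Function.iterate_succ_apply]
    have e1 : Eop n ((cR n Λ : ℝ) / ((n * c + cR n Λ : ℕ) : ℝ)) (fun s => dens S1 S2 s v) =
        fun s => ∑ z, lazyWalk (LG n Λ J S1 S2) v z * dens S1 S2 s z := by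
      funext s
      rw [key]
    rw [e1, iter_sum]
    rw [stepProb_succ, Finset.mul_sum]
    refine Finset.sum_congr rfl fun z _ => ?_
    rw [← ih z, lazyWalk_symm hreg z v]
    ring

end Pool.Agent.ENC
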