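import Pool.Agent.ENC.Stmts

/-!
ENC_EXS (MP_1e9518_pr): exponential convergence gives times with small entropy distance.
-/

namespace Pool.Agent.ENC

open Finset Filter Topology Pool.Agent.LazyWalk

theorem t_EXS : St_EXS := by
  intro V _ _ G ρ h ε hε
  have he : (0 : ℝ) < min (1 / 2) (ε / 2) := lt_min (by norm_num) (by linarith)
  obtain ⟨t, ht⟩ := h.tendsto he
  refine ⟨t, ciSup_le fun x => ?_⟩
  have hn : (0 : ℝ) < (Fintype.card V : ℝ) := by exact_mod_cast Fintype.card_pos
  have e1 : min (1 / 2) (ε / 2) ≤ (1 / 2 : ℝ) := min_le_left _ _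
  have e2 : min (1 / 2) (ε / 2) ≤ ε / 2 := min_le_right _ _
  have key : ∀ y ∈ (univ : Finset V),
      stepProb G t x y * Real.log (stepProb G t x y / (1 / (Fintype.card V : ℝ))) ≤
        ε / (Fintype.card V : ℝ) := by
    intro y _
    have h1 := abs_le.1 (ht t le_rfl x y)
    obtain ⟨h2, h3⟩ := h1
    have e3 : stepProb G t x y / (1 / (Fintype.card V : ℝ)) =
        (Fintype.card V : ℝ) * stepProb G t x y := by
      field_simp
    have ha : (0 : ℝ) < (Fintype.card V : ℝ) * stepProb G t x y := by linarith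
    have hP : 0 ≤ stepProb G t x y := (pos_of_mul_pos_right ha hn.le).le
    have h4 : Real.log ((Fintype.card V : ℝ) * stepProb G t x y) ≤ ε / 2 := by
      have := Real.log_le_sub_one_of_pos ha
      linarith
    rw [e3, le_div_iff₀ hn]
    have h5 : stepProb G t x y * Real.log ((Fintype.card V : ℝ) * stepProb G t x y) ≤
        stepProb G t x y * (ε / 2) := mul_le_mul_of_nonneg_left h4 hP
    have h6 := mul_le_mul_of_nonneg_right h5 hn.le
    have h7 : stepProb G t x y * (ε / 2) * (Fintype.card V : ℝ) =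
        ((Fintype.card V : ℝ) * stepProb G t x y) * (ε / 2) := by ring
    rw [h7] at h6
    have h8 : ((Fintype.card V : ℝ) * stepProb G t x y) * (ε / 2) ≤ (3 / 2) * (ε / 2) :=
      mul_le_mul_of_nonneg_right (by linarith) (by linarith)
    linarith
  refine (Finset.sum_le_sum key).trans ?_
  rw [Finset.sum_const, Finset.card_univ, nsmul_eq_mul]
  exact (mul_div_cancel₀ ε hn.ne').le

end Pool.Agent.ENC
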