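import Pool.Agent.ENC.Stmts

/-!
Module ENC_GK of MP_1e9518_pr: entropy and sup norm of a lamp after `k` near picks.
-/

namespace Pool.Agent.ENC

open Finset Filter Topology Pool.Agent.LazyWalk

namespace M_GK

/-- Parameters of one increment. -/
abbrev Q (D M : ℕ) : Type := (Fin D → ZMod 2) × (Fin (D + 1) → Fin M → ZMod 2)

/-- Remaining parameters, when the vectors `x` are fixed. -/
abbrev P (D M k : ℕ) : Type := (Fin k → Fin (D + 1) → Fin M → ZMod 2) × (Fin D → ZMod 2) ×
      (Fin (D + 1) → Fin M → ZMod 2)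

theorem inc1_inj {D M : ℕ} :
    Function.Injective (fun p : Q D M => inc1 p.1 p.2) := by
  rintro ⟨x, g⟩ ⟨x', g'⟩ h
  simp only [inc1, Prod.mk.injEq] at h
  refine Prod.ext h.2 ?_
  funext j m
  have := congrFun (congrFun (congrFun h.1 0) j) m
  simpa [hat] using this

theorem avgOn_S1 {D M : ℕ} (g : Lam D M → ℝ) (a : Lam D M) :
    avgOn (S1 D M) g a = (∑ q : Q D M, g (a + inc1 q.1 q.2)) / Fintype.card (Q D M) := by
  unfold avgOn S1
  rw [Finset.sum_image (fun x _ y _ h => inc1_inj h), Finset.card_image_of_injective _ inc1_inj,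
    Finset.card_univ]

theorem iter {D M : ℕ} (k : ℕ) (g : Lam D M → ℝ) (a : Lam D M) :
    (avgOn (S1 D M))^[k] g a =
      (∑ p : Fin k → Q D M, g (a + ∑ i, inc1 (p i).1 (p i).2)) /
        (Fintype.card (Q D M) : ℝ) ^ k := by
  induction k generalizing a with
  | zero => simp
  | succ k ih =>
    rw [Function.iterate_succ_apply', avgOn_S1]
    simp_rw [ih]
    rw [← Finset.sum_div, div_div, ← pow_succ]
    congr 1
    rw [← (Fin.consEquiv (fun _ => Q D M)).sum_comp,
      Fintype.sum_prod_type (f := fun z : Q D M × (Fin k → Q D M) =>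
        g (a + ∑ i, inc1 ((Fin.consEquiv (fun _ => Q D M)) z i).1
          ((Fin.consEquiv (fun _ => Q D M)) z i).2))]
    refine Finset.sum_congr rfl fun q _ => ?_
    refine Finset.sum_congr rfl fun p _ => ?_
    simp [Fin.consEquiv, Fin.sum_univ_succ, add_assoc]

/-- Number of representations. -/
def cc (D M k : ℕ) (x : Fin k → (Fin D → ZMod 2)) (a : Lam D M) : ℕ :=
  (univ.filter fun p : (Fin k → Fin (D + 1) → Fin M → ZMod 2) × (Fin D → ZMod 2) ×
      (Fin (D + 1) → Fin M → ZMod 2) => ∑ i, inc1 (x i) (p.1 i) + inc1 p.2.1 p.2.2 = a).card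

/-- Density for fixed vectors `x`. -/
noncomputable def dx (D M k : ℕ) (x : Fin k → (Fin D → ZMod 2)) (a : Lam D M) : ℝ :=
  Fintype.card (Lam D M) * cc D M k x a / Fintype.card (P D M k)

theorem card_pos_Lam (D M : ℕ) : (0 : ℝ) < Fintype.card (Lam D M) := by
  exact_mod_cast Fintype.card_pos

theorem card_pos_P (D M k : ℕ) : (0 : ℝ) < Fintype.card (P D M k) := by
  exact_mod_cast Fintype.card_pos

theorem dx_nonneg (D M k : ℕ) (x : Fin k → (Fin D → ZMod 2)) (a : Lam D M) : 0 ≤ dx D M k x a := by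
  unfold dx; positivity

theorem cc_le (D M k : ℕ) (x : Fin k → (Fin D → ZMod 2)) (a : Lam D M) :
    cc D M k x a ≤ Fintype.card (P D M k) := by
  unfold cc
  exact Finset.card_le_univ _

theorem dx_le (D M k : ℕ) (x : Fin k → (Fin D → ZMod 2)) (a : Lam D M) :
    dx D M k x a ≤ Fintype.card (Lam D M) := by
  unfold dx
  rw [div_le_iff₀ (card_pos_P D M k)]
  have : (cc D M k x a : ℝ) ≤ Fintype.card (P D M k) := by exact_mod_cast cc_le D M k x a
  exact mul_le_mul_of_nonneg_left this (card_pos_Lam D M).le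

theorem sum_cc (D M k : ℕ) (x : Fin k → (Fin D → ZMod 2)) :
    ∑ a, cc D M k x a = Fintype.card (P D M k) := by
  unfold cc
  rw [← Finset.card_univ]
  exact (Finset.card_eq_sum_card_fiberwise (fun _ _ => Finset.mem_coe.2 (Finset.mem_univ _))).symm

theorem avg_dx (D M k : ℕ) (x : Fin k → (Fin D → ZMod 2)) : avg (dx D M k x) = 1 := by
  unfold avg dx
  rw [← Finset.sum_div, ← Finset.mul_sum]
  have h := sum_cc D M k x
  have h' : ∑ a, (cc D M k x a : ℝ) = Fintype.card (P D M k) := by exact_mod_cast h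
  rw [h']
  have := card_pos_Lam D M
  have := card_pos_P D M k
  field_simp

theorem dx_one (h2 : St_UNI) (D M k : ℕ) (x : Fin k → (Fin D → ZMod 2))
    (hx : ∀ c : Fin (D + 1) → ZMod 2, (∀ i, ∑ j, c j * hat (x i) j = 0) → c = 0)
    (a : Lam D M) : dx D M k x a = 1 := by
  have h := h2 D M k x hx
  have hc : ∀ b, cc D M k x b = cc D M k x a := fun b => h b a
  have h' : ∑ b, (cc D M k x b : ℝ) = Fintype.card (P D M k) := by exact_mod_cast sum_cc D M k x
  simp_rw [hc] at h'
  rw [Finset.sum_const, Finset.card_univ, nsmul_eq_mul] at h'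
  unfold dx
  rw [h']
  exact div_self (card_pos_P D M k).ne'

theorem abs_dx (D M k : ℕ) (x : Fin k → (Fin D → ZMod 2)) (a : Lam D M) :
    |dx D M k x a - 1| ≤ Fintype.card (Lam D M) := by
  have h1 := dx_nonneg D M k x a
  have h2 := dx_le D M k x a
  have h3 : (1 : ℝ) ≤ Fintype.card (Lam D M) := by
    exact_mod_cast Fintype.card_pos
  rw [abs_le]
  constructor <;> linarith

theorem GG_succ (h3 : St_CAR) (D M k : ℕ) (a : Lam D M) :
    GG (S1 D M) (S2 D M) (k + 1) 0 a =
      ∑ x : Fin k → (Fin D → ZMod 2), (1 / (((2 : ℝ) ^ D) ^ k)) * dx D M k x a := by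
  have hneg := (h3 D M).2.2.2.2.2
  unfold GG
  rw [Function.iterate_zero, id_eq, Function.iterate_succ_apply, iter]
  simp_rw [avgOn_S1]
  rw [← Finset.sum_div, div_div, ← Finset.mul_sum, one_div, inv_mul_eq_div]
  unfold dx
  rw [← Finset.sum_div, div_div, ← Finset.mul_sum]
  congr 1
  · rw [← (Equiv.arrowProdEquivProdArrow (Fin k) (fun _ => (Fin D → ZMod 2))
      (fun _ => (Fin (D + 1) → Fin M → ZMod 2))).symm.sum_comp, Fintype.sum_prod_type, Finset.mul_sum]
    refine Finset.sum_congr rfl fun x _ => ?_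
    unfold cc
    rw [Finset.card_filter]
    push_cast
    rw [Fintype.sum_prod_type, Finset.mul_sum]
    refine Finset.sum_congr rfl fun g _ => ?_
    rw [Finset.mul_sum]
    refine Finset.sum_congr rfl fun q _ => ?_
    simp only [Equiv.arrowProdEquivProdArrow, Equiv.coe_fn_symm_mk]
    unfold dzero
    rw [mul_ite, mul_one, mul_zero]
    refine if_congr ?_ rfl rfl
    rw [add_assoc, add_eq_zero_iff_eq_neg, hneg]
    exact eq_comm
  · have h : Fintype.card (Q D M) * Fintype.card (Q D M) ^ k = Fintype.card (P D M k) * (2 ^ D) ^ k := by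
      simp only [Fintype.card_prod, Fintype.card_fun, ZMod.card, Fintype.card_fin]
      ring
    exact_mod_cast h

theorem one_le_card (D M : ℕ) : (1 : ℝ) ≤ Fintype.card (Lam D M) := by
  exact_mod_cast Fintype.card_pos

theorem log_nonneg (D M : ℕ) : 0 ≤ Real.log (Fintype.card (Lam D M)) :=
  Real.log_nonneg (one_le_card D M)

theorem ent_one (D M : ℕ) : Ent (fun _ : Lam D M => (1 : ℝ)) = 0 := by
  simp [Ent, avg, phi]

theorem avg_dzero (D M : ℕ) : avg (dzero (Lam D M)) = 1 := by
  unfold avg dzero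
  rw [Finset.sum_ite_eq' univ (0 : Lam D M)]
  simp only [Finset.mem_univ, if_true]
  exact div_self (card_pos_Lam D M).ne'

theorem dzero_nonneg (D M : ℕ) (a : Lam D M) : 0 ≤ dzero (Lam D M) a := by
  unfold dzero
  split_ifs
  · exact (card_pos_Lam D M).le
  · exact le_rfl

open scoped Classical in
theorem main (h1 : St_SPN) (h2 : St_UNI) (h3 : St_CAR) (h4 : St_EC) (h5 : St_EB) : St_GK := by
  intro D M k
  have hN := one_le_card D M
  have hL := log_nonneg D M
  rcases k with _ | k
  · have e : GG (S1 D M) (S2 D M) 0 0 = dzero (Lam D M) := rfl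
    rw [e]
    have hp : (1 : ℝ) ≤ 2 ^ (D + 2) / 2 ^ 0 := by
      rw [pow_zero, div_one]
      exact one_le_pow₀ (by norm_num)
    constructor
    · intro a
      have hb : |dzero (Lam D M) a - 1| ≤ Fintype.card (Lam D M) := by
        unfold dzero
        rw [abs_le]
        split_ifs <;> constructor <;> linarith
      exact hb.trans (le_mul_of_one_le_left (by linarith) hp)
    · have := (h5 (Lam D M) (dzero (Lam D M)) (dzero_nonneg D M) (avg_dzero D M)).2
      exact this.trans (le_mul_of_one_le_left hL hp)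
  · set NS := (univ.filter fun x : Fin k → (Fin D → ZMod 2) =>
      ∃ c : Fin (D + 1) → ZMod 2, c ≠ 0 ∧ ∀ i, ∑ j, c j * hat (x i) j = 0) with hNS
    have hns := h1 D k
    rw [← hNS] at hns
    have hX : (0 : ℝ) < ((2 : ℝ) ^ D) ^ k := by positivity
    -- the fraction of non spanning tuples
    have hfrac : (NS.card : ℝ) / ((2 : ℝ) ^ D) ^ k ≤ 2 ^ (D + 2) / 2 ^ (k + 1) := by
      have h : (2 : ℝ) ^ k * NS.card ≤ 2 ^ (D + 1) * (2 ^ D) ^ k := by exact_mod_cast hns
      rw [div_le_div_iff₀ hX (by positivity)]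
      calc (NS.card : ℝ) * 2 ^ (k + 1) = 2 * (2 ^ k * NS.card) := by ring
        _ ≤ 2 * (2 ^ (D + 1) * (2 ^ D) ^ k) := by linarith
        _ = 2 ^ (D + 2) * (2 ^ D) ^ k := by ring
    have hcardX : Fintype.card (Fin k → (Fin D → ZMod 2)) = (2 ^ D) ^ k := by
      simp [ZMod.card]
    have hw : ∑ _x : Fin k → (Fin D → ZMod 2), (1 / (((2 : ℝ) ^ D) ^ k)) = 1 := by
      rw [Finset.sum_const, Finset.card_univ, hcardX, nsmul_eq_mul]
      push_cast
      exact mul_one_div_cancel hX.ne'
    have hspan : ∀ x ∉ NS, ∀ a, dx D M k x a = 1 := by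
      intro x hx a
      refine dx_one h2 D M k x ?_ a
      intro c hc
      by_contra hne
      exact hx (by rw [hNS, Finset.mem_filter]; exact ⟨Finset.mem_univ _, c, hne, hc⟩)
    constructor
    · intro a
      rw [GG_succ h3]
      have e : ∑ x : Fin k → (Fin D → ZMod 2), (1 / (((2 : ℝ) ^ D) ^ k)) * dx D M k x a - 1 =
          ∑ x : Fin k → (Fin D → ZMod 2), (1 / (((2 : ℝ) ^ D) ^ k)) * (dx D M k x a - 1) := by
        simp_rw [mul_sub, mul_one]
        rw [Finset.sum_sub_distrib, hw]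
      rw [e]
      have e2 : ∑ x : Fin k → (Fin D → ZMod 2), (1 / (((2 : ℝ) ^ D) ^ k)) * (dx D M k x a - 1) =
          ∑ x ∈ NS, (1 / (((2 : ℝ) ^ D) ^ k)) * (dx D M k x a - 1) := by
        symm
        apply Finset.sum_subset (Finset.subset_univ _)
        intro x _ hx
        rw [hspan x hx a, sub_self, mul_zero]
      rw [e2]
      calc |∑ x ∈ NS, (1 / (((2 : ℝ) ^ D) ^ k)) * (dx D M k x a - 1)|
          ≤ ∑ x ∈ NS, |(1 / (((2 : ℝ) ^ D) ^ k)) * (dx D M k x a - 1)| :=
            Finset.abs_sum_le_sum_abs _ _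
        _ ≤ ∑ _x ∈ NS, (1 / (((2 : ℝ) ^ D) ^ k)) * Fintype.card (Lam D M) := by
            refine Finset.sum_le_sum fun x _ => ?_
            rw [abs_mul, abs_of_nonneg (by positivity : (0 : ℝ) ≤ 1 / (((2 : ℝ) ^ D) ^ k))]
            exact mul_le_mul_of_nonneg_left (abs_dx D M k x a) (by positivity)
        _ = (NS.card : ℝ) / ((2 : ℝ) ^ D) ^ k * Fintype.card (Lam D M) := by
            rw [Finset.sum_const, nsmul_eq_mul]
            ring
        _ ≤ _ := mul_le_mul_of_nonneg_right hfrac (by linarith)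
    · have e : GG (S1 D M) (S2 D M) (k + 1) 0 = fun a =>
          ∑ x : Fin k → (Fin D → ZMod 2), (1 / (((2 : ℝ) ^ D) ^ k)) * dx D M k x a := by
        funext a
        exact GG_succ h3 D M k a
      rw [e]
      have hc := h4 (Lam D M) (Fin k → (Fin D → ZMod 2)) (fun _ => 1 / (((2 : ℝ) ^ D) ^ k))
        (fun x => dx D M k x) (fun _ => by positivity) hw (fun x a => dx_nonneg D M k x a)
      refine hc.trans ?_
      have e2 : ∑ x : Fin k → (Fin D → ZMod 2), (1 / (((2 : ℝ) ^ D) ^ k)) * Ent (dx D M k x) =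
          ∑ x ∈ NS, (1 / (((2 : ℝ) ^ D) ^ k)) * Ent (dx D M k x) := by
        symm
        apply Finset.sum_subset (Finset.subset_univ _)
        intro x _ hx
        have : dx D M k x = fun _ => 1 := funext (hspan x hx)
        rw [this, ent_one, mul_zero]
      rw [e2]
      calc ∑ x ∈ NS, (1 / (((2 : ℝ) ^ D) ^ k)) * Ent (dx D M k x)
          ≤ ∑ _x ∈ NS, (1 / (((2 : ℝ) ^ D) ^ k)) * Real.log (Fintype.card (Lam D M)) := by
            refine Finset.sum_le_sum fun x _ => ?_
            exact mul_le_mul_of_nonneg_left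
              ((h5 (Lam D M) (dx D M k x) (dx_nonneg D M k x) (avg_dx D M k x)).2) (by positivity)
        _ = (NS.card : ℝ) / ((2 : ℝ) ^ D) ^ k * Real.log (Fintype.card (Lam D M)) := by
            rw [Finset.sum_const, nsmul_eq_mul]
            ring
        _ ≤ _ := mul_le_mul_of_nonneg_right hfrac hL

end M_GK

/-- ENC_GK. -/
theorem t_GK (h1 : St_SPN) (h2 : St_UNI) (h3 : St_CAR) (h4 : St_EC) (h5 : St_EB) : St_GK :=
  M_GK.main h1 h2 h3 h4 h5

end Pool.Agent.ENC
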