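import Pool.Agent.ENC.Stmts

/-!
Module ENC_GKL: sup norm bound for mixed picks.
-/

namespace Pool.Agent.ENC

open Finset Filter Topology Pool.Agent.LazyWalk

namespace M_GKL

lemma avg_le {Λ : Type} [AddCommGroup Λ] {S : Finset Λ} (hS : S.Nonempty)
    {g : Λ → ℝ} {C : ℝ} (h : ∀ a, |g a - 1| ≤ C) (a : Λ) : |avgOn S g a - 1| ≤ C := by
  have hc : (0 : ℝ) < S.card := by exact_mod_cast hS.card_pos
  have h1 : avgOn S g a - 1 = (∑ b ∈ S, (g (a + b) - 1)) / S.card := by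
    rw [avgOn, sum_sub_distrib, sum_const, nsmul_eq_mul, mul_one]
    field_simp
  rw [h1, abs_div, abs_of_pos hc, div_le_iff₀ hc]
  calc |∑ b ∈ S, (g (a + b) - 1)| ≤ ∑ b ∈ S, |g (a + b) - 1| := abs_sum_le_sum_abs _ _
    _ ≤ ∑ _b ∈ S, C := sum_le_sum fun b _ => h (a + b)
    _ = C * S.card := by rw [sum_const, nsmul_eq_mul, mul_comm]

lemma pow_bound {k l : ℕ} (h : k ≤ l) : (1 : ℝ) / 2 ^ l ≤ (3 / 4) ^ (k + l) := by
  calc (1 : ℝ) / 2 ^ l = (1 / 2) ^ l := by rw [div_pow, one_pow]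
    _ ≤ ((3 / 4) ^ 2) ^ l := pow_le_pow_left₀ (by norm_num) (by norm_num) l
    _ = (3 / 4) ^ (2 * l) := by rw [pow_mul]
    _ ≤ (3 / 4) ^ (k + l) :=
        pow_le_pow_of_le_one (by norm_num) (by norm_num) (by omega)

end M_GKL

theorem t_GKL (h1 : St_GK) (h2 : St_GT) (h3 : St_DN) (h4 : St_CAR) : St_GKL := by
  intro D M k l a
  obtain ⟨-, -, hm1, hm2, -, -⟩ := h4 D M
  have hS1 : (S1 D M).Nonempty := ⟨0, hm1⟩
  have hS2 : (S2 D M).Nonempty := ⟨0, hm2⟩
  obtain ⟨-, -, e1, e2, -⟩ := h3 0 (Lam D M) (ZMod 2) (S1 D M) (S2 D M) hS1 hS2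
  have hN : (0 : ℝ) ≤ Fintype.card (Lam D M) := Nat.cast_nonneg _
  have key : ∀ j : ℕ, ∀ i : ℕ, i ≤ j →
      (2 : ℝ) ^ (D + 2) / 2 ^ j * Fintype.card (Lam D M) ≤
        (2 ^ (D + 2) * Fintype.card (Lam D M)) * (3 / 4) ^ (i + j) := by
    intro j i hij
    have h5 := M_GKL.pow_bound hij
    calc (2 : ℝ) ^ (D + 2) / 2 ^ j * Fintype.card (Lam D M) =
          (2 ^ (D + 2) * Fintype.card (Lam D M)) * (1 / 2 ^ j) := by ring
      _ ≤ (2 ^ (D + 2) * Fintype.card (Lam D M)) * (3 / 4) ^ (i + j) :=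
          mul_le_mul_of_nonneg_left h5 (by positivity)
  rcases le_total k l with hkl | hkl
  · have hb : ∀ k' : ℕ, ∀ a, |GG (S1 D M) (S2 D M) k' l a - 1| ≤
        2 ^ (D + 2) / 2 ^ l * Fintype.card (Lam D M) := by
      intro k'
      induction k' with
      | zero =>
        rintro ⟨X, r⟩
        rw [(h2 D M l).1 X r]
        exact (h1 D M l).1 _
      | succ k' ih =>
        intro a
        rw [← e1 k' l]
        exact M_GKL.avg_le hS1 ih a
    exact (hb k a).trans (key l k hkl)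
  · have hb : ∀ l' : ℕ, ∀ a, |GG (S1 D M) (S2 D M) k l' a - 1| ≤
        2 ^ (D + 2) / 2 ^ k * Fintype.card (Lam D M) := by
      intro l'
      induction l' with
      | zero => exact (h1 D M k).1
      | succ l' ih =>
        intro a
        rw [← e2 k l']
        exact M_GKL.avg_le hS2 ih a
    rw [add_comm k l]
    exact (hb l a).trans (key k l hkl)

end Pool.Agent.ENC
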