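import Pool.Agent.ENC.Stmts

/-!
# ENC_GOO: words of length at most `12 n l` are good with probability at least `9/10`
-/

namespace Pool.Agent.ENC

open Finset Filter Topology Pool.Agent.LazyWalk

namespace M_GOO

theorem ww_nonneg {n m : ℕ} (w : Wd n m) : 0 ≤ ww w := by
  unfold ww
  refine Finset.prod_nonneg fun r _ => ?_
  unfold lw
  split <;> positivity

theorem pow_lower (N : ℝ) (hN : 1000 ≤ N) (l b : ℕ) (hb : (b : ℝ) ≤ 12 * N * l) :
    1 / (2 : ℝ) ^ (18 * l) ≤ (1 - 1 / N) ^ b := by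
  have hN0 : 0 < N := by linarith
  have hx : 0 < 1 - 1 / N := by
    rw [sub_pos, div_lt_one hN0]
    linarith
  have hlog : -(1 / (N - 1)) ≤ Real.log (1 - 1 / N) := by
    have h := Real.one_sub_inv_le_log_of_pos hx
    have h2 : 1 - (1 - 1 / N)⁻¹ = -(1 / (N - 1)) := by
      have h3 : N - 1 ≠ 0 := by linarith
      have h4 : (1 - 1 / N) = (N - 1) / N := by field_simp
      rw [h4, inv_div]
      field_simp
      ring
    rw [h2] at h
    exact h
  have hl2 := Real.log_two_gt_d9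
  rw [← Real.log_le_log_iff (by positivity) (pow_pos hx b), Real.log_pow, one_div, Real.log_inv,
    Real.log_pow]
  have hN1 : 0 < N - 1 := by linarith
  have hb1 : (b : ℝ) * (1 / (N - 1)) ≤ 12.02 * l := by
    rw [mul_one_div, div_le_iff₀ hN1]
    have hl : (0 : ℝ) ≤ l := Nat.cast_nonneg l
    nlinarith [mul_nonneg hl hN1.le, mul_nonneg hl (sub_nonneg.2 hN)]
  have hb2 : (b : ℝ) * (-(1 / (N - 1))) ≤ b * Real.log (1 - 1 / N) :=
    mul_le_mul_of_nonneg_left hlog (Nat.cast_nonneg b)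
  push_cast
  have hl : (0 : ℝ) ≤ l := Nat.cast_nonneg l
  nlinarith [mul_nonneg hl (sub_nonneg.2 hl2.le)]

theorem four_pow (l : ℕ) (hl : 40 ≤ l) : 1040 * l ≤ 2 ^ (2 * l) := by
  induction l, hl using Nat.le_induction with
  | base => norm_num
  | succ k hk ih =>
    have : 2 ^ (2 * (k + 1)) = 4 * 2 ^ (2 * k) := by
      rw [show 2 * (k + 1) = 2 * k + 2 by ring, pow_add]
      ring
    rw [this]
    omega

theorem nn_big (l : ℕ) (hl : 40 ≤ l) : 1000 ≤ nn l := by
  unfold nn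
  calc 1000 ≤ 2 ^ 10 := by norm_num
    _ ≤ 2 ^ (58 * l) := Nat.pow_le_pow_right (by norm_num) (by omega)

open scoped Classical in
theorem bad_le (h4 : St_GRD) (l : ℕ) (hl : 40 ≤ l) (m : ℕ) (hm : m ≤ 12 * nn l * l)
    (w : Wd (nn l) m) :
    ww w - (if good2 (uu l) w then ww w else 0) ≤
      ∑ j ∈ range (m / 2 ^ (38 * l) + 1),
        (if mag (pre w (j * 2 ^ (38 * l))) ≤
          (1 / 2) * (nn l * (1 - 1 / (nn l : ℝ)) ^ (j * 2 ^ (38 * l))) then ww w else 0) +
      (if uu l < cnt w then ww w else 0) := by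
  have hw := ww_nonneg w
  have hs : ∀ j, (0 : ℝ) ≤ (if mag (pre w (j * 2 ^ (38 * l))) ≤
      (1 / 2) * (nn l * (1 - 1 / (nn l : ℝ)) ^ (j * 2 ^ (38 * l))) then ww w else 0) := by
    intro j
    split_ifs <;> simp [hw]
  by_cases hg : good2 (uu l) w
  · rw [if_pos hg, sub_self]
    refine add_nonneg (Finset.sum_nonneg fun j _ => hs j) ?_
    split_ifs <;> simp [hw]
  rw [if_neg hg, sub_zero]
  by_cases hc : uu l < cnt w
  · rw [if_pos hc]
    have := Finset.sum_nonneg (s := range (m / 2 ^ (38 * l) + 1)) fun j _ => hs j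
    linarith
  rw [if_neg hc, add_zero]
  have hex : ∃ j, j * 2 ^ (38 * l) ≤ m ∧
      mag (pre w (j * 2 ^ (38 * l))) ≤ 2 * ((2 ^ (38 * l) : ℕ) : ℝ) := by
    by_contra hcon
    push Not at hcon
    apply hg
    refine ⟨?_, not_lt.1 hc⟩
    exact h4 (nn l) m (2 ^ (38 * l)) w Nat.one_le_two_pow hcon
  obtain ⟨j, hj, hmag⟩ := hex
  have hjm : j ∈ range (m / 2 ^ (38 * l) + 1) := by
    rw [mem_range, Nat.lt_succ_iff, Nat.le_div_iff_mul_le (by positivity)]
    exact hj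
  have hN : (1000 : ℝ) ≤ (nn l : ℝ) := by exact_mod_cast nn_big l hl
  have hb : ((j * 2 ^ (38 * l) : ℕ) : ℝ) ≤ 12 * (nn l : ℝ) * l := by
    have := hj.trans hm
    exact_mod_cast this
  have hp := pow_lower (nn l : ℝ) hN l (j * 2 ^ (38 * l)) hb
  have hle : mag (pre w (j * 2 ^ (38 * l))) ≤
      (1 / 2) * (nn l * (1 - 1 / (nn l : ℝ)) ^ (j * 2 ^ (38 * l))) := by
    refine hmag.trans ?_
    have h1 : (nn l : ℝ) * (1 / (2 : ℝ) ^ (18 * l)) ≤
        nn l * (1 - 1 / (nn l : ℝ)) ^ (j * 2 ^ (38 * l)) :=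
      mul_le_mul_of_nonneg_left hp (by positivity)
    have h2 : (nn l : ℝ) * (1 / (2 : ℝ) ^ (18 * l)) = 2 ^ (40 * l) := by
      unfold nn
      push_cast
      rw [mul_one_div, div_eq_iff (by positivity), ← pow_add]
      congr 1
      ring
    have h3 : (2 : ℝ) ^ (40 * l) = 2 ^ (2 * l) * 2 ^ (38 * l) := by
      rw [← pow_add]
      congr 1
      ring
    have h4' : (4 : ℝ) ≤ 2 ^ (2 * l) := by
      calc (4 : ℝ) = 2 ^ 2 := by norm_num
        _ ≤ 2 ^ (2 * l) := pow_le_pow_right₀ (by norm_num) (by omega)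
    have h5 : (0 : ℝ) < 2 ^ (38 * l) := by positivity
    push_cast
    nlinarith
  calc ww w = (if mag (pre w (j * 2 ^ (38 * l))) ≤
      (1 / 2) * (nn l * (1 - 1 / (nn l : ℝ)) ^ (j * 2 ^ (38 * l))) then ww w else 0) := by
        rw [if_pos hle]
    _ ≤ _ := Finset.single_le_sum (f := fun j => (if mag (pre w (j * 2 ^ (38 * l))) ≤
      (1 / 2) * (nn l * (1 - 1 / (nn l : ℝ)) ^ (j * 2 ^ (38 * l))) then ww w else 0))
        (fun j _ => hs j) hjm

open scoped Classical in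
theorem che_le (h2 : St_CHE) (l : ℕ) (hl : 40 ≤ l) (m : ℕ) (hm : m ≤ 12 * nn l * l) (b : ℕ)
    (hb : b ≤ m) :
    ∑ w : Wd (nn l) m, (if mag (pre w b) ≤ (1 / 2) * (nn l * (1 - 1 / (nn l : ℝ)) ^ b)
      then ww w else 0) ≤ 4 / 2 ^ (22 * l) := by
  have hN : (1000 : ℝ) ≤ (nn l : ℝ) := by exact_mod_cast nn_big l hl
  refine (h2 (nn l) m b (by have := nn_big l hl; omega) hb).trans ?_
  have hb' : (b : ℝ) ≤ 12 * (nn l : ℝ) * l := by
    have := hb.trans hm
    exact_mod_cast this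
  have hp := pow_lower (nn l : ℝ) hN l b hb'
  have hp2 : (1 / (2 : ℝ) ^ (18 * l)) ^ 2 ≤ (1 - 1 / (nn l : ℝ)) ^ (2 * b) := by
    have h := pow_le_pow_left₀ (by positivity) hp 2
    rwa [← pow_mul, mul_comm b 2] at h
  have h3 : (2 : ℝ) ^ (22 * l) ≤ (nn l : ℝ) * (1 - 1 / (nn l : ℝ)) ^ (2 * b) := by
    calc (2 : ℝ) ^ (22 * l) = (nn l : ℝ) * (1 / (2 : ℝ) ^ (18 * l)) ^ 2 := by
          unfold nn
          push_cast
          rw [div_pow, one_pow, ← pow_mul, mul_one_div, eq_div_iff (by positivity), ← pow_add]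
          congr 1
          ring
      _ ≤ _ := mul_le_mul_of_nonneg_left hp2 (by positivity)
  exact div_le_div_of_nonneg_left (by norm_num) (by positivity) h3

end M_GOO

open M_GOO in
open scoped Classical in
theorem t_GOO (h1 : St_MOM) (h2 : St_CHE) (h3 : St_CNT) (h4 : St_GRD) : St_GOO := by
  intro l hl m hm
  have hNn := nn_big l hl
  have hN : (1000 : ℝ) ≤ (nn l : ℝ) := by exact_mod_cast hNn
  have hlR : (40 : ℝ) ≤ l := by exact_mod_cast hl
  have htot : ∑ w : Wd (nn l) m, ww w = 1 := (h1 (nn l) m 0 (by omega) (Nat.zero_le _)).1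
  have hsum := Finset.sum_le_sum fun (w : Wd (nn l) m) (_ : w ∈ univ) => bad_le h4 l hl m hm w
  rw [Finset.sum_sub_distrib, htot, Finset.sum_add_distrib, Finset.sum_comm] at hsum
  -- the grid
  have hA : ∑ j ∈ range (m / 2 ^ (38 * l) + 1), ∑ w : Wd (nn l) m,
      (if mag (pre w (j * 2 ^ (38 * l))) ≤
        (1 / 2) * (nn l * (1 - 1 / (nn l : ℝ)) ^ (j * 2 ^ (38 * l))) then ww w else 0) ≤ 1 / 20 := by
    have hA1 : ∀ j ∈ range (m / 2 ^ (38 * l) + 1), ∑ w : Wd (nn l) m,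
      (if mag (pre w (j * 2 ^ (38 * l))) ≤
        (1 / 2) * (nn l * (1 - 1 / (nn l : ℝ)) ^ (j * 2 ^ (38 * l))) then ww w else 0) ≤
        4 / 2 ^ (22 * l) := by
      intro j hj
      refine che_le h2 l hl m hm _ ?_
      rw [mem_range, Nat.lt_succ_iff, Nat.le_div_iff_mul_le (by positivity)] at hj
      exact hj
    refine (Finset.sum_le_sum hA1).trans ?_
    rw [Finset.sum_const, card_range, nsmul_eq_mul]
    have hq : m / 2 ^ (38 * l) ≤ 12 * l * 2 ^ (20 * l) := by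
      calc m / 2 ^ (38 * l) ≤ (12 * nn l * l) / 2 ^ (38 * l) := Nat.div_le_div_right hm
        _ = 12 * l * 2 ^ (20 * l) := by
          have : 12 * nn l * l = (12 * l * 2 ^ (20 * l)) * 2 ^ (38 * l) := by
            unfold nn
            rw [show 58 * l = 20 * l + 38 * l by ring, pow_add]
            ring
          rw [this]
          exact Nat.mul_div_cancel _ (by positivity)
    have hqR : ((m / 2 ^ (38 * l) : ℕ) : ℝ) ≤ 12 * l * 2 ^ (20 * l) := by exact_mod_cast hq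
    have h20 : (1 : ℝ) ≤ l * 2 ^ (20 * l) := by
      have : (1 : ℝ) ≤ 2 ^ (20 * l) := one_le_pow₀ (by norm_num)
      nlinarith
    have h40 : (1040 : ℝ) * l ≤ 2 ^ (2 * l) := by exact_mod_cast four_pow l hl
    have h22 : (2 : ℝ) ^ (22 * l) = 2 ^ (2 * l) * 2 ^ (20 * l) := by
      rw [← pow_add]
      congr 1
      ring
    push_cast
    rw [mul_div_assoc', div_le_iff₀ (by positivity), h22]
    have hp : (0 : ℝ) < 2 ^ (20 * l) := by positivity
    nlinarith [mul_le_mul_of_nonneg_right h40 hp.le]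
  -- the number of moves
  have hu : ((uu l : ℕ) : ℝ) = 13 / 2 * (nn l : ℝ) * l := by
    have : 2 * uu l = 13 * nn l * l := by
      unfold uu nn
      have h58 : 2 ^ (58 * l) = 2 * 2 ^ (58 * l - 1) := by
        rw [← pow_succ']
        congr 1
        omega
      rw [h58]
      ring
    have h' : (2 : ℝ) * (uu l : ℝ) = 13 * (nn l : ℝ) * l := by exact_mod_cast this
    linarith
  have hmR : (m : ℝ) ≤ 12 * (nn l : ℝ) * l := by exact_mod_cast hm
  have hpos : (0 : ℝ) < (nn l : ℝ) * l := by positivity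
  have hB : ∑ w : Wd (nn l) m, (if uu l < cnt w then ww w else 0) ≤ 1 / 20 := by
    refine (h3 (nn l) m (uu l) (by omega) (by rw [hu]; nlinarith)).trans ?_
    have hd : (nn l : ℝ) * l / 2 ≤ (uu l : ℝ) - m / 2 := by rw [hu]; nlinarith
    have hd2 : ((nn l : ℝ) * l / 2) ^ 2 ≤ ((uu l : ℝ) - m / 2) ^ 2 :=
      pow_le_pow_left₀ (by positivity) hd 2
    have hd3 : (0 : ℝ) < ((uu l : ℝ) - m / 2) ^ 2 := lt_of_lt_of_le (by positivity) hd2
    rw [div_le_iff₀ (by positivity)]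
    nlinarith [mul_le_mul hN hlR (by norm_num) (by positivity)]
  linarith

end Pool.Agent.ENC
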