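import Pool.Agent.ENC.Stmts

namespace Pool.Agent.ENC

open Finset Filter Topology Pool.Agent.LazyWalk

namespace M_GRD

lemma mag_eq {n : ℕ} (x : Cube n) : mag x = n - 2 * wt x := by
  unfold mag wt
  have h : ∀ i, (if x i = 0 then (1 : ℝ) else -1) = 1 - 2 * (if x i ≠ 0 then (1 : ℝ) else 0) := by
    intro i
    by_cases h : x i = 0
    · simp [h]
    · simp [h]; norm_num
  simp only [h, Finset.sum_sub_distrib, Finset.sum_const, Finset.card_univ, Fintype.card_fin,
    nsmul_eq_mul, mul_one, ← Finset.mul_sum]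
  rw [Finset.sum_boole]

lemma mag_add_ee {n : ℕ} (x : Cube n) (i : Fin n) : mag x - 2 ≤ mag (x + ee i) := by
  have h : mag x - mag (x + ee i) ≤ 2 := by
    unfold mag
    rw [← Finset.sum_sub_distrib]
    have h1 : ∀ j : Fin n, ((if x j = 0 then (1 : ℝ) else -1) -
        (if (x + ee i) j = 0 then (1 : ℝ) else -1)) ≤ if j = i then 2 else 0 := by
      intro j
      by_cases hj : j = i
      · rw [if_pos hj]
        split_ifs <;> norm_num
      · rw [if_neg hj]
        have : (x + ee i) j = x j := by
          simp [ee, hj]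
        rw [this]
        simp
    calc _ ≤ ∑ j : Fin n, (if j = i then (2 : ℝ) else 0) := Finset.sum_le_sum fun j _ => h1 j
      _ = 2 := by simp
  linarith

lemma pre_succ {n m : ℕ} (w : Wd n m) (b : ℕ) (hb : b < m) :
    pre w (b + 1) = pre w b + lv (w ⟨b, hb⟩) := by
  unfold pre
  have h : (univ.filter fun r : Fin m => (r : ℕ) < b + 1) =
      insert (⟨b, hb⟩ : Fin m) (univ.filter fun r : Fin m => (r : ℕ) < b) := by
    ext r
    simp only [Finset.mem_filter, Finset.mem_univ, true_and, Finset.mem_insert, Fin.ext_iff]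
    omega
  rw [h, Finset.sum_insert (by simp)]
  exact add_comm _ _

lemma mag_step {n m : ℕ} (w : Wd n m) (b : ℕ) (hb : b < m) :
    mag (pre w b) - 2 ≤ mag (pre w (b + 1)) := by
  rw [pre_succ w b hb]
  rcases h : w ⟨b, hb⟩ with _ | i
  · simp only [lv, add_zero]
    linarith
  · simp only [lv]
    exact mag_add_ee _ i

lemma mag_steps {n m : ℕ} (w : Wd n m) (a r : ℕ) (h : a + r ≤ m) :
    mag (pre w a) - 2 * r ≤ mag (pre w (a + r)) := by
  induction r with
  | zero => simp
  | succ r ih =>
    have h1 := ih (by omega)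
    have h2 := mag_step w (a + r) (by omega)
    rw [← add_assoc]
    push_cast
    linarith

end M_GRD

open M_GRD

theorem t_GRD : St_GRD := by
  intro n m g w hg h b hb
  have h1 := h (b / g) ((Nat.div_mul_le_self b g).trans hb)
  have h2 : b / g * g + b % g = b := Nat.div_add_mod' b g
  have h3 := mag_steps w (b / g * g) (b % g) (by omega)
  have h4 : b % g < g := Nat.mod_lt b (by omega)
  have h4' : ((b % g : ℕ) : ℝ) < g := by exact_mod_cast h4
  rw [h2] at h3
  have h5 : 0 < mag (pre w b) := by linarith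
  rw [mag_eq] at h5
  have h6 : (2 : ℝ) * (wt (pre w b) : ℝ) < n := by linarith
  exact_mod_cast h6

end Pool.Agent.ENC
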