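import Pool.Agent.ENC.Stmts

/-!
ENC_GT for MP_1e9518_pr: transposition of the two kinds of increments.
-/

namespace Pool.Agent.ENC

open Finset Filter Topology Pool.Agent.LazyWalk

namespace M_GT

/-- Transposition of the tensor part. -/
def tau (D M : ℕ) : Lam D M ≃ Lam D M where
  toFun a := (fun i j => a.1 j i, a.2)
  invFun a := (fun i j => a.1 j i, a.2)
  left_inv _ := rfl
  right_inv _ := rfl

theorem tau_add (D M : ℕ) (a b : Lam D M) : tau D M (a + b) = tau D M a + tau D M b := rfl

theorem tau_zero (D M : ℕ) : tau D M 0 = 0 := rfl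

theorem tau_inc2 {D M : ℕ} (y : Fin D → ZMod 2) (g : Fin (D + 1) → Fin M → ZMod 2) :
    tau D M (inc2 y g) = inc1 y g := by
  simp only [tau, inc2, inc1, Equiv.coe_fn_mk, Prod.mk.injEq, and_true]
  funext i j m
  exact mul_comm _ _

theorem S1_eq (D M : ℕ) : S1 D M = (S2 D M).map (tau D M).toEmbedding := by
  rw [Finset.map_eq_image]
  unfold S1 S2
  rw [Finset.image_image]
  refine Finset.image_congr ?_
  intro p _
  exact (tau_inc2 p.1 p.2).symm

theorem avgOn_tau (D M : ℕ) (g h : Lam D M → ℝ) (hgh : ∀ a, g a = h (tau D M a)) (a : Lam D M) :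
    avgOn (S2 D M) g a = avgOn (S1 D M) h (tau D M a) := by
  unfold avgOn
  rw [S1_eq, Finset.sum_map, Finset.card_map]
  congr 1
  refine Finset.sum_congr rfl ?_
  intro b _
  rw [hgh, tau_add]
  rfl

theorem dzero_tau (D M : ℕ) (a : Lam D M) :
    dzero (Lam D M) a = dzero (Lam D M) (tau D M a) := by
  unfold dzero
  have h : a = 0 ↔ tau D M a = 0 := by
    constructor
    · intro h
      rw [h, tau_zero]
    · intro h
      apply (tau D M).injective
      rw [h, tau_zero]
  by_cases ha : a = 0
  · rw [if_pos ha, if_pos (h.1 ha)]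
  · rw [if_neg ha, if_neg (fun h' => ha (h.2 h'))]

theorem GG_tau (D M : ℕ) : ∀ (k : ℕ) (a : Lam D M),
    GG (S1 D M) (S2 D M) 0 k a = GG (S1 D M) (S2 D M) k 0 (tau D M a) := by
  intro k
  unfold GG
  simp only [Function.iterate_zero, id_eq]
  induction k with
  | zero =>
    intro a
    simp only [Function.iterate_zero, id_eq]
    exact dzero_tau D M a
  | succ k ih =>
    intro a
    rw [Function.iterate_succ_apply', Function.iterate_succ_apply']
    exact avgOn_tau D M _ _ ih a

end M_GT

open M_GT in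
/-- ENC_GT. -/
theorem t_GT : St_GT := by
  intro D M k
  refine ⟨fun X r => GG_tau D M k (X, r), ?_⟩
  unfold Ent avg
  congr 1
  refine Fintype.sum_equiv (tau D M) _ _ ?_
  intro a
  rw [GG_tau D M k a]

end Pool.Agent.ENC
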