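import Pool.Agent.ENC.Stmts

/-!
Entropy of the walker for MP_1e9518_pr, Q1 (statement `St_HX`).
-/

namespace Pool.Agent.ENC.M_HX

open Finset Pool.Agent.LazyWalk

variable {n : ℕ}

/-- Transition operator of the walker, acting on functions on the cube. -/
noncomputable def T (n : ℕ) (α : ℝ) (g : Cube n → ℝ) : Cube n → ℝ := fun h =>
  (1 / 2) * g h + (1 - α) / (2 * n) * ∑ i, g (h - Pi.single i 1) + α / 2 * g (h - 1)

/-- The density of the walker. -/
noncomputable def gt (n : ℕ) (α : ℝ) (t : ℕ) : Cube n → ℝ := fun h => Dual.G n α t (zeros h)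

lemma sub_eq_add_cube (h c : Cube n) : h - c = h + c := by
  funext i
  have : ∀ a b : ZMod 2, a - b = a + b := by decide
  exact this _ _

lemma sub_sub_cube (h c : Cube n) : h - c - c = h := by
  funext i
  have : ∀ a b : ZMod 2, a - b - b = a := by decide
  exact this _ _

lemma gt_succ (hn : 1 ≤ n) {α : ℝ} (h0 : 0 ≤ α) (h1 : α ≤ 1) (t : ℕ) :
    gt n α (t + 1) = T n α (gt n α t) := by
  funext h
  unfold gt T
  rw [Dual.G_succ h0 h1 hn (zeros_le h), ← sum_zeros h (Dual.G n α t), ← zeros_sub_one]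

lemma sum_shift (c : Cube n) (f k : Cube n → ℝ) :
    ∑ h, f (h - c) * k h = ∑ h, f h * k (h - c) := by
  have e : Function.Involutive (fun h : Cube n => h - c) := fun h => sub_sub_cube h c
  rw [← Equiv.sum_comp (e.toPerm) (fun h => f (h - c) * k h)]
  refine Finset.sum_congr rfl fun h _ => ?_
  show f (h - c - c) * k (h - c) = _
  rw [sub_sub_cube]

lemma T_symm (α : ℝ) (f k : Cube n → ℝ) :
    ∑ h, T n α f h * k h = ∑ h, f h * T n α k h := by
  unfold T
  have e1 : ∀ h : Cube n, ((1 / 2) * f h + (1 - α) / (2 * n) * ∑ i, f (h - Pi.single i 1) +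
      α / 2 * f (h - 1)) * k h = (1 / 2) * (f h * k h) + (1 - α) / (2 * n) *
      ∑ i, f (h - Pi.single i 1) * k h + α / 2 * (f (h - 1) * k h) := by
    intro h
    rw [← Finset.sum_mul]
    ring
  have e2 : ∀ h : Cube n, f h * ((1 / 2) * k h + (1 - α) / (2 * n) * ∑ i, k (h - Pi.single i 1) +
      α / 2 * k (h - 1)) = (1 / 2) * (f h * k h) + (1 - α) / (2 * n) *
      ∑ i, f h * k (h - Pi.single i 1) + α / 2 * (f h * k (h - 1)) := by
    intro h
    rw [← Finset.mul_sum]
    ring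
  simp only [e1, e2, Finset.sum_add_distrib, ← Finset.mul_sum]
  rw [Finset.sum_comm, sum_shift 1 f k]
  congr 2
  congr 1
  have e3 : ∑ h : Cube n, f h * ∑ i, k (h - Pi.single i 1) =
      ∑ i, ∑ h : Cube n, f h * k (h - Pi.single i 1) := by
    simp only [Finset.mul_sum]
    exact Finset.sum_comm
  rw [e3]
  exact Finset.sum_congr rfl fun i _ => sum_shift _ f k

lemma sum_mul_gt (hn : 1 ≤ n) {α : ℝ} (h0 : 0 ≤ α) (h1 : α ≤ 1) (s : ℕ) : ∀ t : ℕ,
    ∑ h, gt n α s h * gt n α t h = 2 ^ n * Dual.G n α (s + t) n := by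
  intro t
  induction t generalizing s with
  | zero =>
    have e : ∀ h : Cube n, gt n α s h * gt n α 0 h = if h = 0 then 2 ^ n * Dual.G n α s n else 0 := by
      intro h
      unfold gt
      rw [Dual.G_zero α (zeros_le h)]
      by_cases hh : h = 0
      · have hz := (zeros_eq_top h).2 hh
        rw [if_pos hz, if_pos hh, hz, mul_comm]
      · rw [if_neg (fun h' => hh ((zeros_eq_top h).1 h')), if_neg hh, mul_zero]
    simp only [e, Finset.sum_ite_eq', Finset.mem_univ, if_true, add_zero]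
  | succ t ih =>
    rw [gt_succ hn h0 h1 t, ← T_symm, ← gt_succ hn h0 h1 s, ih (s + 1)]
    congr 2
    ring

lemma G_top_le (hn : 1 ≤ n) {α : ℝ} (h0 : 0 ≤ α) (h1 : α ≤ 1) (t : ℕ) :
    Dual.G n α (2 * t) n ≤ (1 + Real.exp (-(2 * (1 - α) * t / n))) ^ n := by
  unfold Dual.G
  have hup : ∀ U ≤ n, ∀ g, Dual.Phi n n U g ≤ (∑ r ∈ range (n + 1), (1 : ℝ) ^ r • Dual.ch r) U g := by
    intro U hU g
    rw [Dual.pow_eq_sum_ch 1 U hU g]
    refine (Dual.Phi_le hU le_rfl g).trans (le_of_eq ?_)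
    norm_num
  refine (Dual.Lm_pow_mono h0 h1 hup (2 * t) n le_rfl false).trans ?_
  simp only [map_sum, map_smul, Finset.sum_apply, Pi.smul_apply, smul_eq_mul,
    Dual.Lm_pow_ch (lt_of_lt_of_le Nat.zero_lt_one hn), one_pow, one_mul]
  rw [add_comm 1 (Real.exp _), add_pow]
  refine Finset.sum_le_sum fun r hr => ?_
  rw [one_pow, mul_one]
  refine mul_le_mul_of_nonneg_right ?_ (Nat.cast_nonneg _)
  have hr' : r ≤ n := by
    rw [Finset.mem_range] at hr
    omega
  have hpos := Dual.rho_nonneg h0 h1 (lt_of_lt_of_le Nat.zero_lt_one hn) hr'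
  unfold Dual.rho at hpos
  have hexp : 1 - (1 - α) * r / n ≤ Real.exp (-((1 - α) * r / n)) := by
    have := Real.add_one_le_exp (-((1 - α) * r / n))
    linarith
  refine (pow_le_pow_left₀ hpos hexp (2 * t)).trans (le_of_eq ?_)
  rw [← Real.exp_nat_mul, ← Real.exp_nat_mul]
  congr 1
  push_cast
  ring

end Pool.Agent.ENC.M_HX

namespace Pool.Agent.ENC

open Finset Pool.Agent.LazyWalk

theorem t_HX (h1 : St_HQ) (h2 : St_EQ) (h3 : St_MIX) : St_HX := by
  intro n α hn ha0 ha1 t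
  have hcard : (Fintype.card (Cube n) : ℝ) = 2 ^ n := by
    simp [Cube, ZMod.card]
  have hpow : (0 : ℝ) < 2 ^ n := by positivity
  have hf : ∀ h : Cube n, (Eop n α)^[t] (fun s => if s.1 = h then (2 : ℝ) ^ n else 0) (s0 n) =
      M_HX.gt n α t h := fun h => h1 n α hn ha0 ha1 t h
  obtain ⟨K, hK, w, st, hw0, hw1, hmix⟩ := h3 n α hn ha0 ha1 t (s0 n)
  have hnn : ∀ h : Cube n,
      0 ≤ (Eop n α)^[t] (fun s => if s.1 = h then (2 : ℝ) ^ n else 0) (s0 n) := by
    intro h
    rw [hmix]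
    refine Finset.sum_nonneg fun k _ => mul_nonneg (hw0 k) ?_
    split_ifs
    · exact hpow.le
    · exact le_rfl
  have hav : avg (fun h : Cube n =>
      (Eop n α)^[t] (fun s => if s.1 = h then (2 : ℝ) ^ n else 0) (s0 n)) = 1 := by
    unfold avg
    simp only [hmix]
    rw [Finset.sum_comm, hcard, div_eq_one_iff_eq hpow.ne']
    simp only [← Finset.mul_sum, Finset.sum_ite_eq, Finset.mem_univ, if_true]
    rw [← Finset.sum_mul, hw1, one_mul]
  refine (h2 (Cube n) _ hnn hav).trans ?_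
  have hsq : avg (fun h : Cube n =>
      ((Eop n α)^[t] (fun s => if s.1 = h then (2 : ℝ) ^ n else 0) (s0 n)) ^ 2) =
      Dual.G n α (2 * t) n := by
    unfold avg
    simp only [hf, pow_two]
    rw [M_HX.sum_mul_gt hn ha0 ha1 t t, hcard, mul_div_cancel_left₀ _ hpow.ne', two_mul]
  rw [hsq]
  have := M_HX.G_top_le hn ha0 ha1 t
  linarith

end Pool.Agent.ENC
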