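import Pool.Agent.ENC.Stmts

/-!
ENC_LB: lower bound for the entropy by one event.
-/

namespace Pool.Agent.ENC

open Finset Filter Topology

namespace M_LB

lemma tangent {x a : ℝ} (hx : 0 ≤ x) (ha : 0 < a) : x * Real.log a + x - a ≤ phi x := by
  unfold phi
  rcases hx.eq_or_lt with h0 | h0
  · rw [← h0]; simp; exact ha.le
  · have h1 := Real.log_le_sub_one_of_pos (div_pos ha h0)
    rw [Real.log_div ha.ne' h0.ne'] at h1
    have h2 : x * (Real.log a - Real.log x) ≤ x * (a / x - 1) :=
      mul_le_mul_of_nonneg_left h1 hx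
    have h3 : x * (a / x - 1) = a - x := by field_simp
    rw [h3] at h2
    linarith

end M_LB

open M_LB in
theorem t_LB : St_LB := by
  intro X _ _ g B hg h1 hB
  classical
  have hN : (0 : ℝ) < Fintype.card X := by exact_mod_cast Fintype.card_pos
  have hb : (0 : ℝ) < (B.card : ℝ) := by exact_mod_cast hB.card_pos
  set N : ℝ := (Fintype.card X : ℝ) with hNd
  set b : ℝ := (B.card : ℝ) with hbd
  have hsum : ∑ x, g x = N := by
    unfold avg at h1
    rw [div_eq_one_iff_eq hN.ne'] at h1
    exact h1
  -- pointwise bound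
  have hpt : ∀ x, (if x ∈ B then g x * (Real.log (N / b) - Real.log 2) + g x - (N / b) / 2
      else g x * (- Real.log 2) + g x - 1 / 2) ≤ phi (g x) := by
    intro x
    split_ifs with hx
    · have h := tangent (hg x) (a := (N / b) / 2) (by positivity)
      rw [Real.log_div (by positivity) (by norm_num)] at h
      exact h
    · have h := tangent (hg x) (a := 1 / 2) (by norm_num)
      rw [Real.log_div (by norm_num) (by norm_num), Real.log_one, zero_sub] at h
      exact h
  have hs := Finset.sum_le_sum fun x (_ : x ∈ (Finset.univ : Finset X)) => hpt x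
  have hcalc : ∑ x, (if x ∈ B then g x * (Real.log (N / b) - Real.log 2) + g x - (N / b) / 2
      else g x * (- Real.log 2) + g x - 1 / 2) =
      (∑ x ∈ B, g x) * Real.log (N / b) - N * Real.log 2 + N - b * ((N / b) / 2)
        - (N - b) * (1 / 2) := by
    have e1 : ∀ x, (if x ∈ B then g x * (Real.log (N / b) - Real.log 2) + g x - (N / b) / 2
      else g x * (- Real.log 2) + g x - 1 / 2) =
      (if x ∈ B then g x * Real.log (N / b) - (N / b) / 2 + 1 / 2 else 0) +
        (g x * (- Real.log 2) + g x - 1 / 2) := by
      intro x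
      split_ifs <;> ring
    rw [Finset.sum_congr rfl fun x _ => e1 x, Finset.sum_add_distrib, Finset.sum_ite_mem,
      Finset.univ_inter]
    simp only [Finset.sum_add_distrib, Finset.sum_sub_distrib, ← Finset.sum_mul,
      Finset.sum_const, nsmul_eq_mul, hsum, Finset.card_univ]
    rw [← hNd, ← hbd]
    ring
  rw [hcalc] at hs
  have hbN : b * ((N / b) / 2) = N / 2 := by field_simp
  rw [hbN] at hs
  unfold Ent avg
  rw [le_div_iff₀ hN]
  have : ((∑ x ∈ B, g x) / N * Real.log (N / b) - Real.log 2) * N =
      (∑ x ∈ B, g x) * Real.log (N / b) - N * Real.log 2 := by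
    field_simp
  rw [this]
  linarith

end Pool.Agent.ENC
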