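import Pool.Agent.ENC.Stmts2
import Pool.Agent.ENC.LB

/-!
ENC_LB2: lower bound for the entropy by one event (with a free level).
-/

namespace Pool.Agent.ENC

open Finset Filter Topology

open M_LB in
theorem t_LB2 : St_LB2 := by
  intro X _ _ g B p0 hg h1 hB hp1 hp2
  classical
  have hN : (0 : ℝ) < Fintype.card X := by exact_mod_cast Fintype.card_pos
  have hb : (0 : ℝ) < (B.card : ℝ) := by exact_mod_cast hB.card_pos
  set N : ℝ := (Fintype.card X : ℝ) with hNd
  set b : ℝ := (B.card : ℝ) with hbd
  have hp0 : 0 < p0 := lt_of_lt_of_le (by positivity) hp1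
  have ha1 : 1 ≤ p0 * (N / b) := by
    have h2 : (b / N) * (N / b) ≤ p0 * (N / b) := mul_le_mul_of_nonneg_right hp1 (by positivity)
    have h3 : (b / N) * (N / b) = 1 := by field_simp
    rwa [h3] at h2
  set a : ℝ := p0 * (N / b) with had
  have ha0 : 0 < a := by linarith
  have hsum : ∑ x, g x = N := by
    unfold avg at h1
    rw [div_eq_one_iff_eq hN.ne'] at h1
    exact h1
  -- pointwise bound
  have hpt : ∀ x, (if x ∈ B then g x * Real.log a + g x - a else g x - 1) ≤ phi (g x) := by
    intro x
    split_ifs with hx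
    · exact tangent (hg x) (a := a) ha0
    · have h := tangent (hg x) (a := 1) (by norm_num)
      rw [Real.log_one] at h
      linarith
  have hs := Finset.sum_le_sum fun x (_ : x ∈ (Finset.univ : Finset X)) => hpt x
  have hcalc : ∑ x, (if x ∈ B then g x * Real.log a + g x - a else g x - 1) =
      (∑ x ∈ B, g x) * Real.log a - b * a + b := by
    have e1 : ∀ x, (if x ∈ B then g x * Real.log a + g x - a else g x - 1) =
      (if x ∈ B then g x * Real.log a - a + 1 else 0) + (g x - 1) := by
      intro x
      split_ifs <;> ring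
    rw [Finset.sum_congr rfl fun x _ => e1 x, Finset.sum_add_distrib, Finset.sum_ite_mem,
      Finset.univ_inter]
    simp only [Finset.sum_add_distrib, Finset.sum_sub_distrib, ← Finset.sum_mul,
      Finset.sum_const, nsmul_eq_mul, hsum, Finset.card_univ]
    rw [← hNd, ← hbd]
    ring
  rw [hcalc] at hs
  have hba : b * a = p0 * N := by rw [had]; field_simp
  rw [hba] at hs
  have hla : 0 ≤ Real.log a := Real.log_nonneg ha1
  have hp3 : p0 * N ≤ ∑ x ∈ B, g x := by
    rwa [le_div_iff₀ hN] at hp2
  have hp4 : p0 * N * Real.log a ≤ (∑ x ∈ B, g x) * Real.log a :=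
    mul_le_mul_of_nonneg_right hp3 hla
  unfold Ent avg
  rw [le_div_iff₀ hN]
  have : p0 * (Real.log a - 1) * N = p0 * N * Real.log a - p0 * N := by ring
  rw [this]
  linarith

end Pool.Agent.ENC
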