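import Pool.Agent.ENC.Stmts

namespace Pool.Agent.ENC.M_LBP

open Finset Filter Topology Pool.Agent.LazyWalk Pool.Agent.ENC

theorem avgOn_ne {Λ : Type} [AddCommGroup Λ] [Fintype Λ] (S : Finset Λ) (h0 : (0 : Λ) ∈ S)
    (g : Λ → ℝ) (hg : ∀ a, 0 ≤ g a) (a : Λ) (ha : g a ≠ 0) : avgOn S g a ≠ 0 := by
  unfold avgOn
  have hc : 0 < (S.card : ℝ) := by
    exact_mod_cast Finset.card_pos.mpr ⟨0, h0⟩
  have hs : 0 < ∑ b ∈ S, g (a + b) := by
    apply Finset.sum_pos' (fun b _ => hg _)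
    exact ⟨0, h0, by simpa using lt_of_le_of_ne (hg a) (Ne.symm ha)⟩
  exact (div_pos hs hc).ne'

theorem mono_GG {Λ : Type} [AddCommGroup Λ] [Fintype Λ] [DecidableEq Λ] (S1 S2 : Finset Λ)
    (h01 : (0 : Λ) ∈ S1) (h02 : (0 : Λ) ∈ S2)
    (hnn : ∀ k l a, 0 ≤ GG S1 S2 k l a)
    (h3 : ∀ k l, avgOn S1 (GG S1 S2 k l) = GG S1 S2 (k + 1) l)
    (h4 : ∀ k l, avgOn S2 (GG S1 S2 k l) = GG S1 S2 k (l + 1))
    (k l u : ℕ) (hk : k ≤ u) (hl : l ≤ u) (a : Λ) (ha : GG S1 S2 k l a ≠ 0) :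
    GG S1 S2 u u a ≠ 0 := by
  have e1 : ∀ k', k ≤ k' → GG S1 S2 k' l a ≠ 0 := by
    intro k' hk'
    induction k', hk' using Nat.le_induction with
    | base => exact ha
    | succ m _ ih =>
      rw [← h3 m l]
      exact avgOn_ne S1 h01 _ (hnn m l) a ih
  have e2 : ∀ l', l ≤ l' → GG S1 S2 u l' a ≠ 0 := by
    intro l' hl'
    induction l', hl' using Nat.le_induction with
    | base => exact e1 u hk
    | succ m _ ih =>
      rw [← h4 u m]
      exact avgOn_ne S2 h02 _ (hnn u m) a ih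
  exact e2 u hl

end Pool.Agent.ENC.M_LBP

namespace Pool.Agent.ENC

open Finset Filter Topology Pool.Agent.LazyWalk

open scoped Classical in
/-- ENC_LBP. -/
theorem t_LBP (h1 : St_MIX) (h2 : St_DN) : St_LBP := by
  intro n Λ J _ _ _ _ _ _ S1 S2 α u h01 h02 hn hα0 hα1 t
  obtain ⟨hd0, hd1, h3, h4, hJ, hdens, hav⟩ := h2 n Λ J S1 S2 ⟨0, h01⟩ ⟨0, h02⟩
  have hnn : ∀ k l a, 0 ≤ GG S1 S2 k l a := fun k l a => hd0 (some (k, l)) a
  have hcard : 0 < (Fintype.card (Vt n Λ J) : ℝ) := by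
    exact_mod_cast Fintype.card_pos
  have key : ∀ s : HS n, ibad u s ≤
      (∑ v ∈ (univ.filter fun v : Vt n Λ J => ∃ z, GG S1 S2 u u (v.1 z) ≠ 0),
        dens S1 S2 s v) / Fintype.card (Vt n Λ J) := by
    intro s
    by_cases hB : Bad u s
    · have hz : ∀ v : Vt n Λ J, ¬ (∃ z, GG S1 S2 u u (v.1 z) ≠ 0) → dens S1 S2 s v = 0 := by
        intro v hv
        obtain ⟨z, k, l, hs, hk, hl⟩ := hB
        have hz0 : GG S1 S2 k l (v.1 z) = 0 := by
          by_contra hne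
          exact hv ⟨z, M_LBP.mono_GG S1 S2 h01 h02 hnn h3 h4 k l u hk hl _ hne⟩
        have hp : ∏ z', dlam S1 S2 (s.2.1 z') (v.1 z') = 0 := by
          apply Finset.prod_eq_zero (Finset.mem_univ z)
          rw [hs]
          exact hz0
        unfold dens
        rw [hp]
        ring
      have hsum : ∑ v ∈ (univ.filter fun v : Vt n Λ J => ∃ z, GG S1 S2 u u (v.1 z) ≠ 0),
          dens S1 S2 s v = ∑ v : Vt n Λ J, dens S1 S2 s v := by
        rw [Finset.sum_filter]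
        apply Finset.sum_congr rfl
        intro v _
        by_cases hv : ∃ z, GG S1 S2 u u (v.1 z) ≠ 0
        · rw [if_pos hv]
        · rw [if_neg hv, hz v hv]
      rw [hsum]
      have h := hav s
      unfold avg at h
      rw [h]
      unfold ibad
      rw [if_pos hB]
    · unfold ibad
      rw [if_neg hB]
      exact div_nonneg (Finset.sum_nonneg fun v _ => hdens s v) hcard.le
  obtain ⟨K, hK, w, st, hw, _, hm⟩ := h1 n α hn hα0 hα1 t (s0 n)
  rw [hm (ibad u)]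
  have hr : ∀ v : Vt n Λ J, (Eop n α)^[t] (fun s => dens S1 S2 s v) (s0 n)
      = ∑ k, w k * dens S1 S2 (st k) v := fun v => hm (fun s => dens S1 S2 s v)
  have hR : (∑ v ∈ (univ.filter fun v : Vt n Λ J => ∃ z, GG S1 S2 u u (v.1 z) ≠ 0),
      (Eop n α)^[t] (fun s => dens S1 S2 s v) (s0 n)) / Fintype.card (Vt n Λ J)
      = ∑ k, w k * ((∑ v ∈ (univ.filter fun v : Vt n Λ J => ∃ z, GG S1 S2 u u (v.1 z) ≠ 0),
        dens S1 S2 (st k) v) / Fintype.card (Vt n Λ J)) := by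
    rw [Finset.sum_congr rfl fun v _ => hr v, Finset.sum_comm, Finset.sum_div]
    apply Finset.sum_congr rfl
    intro k _
    rw [← Finset.mul_sum, mul_div_assoc]
  rw [hR]
  exact Finset.sum_le_sum fun k _ => mul_le_mul_of_nonneg_left (key (st k)) (hw k)

end Pool.Agent.ENC
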