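import Pool.Agent.ENC.Stmts

/-!
ENC_LIN: linear algebra bound for the number of tensors of the form
`∑ x a ⊗ g a + ∑ g' b ⊗ y b` (MP_1e9518_pr).
-/

namespace Pool.Agent.ENC.M_LIN

open Finset Module

/-- A matrix with a right inverse that kills `k` given vectors. -/
theorem exists_kill (N k : ℕ) (hk : k ≤ N) (x : Fin k → Fin N → ZMod 2) :
    ∃ (P : Matrix (Fin (N - k)) (Fin N) (ZMod 2)) (P' : Matrix (Fin N) (Fin (N - k)) (ZMod 2)),
      P * P' = 1 ∧ ∀ a i, ∑ j, P i j * x a j = 0 := by
  classical
  set A : Submodule (ZMod 2) (Fin N → ZMod 2) := Submodule.span (ZMod 2) (Set.range x) with hA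
  have h1 : finrank (ZMod 2) A ≤ k := by
    have := finrank_range_le_card (R := ZMod 2) x
    simpa [Set.finrank, hA] using this
  have h2 : finrank (ZMod 2) ((Fin N → ZMod 2) ⧸ A) + finrank (ZMod 2) A = N := by
    have := Submodule.finrank_quotient_add_finrank A
    simpa using this
  have h3 : N - k ≤ finrank (ZMod 2) ((Fin N → ZMod 2) ⧸ A) := by omega
  let e := (Module.finBasis (ZMod 2) ((Fin N → ZMod 2) ⧸ A)).equivFun
  let pr : (Fin (finrank (ZMod 2) ((Fin N → ZMod 2) ⧸ A)) → ZMod 2) →ₗ[ZMod 2]
      (Fin (N - k) → ZMod 2) := LinearMap.funLeft (ZMod 2) (ZMod 2) (Fin.castLE h3)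
  let L : (Fin N → ZMod 2) →ₗ[ZMod 2] (Fin (N - k) → ZMod 2) :=
    pr ∘ₗ e.toLinearMap ∘ₗ A.mkQ
  have hpr : Function.Surjective pr :=
    LinearMap.funLeft_surjective_of_injective _ _ _ (Fin.castLE_injective h3)
  have hL : Function.Surjective L := by
    have : (L : (Fin N → ZMod 2) → (Fin (N - k) → ZMod 2)) = pr ∘ e ∘ A.mkQ := rfl
    rw [this]
    exact hpr.comp (e.surjective.comp (Submodule.mkQ_surjective A))
  obtain ⟨L', hL'⟩ := L.exists_rightInverse_of_surjective (LinearMap.range_eq_top.2 hL)
  refine ⟨LinearMap.toMatrix' L, LinearMap.toMatrix' L', ?_, ?_⟩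
  · rw [← LinearMap.toMatrix'_comp, hL', LinearMap.toMatrix'_id]
  · intro a i
    have h4 : L (x a) = 0 := by
      have h5 : A.mkQ (x a) = 0 := by
        rw [Submodule.mkQ_apply, Submodule.Quotient.mk_eq_zero]
        exact Submodule.subset_span ⟨a, rfl⟩
      show pr (e (A.mkQ (x a))) = 0
      rw [h5, map_zero, map_zero]
    have h6 : (LinearMap.toMatrix' L).mulVec (x a) = 0 := by
      rw [LinearMap.toMatrix'_mulVec, h4]
    have h7 := congrFun h6 i
    simpa [Matrix.mulVec, dotProduct] using h7

end Pool.Agent.ENC.M_LIN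

namespace Pool.Agent.ENC

open Finset Module

open scoped Classical in
theorem t_LIN : St_LIN := by
  intro N M k l x y hk hl
  obtain ⟨P, P', hP, hPx⟩ := M_LIN.exists_kill N k hk x
  obtain ⟨Q, Q', hQ, hQy⟩ := M_LIN.exists_kill N l hl y
  set S := univ.filter fun X : Fin N → Fin N → Fin M → ZMod 2 =>
    ∃ (g : Fin k → Fin N → Fin M → ZMod 2) (g' : Fin l → Fin N → Fin M → ZMod 2),
      X = fun i j m => ∑ a, x a i * g a j m + ∑ b, g' b i m * y b j with hS
  -- the killing property
  have hkill : ∀ X ∈ S, ∀ (m : Fin M),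
      P * (Matrix.of fun i j => X i j m) * Q.transpose = 0 := by
    intro X hX m
    rw [hS, mem_filter] at hX
    obtain ⟨-, g, g', rfl⟩ := hX
    have e1 : (Matrix.of fun i j => (∑ a, x a i * g a j m + ∑ b, g' b i m * y b j)) =
        (Matrix.of fun i a => x a i) * (Matrix.of fun a j => g a j m) +
        (Matrix.of fun i b => g' b i m) * (Matrix.of fun b j => y b j) := by
      ext i j
      simp [Matrix.mul_apply]
    have e2 : P * (Matrix.of fun i a => x a i) = 0 := by
      ext i a
      simpa [Matrix.mul_apply] using hPx a i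
    have e3 : (Matrix.of fun b j => y b j) * Q.transpose = 0 := by
      ext b i
      simpa [Matrix.mul_apply, mul_comm] using hQy b i
    show P * (Matrix.of fun i j => (∑ a, x a i * g a j m + ∑ b, g' b i m * y b j)) *
      Q.transpose = 0
    rw [e1, Matrix.mul_add, Matrix.add_mul, ← Matrix.mul_assoc, e2, Matrix.zero_mul,
      Matrix.zero_mul, zero_add, Matrix.mul_assoc, Matrix.mul_assoc, e3, Matrix.mul_zero,
      Matrix.mul_zero]
  -- the injection
  let F : (Fin N → Fin N → Fin M → ZMod 2) × (Fin (N - k) → Fin (N - l) → Fin M → ZMod 2) →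
      (Fin N → Fin N → Fin M → ZMod 2) := fun p => fun i j m =>
    p.1 i j m + (P' * (Matrix.of fun a b => p.2 a b m) * Q'.transpose) i j
  have hF : ∀ X ∈ S, ∀ (Y : Fin (N - k) → Fin (N - l) → Fin M → ZMod 2) (m : Fin M),
      P * (Matrix.of fun i j => F (X, Y) i j m) * Q.transpose = Matrix.of fun a b => Y a b m := by
    intro X hX Y m
    have e1 : (Matrix.of fun i j => F (X, Y) i j m) = (Matrix.of fun i j => X i j m) +
        P' * (Matrix.of fun a b => Y a b m) * Q'.transpose := by
      ext i j
      simp [F]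
    have e2 : Q'.transpose * Q.transpose = 1 := by
      rw [← Matrix.transpose_mul, hQ, Matrix.transpose_one]
    rw [e1, Matrix.mul_add, Matrix.add_mul, hkill X hX m, zero_add]
    calc P * (P' * (Matrix.of fun a b => Y a b m) * Q'.transpose) * Q.transpose
        = (P * P') * (Matrix.of fun a b => Y a b m) * (Q'.transpose * Q.transpose) := by
          simp only [Matrix.mul_assoc]
      _ = Matrix.of fun a b => Y a b m := by rw [hP, e2, Matrix.one_mul, Matrix.mul_one]
  have hinj : Set.InjOn F (S ×ˢ (univ : Finset (Fin (N - k) → Fin (N - l) → Fin M → ZMod 2)) :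
      Finset _) := by
    rintro ⟨X, Y⟩ hXY ⟨X', Y'⟩ hXY' h
    simp only [coe_product, Set.mem_prod, mem_coe, mem_univ, and_true] at hXY hXY'
    have hY : Y = Y' := by
      funext a b m
      have h1 := hF X hXY Y m
      have h2 := hF X' hXY' Y' m
      rw [h] at h1
      have h3 := h1.symm.trans h2
      have h4 := congrFun (congrFun h3 a) b
      simpa using h4
    subst hY
    have hX : X = X' := by
      funext i j m
      have h1 := congrFun (congrFun (congrFun h i) j) m
      simpa [F] using h1
    rw [hX]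
  have hcard := card_le_card_of_injOn F (fun _ _ => mem_univ _) hinj
  rw [card_product, card_univ, card_univ] at hcard
  have c1 : Fintype.card (Fin (N - k) → Fin (N - l) → Fin M → ZMod 2) =
      2 ^ (M * (N - k) * (N - l)) := by
    simp only [Fintype.card_fun, Fintype.card_fin, ZMod.card]
    rw [← pow_mul, ← pow_mul]
    congr 1
    ring
  have c2 : Fintype.card (Fin N → Fin N → Fin M → ZMod 2) = 2 ^ (M * N ^ 2) := by
    simp only [Fintype.card_fun, Fintype.card_fin, ZMod.card]
    rw [← pow_mul, ← pow_mul]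
    congr 1
    ring
  rw [c1, c2] at hcard
  exact hcard

end Pool.Agent.ENC
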