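import Pool.Agent.ENC.Stmts

/-!
Regularity of the lamplighter type graph and the formula for its transition matrix.
-/

set_option autoImplicit false
set_option linter.unusedSectionVars false

namespace Pool.Agent.ENC

open Finset Filter Topology Pool.Agent.LazyWalk

namespace M_LW

variable {n : ℕ} {Λ J : Type} [AddCommGroup Λ] [Fintype Λ]

theorem two_self (x : Cube n) : x + x = 0 := by
  funext i
  exact CharTwo.add_self_eq_zero (x i)

theorem ee_apply_self (i : Fin n) : (ee i : Cube n) i = 1 := by simp [ee]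

theorem ee_apply_ne {i j : Fin n} (h : j ≠ i) : (ee i : Cube n) j = 0 := by simp [ee, h]

theorem ee_ne_zero (i : Fin n) : (ee i : Cube n) ≠ 0 := by
  intro h
  have := congrFun h i
  rw [ee_apply_self] at this
  exact one_ne_zero this

theorem ee_inj {i j : Fin n} (h : (ee i : Cube n) = ee j) : i = j := by
  by_contra hne
  have := congrFun h i
  rw [ee_apply_self, ee_apply_ne hne] at this
  exact one_ne_zero this

theorem one_ne_zero_cube (hn : 2 ≤ n) : (1 : Cube n) ≠ 0 := by
  intro h
  have := congrFun h (⟨0, by omega⟩ : Fin n)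
  exact one_ne_zero this

theorem ee_ne_one (hn : 2 ≤ n) (i : Fin n) : (ee i : Cube n) ≠ 1 := by
  intro h
  obtain ⟨j, hj⟩ : ∃ j : Fin n, j ≠ i := by
    by_cases h0 : i.val = 0
    · exact ⟨⟨1, by omega⟩, fun e => by rw [← e] at h0; simp at h0⟩
    · exact ⟨⟨0, by omega⟩, fun e => h0 (by rw [← e])⟩
  have := congrFun h j
  rw [ee_apply_ne hj] at this
  exact zero_ne_one this

theorem inc_comm (S1 S2 : Finset Λ) (x x' : Cube n) : inc S1 S2 x x' = inc S1 S2 x' x := by
  unfold inc
  simp only [or_comm (a := 2 * wt x = n), and_comm (a := 2 * wt x < n)]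

theorem adjS_symm (hneg : ∀ a : Λ, -a = a) (S1 S2 : Finset Λ) {i : Fin n} {v v' : Vt n Λ J}
    (h : adjS S1 S2 i v v') : adjS S1 S2 i v' v := by
  obtain ⟨h1, h2⟩ := h
  refine ⟨?_, fun z => ?_⟩
  · rw [h1, add_assoc, two_self, add_zero]
  · rw [inc_comm, ← neg_sub (v'.1 z) (v.1 z), hneg]
    exact h2 z

theorem adjR_symm {v v' : Vt n Λ J} (h : adjR v v') : adjR v' v := by
  obtain ⟨h1, h2, h3, h4⟩ := h
  refine ⟨?_, h2.symm, h4.symm, h3.symm⟩
  rw [h1, add_assoc, two_self, add_zero]

theorem adjS_irrefl (S1 S2 : Finset Λ) {i : Fin n} {v v' : Vt n Λ J}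
    (h : adjS S1 S2 i v v') : v ≠ v' := by
  rintro rfl
  have h1 := h.1
  exact ee_ne_zero i (by simpa using h1.symm)

theorem adjR_irrefl (hn : 2 ≤ n) {v v' : Vt n Λ J} (h : adjR v v') : v ≠ v' := by
  rintro rfl
  have h1 := h.1
  exact one_ne_zero_cube hn (by simpa using h1.symm)

theorem adj_iff (hn : 2 ≤ n) (hneg : ∀ a : Λ, -a = a) (S1 S2 : Finset Λ) (v v' : Vt n Λ J) :
    (LG n Λ J S1 S2).Adj v v' ↔ (∃ i, adjS S1 S2 i v v') ∨ adjR v v' := by
  unfold LG
  rw [SimpleGraph.fromRel_adj]
  constructor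
  · rintro ⟨-, (h | h) | (⟨i, h⟩ | h)⟩
    · exact Or.inl h
    · exact Or.inr h
    · exact Or.inl ⟨i, adjS_symm hneg S1 S2 h⟩
    · exact Or.inr (adjR_symm h)
  · rintro (⟨i, h⟩ | h)
    · exact ⟨adjS_irrefl S1 S2 h, Or.inl (Or.inl ⟨i, h⟩)⟩
    · exact ⟨adjR_irrefl hn h, Or.inl (Or.inr h)⟩

theorem adjS_unique (S1 S2 : Finset Λ) {i j : Fin n} {v v' : Vt n Λ J}
    (h : adjS S1 S2 i v v') (h' : adjS S1 S2 j v v') : i = j := by
  have h1 := h.1
  rw [h'.1] at h1
  exact (ee_inj (add_left_cancel h1)).symm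

theorem adjS_not_adjR (hn : 2 ≤ n) (S1 S2 : Finset Λ) {i : Fin n} {v v' : Vt n Λ J}
    (h : adjS S1 S2 i v v') : ¬ adjR v v' := by
  intro h'
  have h1 := h.1
  rw [h'.1] at h1
  exact ee_ne_one hn i (add_left_cancel h1).symm

open scoped Classical in
theorem ite_adj (hn : 2 ≤ n) (hneg : ∀ a : Λ, -a = a) (S1 S2 : Finset Λ) (v v' : Vt n Λ J)
    (x : ℝ) : (if (LG n Λ J S1 S2).Adj v v' then x else 0) =
      ∑ i, (if adjS S1 S2 i v v' then x else 0) + (if adjR v v' then x else 0) := by
  by_cases hS : ∃ i, adjS S1 S2 i v v'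
  · obtain ⟨i, hi⟩ := hS
    rw [if_pos ((adj_iff hn hneg S1 S2 v v').2 (Or.inl ⟨i, hi⟩)),
      if_neg (adjS_not_adjR hn S1 S2 hi), add_zero, Finset.sum_eq_single i, if_pos hi]
    · intro j _ hj
      exact if_neg fun h => hj (adjS_unique S1 S2 h hi)
    · intro h
      exact absurd (Finset.mem_univ i) h
  · have h0 : ∀ i, ¬ adjS S1 S2 i v v' := fun i hi => hS ⟨i, hi⟩
    rw [Finset.sum_eq_zero fun i _ => if_neg (h0 i), zero_add]
    by_cases hR : adjR v v'
    · rw [if_pos hR, if_pos ((adj_iff hn hneg S1 S2 v v').2 (Or.inr hR))]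
    · rw [if_neg hR, if_neg fun h => ((adj_iff hn hneg S1 S2 v v').1 h).elim hS hR]

open scoped Classical in
theorem card_adjS [Fintype J] (S1 S2 : Finset Λ) (i : Fin n) (v : Vt n Λ J) :
    (univ.filter fun v' : Vt n Λ J => adjS S1 S2 i v v').card = cS n Λ J S1 S2 i := by
  have h1 : (univ.filter fun v' : Vt n Λ J => adjS S1 S2 i v v') =
      ((Fintype.piFinset fun z : Cube n => inc S1 S2 (z - v.2.1) (z - (v.2.1 + ee i))) ×ˢ
        (univ : Finset J)).image fun p => ((v.1 + p.1, v.2.1 + ee i, p.2) : Vt n Λ J) := by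
    ext v'
    simp only [mem_filter, mem_univ, true_and, mem_image, mem_product, and_true,
      Fintype.mem_piFinset]
    constructor
    · rintro ⟨h1, h2⟩
      refine ⟨(v'.1 - v.1, v'.2.2), fun z => ?_, ?_⟩
      · have := h2 z
        rw [h1] at this
        exact this
      · refine Prod.ext ?_ (Prod.ext h1.symm rfl)
        show v.1 + (v'.1 - v.1) = v'.1
        abel
    · rintro ⟨p, hp, rfl⟩
      refine ⟨rfl, fun z => ?_⟩
      show (v.1 + p.1) z - v.1 z ∈ inc S1 S2 (z - v.2.1) (z - (v.2.1 + ee i))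
      have e : (v.1 + p.1) z - v.1 z = p.1 z := by
        rw [Pi.add_apply]
        abel
      rw [e]
      exact hp z
  rw [h1, Finset.card_image_of_injective, Finset.card_product, Fintype.card_piFinset,
    Finset.card_univ, mul_comm]
  · unfold cS
    congr 1
    refine Fintype.prod_equiv (Equiv.subRight v.2.1) _ _ fun z => ?_
    show (inc S1 S2 (z - v.2.1) (z - (v.2.1 + ee i))).card =
      (inc S1 S2 (z - v.2.1) (z - v.2.1 - ee i)).card
    rw [sub_add_eq_sub_sub]
  · intro p p' h
    have h2 : v.1 + p.1 = v.1 + p'.1 := congrArg Prod.fst h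
    have h3 : p.2 = p'.2 := congrArg (fun q : Vt n Λ J => q.2.2) h
    exact Prod.ext (add_left_cancel h2) h3

open scoped Classical in
theorem card_adjR [Fintype J] (hn : 2 ≤ n) (v : Vt n Λ J) :
    (univ.filter fun v' : Vt n Λ J => adjR v v').card = cR n Λ := by
  have h1 : (univ.filter fun v' : Vt n Λ J => adjR v v') =
      (Fintype.piFinset fun z : Cube n =>
        if z = v.2.1 ∨ z = v.2.1 + 1 then ({v.1 z} : Finset Λ) else univ).image
          fun p => ((p, v.2.1 + 1, v.2.2) : Vt n Λ J) := by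
    ext v'
    simp only [mem_filter, mem_univ, true_and, mem_image, Fintype.mem_piFinset]
    constructor
    · rintro ⟨h1, h2, h3, h4⟩
      refine ⟨v'.1, fun z => ?_, ?_⟩
      · by_cases hz : z = v.2.1 ∨ z = v.2.1 + 1
        · rw [if_pos hz, mem_singleton]
          rcases hz with hz | hz
          · rw [hz, h3]
          · rw [hz, ← h1, h4]
        · rw [if_neg hz]
          exact mem_univ _
      · exact Prod.ext rfl (Prod.ext h1.symm h2.symm)
    · rintro ⟨p, hp, rfl⟩
      refine ⟨rfl, rfl, ?_, ?_⟩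
      · have := hp v.2.1
        rw [if_pos (Or.inl rfl), mem_singleton] at this
        exact this
      · have := hp (v.2.1 + 1)
        rw [if_pos (Or.inr rfl), mem_singleton] at this
        exact this
  rw [h1, Finset.card_image_of_injective, Fintype.card_piFinset]
  · unfold cR
    have h2 : ∀ z : Cube n, (if z = v.2.1 ∨ z = v.2.1 + 1 then ({v.1 z} : Finset Λ)
        else univ).card = if z = v.2.1 ∨ z = v.2.1 + 1 then 1 else Fintype.card Λ := by
      intro z
      split_ifs
      · exact card_singleton _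
      · exact card_univ
    simp only [h2]
    rw [Finset.prod_ite, Finset.prod_const_one, one_mul, Finset.prod_const]
    congr 1
    have h3 : (univ.filter fun z : Cube n => ¬ (z = v.2.1 ∨ z = v.2.1 + 1)) =
        univ \ {v.2.1, v.2.1 + 1} := by
      ext z
      simp
    have h4 : v.2.1 ≠ v.2.1 + 1 := by
      intro h
      exact one_ne_zero_cube hn (by simpa using h.symm)
    rw [h3, Finset.card_univ_sdiff, Finset.card_pair h4]
    congr 1
    simp [ZMod.card]
  · intro p p' h
    exact congrArg Prod.fst h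

end M_LW

open M_LW in
theorem t_LW : St_LW := by
  classical
  intro n Λ J _ _ _ _ S1 S2 c hn hneg hc
  have hR : Reg (LG n Λ J S1 S2) (n * c + cR n Λ) := by
    refine ⟨?_, fun v => ?_⟩
    · have : 0 < cR n Λ := by
        unfold cR
        exact pow_pos Fintype.card_pos _
      omega
    · have h1 : ((univ.filter fun y => (LG n Λ J S1 S2).Adj v y).card : ℝ) =
          ((n * c + cR n Λ : ℕ) : ℝ) := by
        rw [Finset.card_eq_sum_ones, Finset.sum_filter]
        push_cast
        have h2 : ∀ v' : Vt n Λ J, (if (LG n Λ J S1 S2).Adj v v' then (1 : ℝ) else 0) =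
            ∑ i, (if adjS S1 S2 i v v' then (1 : ℝ) else 0) + (if adjR v v' then 1 else 0) := by
          intro v'
          convert ite_adj hn hneg S1 S2 v v' 1
        rw [Finset.sum_congr rfl fun v' _ => h2 v', Finset.sum_add_distrib, Finset.sum_comm]
        have h3 : ∀ i : Fin n, ∑ v' : Vt n Λ J, (if adjS S1 S2 i v v' then (1 : ℝ) else 0) = c := by
          intro i
          rw [Finset.sum_boole, ← hc i]
          congr 1
          convert card_adjS S1 S2 i v
        have h4 : ∑ v' : Vt n Λ J, (if adjR v v' then (1 : ℝ) else 0) = cR n Λ := by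
          rw [Finset.sum_boole]
          congr 1
          convert card_adjR hn v
        rw [Finset.sum_congr rfl fun i _ => h3 i, h4]
        simp
      exact_mod_cast h1
  refine ⟨hR, fun u v => ?_⟩
  have h1 : ∀ v' : Vt n Λ J, lazyWalk (LG n Λ J S1 S2) v v' * u v' =
      (if v = v' then (1 / 2) * u v' else 0) + 1 / (2 * ((n * c + cR n Λ : ℕ) : ℝ)) *
        (∑ i, (if adjS S1 S2 i v v' then u v' else 0) + (if adjR v v' then u v' else 0)) := by
    intro v'
    rw [lazyWalk_apply hR, ← ite_adj hn hneg S1 S2 v v' (u v'), add_mul]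
    congr 1
    · split_ifs
      · rfl
      · rw [zero_mul]
    · split_ifs
      · rfl
      · rw [zero_mul, mul_zero]
  rw [Finset.sum_congr rfl fun v' _ => h1 v', Finset.sum_add_distrib, Finset.sum_ite_eq,
    if_pos (Finset.mem_univ v), ← Finset.mul_sum, Finset.sum_add_distrib, Finset.sum_comm]

end Pool.Agent.ENC
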