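import Pool.Agent.ENC.Stmts

namespace Pool.Agent.ENC

open Finset Filter Topology Pool.Agent.LazyWalk

namespace M_MIX

/-- weights -/
noncomputable def wx (n : ℕ) (α : ℝ) (o : Option (Option (Fin n))) : ℝ :=
  match o with
  | none => 1 / 2
  | some none => α / 2
  | some (some _) => (1 - α) / (2 * n)

/-- states -/
def sx {n : ℕ} (s : HS n) (o : Option (Option (Fin n))) : HS n :=
  match o with
  | none => s
  | some none => stepR s
  | some (some i) => stepS i s

lemma Eop_eq (n : ℕ) (α : ℝ) (Φ : HS n → ℝ) (s : HS n) :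
    Eop n α Φ s = ∑ o : Option (Option (Fin n)), wx n α o * Φ (sx s o) := by
  rw [Fintype.sum_option, Fintype.sum_option]
  simp only [wx, sx, Eop, ← Finset.mul_sum]
  ring

lemma wx_sum (n : ℕ) (α : ℝ) (hn : 1 ≤ n) : ∑ o : Option (Option (Fin n)), wx n α o = 1 := by
  rw [Fintype.sum_option, Fintype.sum_option]
  simp only [wx, Finset.sum_const, Finset.card_univ, Fintype.card_fin, nsmul_eq_mul]
  have : (n : ℝ) ≠ 0 := by
    have : 0 < n := by omega
    positivity
  field_simp
  ring

end M_MIX

open M_MIX

theorem t_MIX : St_MIX := by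
  intro n α hn h0 h1 t s
  induction t with
  | zero =>
    refine ⟨Unit, inferInstance, fun _ => 1, fun _ => s, fun _ => zero_le_one, by simp, ?_⟩
    intro Φ
    simp
  | succ t ih =>
    obtain ⟨K, _, w, st, hw, hw1, hΦ⟩ := ih
    refine ⟨K × Option (Option (Fin n)), inferInstance, fun p => w p.1 * wx n α p.2,
      fun p => sx (st p.1) p.2, ?_, ?_, ?_⟩
    · rintro ⟨k, o⟩
      refine mul_nonneg (hw k) ?_
      rcases o with _ | _ | i
      · simp only [wx]; norm_num
      · simp only [wx]; linarith
      · simp only [wx]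
        have : 0 ≤ 1 - α := by linarith
        positivity
    · rw [Fintype.sum_prod_type]
      simp only [← Finset.mul_sum, wx_sum n α hn, mul_one, hw1]
    · intro Φ
      rw [Function.iterate_succ_apply, hΦ, Fintype.sum_prod_type]
      refine Finset.sum_congr rfl fun k _ => ?_
      rw [Eop_eq, Finset.mul_sum]
      exact Finset.sum_congr rfl fun o _ => by ring

end Pool.Agent.ENC
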