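import Pool.Agent.ENC.Stmts

/-!
# First two moments of the magnetisation
-/

set_option autoImplicit false

namespace Pool.Agent.ENC

open Finset Filter Topology Pool.Agent.LazyWalk

namespace M_MOM

/-- the sign -/
noncomputable def sg (a : ZMod 2) : ℝ := if a = 0 then (1 : ℝ) else -1

theorem sg_sq (a : ZMod 2) : sg a ^ 2 = 1 := by
  unfold sg
  split <;> norm_num

theorem zm (a : ZMod 2) : (a = 0 ∧ ¬ a + 1 = 0) ∨ (¬ a = 0 ∧ a + 1 = 0) := by
  revert a
  decide

theorem sg_add_one (a : ZMod 2) : sg (a + 1) = -sg a := by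
  unfold sg
  rcases zm a with ⟨h1, h2⟩ | ⟨h1, h2⟩
  · rw [if_pos h1, if_neg h2]
  · rw [if_neg h1, if_pos h2]
    norm_num

theorem mag_eq {n : ℕ} (x : Cube n) : mag x = ∑ i, sg (x i) := rfl

theorem mag_add {n : ℕ} (x : Cube n) (i : Fin n) : mag (x + ee i) = mag x - 2 * sg (x i) := by
  rw [mag_eq, mag_eq, ← Finset.add_sum_erase _ _ (mem_univ i), ← Finset.add_sum_erase _ _ (mem_univ i)]
  have h1 : ∑ j ∈ univ.erase i, sg ((x + ee i) j) = ∑ j ∈ univ.erase i, sg (x j) := by
    refine Finset.sum_congr rfl fun j hj => ?_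
    have : (ee i : Cube n) j = 0 := by
      unfold ee
      exact Pi.single_eq_of_ne (Finset.ne_of_mem_erase hj) _
    rw [Pi.add_apply, this, add_zero]
  have h2 : sg ((x + ee i) i) = -sg (x i) := by
    have : (ee i : Cube n) i = 1 := by
      unfold ee
      exact Pi.single_eq_same _ _
    rw [Pi.add_apply, this, sg_add_one]
  rw [h1, h2]
  ring

/-- one letter -/
noncomputable def Lop {n : ℕ} (f : Cube n → ℝ) (x : Cube n) : ℝ :=
  ∑ o : Option (Fin n), lw n o * f (x + lv o)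

theorem Lop_eq {n : ℕ} (f : Cube n → ℝ) (x : Cube n) :
    Lop f x = 1 / 2 * f x + 1 / (2 * n) * ∑ i, f (x + ee i) := by
  unfold Lop
  rw [Fintype.sum_option, Finset.mul_sum]
  congr 1
  show 1 / 2 * f (x + 0) = _
  rw [add_zero]

theorem Lop_one {n : ℕ} (hn : 1 ≤ n) (c : ℝ) (x : Cube n) : Lop (fun _ => c) x = c := by
  have h0 : (n : ℝ) ≠ 0 := by positivity
  rw [Lop_eq]
  simp only [Finset.sum_const, Finset.card_univ, Fintype.card_fin, nsmul_eq_mul]
  field_simp
  ring

theorem Lop_mag {n : ℕ} (hn : 1 ≤ n) (x : Cube n) : Lop mag x = (1 - 1 / (n : ℝ)) * mag x := by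
  have h0 : (n : ℝ) ≠ 0 := by positivity
  rw [Lop_eq]
  simp only [mag_add, Finset.sum_sub_distrib, Finset.sum_const, Finset.card_univ, Fintype.card_fin,
    nsmul_eq_mul, ← Finset.mul_sum, ← mag_eq]
  field_simp
  ring

theorem Lop_mag2 {n : ℕ} (hn : 1 ≤ n) (x : Cube n) :
    Lop (fun y => mag y ^ 2) x = (1 - 2 / (n : ℝ)) * mag x ^ 2 + 2 := by
  have h0 : (n : ℝ) ≠ 0 := by positivity
  rw [Lop_eq]
  have h1 : ∑ i, (mag (x + ee i)) ^ 2 = n * mag x ^ 2 - 4 * mag x ^ 2 + 4 * n := by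
    have h2 : ∀ i : Fin n, mag (x + ee i) ^ 2 = mag x ^ 2 - 4 * mag x * sg (x i) + 4 := by
      intro i
      rw [mag_add]
      linear_combination 4 * sg_sq (x i)
    simp only [h2, Finset.sum_add_distrib, Finset.sum_sub_distrib, Finset.sum_const,
      Finset.card_univ, Fintype.card_fin, nsmul_eq_mul, ← Finset.mul_sum, ← mag_eq]
    ring
  rw [h1]
  field_simp
  ring

theorem sum_lw {n : ℕ} (hn : 1 ≤ n) : ∑ o : Option (Fin n), lw n o = 1 := by
  have h := Lop_one hn 1 (0 : Cube n)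
  unfold Lop at h
  simpa using h

theorem sum_snoc {n m : ℕ} (F : Wd n (m + 1) → ℝ) :
    ∑ w, F w = ∑ w : Wd n m, ∑ o : Option (Fin n), F (Fin.snoc (α := fun _ => Option (Fin n)) w o) := by
  rw [← (Fin.snocEquiv (fun _ : Fin (m + 1) => Option (Fin n))).sum_comp]
  rw [Fintype.sum_prod_type]
  rw [Finset.sum_comm]
  rfl

theorem ww_snoc {n m : ℕ} (w : Wd n m) (o : Option (Fin n)) :
    ww (Fin.snoc (α := fun _ => Option (Fin n)) w o : Wd n (m + 1)) = ww w * lw n o := by
  unfold ww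
  rw [Fin.prod_univ_castSucc]
  simp

theorem pre_snoc {n m b : ℕ} (w : Wd n m) (o : Option (Fin n)) (hb : b ≤ m) :
    pre (Fin.snoc (α := fun _ => Option (Fin n)) w o : Wd n (m + 1)) b = pre w b := by
  unfold pre
  rw [Finset.sum_filter, Finset.sum_filter, Fin.sum_univ_castSucc]
  have h : ¬ m < b := by omega
  simp [h]

theorem pre_snoc_last {n m : ℕ} (w : Wd n m) (o : Option (Fin n)) :
    pre (Fin.snoc (α := fun _ => Option (Fin n)) w o : Wd n (m + 1)) (m + 1) = pre w m + lv o := by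
  unfold pre
  rw [Finset.sum_filter, Finset.sum_filter, Fin.sum_univ_castSucc]
  have h : ∀ i : Fin m, (i : ℕ) < m + 1 := fun i => by omega
  simp [h]

/-- the average -/
noncomputable def T {n : ℕ} (m b : ℕ) (f : Cube n → ℝ) : ℝ := ∑ w : Wd n m, ww w * f (pre w b)

theorem T_succ {n : ℕ} (hn : 1 ≤ n) {m b : ℕ} (hb : b ≤ m) (f : Cube n → ℝ) :
    T (m + 1) b f = T m b f := by
  unfold T
  rw [sum_snoc]
  refine Finset.sum_congr rfl fun w _ => ?_
  have h : ∀ o : Option (Fin n), ww (Fin.snoc (α := fun _ => Option (Fin n)) w o : Wd n (m + 1)) *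
      f (pre (Fin.snoc (α := fun _ => Option (Fin n)) w o : Wd n (m + 1)) b) =
      lw n o * (ww w * f (pre w b)) := by
    intro o
    rw [ww_snoc, pre_snoc w o hb]
    ring
  rw [Finset.sum_congr rfl fun o _ => h o, ← Finset.sum_mul, sum_lw hn, one_mul]

theorem T_last {n : ℕ} (m : ℕ) (f : Cube n → ℝ) : T (m + 1) (m + 1) f = T m m (Lop f) := by
  unfold T
  rw [sum_snoc]
  refine Finset.sum_congr rfl fun w _ => ?_
  unfold Lop
  rw [Finset.mul_sum]
  refine Finset.sum_congr rfl fun o _ => ?_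
  rw [ww_snoc, pre_snoc_last]
  ring

theorem T_zero {n : ℕ} (f : Cube n → ℝ) : T 0 0 f = f 0 := by
  unfold T
  rw [Fintype.sum_unique]
  unfold ww pre
  simp

theorem T_diag {n : ℕ} (hn : 1 ≤ n) {b m : ℕ} (hb : b ≤ m) (f : Cube n → ℝ) :
    T m b f = T b b f := by
  induction m with
  | zero =>
    obtain rfl : b = 0 := by omega
    rfl
  | succ m ih =>
    rcases Nat.lt_or_ge m b with h | h
    · obtain rfl : b = m + 1 := by omega
      rfl
    · rw [T_succ hn h, ih h]

theorem mag_zero (n : ℕ) : mag (0 : Cube n) = n := by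
  unfold mag
  simp

theorem T_lin {n : ℕ} (m b : ℕ) (c : ℝ) (f : Cube n → ℝ) :
    T m b (fun x => c * f x) = c * T m b f := by
  unfold T
  rw [Finset.mul_sum]
  refine Finset.sum_congr rfl fun w _ => ?_
  ring

theorem T_add {n : ℕ} (m b : ℕ) (f g : Cube n → ℝ) :
    T m b (fun x => f x + g x) = T m b f + T m b g := by
  unfold T
  rw [← Finset.sum_add_distrib]
  refine Finset.sum_congr rfl fun w _ => ?_
  ring

theorem T_const {n : ℕ} (hn : 1 ≤ n) (c : ℝ) (b : ℕ) : T (n := n) b b (fun _ => c) = c := by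
  induction b with
  | zero => rw [T_zero]
  | succ b ih =>
    rw [T_last]
    have : (Lop fun _ : Cube n => c) = fun _ => c := funext fun x => Lop_one hn c x
    rw [this, ih]

theorem T_mag {n : ℕ} (hn : 1 ≤ n) (b : ℕ) :
    T (n := n) b b mag = n * (1 - 1 / (n : ℝ)) ^ b := by
  induction b with
  | zero => rw [T_zero, mag_zero, pow_zero, mul_one]
  | succ b ih =>
    rw [T_last]
    have : Lop (mag (n := n)) = fun x => (1 - 1 / (n : ℝ)) * mag x := funext fun x => Lop_mag hn x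
    rw [this, T_lin, ih, pow_succ]
    ring

theorem T_mag2 {n : ℕ} (hn : 1 ≤ n) (b : ℕ) :
    T (n := n) b b (fun x => mag x ^ 2) = n + ((n : ℝ) ^ 2 - n) * (1 - 2 / (n : ℝ)) ^ b := by
  have h0 : (n : ℝ) ≠ 0 := by positivity
  induction b with
  | zero => rw [T_zero, mag_zero]; ring
  | succ b ih =>
    rw [T_last]
    have : Lop (fun x : Cube n => mag x ^ 2) = fun x => (1 - 2 / (n : ℝ)) * mag x ^ 2 + 2 :=
      funext fun x => Lop_mag2 hn x
    rw [this, T_add, T_lin, ih, T_const hn, pow_succ]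
    have h1 : (n : ℝ) * (2 / n) = 2 := by field_simp
    linear_combination -h1

end M_MOM

/-- The first two moments. -/
theorem t_MOM : St_MOM := by
  intro n m b hn hb
  refine ⟨?_, ?_, ?_⟩
  · have h := M_MOM.T_diag hn hb (fun _ : Cube n => (1 : ℝ))
    rw [M_MOM.T_const hn] at h
    unfold M_MOM.T at h
    simpa using h
  · have h := M_MOM.T_diag hn hb (mag (n := n))
    rw [M_MOM.T_mag hn] at h
    exact h
  · have h := M_MOM.T_diag hn hb (fun x : Cube n => mag x ^ 2)
    rw [M_MOM.T_mag2 hn] at h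
    exact h

end Pool.Agent.ENC
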