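import Pool.Agent.ENC.Stmts

/-!
# ENC_N2
-/

namespace Pool.Agent.ENC

open Finset Filter Topology Pool.Agent.LazyWalk

namespace M_N2

theorem exp_le_two {t : ℝ} (h0 : 0 ≤ t) (h1 : t ≤ 1 / 2) : Real.exp t ≤ 2 := by
  have h2 : Real.exp t ≤ 1 / (1 - t) := Real.exp_bound_div_one_sub_of_interval h0 (by linarith)
  refine h2.trans ?_
  rw [div_le_iff₀ (by linarith)]
  linarith

/-- The power of `3/4 + α/4`. -/
theorem pow_bound {α : ℝ} (h0 : 0 ≤ α) (X : ℕ) (hX : α * X ≤ 3 / 2) :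
    (3 / 4 + α / 4) ^ X ≤ 2 * (3 / 4 : ℝ) ^ X := by
  have h1 : (3 / 4 + α / 4 : ℝ) = (3 / 4) * (α / 3 + 1) := by ring
  have h2 : (α / 3 + 1) ^ X ≤ 2 := by
    calc (α / 3 + 1) ^ X ≤ (Real.exp (α / 3)) ^ X :=
          pow_le_pow_left₀ (by linarith) (Real.add_one_le_exp _) X
      _ = Real.exp (X * (α / 3)) := by rw [← Real.exp_nat_mul]
      _ ≤ 2 := exp_le_two (by positivity) (by nlinarith)
  rw [h1, mul_pow]
  have h3 : (0 : ℝ) ≤ (3 / 4 : ℝ) ^ X := by positivity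
  nlinarith

/-- The main estimate, `c = 61/100`. -/
theorem core {n l : ℕ} (hl : 40 ≤ l) (hn : 2 ≤ n) (hln : l ≤ n) {α B L : ℝ} (h0 : 0 ≤ α)
    (hα : α ≤ 1 / ((n : ℝ) * l) ^ 3)
    (hL : L = (64 * (((8 * n * l : ℕ) : ℝ) + 1) ^ 2 + ((8 * n * l : ℕ) : ℝ)) * Real.log 2)
    (hB : B ≤ 2 ^ n * L + 10 * n * l) :
    (2 ^ n * (2 ^ (8 * n * l + 2) * L) + B) * (3 / 4 + α / 4) ^ (21 * n * l) ≤ (1 / 2) ^ n := by
  have hn' : (2 : ℝ) ≤ n := by exact_mod_cast hn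
  have hl' : (40 : ℝ) ≤ l := by exact_mod_cast hl
  have hln' : (l : ℝ) ≤ n := by exact_mod_cast hln
  obtain ⟨P, hP⟩ : ∃ P : ℝ, P = (n : ℝ) * l := ⟨_, rfl⟩
  have hP80 : 80 ≤ P := by rw [hP]; nlinarith
  -- the numbers
  have hlog0 : (1 / 2 : ℝ) ≤ Real.log 2 := by
    have := Real.log_two_gt_d9
    linarith
  have hlog1 : Real.log 2 ≤ 1 := by
    have := Real.log_two_lt_d9
    linarith
  have hcast : ((8 * n * l : ℕ) : ℝ) = 8 * P := by rw [hP]; push_cast; ring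
  rw [hcast] at hL
  have hLlow : 20 * P ≤ L := by
    rw [hL]
    nlinarith [mul_nonneg (sub_nonneg.mpr hlog0)
      (show (0 : ℝ) ≤ 64 * (8 * P + 1) ^ 2 + 8 * P by positivity)]
  have hL0 : 0 ≤ L := by linarith
  have hLup : L ≤ 2 ^ 14 * P ^ 2 := by
    have h1 : (64 * (8 * P + 1) ^ 2 + 8 * P) * Real.log 2 ≤ (64 * (8 * P + 1) ^ 2 + 8 * P) * 1 :=
      mul_le_mul_of_nonneg_left hlog1 (by positivity)
    rw [hL]
    nlinarith
  have h2n : P ^ 2 ≤ (2 : ℝ) ^ (4 * n) := by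
    have h1 : (n : ℝ) ≤ 2 ^ n := by
      exact_mod_cast (Nat.lt_two_pow_self (n := n)).le
    have h2 : P ≤ 2 ^ n * 2 ^ n := by
      rw [hP]
      exact mul_le_mul h1 (hln'.trans h1) (by positivity) (by positivity)
    calc P ^ 2 ≤ (2 ^ n * 2 ^ n) ^ 2 := pow_le_pow_left₀ (by linarith) h2 2
      _ = (2 : ℝ) ^ (4 * n) := by ring
  -- the power
  have hX : α * ((21 * n * l : ℕ) : ℝ) ≤ 3 / 2 := by
    have h1 : ((21 * n * l : ℕ) : ℝ) = 21 * P := by rw [hP]; push_cast; ring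
    rw [h1]
    rw [← hP] at hα
    have h2 : α * P ^ 3 ≤ 1 := by
      rw [le_div_iff₀ (by positivity)] at hα
      exact hα
    have h3 : α * (21 * P) ≤ α * P ^ 3 := by
      apply mul_le_mul_of_nonneg_left _ h0
      nlinarith [mul_nonneg (show (0 : ℝ) ≤ P by linarith)
        (show (0 : ℝ) ≤ P ^ 2 - 21 by nlinarith)]
    linarith
  have hpow := pow_bound h0 (21 * n * l) hX
  obtain ⟨Y, hY⟩ : ∃ Y : ℝ, Y = ((61 / 100 : ℝ) ^ l) ^ n := ⟨_, rfl⟩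
  have hY0 : 0 ≤ Y := by rw [hY]; positivity
  have h34 : (3 / 4 : ℝ) ^ (21 * n * l) ≤ Y * (1 / 2) ^ (8 * n * l) := by
    have h1 : (3 / 4 : ℝ) ^ 21 ≤ (61 / 100) * (1 / 2) ^ 8 := by norm_num
    calc (3 / 4 : ℝ) ^ (21 * n * l) = ((3 / 4 : ℝ) ^ 21) ^ (n * l) := by
          rw [← pow_mul]; congr 1; ring
      _ ≤ ((61 / 100) * (1 / 2) ^ 8) ^ (n * l) := pow_le_pow_left₀ (by positivity) h1 _
      _ = Y * (1 / 2) ^ (8 * n * l) := by
          rw [mul_pow, hY, ← pow_mul, ← pow_mul]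
          congr 2 <;> ring
  have hYup : Y ≤ (1 / 2) ^ (20 * n) := by
    have h1 : (61 / 100 : ℝ) ^ l ≤ (1 / 2) ^ 20 := by
      calc (61 / 100 : ℝ) ^ l ≤ (61 / 100 : ℝ) ^ 40 :=
            pow_le_pow_of_le_one (by norm_num) (by norm_num) hl
        _ ≤ (1 / 2) ^ 20 := by norm_num
    calc Y = ((61 / 100 : ℝ) ^ l) ^ n := hY
      _ ≤ ((1 / 2) ^ 20) ^ n := pow_le_pow_left₀ (by positivity) h1 n
      _ = (1 / 2) ^ (20 * n) := by rw [← pow_mul]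
  -- everything
  obtain ⟨A, hA⟩ : ∃ A : ℝ, A = (2 : ℝ) ^ n := ⟨_, rfl⟩
  obtain ⟨Dd, hDd⟩ : ∃ Dd : ℝ, Dd = (2 : ℝ) ^ (8 * n * l) := ⟨_, rfl⟩
  have hA1 : 1 ≤ A := by rw [hA]; exact one_le_pow₀ (by norm_num)
  have hD1 : 1 ≤ Dd := by rw [hDd]; exact one_le_pow₀ (by norm_num)
  have hDinv : (1 / 2 : ℝ) ^ (8 * n * l) = 1 / Dd := by rw [hDd, one_div_pow]
  have hB' : B ≤ A * L + 10 * P := by
    rw [hA, hP, ← mul_assoc]
    exact hB
  have hsum : 2 ^ n * (2 ^ (8 * n * l + 2) * L) + B ≤ 6 * (A * L * Dd) := by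
    rw [pow_add, ← hA, ← hDd]
    have h1 : A * L ≤ A * L * Dd := le_mul_of_one_le_right (by positivity) hD1
    have h2 : 10 * P ≤ A * L * Dd := by
      have h3 : L ≤ A * L := le_mul_of_one_le_left hL0 hA1
      linarith
    nlinarith
  have hfin : 6 * (A * L * Dd) * (2 * (Y * (1 / Dd))) = 12 * (A * L * Y) := by
    field_simp
    ring
  have hpos : 0 ≤ (3 / 4 + α / 4) ^ (21 * n * l) := by positivity
  calc (2 ^ n * (2 ^ (8 * n * l + 2) * L) + B) * (3 / 4 + α / 4) ^ (21 * n * l)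
      ≤ 6 * (A * L * Dd) * (3 / 4 + α / 4) ^ (21 * n * l) :=
        mul_le_mul_of_nonneg_right hsum hpos
    _ ≤ 6 * (A * L * Dd) * (2 * (Y * (1 / Dd))) := by
        apply mul_le_mul_of_nonneg_left _ (by positivity)
        refine hpow.trans ?_
        rw [← hDinv]
        linarith
    _ = 12 * (A * L * Y) := hfin
    _ ≤ 16 * (2 ^ n * (2 ^ 14 * 2 ^ (4 * n)) * (1 / 2) ^ (20 * n)) := by
        have h1 : L ≤ 2 ^ 14 * 2 ^ (4 * n) := hLup.trans (mul_le_mul_of_nonneg_left h2n (by positivity))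
        have h2 : A * L ≤ 2 ^ n * (2 ^ 14 * 2 ^ (4 * n)) := by
          rw [hA]
          exact mul_le_mul_of_nonneg_left h1 (by positivity)
        have h3 : A * L * Y ≤ 2 ^ n * (2 ^ 14 * 2 ^ (4 * n)) * (1 / 2) ^ (20 * n) :=
          mul_le_mul h2 hYup hY0 (by positivity)
        have h4 : 0 ≤ A * L * Y := by positivity
        linarith
    _ = 2 ^ 18 * (2 ^ (5 * n) * (1 / 2) ^ (20 * n)) := by
        have : (2 : ℝ) ^ (5 * n) = 2 ^ n * 2 ^ (4 * n) := by rw [← pow_add]; congr 1; ring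
        rw [this]
        ring
    _ ≤ (1 / 2) ^ n := by
        have h1 : (2 : ℝ) ^ (5 * n) * (1 / 2) ^ (20 * n) = (1 / 2) ^ (14 * n) * (1 / 2) ^ n := by
          have h2 : (1 / 2 : ℝ) ^ (20 * n) = (1 / 2) ^ (5 * n) * ((1 / 2) ^ (14 * n) * (1 / 2) ^ n) := by
            rw [← pow_add, ← pow_add]; congr 1; ring
          rw [h2, ← mul_assoc, ← mul_pow]
          norm_num
        rw [h1]
        have h2 : (1 / 2 : ℝ) ^ (14 * n) ≤ (1 / 2) ^ 28 :=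
          pow_le_pow_of_le_one (by norm_num) (by norm_num) (by omega)
        have h3 : (2 : ℝ) ^ 18 * (1 / 2) ^ (14 * n) ≤ 1 := by
          calc (2 : ℝ) ^ 18 * (1 / 2) ^ (14 * n) ≤ 2 ^ 18 * (1 / 2) ^ 28 :=
                mul_le_mul_of_nonneg_left h2 (by positivity)
            _ ≤ 1 := by norm_num
        calc (2 : ℝ) ^ 18 * ((1 / 2) ^ (14 * n) * (1 / 2) ^ n)
            = (2 ^ 18 * (1 / 2) ^ (14 * n)) * (1 / 2) ^ n := by ring
          _ ≤ 1 * (1 / 2) ^ n := mul_le_mul_of_nonneg_right h3 (by positivity)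
          _ = _ := one_mul _

end M_N2

open M_N2 in
theorem t_N2 : St_N2 := by
  intro l hl α B h0 hα hB
  have hn : 2 ≤ nn l := by
    rw [nn]
    calc 2 = 2 ^ 1 := rfl
      _ ≤ 2 ^ (58 * l) := Nat.pow_le_pow_right (by norm_num) (by omega)
  have hln : l ≤ nn l := by
    rw [nn]
    calc l ≤ 2 ^ l := (Nat.lt_two_pow_self).le
      _ ≤ 2 ^ (58 * l) := Nat.pow_le_pow_right (by norm_num) (by omega)
  refine (core hl hn hln h0 hα (L := LL l) rfl hB).trans ?_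
  exact pow_le_one₀ (by norm_num) (by norm_num)

end Pool.Agent.ENC
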