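import Pool.Agent.ENC.Stmts2
import Pool.Agent.ENC.N2

/-!
# ENC_N2B
-/

namespace Pool.Agent.ENC

open Finset Filter Topology Pool.Agent.LazyWalk

open M_N2 in
theorem t_N2B : St_N2B := by
  intro l hl α B h0 hα hB
  have hn : 2 ≤ nn l := by
    rw [nn]
    calc 2 = 2 ^ 1 := rfl
      _ ≤ 2 ^ (58 * l) := Nat.pow_le_pow_right (by norm_num) (by omega)
  have hln : l ≤ nn l := by
    rw [nn]
    calc l ≤ 2 ^ l := (Nat.lt_two_pow_self).le
      _ ≤ 2 ^ (58 * l) := Nat.pow_le_pow_right (by norm_num) (by omega)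
  refine (core hl hn hln h0 hα (L := LL l) rfl hB).trans ?_
  have hl0 : (0 : ℝ) < l := by
    have : 0 < l := by omega
    exact_mod_cast this
  have h1 : (l : ℝ) ≤ 2 ^ nn l := by
    exact_mod_cast hln.trans (Nat.lt_two_pow_self).le
  rw [one_div_pow]
  exact one_div_le_one_div_of_le hl0 h1

end Pool.Agent.ENC
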