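import Pool.Agent.ENC.Stmts

/-!
Numerical estimate N3 for MP_1e9518_pr, Q1.
-/

namespace Pool.Agent.ENC

open Finset Filter Topology Pool.Agent.LazyWalk

/-- Module N3. -/
theorem t_N3 : St_N3 := by
  intro l hl α h0 h1
  have hnn : (1 : ℝ) ≤ (nn l : ℝ) := by
    unfold nn
    exact_mod_cast Nat.one_le_two_pow
  have hl' : (40 : ℝ) ≤ (l : ℝ) := by exact_mod_cast hl
  unfold a0 at h1
  obtain ⟨x, hx⟩ : ∃ x : ℝ, x = (nn l : ℝ) * l := ⟨_, rfl⟩
  have hx40 : 40 ≤ x := by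
    rw [hx]
    nlinarith
  have hx0 : 0 < x := by linarith
  have hD : ((DD l : ℕ) : ℝ) = 8 * x := by
    rw [hx]
    unfold DD
    push_cast
    ring
  have hc : ((21 * nn l * l : ℕ) : ℝ) = 21 * x := by
    rw [hx]
    push_cast
    ring
  rw [← hx] at h1
  have hlog : Real.log 2 ≤ 7 / 10 := by
    have := Real.log_two_lt_d9
    linarith
  have hlog0 : 0 ≤ Real.log 2 := Real.log_nonneg (by norm_num)
  unfold LL
  rw [hc, hD]
  have hP : 0 ≤ 64 * (8 * x + 1) ^ 2 + 8 * x := by positivity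
  have h2 : α * (21 * x) * ((64 * (8 * x + 1) ^ 2 + 8 * x) * Real.log 2) ≤
      1 / x ^ 3 * (21 * x) * ((64 * (8 * x + 1) ^ 2 + 8 * x) * (7 / 10)) := by
    apply mul_le_mul
    · exact mul_le_mul_of_nonneg_right h1 (by positivity)
    · exact mul_le_mul_of_nonneg_left hlog hP
    · positivity
    · positivity
  refine h2.trans ?_
  have h3 : 1 / x ^ 3 * (21 * x) * ((64 * (8 * x + 1) ^ 2 + 8 * x) * (7 / 10)) =
      ((21 * x) * ((64 * (8 * x + 1) ^ 2 + 8 * x) * (7 / 10))) / x ^ 3 := by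
    field_simp
  rw [h3, div_le_iff₀ (by positivity)]
  have h4 : 0 ≤ x * (x - 40) := mul_nonneg hx0.le (by linarith)
  have h5 : 0 ≤ x * (x * (x - 40)) := mul_nonneg hx0.le h4
  nlinarith [h4, h5, hx0]

end Pool.Agent.ENC
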