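import Pool.Agent.ENC.Stmts2

/-!
ENC_N4B: numerical estimate for the lower bound of the entropy.
-/

namespace Pool.Agent.ENC

open Finset Filter Topology Pool.Agent.LazyWalk

namespace M_N4B

lemma uu_eq (l : ℕ) (hl : 40 ≤ l) : (uu l : ℝ) = 13 / 2 * ((nn l : ℝ) * l) := by
  have h1 : 58 * l = (58 * l - 1) + 1 := by omega
  have h2 : (nn l : ℝ) = 2 * (2 : ℝ) ^ (58 * l - 1) := by
    unfold nn
    push_cast
    conv_lhs => rw [h1]
    rw [pow_succ]
    ring
  rw [h2]
  unfold uu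
  push_cast
  ring

lemma DD_eq (l : ℕ) : (DD l : ℝ) = 8 * ((nn l : ℝ) * l) := by
  unfold DD
  push_cast
  ring

lemma nn_ge (l : ℕ) (hl : 40 ≤ l) : (2 : ℝ) ^ 58 ≤ nn l := by
  unfold nn
  have h : 2 ^ 58 ≤ 2 ^ (58 * l) := Nat.pow_le_pow_right (by norm_num) (by omega)
  exact_mod_cast h

end M_N4B

open M_N4B in
theorem t_N4B : St_N4B := by
  intro l hl c α hc1 hc2 hα1 hα2
  have hlR : (40 : ℝ) ≤ l := by exact_mod_cast hl
  have hn := nn_ge l hl
  have hnpos : (0 : ℝ) < nn l := by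
    have : (0 : ℝ) < 2 ^ 58 := by positivity
    linarith
  obtain ⟨q, hq⟩ : ∃ q : ℝ, q = (nn l : ℝ) * l := ⟨_, rfl⟩
  have hDD : (DD l : ℝ) = 8 * q := by rw [DD_eq, hq]
  have huu : (uu l : ℝ) = 13 / 2 * q := by rw [uu_eq l hl, hq]
  have hnq : (nn l : ℝ) ≤ q := by
    rw [hq]
    nlinarith
  have hlq : (l : ℝ) ≤ q := by
    rw [hq]
    have h1 : (1 : ℝ) ≤ nn l := le_trans (by norm_num) hn
    nlinarith
  have hqbig : (10000 : ℝ) ≤ q := le_trans (le_trans (by norm_num) hn) hnq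
  have hq0 : (0 : ℝ) < q := by linarith
  have hcpos : 0 < c := lt_of_lt_of_le (by positivity) hc1
  have ha0 : a0 l = 1 / q ^ 3 := by
    unfold a0
    rw [hq]
  have hexp : (23 * nn l * l : ℕ) = 23 * (nn l * l) := by ring
  rw [← hq, hDD, huu]
  rw [ha0] at hα1 hα2
  -- the power
  have hαpos : 0 < α := lt_of_lt_of_le (by positivity) hα1
  have hα3 : α ≤ 1 / q ^ 3 := by
    refine le_trans hα2 ?_
    have : (0 : ℝ) < 1 / q ^ 3 := by positivity
    nlinarith
  have hqα : q * α ≤ 1 / q ^ 2 := by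
    calc q * α ≤ q * (1 / q ^ 3) := by gcongr
      _ = 1 / q ^ 2 := by field_simp
  have hq2 : 1 / q ^ 2 ≤ 1 / 100000000 := by
    apply one_div_le_one_div_of_le (by norm_num)
    nlinarith
  have hαle : α ≤ 1 := by
    have h1 : α ≤ q * α := by nlinarith
    linarith
  have hpow : 99 / 100 ≤ (1 - α) ^ (23 * nn l * l) := by
    have h1 : 1 + ((23 * nn l * l : ℕ) : ℝ) * (-α) ≤ (1 + (-α)) ^ (23 * nn l * l) :=
      one_add_mul_le_pow (by linarith) _
    have h2 : ((23 * nn l * l : ℕ) : ℝ) = 23 * q := by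
      rw [hexp]
      push_cast
      rw [hq]
    rw [h2] at h1
    have h3 : (1 + (-α)) = 1 - α := by ring
    rw [h3] at h1
    nlinarith
  obtain ⟨E, hE⟩ : ∃ E : ℝ, E = (1 - α) ^ (23 * nn l * l) := ⟨_, rfl⟩
  rw [← hE] at hpow
  have hE1 : 0 < E := by linarith
  rw [← hE]
  obtain ⟨p, hp⟩ : ∃ p : ℝ, p = q * (α / 2) * E * (9 / 10) ^ 2 := ⟨_, rfl⟩
  obtain ⟨K, hK⟩ : ∃ K : ℝ, K = (64 * (8 * q + 1 - 13 / 2 * q) ^ 2 - 2 * (13 / 2 * q) * (8 * q)
    - 8 * q - nn l) * Real.log 2 := ⟨_, rfl⟩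
  rw [← hp, ← hK]
  have hppos : 0 < p := by
    rw [hp]
    positivity
  -- lower bound for `p`
  have hpl : c / (5 * q ^ 2) ≤ p := by
    have h1 : c / (2 * q ^ 2) ≤ q * α := by
      have h2 : q * (c * (1 / q ^ 3) / 2) ≤ q * α := by gcongr
      have h3 : q * (c * (1 / q ^ 3) / 2) = c / (2 * q ^ 2) := by field_simp
      rw [h3] at h2
      exact h2
    have h4 : c / (5 * q ^ 2) = (c / (2 * q ^ 2)) * (2 / 5) := by
      field_simp
    rw [h4]
    have h5 : (0 : ℝ) ≤ c / (2 * q ^ 2) := by positivity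
    have h6 : q * α * (2 / 5) ≤ p := by
      rw [hp]
      have h7 : 0 ≤ q * α := by positivity
      nlinarith
    linarith
  -- lower bound for `K`
  have hlog := Real.log_two_gt_d9
  have hKl : 27 * q ^ 2 ≤ K := by
    rw [hK]
    have h1 : 40 * q ^ 2 ≤ 64 * (8 * q + 1 - 13 / 2 * q) ^ 2 - 2 * (13 / 2 * q) * (8 * q)
        - 8 * q - nn l := by
      nlinarith
    have h2 : (0 : ℝ) ≤ 40 * q ^ 2 := by positivity
    nlinarith
  -- lower bound for the logarithm
  have hlogp : - (5 * l + 2 * q) ≤ Real.log p := by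
    have h1 : Real.log (c / (5 * q ^ 2)) ≤ Real.log p := Real.log_le_log (by positivity) hpl
    have h2 : Real.log (c / (5 * q ^ 2)) = - (Real.log (5 / c) + 2 * Real.log q) := by
      rw [Real.log_div hcpos.ne' (by positivity), Real.log_div (by norm_num) hcpos.ne',
        Real.log_mul (by norm_num) (by positivity), Real.log_pow]
      push_cast
      ring
    have h3 : Real.log (5 / c) ≤ 5 / c - 1 := Real.log_le_sub_one_of_pos (by positivity)
    have h4 : Real.log q ≤ q - 1 := Real.log_le_sub_one_of_pos hq0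
    have h5 : 5 / c ≤ 5 * l := by
      rw [div_le_iff₀ hcpos]
      have h6 : (l : ℝ) * (1 / l) = 1 := by
        field_simp
      have h7 : (l : ℝ) * (1 / l) ≤ l * c := by gcongr
      linarith
    linarith
  have hqq : 10000 * q ≤ q ^ 2 := by
    rw [pow_two]
    exact mul_le_mul_of_nonneg_right hqbig hq0.le
  have hmain : 26 * q ^ 2 ≤ Real.log p + K - 1 := by linarith
  constructor
  · have h1 : -K ≤ Real.log p := by
      have : (0 : ℝ) ≤ 26 * q ^ 2 := by positivity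
      linarith
    calc Real.exp (-K) ≤ Real.exp (Real.log p) := Real.exp_le_exp.mpr h1
      _ = p := Real.exp_log hppos
  · have h1 : c / (5 * q ^ 2) * (26 * q ^ 2) ≤ p * (Real.log p + K - 1) := by
      apply mul_le_mul hpl hmain (by positivity) hppos.le
    have h2 : c / (5 * q ^ 2) * (26 * q ^ 2) = 26 / 5 * c := by field_simp
    rw [h2] at h1
    linarith

end Pool.Agent.ENC
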