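import Pool.Agent.ENC.Stmts

/-!
# ENC_N5
-/

namespace Pool.Agent.ENC

open Finset Filter Topology Pool.Agent.LazyWalk

namespace M_N5

theorem nn_ge (l : ℕ) (hl : 40 ≤ l) : (84 : ℝ) ≤ (nn l : ℝ) := by
  have h1 : 2 ^ 7 ≤ nn l := by
    unfold nn
    exact Nat.pow_le_pow_right (by norm_num) (by omega)
  have h2 : 84 ≤ nn l := by omega
  exact_mod_cast h2

theorem uu_eq (l : ℕ) (hl : 40 ≤ l) : 2 * (uu l : ℝ) = 13 * ((nn l : ℝ) * l) := by
  have h : 2 * uu l = 13 * (nn l * l) := by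
    unfold uu nn
    have h1 : 2 ^ (58 * l) = 2 * 2 ^ (58 * l - 1) := by
      rw [← pow_succ']
      congr 1
      omega
    rw [h1]
    ring
  exact_mod_cast h

end M_N5

open M_N5 in
theorem t_N5 : St_N5 := by
  intro l hl α h0 hα m hm
  have hn := nn_ge l hl
  have hl' : (40 : ℝ) ≤ (l : ℝ) := by exact_mod_cast hl
  have hu := uu_eq l hl
  have hD : (DD l : ℝ) = 8 * ((nn l : ℝ) * l) := by
    unfold DD
    push_cast
    ring
  have hm' : (m : ℝ) ≤ 12 * ((nn l : ℝ) * l) := by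
    have h1 : (m : ℝ) ≤ ((12 * nn l * l : ℕ) : ℝ) := by exact_mod_cast hm
    refine h1.trans (le_of_eq ?_)
    push_cast
    ring
  unfold a0 at hα
  obtain ⟨P, hP⟩ : ∃ P : ℝ, P = (nn l : ℝ) * l := ⟨_, rfl⟩
  have hP1 : 3000 ≤ P := by
    rw [hP]
    nlinarith
  have hnP : (nn l : ℝ) ≤ P := by
    rw [hP]
    nlinarith
  rw [← hP] at hα hu hD hm'
  constructor
  · have h2 : α * P ^ 3 ≤ 1 := by
      rw [le_div_iff₀ (by positivity)] at hα
      exact hα
    have h3 : α * (1200 * P) ≤ α * P ^ 3 := by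
      apply mul_le_mul_of_nonneg_left _ h0
      nlinarith [mul_nonneg (show (0 : ℝ) ≤ P by linarith)
        (show (0 : ℝ) ≤ P ^ 2 - 1200 by nlinarith)]
    have h4 : (m : ℝ) * α ≤ 1 / 100 := by
      have h5 : (m : ℝ) * α ≤ 12 * P * α := mul_le_mul_of_nonneg_right hm' h0
      linarith
    have h6 : 1 + (m : ℝ) * (-α) ≤ (1 + -α) ^ m := by
      apply one_add_mul_le_pow
      have h7 : α ≤ 1 := by
        by_contra hcon
        push Not at hcon
        have h8 : α * 1200 * P ≤ 1 := by linarith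
        nlinarith
      linarith
    have h9 : (1 + -α) ^ m = (1 - α) ^ m := by rw [← sub_eq_add_neg]
    rw [h9] at h6
    linarith
  · have hu' : (uu l : ℝ) = 13 / 2 * P := by linarith
    rw [hD, hu']
    nlinarith

end Pool.Agent.ENC
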