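import Pool.Agent.ENC.Stmts

/-!
Module ENC_NP: there are fewer common moves than rare ones before the blow-up.
-/

namespace Pool.Agent.ENC

open Finset Filter Topology Pool.Agent.LazyWalk

namespace M_NP

lemma wt_le {n : ℕ} (i j : Fin n) (z : Cube n) (h : ∀ k, k ≠ i → k ≠ j → z k = 0) : wt z ≤ 2 := by
  unfold wt
  have h1 : (univ.filter fun k => z k ≠ 0) ⊆ ({i, j} : Finset (Fin n)) := by
    intro k hk
    rw [mem_filter] at hk
    rw [mem_insert, mem_singleton]
    by_contra hc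
    push Not at hc
    exact hk.2 (h k hc.1 hc.2)
  exact (card_le_card h1).trans (card_le_two)

lemma inc_eq {Λ : Type} [Fintype Λ] {n : ℕ} (hn : 4 < n) (S1 S2 : Finset Λ) (x x' : Cube n)
    (h : wt x ≤ 2) (h' : wt x' ≤ 2) : inc S1 S2 x x' = S1 := by
  unfold inc
  rw [if_neg (by omega), if_pos (by omega)]

lemma prod_le {Λ : Type} [Fintype Λ] {n : ℕ} (hn : 4 < n) (S1 S2 : Finset Λ) (i : Fin n) :
    ∏ z : Cube n, (inc S1 S2 z (z - ee i)).card ≤
      S1.card ^ 3 * Fintype.card Λ ^ (2 ^ n - 3) := by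
  classical
  haveI : Nontrivial (Fin n) := Fin.nontrivial_iff_two_le.mpr (by omega)
  obtain ⟨j, hj⟩ := exists_ne i
  have e0 : ∀ k, (ee i : Cube n) k = if k = i then 1 else 0 := fun k => by
    simp [ee, Pi.single_apply]
  have e1 : ∀ k, (ee j : Cube n) k = if k = j then 1 else 0 := fun k => by
    simp [ee, Pi.single_apply]
  have hT : ((({0, ee i, ee j} : Finset (Cube n)))).card = 3 := by
    have a1 : (0 : Cube n) ≠ ee i := by
      intro h
      have := congrFun h i
      rw [e0, if_pos rfl] at this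
      exact absurd this (by simp)
    have a2 : (0 : Cube n) ≠ ee j := by
      intro h
      have := congrFun h j
      rw [e1, if_pos rfl] at this
      exact absurd this (by simp)
    have a3 : (ee i : Cube n) ≠ ee j := by
      intro h
      have := congrFun h j
      rw [e1, e0, if_pos rfl, if_neg hj] at this
      exact absurd this (by simp)
    exact card_eq_three.mpr ⟨_, _, _, a1, a2, a3, rfl⟩
  have hF : ∀ z ∈ ({0, ee i, ee j} : Finset (Cube n)), (inc S1 S2 z (z - ee i)).card = S1.card := by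
    intro z hz
    have hsup : ∀ k, k ≠ i → k ≠ j → z k = 0 := by
      intro k hk1 hk2
      rw [mem_insert, mem_insert, mem_singleton] at hz
      rcases hz with rfl | rfl | rfl
      · rfl
      · rw [e0, if_neg hk1]
      · rw [e1, if_neg hk2]
    rw [inc_eq hn S1 S2 z (z - ee i) (wt_le i j z hsup)]
    refine wt_le i j _ fun k hk1 hk2 => ?_
    rw [Pi.sub_apply, hsup k hk1 hk2, e0, if_neg hk1, sub_zero]
  rw [← Finset.prod_mul_prod_compl ({0, ee i, ee j} : Finset (Cube n))]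
  refine Nat.mul_le_mul ?_ ?_
  · rw [Finset.prod_congr rfl hF, Finset.prod_const, hT]
  · have hc : (({0, ee i, ee j} : Finset (Cube n))ᶜ).card = 2 ^ n - 3 := by
      rw [card_compl, hT]
      congr 1
      simp [Cube, ZMod.card]
    rw [← hc]
    exact Finset.prod_le_pow_card _ _ _ fun z _ => Finset.card_le_univ _

end M_NP

open M_NP in
theorem t_NP (h1 : St_CAR) : St_NP := by
  intro l hl i
  obtain ⟨hS1, -, -, -, hL, -⟩ := h1 (DD l) 64
  have hn58 : 58 * l < nn l := by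
    unfold nn
    exact Nat.lt_two_pow_self
  have hn4 : 4 < nn l := by omega
  have hD : 58 * l ≤ DD l := by
    have : nn l * 1 ≤ DD l := by
      unfold DD
      calc nn l * 1 ≤ nn l * (8 * l) := Nat.mul_le_mul_left _ (by omega)
        _ = 8 * nn l * l := by ring
    omega
  have hb := prod_le hn4 (S1 (DD l) 64) (S2 (DD l) 64) i
  unfold cR
  rw [hL] at hb ⊢
  rw [hS1] at hb
  have h3 : 3 ≤ 2 ^ nn l := by
    calc 3 ≤ 2 ^ 2 := by norm_num
      _ ≤ 2 ^ nn l := Nat.pow_le_pow_right (by norm_num) (by omega)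
  have h4 : 2 ^ nn l - 2 = (2 ^ nn l - 3) + 1 := by omega
  rw [h4, pow_succ]
  have h5 : nn l * (2 ^ (DD l + (DD l + 1) * 64)) ^ 3 ≤ 2 ^ (64 * (DD l + 1) ^ 2 + DD l) := by
    have : nn l = 2 ^ (58 * l) := rfl
    rw [this, ← pow_mul, ← pow_add]
    refine Nat.pow_le_pow_right (by norm_num) ?_
    have hD3 : 3 ≤ DD l := by omega
    nlinarith [hD, hD3, Nat.mul_le_mul hD3 (le_refl (DD l))]
  calc nn l * (∏ z : Cube (nn l), (inc (S1 (DD l) 64) (S2 (DD l) 64) z (z - ee i)).card)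
      ≤ nn l * ((2 ^ (DD l + (DD l + 1) * 64)) ^ 3 *
          (2 ^ (64 * (DD l + 1) ^ 2 + DD l)) ^ (2 ^ nn l - 3)) := Nat.mul_le_mul_left _ hb
    _ = (nn l * (2 ^ (DD l + (DD l + 1) * 64)) ^ 3) *
          (2 ^ (64 * (DD l + 1) ^ 2 + DD l)) ^ (2 ^ nn l - 3) := by ring
    _ ≤ 2 ^ (64 * (DD l + 1) ^ 2 + DD l) *
          (2 ^ (64 * (DD l + 1) ^ 2 + DD l)) ^ (2 ^ nn l - 3) := Nat.mul_le_mul_right _ h5
    _ = (2 ^ (64 * (DD l + 1) ^ 2 + DD l)) ^ (2 ^ nn l - 3) *
          2 ^ (64 * (DD l + 1) ^ 2 + DD l) := by rw [mul_comm]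

end Pool.Agent.ENC
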