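import Pool.Agent.ENC.Stmts

/-!
# ENC_POT: upper bound for the expected entropy of the lamps   (helper55)
-/

namespace Pool.Agent.ENC.M_POT

open Finset

/-! ### Weights -/

theorem wt_le_of {n : ℕ} {x y : Cube n} {i : Fin n} (h : ∀ j, j ≠ i → y j = x j) :
    wt y ≤ wt x + 1 := by
  unfold wt
  refine (Finset.card_le_card (t := insert i (univ.filter fun i => x i ≠ 0)) ?_).trans
    (Finset.card_insert_le _ _)
  intro j hj
  rw [Finset.mem_insert]
  by_cases hji : j = i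
  · exact Or.inl hji
  · right
    rw [Finset.mem_filter] at hj ⊢
    exact ⟨Finset.mem_univ _, by rw [← h j hji]; exact hj.2⟩

theorem sub_ee_apply {n : ℕ} (z h : Cube n) {i j : Fin n} (hj : j ≠ i) :
    (z - (h + ee i)) j = (z - h) j := by
  simp [ee, Pi.single_eq_of_ne hj]

/-! ### Invariants -/

/-- No rare move so far, `k` common moves. -/
def I1 {n : ℕ} (k : ℕ) (s : HS n) : Prop :=
  (∀ z, s.2.1 z = none ∨ (s.2.1 z = some (k, 0) ∧ 2 * wt (z - s.1) < n) ∨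
    (s.2.1 z = some (0, k) ∧ n < 2 * wt (z - s.1)) ∨ (k = 0 ∧ s.2.1 z = some (0, 0))) ∧
  (s.2.2 = false → k = 0)

/-- At least one rare move so far. -/
def I2 {n : ℕ} (k : ℕ) (s : HS n) : Prop :=
  (univ.filter fun z => s.2.1 z ≠ none).card ≤ 2 ∧ (s.2.2 = false → k = 0)

theorem I1_s0 (n : ℕ) : I1 0 (s0 n) :=
  ⟨fun _ => Or.inr (Or.inr (Or.inr ⟨rfl, rfl⟩)), fun _ => rfl⟩

theorem I1_stepS {n : ℕ} (hn : Even n) {k : ℕ} {s : HS n} (i : Fin n) (h : I1 k s) :
    I1 (k + 1) (stepS i s) := by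
  refine ⟨fun z => ?_, fun h => by simp [stepS] at h⟩
  have h1 : wt (z - (s.1 + ee i)) ≤ wt (z - s.1) + 1 :=
    wt_le_of (i := i) fun j hj => sub_ee_apply z s.1 hj
  have h2 : wt (z - s.1) ≤ wt (z - (s.1 + ee i)) + 1 :=
    wt_le_of (i := i) fun j hj => (sub_ee_apply z s.1 hj).symm
  obtain ⟨m, hm⟩ := hn
  change upd (z - s.1) (z - (s.1 + ee i)) (s.2.1 z) = none ∨
    (upd (z - s.1) (z - (s.1 + ee i)) (s.2.1 z) = some (k + 1, 0) ∧
      2 * wt (z - (s.1 + ee i)) < n) ∨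
    (upd (z - s.1) (z - (s.1 + ee i)) (s.2.1 z) = some (0, k + 1) ∧
      n < 2 * wt (z - (s.1 + ee i))) ∨
    (k + 1 = 0 ∧ upd (z - s.1) (z - (s.1 + ee i)) (s.2.1 z) = some (0, 0))
  have hz := h.1 z
  unfold upd
  split_ifs with ha hb
  · exact Or.inl rfl
  · rcases hz with h0 | ⟨h0, h3⟩ | ⟨h0, h3⟩ | ⟨h3, h0⟩
    · left
      rw [h0]
      rfl
    · right
      left
      rw [h0]
      exact ⟨rfl, hb.2⟩
    · omega
    · right
      left
      rw [h0, h3]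
      exact ⟨rfl, hb.2⟩
  · have hc : n < 2 * wt (z - (s.1 + ee i)) := by omega
    rcases hz with h0 | ⟨h0, h3⟩ | ⟨h0, h3⟩ | ⟨h3, h0⟩
    · left
      rw [h0]
      rfl
    · omega
    · right
      right
      left
      rw [h0]
      exact ⟨rfl, hc⟩
    · right
      right
      left
      rw [h0, h3]
      exact ⟨rfl, hc⟩

theorem upd_none {n : ℕ} (x x' : Cube n) : upd x x' none = none := by
  unfold upd
  split_ifs <;> rfl

theorem I2_stepS {n : ℕ} {k : ℕ} {s : HS n} (i : Fin n) (h : I2 k s) :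
    I2 (k + 1) (stepS i s) := by
  refine ⟨(Finset.card_le_card ?_).trans h.1, fun h => by simp [stepS] at h⟩
  intro z hz
  rw [Finset.mem_filter] at hz ⊢
  refine ⟨Finset.mem_univ _, fun h0 => hz.2 ?_⟩
  change upd (z - s.1) (z - (s.1 + ee i)) (s.2.1 z) = none
  rw [h0]
  exact upd_none _ _

theorem I2_stepR {n : ℕ} {k : ℕ} {s : HS n} (h : s.2.2 = false → k = 0) :
    I2 k (stepR s) := by
  refine ⟨?_, h⟩
  refine (Finset.card_le_card (t := {s.1, s.1 + 1}) ?_).trans Finset.card_le_two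
  intro z hz
  rw [Finset.mem_filter] at hz
  rw [Finset.mem_insert, Finset.mem_singleton]
  by_contra hc
  apply hz.2
  change (if z = s.1 ∨ z = s.1 + 1 then s.2.1 z else none) = none
  rw [if_neg hc]

/-! ### Entropies -/

theorem Ent_one (X : Type) [Fintype X] : Ent (fun _ : X => (1 : ℝ)) = 0 := by
  simp [Ent, avg, phi]

section

variable {n : ℕ} {Λ J : Type} [AddCommGroup Λ] [Fintype Λ] [DecidableEq Λ]
  [AddCommGroup J] [Fintype J] [DecidableEq J] {S1 S2 : Finset Λ}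

theorem log_card_nonneg (X : Type) [Fintype X] [Nonempty X] :
    0 ≤ Real.log (Fintype.card X) := by
  apply Real.log_nonneg
  exact_mod_cast Fintype.card_pos

theorem dJ_nonneg (b : Bool) (j : J) : 0 ≤ dJ (J := J) b j := by
  unfold dJ
  split_ifs <;> positivity

theorem Ent_dJ_le (h1 : St_EB) (hJ : ∀ b, avg (dJ (J := J) b) = 1) {k : ℕ} {b : Bool}
    (hb : b = false → k = 0) : Ent (dJ (J := J) b) ≤ Real.log (Fintype.card J) / 2 ^ k := by
  have hB := log_card_nonneg J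
  cases b with
  | true =>
    have : Ent (dJ (J := J) true) = 0 := by
      have h : dJ (J := J) true = fun _ => (1 : ℝ) := by
        funext j
        simp [dJ]
      rw [h]
      exact Ent_one J
    rw [this]
    positivity
  | false =>
    rw [hb rfl, pow_zero, div_one]
    exact (h1 J (dJ false) (dJ_nonneg false) (hJ false)).2

theorem Ent_none : Ent (dlam S1 S2 none) = 0 := Ent_one Λ

theorem card_cube (n : ℕ) : (Fintype.card (Cube n) : ℝ) = 2 ^ n := by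
  simp [Cube, ZMod.card]

theorem dentr_le1 (h1 : St_EB) (hJ : ∀ b, avg (dJ (J := J) b) = 1) {A : ℝ} (hA : 0 ≤ A)
    (hE1 : ∀ k, Ent (GG S1 S2 k 0) ≤ A / 2 ^ k) (hE2 : ∀ k, Ent (GG S1 S2 0 k) ≤ A / 2 ^ k)
    {k : ℕ} {s : HS n} (hs : I1 k s) :
    dentr J S1 S2 s ≤ (2 ^ n * A + Real.log (Fintype.card J)) / 2 ^ k := by
  unfold dentr
  have hz : ∀ z ∈ (univ : Finset (Cube n)), Ent (dlam S1 S2 (s.2.1 z)) ≤ A / 2 ^ k := by
    intro z _
    rcases hs.1 z with h0 | ⟨h0, h3⟩ | ⟨h0, h3⟩ | ⟨h3, h0⟩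
    · rw [h0, Ent_none]
      positivity
    · rw [h0]
      exact hE1 k
    · rw [h0]
      exact hE2 k
    · rw [h0, h3]
      exact hE1 0
  have h := Finset.sum_le_sum hz
  rw [Finset.sum_const, Finset.card_univ, nsmul_eq_mul, card_cube] at h
  have h' := Ent_dJ_le h1 hJ hs.2
  calc _ ≤ 2 ^ n * (A / 2 ^ k) + Real.log (Fintype.card J) / 2 ^ k := add_le_add h h'
    _ = _ := by ring

theorem dentr_le2 (h1 : St_EB) (hJ : ∀ b, avg (dJ (J := J) b) = 1)
    (hl : ∀ o a, 0 ≤ dlam S1 S2 o a) (hl1 : ∀ o, avg (dlam S1 S2 o) = 1)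
    {k : ℕ} {s : HS n} (hs : I2 k s) :
    dentr J S1 S2 s ≤ Real.log (Fintype.card J) / 2 ^ k + 2 * Real.log (Fintype.card Λ) := by
  unfold dentr
  have hL := log_card_nonneg Λ
  have hz : ∑ z, Ent (dlam S1 S2 (s.2.1 z)) =
      ∑ z ∈ univ.filter (fun z => s.2.1 z ≠ none), Ent (dlam S1 S2 (s.2.1 z)) := by
    rw [Finset.sum_filter]
    refine Finset.sum_congr rfl fun z _ => ?_
    split_ifs with h
    · rfl
    · rw [not_not] at h
      rw [h]
      exact Ent_none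
  have h2 : ∑ z ∈ univ.filter (fun z => s.2.1 z ≠ none), Ent (dlam S1 S2 (s.2.1 z)) ≤
      ∑ z ∈ univ.filter (fun z => s.2.1 z ≠ none), Real.log (Fintype.card Λ) :=
    Finset.sum_le_sum fun z _ => (h1 Λ _ (hl _) (hl1 _)).2
  rw [Finset.sum_const, nsmul_eq_mul] at h2
  have h3 : ((univ.filter (fun z => s.2.1 z ≠ none)).card : ℝ) ≤ 2 := by
    exact_mod_cast hs.1
  have h4 := mul_le_mul_of_nonneg_right h3 hL
  have h' := Ent_dJ_le h1 hJ hs.2
  rw [hz]
  linarith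

end

/-! ### One step -/

theorem Eop_le {n : ℕ} (hn : 1 ≤ n) {α : ℝ} (h0 : 0 ≤ α) (h1 : α ≤ 1) {Φ : HS n → ℝ} {s : HS n}
    {a b c : ℝ} (ha : Φ s ≤ a) (hb : ∀ i, Φ (stepS i s) ≤ b) (hc : Φ (stepR s) ≤ c) :
    Eop n α Φ s ≤ 1 / 2 * a + (1 - α) / 2 * b + α / 2 * c := by
  unfold Eop
  have hn' : (0 : ℝ) < n := by exact_mod_cast hn
  have hs : ∑ i, Φ (stepS i s) ≤ n * b := by
    have h := Finset.sum_le_sum fun i (_ : i ∈ (univ : Finset (Fin n))) => hb i
    rw [Finset.sum_const, Finset.card_univ, Fintype.card_fin, nsmul_eq_mul] at h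
    exact h
  have h2 : (1 - α) / (2 * n) * ∑ i, Φ (stepS i s) ≤ (1 - α) / (2 * n) * (n * b) :=
    mul_le_mul_of_nonneg_left hs (div_nonneg (sub_nonneg.2 h1) (by positivity))
  have h3 : (1 - α) / (2 * n) * (n * b) = (1 - α) / 2 * b := by
    field_simp
  have h4 : α / 2 * Φ (stepR s) ≤ α / 2 * c := mul_le_mul_of_nonneg_left hc (by positivity)
  linarith

section

variable {n : ℕ} {Λ J : Type} [AddCommGroup Λ] [Fintype Λ] [DecidableEq Λ]
  [AddCommGroup J] [Fintype J] [DecidableEq J] {S1 S2 : Finset Λ}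

theorem claim2 (h1 : St_EB) (hJ : ∀ b, avg (dJ (J := J) b) = 1)
    (hl : ∀ o a, 0 ≤ dlam S1 S2 o a) (hl1 : ∀ o, avg (dlam S1 S2 o) = 1)
    (hn : 1 ≤ n) {α : ℝ} (ha0 : 0 ≤ α) (ha1 : α ≤ 1) (t : ℕ) :
    ∀ (k : ℕ) (s : HS n), I2 k s → (Eop n α)^[t] (dentr J S1 S2) s ≤
      Real.log (Fintype.card J) * (3 / 4 + α / 4) ^ t / 2 ^ k +
        2 * Real.log (Fintype.card Λ) := by
  induction t with
  | zero =>
    intro k s hs
    have := dentr_le2 (J := J) h1 hJ hl hl1 hs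
    simpa using this
  | succ t ih =>
    intro k s hs
    rw [Function.iterate_succ_apply']
    refine (Eop_le hn ha0 ha1 (ih k s hs) (fun i => ih (k + 1) _ (I2_stepS i hs))
      (ih k _ (I2_stepR hs.2))).trans (le_of_eq ?_)
    rw [pow_succ (3 / 4 + α / 4) t, pow_succ (2 : ℝ) k]
    field_simp
    ring

theorem claim1 (h1 : St_EB) (hJ : ∀ b, avg (dJ (J := J) b) = 1)
    (hl : ∀ o a, 0 ≤ dlam S1 S2 o a) (hl1 : ∀ o, avg (dlam S1 S2 o) = 1)
    (hn : 1 ≤ n) (hne : Even n) {α A : ℝ} (ha0 : 0 ≤ α) (ha1 : α ≤ 1) (hA : 0 ≤ A)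
    (hE1 : ∀ k, Ent (GG S1 S2 k 0) ≤ A / 2 ^ k) (hE2 : ∀ k, Ent (GG S1 S2 0 k) ≤ A / 2 ^ k)
    (t : ℕ) :
    ∀ (k : ℕ) (s : HS n), I1 k s → (Eop n α)^[t] (dentr J S1 S2) s ≤
      (2 ^ n * A + Real.log (Fintype.card J)) * (3 / 4 + α / 4) ^ t / 2 ^ k +
        α * t * Real.log (Fintype.card Λ) := by
  induction t with
  | zero =>
    intro k s hs
    have := dentr_le1 (J := J) h1 hJ hA hE1 hE2 hs
    simpa using this
  | succ t ih =>
    intro k s hs
    rw [Function.iterate_succ_apply']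
    have hL := log_card_nonneg Λ
    set L := Real.log (Fintype.card Λ)
    set B := Real.log (Fintype.card J)
    set x : ℝ := (3 / 4 + α / 4) ^ t with hx
    have hx0 : 0 ≤ x := pow_nonneg (by positivity) t
    have hr : (Eop n α)^[t] (dentr J S1 S2) (stepR s) ≤ (2 ^ n * A + B) * x / 2 ^ k + 2 * L := by
      refine (claim2 h1 hJ hl hl1 hn ha0 ha1 t k _ (I2_stepR hs.2)).trans ?_
      have : B * x / 2 ^ k ≤ (2 ^ n * A + B) * x / 2 ^ k := by
        apply div_le_div_of_nonneg_right _ (by positivity)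
        apply mul_le_mul_of_nonneg_right _ hx0
        have : 0 ≤ 2 ^ n * A := by positivity
        linarith
      linarith
    refine (Eop_le hn ha0 ha1 (ih k s hs) (fun i => ih (k + 1) _ (I1_stepS hne i hs)) hr).trans ?_
    rw [pow_succ (3 / 4 + α / 4) t, pow_succ (2 : ℝ) k, ← hx]
    set y : ℝ := (2 ^ n * A + B) * x / 2 ^ k with hy
    have e1 : (2 ^ n * A + B) * x / (2 ^ k * 2) = y / 2 := by
      rw [hy]
      field_simp
    have e2 : (2 ^ n * A + B) * (x * (3 / 4 + α / 4)) / 2 ^ k = y * (3 / 4 + α / 4) := by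
      rw [hy]
      ring
    rw [e1, e2]
    push_cast
    have h3 : 0 ≤ α ^ 2 * t * L := by positivity
    nlinarith [h3]

end

end Pool.Agent.ENC.M_POT

namespace Pool.Agent.ENC

open Finset

theorem t_POT (h1 : St_EB) (h2 : St_DN) : St_POT := by
  intro n Λ J _ _ _ _ _ _ S1 S2 α A hS1 hS2 hn hne ha0 ha1 hA hE1 hE2 t
  obtain ⟨hl, hl1, -, -, hJ, -, -⟩ := h2 n Λ J S1 S2 hS1 hS2
  have h := M_POT.claim1 (J := J) h1 hJ hl hl1 (by omega) hne ha0 ha1 hA hE1 hE2 t 0 (s0 n)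
    (M_POT.I1_s0 n)
  rwa [pow_zero, div_one] at h

end Pool.Agent.ENC
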