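import Pool.Agent.ENC.Stmts

/-!
ENC_REV: reversal of words.
-/

namespace Pool.Agent.ENC

open Finset

namespace M_REV

/-- Reversal of words. -/
def revE (n m : ℕ) : Wd n m ≃ Wd n m where
  toFun w := fun r => w (Fin.rev r)
  invFun w := fun r => w (Fin.rev r)
  left_inv w := by
    funext r
    simp
  right_inv w := by
    funext r
    simp

theorem revE_apply {n m : ℕ} (w : Wd n m) (r : Fin m) : revE n m w r = w (Fin.rev r) := rfl

theorem ww_rev {n m : ℕ} (w : Wd n m) : ww (revE n m w) = ww w := by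
  unfold ww
  exact Equiv.prod_comp Fin.revPerm (fun r => lw n (w r))

theorem cnt_rev {n m : ℕ} (w : Wd n m) : cnt (revE n m w) = cnt w := by
  unfold cnt
  refine Finset.card_bij (fun r _ => Fin.rev r) ?_ ?_ ?_
  · intro r hr
    rw [mem_filter] at hr ⊢
    exact ⟨mem_univ _, hr.2⟩
  · intro r _ r' _ h
    exact Fin.rev_injective h
  · intro r hr
    rw [mem_filter] at hr
    refine ⟨Fin.rev r, ?_, Fin.rev_rev r⟩
    rw [mem_filter, revE_apply, Fin.rev_rev]
    exact ⟨mem_univ _, hr.2⟩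

theorem pre_rev {n m : ℕ} (w : Wd n m) (b : ℕ) (hb : b ≤ m) :
    pre (revE n m w) b = suf w (m - b) := by
  unfold pre suf
  refine Finset.sum_bij (fun r _ => Fin.rev r) ?_ ?_ ?_ ?_
  · intro r hr
    rw [mem_filter] at hr ⊢
    refine ⟨mem_univ _, ?_⟩
    have h1 := hr.2
    have h2 := r.isLt
    rw [Fin.val_rev]
    omega
  · intro r _ r' _ h
    exact Fin.rev_injective h
  · intro r hr
    rw [mem_filter] at hr
    refine ⟨Fin.rev r, ?_, Fin.rev_rev r⟩
    rw [mem_filter]
    refine ⟨mem_univ _, ?_⟩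
    have h1 := hr.2
    have h2 := r.isLt
    rw [Fin.val_rev]
    omega
  · intro r _
    rfl

theorem good_rev {n m : ℕ} (u : ℕ) (w : Wd n m) : good1 u w ↔ good2 u (revE n m w) := by
  unfold good1 good2
  rw [cnt_rev]
  constructor
  · rintro ⟨h1, h2⟩
    refine ⟨fun b hb => ?_, h2⟩
    rw [pre_rev w b hb]
    exact h1 _ (Nat.sub_le _ _)
  · rintro ⟨h1, h2⟩
    refine ⟨fun a ha => ?_, h2⟩
    have h3 := h1 (m - a) (Nat.sub_le _ _)
    rw [pre_rev w _ (Nat.sub_le _ _)] at h3
    rwa [Nat.sub_sub_self ha] at h3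

end M_REV

open M_REV in
theorem t_REV : St_REV := by
  classical
  intro n m u
  refine Fintype.sum_equiv (revE n m) _ _ ?_
  intro w
  rw [ww_rev]
  by_cases h : good1 u w
  · rw [if_pos h, if_pos ((good_rev u w).1 h)]
  · rw [if_neg h, if_neg (fun h' => h ((good_rev u w).2 h'))]

end Pool.Agent.ENC
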