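import Pool.Agent.ENC.Stmts

/-!
# Effect of good words on one lamp
-/

set_option autoImplicit false

namespace Pool.Agent.ENC

open Finset

namespace M_RUN

variable {n : ℕ}

theorem pre_cs {m : ℕ} (w : Wd n (m + 1)) {b : ℕ} (hb : b ≤ m) :
    pre (fun r => w r.castSucc) b = pre w b := by
  unfold pre
  rw [sum_filter, sum_filter, Fin.sum_univ_castSucc]
  simp only [Fin.val_castSucc, Fin.val_last]
  rw [if_neg (by omega : ¬ (m < b)), add_zero]

theorem pre_last {m : ℕ} (w : Wd n (m + 1)) :
    pre w (m + 1) = pre w m + lv (w (Fin.last m)) := by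
  rw [← pre_cs w le_rfl]
  unfold pre
  rw [sum_filter, sum_filter, Fin.sum_univ_castSucc]
  simp only [Fin.val_castSucc, Fin.val_last]
  rw [if_pos (by omega : m < m + 1)]
  congr 1
  refine sum_congr rfl fun r _ => ?_
  rw [if_pos (by omega), if_pos (by omega)]

theorem cnt_last {m : ℕ} (w : Wd n (m + 1)) :
    cnt w = cnt (fun r => w r.castSucc) + if w (Fin.last m) ≠ none then 1 else 0 := by
  unfold cnt
  rw [card_filter, card_filter, Fin.sum_univ_castSucc]

theorem run_fst (m : ℕ) (w : Wd n m) (s : HS n) : (run m w s).1 = s.1 + pre w m := by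
  induction m with
  | zero => simp [run, pre]
  | succ m ih =>
    have h := ih (fun r => w r.castSucc)
    rw [pre_cs w le_rfl] at h
    rw [pre_last, ← add_assoc, ← h]
    change (stepL (w (Fin.last m)) (run m (fun r => w r.castSucc) s)).1 = _
    cases hw : w (Fin.last m) with
    | none => simp [stepL, lv]
    | some i => simp [stepL, stepS, lv]

theorem near (m : ℕ) (w : Wd n m) (s : HS n) (z : Cube n) (k l : ℕ) (hs : s.2.1 z = some (k, l))
    (h : ∀ b ≤ m, 2 * wt (z - (s.1 + pre w b)) < n) :
    (run m w s).2.1 z = some (k + cnt w, l) := by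
  induction m with
  | zero => simp [run, cnt, hs]
  | succ m ih =>
    have hI := ih (fun r => w r.castSucc) fun b hb => by
      rw [pre_cs w hb]
      exact h b (by omega)
    have h1 := run_fst m (fun r => w r.castSucc) s
    rw [pre_cs w le_rfl] at h1
    have hm := h m (by omega)
    have hm1 := h (m + 1) le_rfl
    rw [cnt_last]
    change (stepL (w (Fin.last m)) (run m (fun r => w r.castSucc) s)).2.1 z = _
    rw [pre_last, ← add_assoc, ← h1] at hm1
    rw [← h1] at hm
    cases hw : w (Fin.last m) with
    | none => simpa [stepL] using hI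
    | some i =>
      rw [hw] at hm1
      simp only [lv] at hm1
      simp only [stepL, stepS, upd]
      rw [if_neg (by omega), if_pos ⟨hm, hm1⟩, hI]
      simp [add_assoc]

theorem far (m : ℕ) (w : Wd n m) (s : HS n) (z : Cube n) (k l : ℕ) (hs : s.2.1 z = some (k, l))
    (h : ∀ b ≤ m, n < 2 * wt (z - (s.1 + pre w b))) :
    (run m w s).2.1 z = some (k, l + cnt w) := by
  induction m with
  | zero => simp [run, cnt, hs]
  | succ m ih =>
    have hI := ih (fun r => w r.castSucc) fun b hb => by
      rw [pre_cs w hb]
      exact h b (by omega)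
    have h1 := run_fst m (fun r => w r.castSucc) s
    rw [pre_cs w le_rfl] at h1
    have hm := h m (by omega)
    have hm1 := h (m + 1) le_rfl
    rw [cnt_last]
    change (stepL (w (Fin.last m)) (run m (fun r => w r.castSucc) s)).2.1 z = _
    rw [pre_last, ← add_assoc, ← h1] at hm1
    rw [← h1] at hm
    cases hw : w (Fin.last m) with
    | none => simpa [stepL] using hI
    | some i =>
      rw [hw] at hm1
      simp only [lv] at hm1
      simp only [stepL, stepS, upd]
      rw [if_neg (by omega), if_neg (by omega), hI]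
      simp [add_assoc]

theorem wt_neg (x : Cube n) : wt (-x) = wt x := by
  unfold wt
  congr 1
  ext i
  simp

theorem z2 (a : ZMod 2) : (1 - a ≠ 0) ↔ ¬ (a ≠ 0) := by
  revert a
  decide

theorem wt_one_sub (x : Cube n) : wt (1 - x) + wt x = n := by
  unfold wt
  have h1 : (univ.filter fun i => (1 - x) i ≠ 0) = univ.filter fun i => ¬ (x i ≠ 0) := by
    ext i
    simp only [mem_filter, mem_univ, true_and, Pi.sub_apply, Pi.one_apply]
    exact z2 (x i)
  rw [h1, add_comm, card_filter_add_card_filter_not, card_univ, Fintype.card_fin]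

theorem pre_suf {m : ℕ} (w : Wd n m) (b : ℕ) : pre w m = pre w b + suf w b := by
  unfold pre suf
  have h : (univ.filter fun r : Fin m => b ≤ (r : ℕ)) =
      univ.filter fun r : Fin m => ¬ ((r : ℕ) < b) := by
    ext r
    simp
  rw [h, sum_filter_add_sum_filter_not]
  refine sum_congr ?_ fun _ _ => rfl
  ext r
  simp

end M_RUN

open M_RUN in
theorem t_RUN : St_RUN := by
  intro n m u w
  refine ⟨fun h => ?_, fun h => ?_, fun h s z k l hs hz => ?_⟩
  · have := near m w (s0 n) 0 0 0 rfl fun b hb => by
      have h1 : (0 : Cube n) - ((s0 n).1 + pre w b) = -pre w b := by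
        simp [s0]
      rw [h1, wt_neg]
      exact h.1 b hb
    simpa using this
  · have h1 := run_fst m w (s0 n)
    have := near m w (s0 n) (run m w (s0 n)).1 0 0 rfl fun b hb => by
      have h2 : (run m w (s0 n)).1 - ((s0 n).1 + pre w b) = suf w b := by
        rw [h1, pre_suf w b]
        abel
      rw [h2]
      exact h.1 b hb
    simpa using this
  · refine far m w s z k l hs fun b hb => ?_
    have h2 : z - (s.1 + pre w b) = 1 - pre w b := by
      rw [← hz]
      abel
    rw [h2]
    have h3 := wt_one_sub (pre w b)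
    have h4 := h.1 b hb
    omega

end Pool.Agent.ENC
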