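import Pool.Agent.ENC.Stmts

/-!
ENC_SPN: most tuples `hat (x i)` are spanning.
-/

namespace Pool.Agent.ENC.M_SPN

open Finset Pool.Agent.ENC

open scoped Classical in
/-- Points killed by the functional `c`. -/
noncomputable def A {D : ℕ} (c : Fin (D + 1) → ZMod 2) : Finset (Fin D → ZMod 2) :=
  univ.filter fun x => ∑ j, c j * hat x j = 0

lemma sum_hat {D : ℕ} (c : Fin (D + 1) → ZMod 2) (x : Fin D → ZMod 2) :
    ∑ j, c j * hat x j = c 0 + ∑ j : Fin D, c j.succ * x j := by
  rw [Fin.sum_univ_succ]
  simp [hat]

lemma cardA {D : ℕ} (c : Fin (D + 1) → ZMod 2) (hc : c ≠ 0) : 2 * (A c).card ≤ 2 ^ D := by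
  classical
  by_cases h : ∃ j : Fin D, c j.succ ≠ 0
  · obtain ⟨j, hj⟩ := h
    have h1 : (A c).card ≤ (univ \ A c).card := by
      refine Finset.card_le_card_of_injOn (fun x => x + Pi.single j 1) ?_ ?_
      · intro x hx
        have hx' : ∑ j, c j * hat x j = 0 := by
          have : x ∈ A c := hx
          rw [A, mem_filter] at this
          exact this.2
        have h2 : ¬ (x + Pi.single j 1 : Fin D → ZMod 2) ∈ A c := by
          intro hm
          rw [A, mem_filter] at hm
          have hm' := hm.2
          rw [sum_hat] at hm' hx'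
          have e : ∑ i : Fin D, c i.succ * (x + Pi.single j 1 : Fin D → ZMod 2) i =
              ∑ i : Fin D, c i.succ * x i + c j.succ := by
            simp only [Pi.add_apply, mul_add, Finset.sum_add_distrib]
            congr 1
            rw [Finset.sum_eq_single j]
            · simp
            · intro b _ hb
              simp [Pi.single_eq_of_ne hb]
            · simp
          rw [e, ← add_assoc, hx', zero_add] at hm'
          exact hj hm'
        simpa using h2
      · intro x _ y _ hxy
        exact add_right_cancel hxy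
    have h2 : (univ \ A c).card = 2 ^ D - (A c).card := by
      rw [Finset.card_sdiff_of_subset (Finset.subset_univ _), Finset.card_univ]
      simp [ZMod.card]
    have h3 : (A c).card ≤ 2 ^ D := by
      have := Finset.card_le_univ (A c)
      simpa [ZMod.card] using this
    omega
  · push_neg at h
    have h0 : c 0 ≠ 0 := by
      intro h0
      apply hc
      funext i
      refine Fin.cases ?_ ?_ i
      · simpa using h0
      · intro j
        simpa using h j
    have : A c = ∅ := by
      rw [A, Finset.filter_eq_empty_iff]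
      intro x _
      rw [sum_hat]
      simp [h, h0]
    rw [this]
    simp

end Pool.Agent.ENC.M_SPN

namespace Pool.Agent.ENC

open Finset M_SPN

/-- ENC_SPN. -/
theorem t_SPN : St_SPN := by
  classical
  intro D k
  have hsub : (univ.filter fun x : Fin k → (Fin D → ZMod 2) =>
      ∃ c : Fin (D + 1) → ZMod 2, c ≠ 0 ∧ ∀ i, ∑ j, c j * hat (x i) j = 0) ⊆
      (univ.filter fun c : Fin (D + 1) → ZMod 2 => c ≠ 0).biUnion
        fun c => Fintype.piFinset fun _ : Fin k => A c := by
    intro x hx
    rw [mem_filter] at hx
    obtain ⟨_, c, hc, h⟩ := hx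
    rw [mem_biUnion]
    refine ⟨c, by simpa using hc, ?_⟩
    rw [Fintype.mem_piFinset]
    intro i
    rw [A, mem_filter]
    exact ⟨mem_univ _, h i⟩
  have h1 := (Finset.card_le_card hsub).trans Finset.card_biUnion_le
  have h2 : 2 ^ k * (univ.filter fun x : Fin k → (Fin D → ZMod 2) =>
      ∃ c : Fin (D + 1) → ZMod 2, c ≠ 0 ∧ ∀ i, ∑ j, c j * hat (x i) j = 0).card ≤
      ∑ c ∈ univ.filter (fun c : Fin (D + 1) → ZMod 2 => c ≠ 0), (2 ^ D) ^ k := by
    refine (Nat.mul_le_mul_left _ h1).trans ?_
    rw [Finset.mul_sum]
    refine Finset.sum_le_sum fun c hc => ?_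
    have hc' : c ≠ 0 := by simpa using hc
    rw [Fintype.card_piFinset_const, ← mul_pow]
    exact Nat.pow_le_pow_left (cardA c hc') k
  refine h2.trans ?_
  rw [Finset.sum_const, smul_eq_mul]
  refine Nat.mul_le_mul_right _ ?_
  refine (Finset.card_le_univ _).trans ?_
  simp [ZMod.card]

end Pool.Agent.ENC
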