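import Pool.Agent.ENC.Stmts

/-!
ENC_SR: one rare step of the density.
-/

namespace Pool.Agent.ENC

open Finset Filter Topology Pool.Agent.LazyWalk

namespace M_SR

lemma add_one_eq {n : ℕ} {x y : Cube n} (h : x = y + 1) : y = x + 1 := by
  rw [h]
  funext j
  have h2 : ∀ a : ZMod 2, a = a + 1 + 1 := by decide
  exact h2 (y j)

lemma one_ne {n : ℕ} (hn : 1 ≤ n) (x : Cube n) : x + 1 ≠ x := by
  intro h
  have h1 := congrFun h ⟨0, hn⟩
  have h2 : ∀ a : ZMod 2, a + 1 ≠ a := by decide
  exact h2 _ h1

lemma prod_two {n : ℕ} (hn : 1 ≤ n) (x : Cube n) (c : ℝ) :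
    ∏ z : Cube n, (if z = x ∨ z = x + 1 then (1 : ℝ) else c) = c ^ (2 ^ n - 2) := by
  classical
  rw [Finset.prod_ite, Finset.prod_const_one, one_mul, Finset.prod_const]
  congr 1
  have h1 : (univ.filter fun z : Cube n => ¬(z = x ∨ z = x + 1)) =
      univ \ {x, x + 1} := by
    ext z
    simp only [Finset.mem_filter, Finset.mem_univ, true_and, Finset.mem_sdiff, Finset.mem_insert,
      Finset.mem_singleton]
  rw [h1, Finset.card_sdiff_of_subset (Finset.subset_univ _), Finset.card_univ,
    Finset.card_pair (one_ne hn x).symm]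
  congr 1
  rw [Fintype.card_fun, ZMod.card, Fintype.card_fin]

end M_SR

open M_SR in
theorem t_SR (hDN : St_DN) : St_SR := by
  classical
  intro n Λ J _ _ _ _ _ _ S1 S2 h1 h2 hn s v
  obtain ⟨-, havg, -, -, -, -, -⟩ := hDN n Λ J S1 S2 h1 h2
  have hc : (Fintype.card Λ : ℝ) ≠ 0 := by
    have : 0 < Fintype.card Λ := Fintype.card_pos
    positivity
  by_cases hs : s.1 = v.2.1 + 1
  swap
  · -- both sides vanish
    have hv : ¬ v.2.1 = s.1 + 1 := fun h => hs (add_one_eq h)
    have hR : dens S1 S2 (stepR s) v = 0 := by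
      unfold dens stepR
      simp [hv]
    rw [hR, mul_zero]
    refine Finset.sum_eq_zero fun v' _ => ?_
    by_cases ha : adjR v v'
    · rw [if_pos ha]
      have h3 : ¬ v'.2.1 = s.1 := fun h => hs (h ▸ ha.1)
      unfold dens
      simp [h3]
    · rw [if_neg ha]
  -- the main case
  have hv : v.2.1 = s.1 + 1 := add_one_eq hs
  obtain ⟨A, hA⟩ : ∃ A : Cube n → Λ → ℝ, ∀ z a, A z a =
      if z = s.1 ∨ z = s.1 + 1 then (if a = v.1 z then dlam S1 S2 (s.2.1 z) a else 0)
        else dlam S1 S2 (s.2.1 z) a :=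
    ⟨_, fun _ _ => rfl⟩
  have hterm : ∀ (f' : Cube n → Λ) (h' : Cube n) (j' : J),
      (if adjR v (f', h', j') then dens S1 S2 s (f', h', j') else 0)
        = if h' = s.1 then (if j' = v.2.2 then (2 : ℝ) ^ n * (∏ z, A z (f' z)) * dJ s.2.2 j' else 0)
          else 0 := by
    intro f' h' j'
    by_cases hh : h' = s.1
    · subst hh
      rw [if_pos rfl]
      by_cases hj : j' = v.2.2
      · rw [if_pos hj]
        by_cases hall : f' v.2.1 = v.1 v.2.1 ∧ f' s.1 = v.1 s.1
        · have ha : adjR v (f', s.1, j') := ⟨hs, hj, hall.1, hall.2⟩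
          rw [if_pos ha]
          have h3 : ∏ z, A z (f' z) = ∏ z, dlam S1 S2 (s.2.1 z) (f' z) := by
            refine Finset.prod_congr rfl fun z _ => ?_
            rw [hA]
            by_cases hz : z = s.1 ∨ z = s.1 + 1
            · rw [if_pos hz]
              have h4 : f' z = v.1 z := by
                rcases hz with hz | hz
                · rw [hz]; exact hall.2
                · rw [hz, ← hv]; exact hall.1
              rw [if_pos h4]
            · rw [if_neg hz]
          rw [h3]
          unfold dens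
          simp
        · have ha : ¬ adjR v (f', s.1, j') := fun h => hall ⟨h.2.2.1, h.2.2.2⟩
          rw [if_neg ha]
          have h3 : ∏ z, A z (f' z) = 0 := by
            by_cases h5 : f' v.2.1 = v.1 v.2.1
            · have h6 : ¬ f' s.1 = v.1 s.1 := fun h => hall ⟨h5, h⟩
              exact Finset.prod_eq_zero (Finset.mem_univ s.1) (by
                rw [hA, if_pos (Or.inl rfl), if_neg h6])
            · exact Finset.prod_eq_zero (Finset.mem_univ v.2.1) (by
                rw [hA, if_pos (Or.inr hv), if_neg h5])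
          rw [h3]
          simp
      · have ha : ¬ adjR v (f', s.1, j') := fun h => hj h.2.1
        rw [if_neg ha, if_neg hj]
    · rw [if_neg hh]
      by_cases ha : adjR v (f', h', j')
      · exact absurd (ha.1.trans hs.symm) hh
      · rw [if_neg ha]
  have hsum : ∑ v', (if adjR v v' then dens S1 S2 s v' else 0)
      = (2 : ℝ) ^ n * (∏ z, ∑ a, A z a) * dJ s.2.2 v.2.2 := by
    rw [Fintype.sum_prod_type]
    have h3 : ∀ f' : Cube n → Λ, ∑ p : Cube n × J,
        (if adjR v (f', p) then dens S1 S2 s (f', p) else 0)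
          = (2 : ℝ) ^ n * (∏ z, A z (f' z)) * dJ s.2.2 v.2.2 := by
      intro f'
      rw [Fintype.sum_prod_type, Finset.sum_comm]
      simp only [hterm]
      have h4 : ∀ j' : J, ∑ h' : Cube n, (if h' = s.1 then
          (if j' = v.2.2 then (2 : ℝ) ^ n * (∏ z, A z (f' z)) * dJ s.2.2 j' else 0) else 0) =
          if j' = v.2.2 then (2 : ℝ) ^ n * (∏ z, A z (f' z)) * dJ s.2.2 j' else 0 := by
        intro j'
        rw [Finset.sum_ite_eq' Finset.univ s.1, if_pos (Finset.mem_univ _)]
      simp only [h4]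
      rw [Finset.sum_ite_eq' Finset.univ v.2.2, if_pos (Finset.mem_univ _)]
    rw [Finset.sum_congr rfl fun f' _ => h3 f', ← Finset.sum_mul, ← Finset.mul_sum,
      Finset.prod_univ_sum, Fintype.piFinset_univ]
  have hlamp : ∀ z, ∑ a, A z a = (if z = s.1 ∨ z = s.1 + 1 then (1 : ℝ) else Fintype.card Λ)
      * dlam S1 S2 (if z = s.1 ∨ z = s.1 + 1 then s.2.1 z else none) (v.1 z) := by
    intro z
    rw [Finset.sum_congr rfl fun a _ => hA z a]
    by_cases hz : z = s.1 ∨ z = s.1 + 1
    · simp only [if_pos hz, one_mul]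
      rw [Finset.sum_ite_eq' Finset.univ (v.1 z), if_pos (Finset.mem_univ _)]
    · simp only [if_neg hz]
      have h4 := havg (s.2.1 z)
      unfold avg at h4
      rw [div_eq_iff hc, one_mul] at h4
      rw [h4]
      simp [dlam]
  rw [hsum, Finset.prod_congr rfl fun z _ => hlamp z, Finset.prod_mul_distrib,
    prod_two hn s.1 (Fintype.card Λ : ℝ)]
  unfold dens cR
  simp only [stepR, hv, if_true]
  push_cast
  ring

end Pool.Agent.ENC
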