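import Pool.Agent.ENC.Stmts

/-!
ENC_SS: one common step of the density.
-/

namespace Pool.Agent.ENC

open Finset Filter Topology Pool.Agent.LazyWalk

namespace M_SS

section Lamp

variable {n : ℕ} {Λ : Type} [AddCommGroup Λ] [Fintype Λ] [DecidableEq Λ]

lemma sum_inc (I : Finset Λ) (g : Λ → ℝ) (a : Λ) :
    ∑ a' : Λ, (if a' - a ∈ I then g a' else 0) = ∑ b ∈ I, g (a + b) := by
  rw [← Equiv.sum_comp (Equiv.addLeft a)]
  simp only [Equiv.coe_addLeft, add_sub_cancel_left]
  rw [Finset.sum_ite_mem, Finset.univ_inter]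

omit [Fintype Λ] [DecidableEq Λ] in
lemma card_mul_avgOn (S : Finset Λ) (hS : S.Nonempty) (g : Λ → ℝ) (a : Λ) :
    ∑ b ∈ S, g (a + b) = (S.card : ℝ) * avgOn S g a := by
  have h : (S.card : ℝ) ≠ 0 := by
    have := hS.card_pos
    positivity
  unfold avgOn
  field_simp

omit [Fintype Λ] [DecidableEq Λ] in
lemma avgOn_one (S : Finset Λ) (hS : S.Nonempty) (a : Λ) :
    avgOn S (fun _ => (1 : ℝ)) a = 1 := by
  have h : (S.card : ℝ) ≠ 0 := by
    have := hS.card_pos
    positivity
  unfold avgOn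
  simp [h]

lemma lamp {S1 S2 : Finset Λ} (h1 : S1.Nonempty) (h2 : S2.Nonempty)
    (havg : ∀ o, avg (dlam S1 S2 o) = 1)
    (hG1 : ∀ k l, avgOn S1 (GG S1 S2 k l) = GG S1 S2 (k + 1) l)
    (hG2 : ∀ k l, avgOn S2 (GG S1 S2 k l) = GG S1 S2 k (l + 1))
    (x x' : Cube n) (o : Option (ℕ × ℕ)) (a : Λ) :
    ∑ a' : Λ, (if a' - a ∈ inc S1 S2 x' x then dlam S1 S2 o a' else 0)
      = ((inc S1 S2 x' x).card : ℝ) * dlam S1 S2 (upd x x' o) a := by
  rw [sum_inc]
  unfold inc upd
  by_cases hm : 2 * wt x = n ∨ 2 * wt x' = n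
  · rw [if_pos hm, if_pos hm.symm]
    have hc : (Fintype.card Λ : ℝ) ≠ 0 := by
      have : 0 < Fintype.card Λ := Fintype.card_pos
      positivity
    have h3 : ∑ b : Λ, dlam S1 S2 o (a + b) = ∑ b : Λ, dlam S1 S2 o b :=
      Equiv.sum_comp (Equiv.addLeft a) (dlam S1 S2 o)
    have h4 := havg o
    unfold avg at h4
    rw [div_eq_iff hc, one_mul] at h4
    rw [h3, h4]
    simp [dlam]
  · rw [if_neg hm, if_neg (fun h => hm h.symm)]
    by_cases hn : 2 * wt x < n ∧ 2 * wt x' < n
    · rw [if_pos hn, if_pos hn.symm, card_mul_avgOn S1 h1]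
      cases o with
      | none =>
        simp only [Option.map_none, dlam]
        rw [avgOn_one S1 h1]
      | some p =>
        simp only [Option.map_some, dlam]
        rw [hG1]
    · rw [if_neg hn, if_neg (fun h => hn h.symm), card_mul_avgOn S2 h2]
      cases o with
      | none =>
        simp only [Option.map_none, dlam]
        rw [avgOn_one S2 h2]
      | some p =>
        simp only [Option.map_some, dlam]
        rw [hG2]

end Lamp

lemma char2 {n : ℕ} (x y : Cube n) : x = y + x + y := by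
  funext i
  have h : ∀ a b : ZMod 2, a = b + a + b := by decide
  exact h (x i) (y i)

lemma add_ee {n : ℕ} {x y : Cube n} {i : Fin n} (h : x = y + ee i) : y = x + ee i := by
  rw [h]
  funext j
  have h2 : ∀ a b : ZMod 2, a = a + b + b := by decide
  exact h2 (y j) (ee i j)

end M_SS

open M_SS in
theorem t_SS (hDN : St_DN) : St_SS := by
  classical
  intro n Λ J _ _ _ _ _ _ S1 S2 h1 h2 i s v
  obtain ⟨-, havg, hG1, hG2, hJ, -, -⟩ := hDN n Λ J S1 S2 h1 h2
  by_cases hs : s.1 = v.2.1 + ee i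
  swap
  · -- both sides vanish
    have hv : ¬ v.2.1 = s.1 + ee i := fun h => hs (add_ee h)
    have hR : dens S1 S2 (stepS i s) v = 0 := by
      unfold dens stepS
      simp [hv]
    rw [hR, mul_zero]
    refine Finset.sum_eq_zero fun v' _ => ?_
    by_cases ha : adjS S1 S2 i v v'
    · rw [if_pos ha]
      have h3 : ¬ v'.2.1 = s.1 := fun h => hs (h ▸ ha.1)
      unfold dens
      simp [h3]
    · rw [if_neg ha]
  -- the main case
  have hv : v.2.1 = s.1 + ee i := add_ee hs
  -- the factor of one lamp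
  obtain ⟨A, hA⟩ : ∃ A : Cube n → Λ → ℝ, ∀ z a, A z a =
      if a - v.1 z ∈ inc S1 S2 (z - v.2.1) (z - s.1) then dlam S1 S2 (s.2.1 z) a else 0 :=
    ⟨_, fun _ _ => rfl⟩
  have hterm : ∀ (f' : Cube n → Λ) (h' : Cube n) (j' : J),
      (if adjS S1 S2 i v (f', h', j') then dens S1 S2 s (f', h', j') else 0)
        = if h' = s.1 then (2 : ℝ) ^ n * (∏ z, A z (f' z)) * dJ s.2.2 j' else 0 := by
    intro f' h' j'
    by_cases hh : h' = s.1
    · subst hh
      rw [if_pos rfl]
      by_cases hall : ∀ z, f' z - v.1 z ∈ inc S1 S2 (z - v.2.1) (z - s.1)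
      · have ha : adjS S1 S2 i v (f', s.1, j') := ⟨hs, hall⟩
        rw [if_pos ha]
        have h3 : ∏ z, A z (f' z) = ∏ z, dlam S1 S2 (s.2.1 z) (f' z) :=
          Finset.prod_congr rfl fun z _ => by rw [hA, if_pos (hall z)]
        rw [h3]
        unfold dens
        simp
      · have ha : ¬ adjS S1 S2 i v (f', s.1, j') := fun h => hall h.2
        rw [if_neg ha]
        push Not at hall
        obtain ⟨z, hz⟩ := hall
        have h3 : ∏ z, A z (f' z) = 0 :=
          Finset.prod_eq_zero (Finset.mem_univ z) (by rw [hA, if_neg hz])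
        rw [h3]
        simp
    · rw [if_neg hh]
      by_cases ha : adjS S1 S2 i v (f', h', j')
      · exact absurd (ha.1.trans hs.symm) hh
      · rw [if_neg ha]
  have hsum : ∑ v', (if adjS S1 S2 i v v' then dens S1 S2 s v' else 0)
      = (2 : ℝ) ^ n * (∏ z, ∑ a, A z a) * ∑ j' : J, dJ s.2.2 j' := by
    rw [Fintype.sum_prod_type]
    have h3 : ∀ f' : Cube n → Λ, ∑ p : Cube n × J,
        (if adjS S1 S2 i v (f', p) then dens S1 S2 s (f', p) else 0)
          = (2 : ℝ) ^ n * (∏ z, A z (f' z)) * ∑ j' : J, dJ s.2.2 j' := by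
      intro f'
      rw [Fintype.sum_prod_type, Finset.mul_sum]
      rw [Finset.sum_comm]
      refine Finset.sum_congr rfl fun j' _ => ?_
      simp only [hterm]
      rw [Finset.sum_ite_eq' Finset.univ s.1, if_pos (Finset.mem_univ _)]
    rw [Finset.sum_congr rfl fun f' _ => h3 f', ← Finset.sum_mul, ← Finset.mul_sum,
      Finset.prod_univ_sum, Fintype.piFinset_univ]
  have hlamp : ∀ z, ∑ a, A z a = ((inc S1 S2 (z - v.2.1) (z - s.1)).card : ℝ)
      * dlam S1 S2 (upd (z - s.1) (z - (s.1 + ee i)) (s.2.1 z)) (v.1 z) := by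
    intro z
    have h4 := lamp h1 h2 havg hG1 hG2 (z - s.1) (z - v.2.1) (s.2.1 z) (v.1 z)
    rw [Finset.sum_congr rfl fun a _ => hA z a, h4, hv]
  have hJsum : ∑ j' : J, dJ (J := J) s.2.2 j' = (Fintype.card J : ℝ) := by
    have hc : (Fintype.card J : ℝ) ≠ 0 := by
      have : 0 < Fintype.card J := Fintype.card_pos
      positivity
    have h5 := hJ s.2.2
    unfold avg at h5
    rw [div_eq_iff hc, one_mul] at h5
    exact h5
  have hcard : ∏ z, ((inc S1 S2 (z - v.2.1) (z - s.1)).card : ℝ)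
      = ∏ z : Cube n, ((inc S1 S2 z (z - ee i)).card : ℝ) := by
    rw [← Equiv.prod_comp (Equiv.subRight v.2.1)
      (fun z : Cube n => ((inc S1 S2 z (z - ee i)).card : ℝ))]
    refine Finset.prod_congr rfl fun z _ => ?_
    simp only [Equiv.subRight_apply]
    rw [hs, sub_add_eq_sub_sub]
  rw [hsum, Finset.prod_congr rfl fun z _ => hlamp z, Finset.prod_mul_distrib, hJsum, hcard]
  unfold dens cS
  simp only [stepS, hv, if_true]
  have hdJ : dJ (J := J) true v.2.2 = 1 := by
    unfold dJ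
    simp
  rw [hdJ]
  push_cast
  ring

end Pool.Agent.ENC
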