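import Pool.Agent.ENC.Stmts

namespace Pool.Agent.ENC

open Finset

namespace M_SUP

lemma add_self_lam {D M : ℕ} (b : Lam D M) : b + b = 0 :=
  Prod.ext (by funext i j m; exact CharTwo.add_self_eq_zero _)
    (by funext i; exact CharTwo.add_self_eq_zero _)

/-- Sums of `k` increments of the first kind and `l` of the second kind. -/
def P {D M : ℕ} (k l : ℕ) (a : Lam D M) : Prop :=
  ∃ (x : Fin k → Fin D → ZMod 2) (g : Fin k → Fin (D + 1) → Fin M → ZMod 2)
    (y : Fin l → Fin D → ZMod 2) (g' : Fin l → Fin (D + 1) → Fin M → ZMod 2),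
    a = ∑ i, inc1 (x i) (g i) + ∑ j, inc2 (y j) (g' j)

lemma exists_of_avgOn_ne {D M : ℕ} (S : Finset (Lam D M)) (g : Lam D M → ℝ) (a : Lam D M)
    (h : avgOn S g a ≠ 0) : ∃ b ∈ S, g (a + b) ≠ 0 := by
  by_contra hc
  push Not at hc
  apply h
  unfold avgOn
  rw [Finset.sum_eq_zero (fun b hb => hc b hb), zero_div]

lemma P_zero {D M : ℕ} : P 0 0 (0 : Lam D M) :=
  ⟨fun i => i.elim0, fun i => i.elim0, fun i => i.elim0, fun i => i.elim0, by simp⟩

lemma P_succ1 {D M k l : ℕ} {a b : Lam D M} (hb : b ∈ S1 D M) (h : P k l (a + b)) :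
    P (k + 1) l a := by
  obtain ⟨x, g, y, g', e⟩ := h
  unfold S1 at hb
  obtain ⟨p, -, hp⟩ := Finset.mem_image.1 hb
  refine ⟨Fin.cons p.1 x, Fin.cons p.2 g, y, g', ?_⟩
  rw [Fin.sum_univ_succ]
  simp only [Fin.cons_zero, Fin.cons_succ]
  have h1 : a = (a + b) + b := by rw [add_assoc, add_self_lam, add_zero]
  rw [h1, e, ← hp]
  abel

lemma P_succ2 {D M k l : ℕ} {a b : Lam D M} (hb : b ∈ S2 D M) (h : P k l (a + b)) :
    P k (l + 1) a := by
  obtain ⟨x, g, y, g', e⟩ := h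
  unfold S2 at hb
  obtain ⟨p, -, hp⟩ := Finset.mem_image.1 hb
  refine ⟨x, g, Fin.cons p.1 y, Fin.cons p.2 g', ?_⟩
  rw [Fin.sum_univ_succ (n := l)]
  simp only [Fin.cons_zero, Fin.cons_succ]
  have h1 : a = (a + b) + b := by rw [add_assoc, add_self_lam, add_zero]
  rw [h1, e, ← hp]
  abel

lemma P_of_iter2 {D M : ℕ} (l : ℕ) : ∀ a : Lam D M,
    (avgOn (S2 D M))^[l] (dzero (Lam D M)) a ≠ 0 → P 0 l a := by
  induction l with
  | zero =>
    intro a h
    have : a = 0 := by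
      by_contra hc
      exact h (by simp [dzero, hc])
    rw [this]
    exact P_zero
  | succ l ih =>
    intro a h
    rw [Function.iterate_succ_apply'] at h
    obtain ⟨b, hb, hb2⟩ := exists_of_avgOn_ne _ _ _ h
    exact P_succ2 hb (ih _ hb2)

lemma P_of_GG {D M : ℕ} (k l : ℕ) : ∀ a : Lam D M,
    GG (S1 D M) (S2 D M) k l a ≠ 0 → P k l a := by
  unfold GG
  induction k with
  | zero => intro a h; exact P_of_iter2 l a h
  | succ k ih =>
    intro a h
    rw [Function.iterate_succ_apply'] at h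
    obtain ⟨b, hb, hb2⟩ := exists_of_avgOn_ne _ _ _ h
    exact P_succ1 hb (ih _ hb2)

open scoped Classical in
/-- The set of `St_LIN`. -/
noncomputable def A1 {D : ℕ} (M u : ℕ) (x y : Fin u → Fin D → ZMod 2) : Finset (Ten D M) :=
  univ.filter fun X : Ten D M =>
    ∃ (g : Fin u → Fin (D + 1) → Fin M → ZMod 2) (g' : Fin u → Fin (D + 1) → Fin M → ZMod 2),
      X = fun i j m => ∑ a, hat (x a) i * g a j m + ∑ b, g' b i m * hat (y b) j

lemma fst_mem {D M u : ℕ} {a : Lam D M} (h : P u u a) :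
    ∃ x y : Fin u → Fin D → ZMod 2, a.1 ∈ A1 M u x y := by
  classical
  obtain ⟨x, g, y, g', e⟩ := h
  refine ⟨x, y, ?_⟩
  unfold A1
  rw [Finset.mem_filter]
  refine ⟨Finset.mem_univ _, g, g', ?_⟩
  rw [e]
  funext i j m
  simp only [Prod.fst_add, Prod.fst_sum, Pi.add_apply, Finset.sum_apply, inc1, inc2]

open scoped Classical in
lemma subset_bi {D M u : ℕ} :
    (univ.filter fun a : Lam D M => GG (S1 D M) (S2 D M) u u a ≠ 0) ⊆
      (univ : Finset ((Fin u → Fin D → ZMod 2) × (Fin u → Fin D → ZMod 2))).biUnion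
        fun p => (A1 M u p.1 p.2) ×ˢ (univ : Finset (Fin D → ZMod 2)) := by
  intro a ha
  rw [Finset.mem_filter] at ha
  obtain ⟨x, y, h⟩ := fst_mem (P_of_GG u u a ha.2)
  rw [Finset.mem_biUnion]
  exact ⟨(x, y), Finset.mem_univ _, Finset.mem_product.2 ⟨h, Finset.mem_univ _⟩⟩

end M_SUP

open M_SUP

theorem t_SUP (h1 : St_LIN) : St_SUP := by
  classical
  intro D M u hu
  have hA : ∀ x y : Fin u → Fin D → ZMod 2,
      (A1 M u x y).card * 2 ^ (M * (D + 1 - u) ^ 2) ≤ 2 ^ (M * (D + 1) ^ 2) := by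
    intro x y
    have h2 := h1 (D + 1) M u u (fun a => hat (x a)) (fun b => hat (y b)) hu hu
    have e1 : M * (D + 1 - u) ^ 2 = M * (D + 1 - u) * (D + 1 - u) := by
      rw [pow_two, mul_assoc]
    rw [e1]
    refine le_trans (le_of_eq ?_) h2
    congr 1
  have hsub := Finset.card_le_card (subset_bi (D := D) (M := M) (u := u))
  have hcard : (univ.filter fun a : Lam D M => GG (S1 D M) (S2 D M) u u a ≠ 0).card ≤
      ∑ p : (Fin u → Fin D → ZMod 2) × (Fin u → Fin D → ZMod 2), (A1 M u p.1 p.2).card * 2 ^ D := by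
    refine le_trans ?_ (le_trans (Finset.card_biUnion_le
      (s := (univ : Finset ((Fin u → Fin D → ZMod 2) × (Fin u → Fin D → ZMod 2))))
      (t := fun p => (A1 M u p.1 p.2) ×ˢ (univ : Finset (Fin D → ZMod 2)))) ?_)
    · convert hsub
    · apply Finset.sum_le_sum
      intro p _
      rw [Finset.card_product, Finset.card_univ, Fintype.card_fun, ZMod.card, Fintype.card_fin]
  have hc : Fintype.card ((Fin u → Fin D → ZMod 2) × (Fin u → Fin D → ZMod 2)) = 2 ^ (2 * u * D) := by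
    rw [Fintype.card_prod, Fintype.card_fun, Fintype.card_fun, ZMod.card, Fintype.card_fin,
      Fintype.card_fin, ← pow_mul, ← pow_add]
    congr 1
    ring
  calc _ ≤ (∑ p : (Fin u → Fin D → ZMod 2) × (Fin u → Fin D → ZMod 2),
          (A1 M u p.1 p.2).card * 2 ^ D) * 2 ^ (M * (D + 1 - u) ^ 2) := by
        refine Nat.mul_le_mul ?_ le_rfl
        convert hcard
    _ = ∑ p : (Fin u → Fin D → ZMod 2) × (Fin u → Fin D → ZMod 2),
          ((A1 M u p.1 p.2).card * 2 ^ (M * (D + 1 - u) ^ 2)) * 2 ^ D := by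
        rw [Finset.sum_mul]
        apply Finset.sum_congr rfl
        intro p _
        ring
    _ ≤ ∑ _p : (Fin u → Fin D → ZMod 2) × (Fin u → Fin D → ZMod 2),
          2 ^ (M * (D + 1) ^ 2) * 2 ^ D := by
        apply Finset.sum_le_sum
        intro p _
        exact Nat.mul_le_mul (hA p.1 p.2) le_rfl
    _ = 2 ^ (M * (D + 1) ^ 2 + 2 * u * D + D) := by
        rw [Finset.sum_const, Finset.card_univ, hc, smul_eq_mul, ← pow_add, ← pow_add]
        congr 1
        ring

end Pool.Agent.ENC
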