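import Pool.Agent.ENC.Stmts
import Pool.Agent.Lib_helper97.SepGeneral

/-!
The entropy distance of a vertex-transitive graph (MP_1e9518_pr, module TRE).
-/

namespace Pool.Agent.ENC

open Finset Filter Topology Pool.Agent.LazyWalk

namespace M_TRE

open scoped Classical in
theorem deg_iso {V : Type} [Fintype V] (G : SimpleGraph V) (φ : G ≃g G) (x : V) :
    G.degree (φ x) = G.degree x := by
  rw [degree_eq_card_filter, degree_eq_card_filter]
  refine (Finset.card_bij (fun y _ => φ y) ?_ ?_ ?_).symm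
  · intro y hy
    rw [mem_filter] at hy ⊢
    exact ⟨mem_univ _, φ.map_adj_iff.2 hy.2⟩
  · intro y _ z _ h
    exact φ.injective h
  · intro z hz
    rw [mem_filter] at hz
    obtain ⟨y, rfl⟩ := φ.surjective z
    exact ⟨y, mem_filter.2 ⟨mem_univ _, φ.map_adj_iff.1 hz.2⟩, rfl⟩

theorem lazy_iso {V : Type} [Fintype V] (G : SimpleGraph V) (φ : G ≃g G) (x y : V) :
    lazyWalk G (φ x) (φ y) = lazyWalk G x y := by
  unfold lazyWalk
  simp only [Matrix.of_apply]
  rw [deg_iso G φ x]
  have h1 : φ x = φ y ↔ x = y := φ.injective.eq_iff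
  have h2 : G.Adj (φ x) (φ y) ↔ G.Adj x y := φ.map_adj_iff
  classical
  exact congrArg₂ (· + ·) (if_congr h1 rfl rfl) (if_congr h2 rfl rfl)

theorem step_iso {V : Type} [Fintype V] (G : SimpleGraph V) (φ : G ≃g G) (t : ℕ) (x y : V) :
    stepProb G t (φ x) (φ y) = stepProb G t x y := by
  induction t generalizing x y with
  | zero =>
    rw [stepProb_zero, stepProb_zero]
    have h1 : φ x = φ y ↔ x = y := φ.injective.eq_iff
    classical
    exact if_congr h1 rfl rfl
  | succ t ih =>
    rw [stepProb_succ, stepProb_succ, ← Equiv.sum_comp φ.toEquiv]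
    refine Finset.sum_congr rfl fun z _ => ?_
    have h1 : φ.toEquiv z = φ z := rfl
    rw [h1, ih, lazy_iso]

theorem rel_iso {V : Type} [Fintype V] (G : SimpleGraph V) (φ : G ≃g G) (t : ℕ) (x : V) :
    relEnt G t (φ x) = relEnt G t x := by
  unfold relEnt
  rw [← Equiv.sum_comp φ.toEquiv]
  refine Finset.sum_congr rfl fun z _ => ?_
  have h1 : φ.toEquiv z = φ z := rfl
  rw [h1, step_iso]

theorem rel_ent {V : Type} [Fintype V] (G : SimpleGraph V) (t : ℕ) (x : V) :
    relEnt G t x = Ent fun y => (Fintype.card V : ℝ) * stepProb G t x y := by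
  have : Nonempty V := ⟨x⟩
  have hc : (Fintype.card V : ℝ) ≠ 0 := by
    exact_mod_cast Fintype.card_ne_zero
  unfold relEnt Ent avg phi
  rw [Finset.sum_div]
  refine Finset.sum_congr rfl fun y _ => ?_
  rw [show stepProb G t x y / (1 / (Fintype.card V : ℝ)) = (Fintype.card V : ℝ) * stepProb G t x y by
    rw [div_div_eq_mul_div, div_one, mul_comm]]
  field_simp

end M_TRE

open M_TRE in
theorem t_TRE : St_TRE := by
  intro V _ G hT t x
  have : Nonempty V := ⟨x⟩
  rw [← rel_ent]
  unfold entDist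
  have h : ∀ z, relEnt G t z = relEnt G t x := by
    intro z
    obtain ⟨φ, hφ⟩ := hT x z
    rw [← hφ, rel_iso]
  simp only [h]
  exact ciSup_const

end Pool.Agent.ENC
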