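import Pool.Agent.ENC.Stmts

/-!
MP_1e9518_pr, Q1: the lamplighter type graph is vertex-transitive (module ENC_TRG).
-/

namespace Pool.Agent.ENC

open Finset Filter Topology Pool.Agent.LazyWalk

namespace M_TRG

variable {n : ℕ} {Λ J : Type} [AddCommGroup Λ] [Fintype Λ] [AddCommGroup J]

/-- The translation `(f,h,j) ↦ (f(· - c) + f₀, h + c, j + j₀)`. -/
def tr (c : Cube n) (f0 : Cube n → Λ) (j0 : J) : Vt n Λ J ≃ Vt n Λ J where
  toFun v := (fun z => v.1 (z - c) + f0 z, v.2.1 + c, v.2.2 + j0)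
  invFun v := (fun z => v.1 (z + c) - f0 (z + c), v.2.1 - c, v.2.2 - j0)
  left_inv v := by
    refine Prod.ext ?_ (Prod.ext ?_ ?_)
    · funext z; simp
    · simp
    · simp
  right_inv v := by
    refine Prod.ext ?_ (Prod.ext ?_ ?_)
    · funext z; simp
    · simp
    · simp

lemma adjS_tr (S1 S2 : Finset Λ) (c : Cube n) (f0 : Cube n → Λ) (j0 : J) (i : Fin n)
    (v v' : Vt n Λ J) :
    adjS S1 S2 i (tr c f0 j0 v) (tr c f0 j0 v') ↔ adjS S1 S2 i v v' := by
  unfold adjS tr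
  simp only [Equiv.coe_fn_mk]
  constructor
  · rintro ⟨h1, h2⟩
    refine ⟨?_, fun z => ?_⟩
    · have h3 : v'.2.1 + c = (v.2.1 + ee i) + c := by rw [h1]; abel
      exact add_right_cancel h3
    · have h3 := h2 (z + c)
      have e1 : z + c - c = z := by abel
      have e2 : z + c - (v.2.1 + c) = z - v.2.1 := by abel
      have e3 : z + c - (v'.2.1 + c) = z - v'.2.1 := by abel
      have e4 : v'.1 z + f0 (z + c) - (v.1 z + f0 (z + c)) = v'.1 z - v.1 z := by abel
      rw [e1, e2, e3, e4] at h3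
      exact h3
  · rintro ⟨h1, h2⟩
    refine ⟨?_, fun z => ?_⟩
    · rw [h1]; abel
    · have h3 := h2 (z - c)
      have e2 : z - (v.2.1 + c) = z - c - v.2.1 := by abel
      have e3 : z - (v'.2.1 + c) = z - c - v'.2.1 := by abel
      have e4 : v'.1 (z - c) + f0 z - (v.1 (z - c) + f0 z) = v'.1 (z - c) - v.1 (z - c) := by abel
      rw [e2, e3, e4]
      exact h3

lemma adjR_tr (c : Cube n) (f0 : Cube n → Λ) (j0 : J) (v v' : Vt n Λ J) :
    adjR (tr c f0 j0 v) (tr c f0 j0 v') ↔ adjR v v' := by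
  unfold adjR tr
  simp only [Equiv.coe_fn_mk, add_sub_cancel_right, add_left_inj]
  have e : v.2.1 + c + 1 = v.2.1 + 1 + c := by abel
  rw [e, add_left_inj]

end M_TRG

open M_TRG in
theorem t_TRG : St_TRG := by
  intro n Λ J _ _ _ _ S1 S2 x y
  refine ⟨⟨tr (y.2.1 - x.2.1) (fun z => y.1 z - x.1 (z - (y.2.1 - x.2.1))) (y.2.2 - x.2.2), ?_⟩, ?_⟩
  · intro a b
    simp only [LG, SimpleGraph.fromRel_adj, adjS_tr, adjR_tr, ne_eq, EmbeddingLike.apply_eq_iff_eq]
  · show tr _ _ _ x = y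
    refine Prod.ext ?_ (Prod.ext ?_ ?_)
    · funext z; simp [tr]
    · simp [tr]
    · simp [tr]

end Pool.Agent.ENC
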