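import Pool.Agent.ENC.Stmts

/-!
ENC_UNI: uniformity of the sum of spanning increments.
-/

namespace Pool.Agent.ENC.M_UNI

open Finset Pool.Agent.ENC

instance : Fact (Nat.Prime 2) := ⟨Nat.prime_two⟩

theorem solve {k N : ℕ} (v : Fin k → Fin N → ZMod 2)
    (h : ∀ c : Fin N → ZMod 2, (∀ i, ∑ j, c j * v i j = 0) → c = 0) (t : Fin N → ZMod 2) :
    ∃ u : Fin k → ZMod 2, ∀ a, ∑ i, v i a * u i = t a := by
  let A : Matrix (Fin k) (Fin N) (ZMod 2) := Matrix.of v
  have hker : LinearMap.ker (Matrix.toLin' A) = ⊥ := by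
    rw [LinearMap.ker_eq_bot']
    intro c hc
    apply h
    intro i
    have := congrFun hc i
    rw [Matrix.toLin'_apply] at this
    simp only [Matrix.mulVec, dotProduct, Pi.zero_apply] at this
    rw [← this]
    apply Finset.sum_congr rfl
    intro j _
    rw [mul_comm]
    rfl
  obtain ⟨g, hg⟩ := LinearMap.exists_leftInverse_of_injective _ hker
  let B : Matrix (Fin N) (Fin k) (ZMod 2) := LinearMap.toMatrix' g
  have hBA : B * A = 1 := by
    have h1 : LinearMap.toMatrix' (g.comp (Matrix.toLin' A)) = 1 := by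
      rw [hg, LinearMap.toMatrix'_id]
    rw [LinearMap.toMatrix'_comp, LinearMap.toMatrix'_toLin'] at h1
    exact h1
  refine ⟨Matrix.vecMul t B, ?_⟩
  intro a
  have h2 : Matrix.vecMul (Matrix.vecMul t B) A = t := by
    rw [Matrix.vecMul_vecMul, hBA, Matrix.vecMul_one]
  have h3 := congrFun h2 a
  rw [← h3]
  simp only [Matrix.vecMul, dotProduct]
  apply Finset.sum_congr rfl
  intro i _
  rw [mul_comm]
  rfl

theorem surj {D M k : ℕ} (x : Fin k → (Fin D → ZMod 2))
    (h : ∀ c : Fin (D + 1) → ZMod 2, (∀ i, ∑ j, c j * hat (x i) j = 0) → c = 0) (T : Ten D M) :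
    ∃ u : Fin k → Fin (D + 1) → Fin M → ZMod 2,
      ∀ a j m, ∑ i, hat (x i) a * u i j m = T a j m := by
  have := fun (q : Fin (D + 1) × Fin M) => solve (fun i => hat (x i)) h (fun a => T a q.1 q.2)
  choose u hu using this
  exact ⟨fun i j m => u (j, m) i, fun a j m => hu (j, m) a⟩

theorem one_side {D M k : ℕ} (x : Fin k → (Fin D → ZMod 2))
    (h : ∀ c : Fin (D + 1) → ZMod 2, (∀ i, ∑ j, c j * hat (x i) j = 0) → c = 0)
    (a b : Lam D M) :
    (univ.filter fun p : (Fin k → Fin (D + 1) → Fin M → ZMod 2) × (Fin D → ZMod 2) ×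
      (Fin (D + 1) → Fin M → ZMod 2) => ∑ i, inc1 (x i) (p.1 i) + inc1 p.2.1 p.2.2 = a).card ≤
    (univ.filter fun p : (Fin k → Fin (D + 1) → Fin M → ZMod 2) × (Fin D → ZMod 2) ×
      (Fin (D + 1) → Fin M → ZMod 2) => ∑ i, inc1 (x i) (p.1 i) + inc1 p.2.1 p.2.2 = b).card := by
  choose sg hsg using surj (M := M) x h
  let Y : (Fin (D + 1) → Fin M → ZMod 2) → Ten D M := fun g' c j m =>
    b.1 c j m - a.1 c j m - (Fin.cons 0 (b.2 - a.2) : Fin (D + 1) → ZMod 2) c * g' j m
  apply Finset.card_le_card_of_injOn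
    (fun p => (p.1 + sg (Y p.2.2), p.2.1 + (b.2 - a.2), p.2.2))
  · intro p hp
    simp only [Finset.coe_filter, Set.mem_ofPred_eq, Finset.mem_univ, true_and] at hp ⊢
    obtain ⟨g, y, g'⟩ := p
    simp only at hp ⊢
    have h1 := congrArg Prod.fst hp
    have h2 := congrArg Prod.snd hp
    apply Prod.ext
    · funext c j m
      have h3 := congrFun (congrFun (congrFun h1 c) j) m
      simp only [Prod.fst_add, Prod.fst_sum, Finset.sum_apply, Pi.add_apply, inc1] at h3 ⊢
      have h4 := hsg (Y g') c j m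
      have h5 : hat (y + (b.2 - a.2)) c
          = hat y c + (Fin.cons 0 (b.2 - a.2) : Fin (D + 1) → ZMod 2) c := by
        refine Fin.cases ?_ (fun c => ?_) c
        · simp [hat]
        · simp [hat]
      rw [h5]
      have h6 : ∑ i, hat (x i) c * (g i j m + sg (Y g') i j m)
          = ∑ i, hat (x i) c * g i j m + Y g' c j m := by
        rw [← h4, ← Finset.sum_add_distrib]
        apply Finset.sum_congr rfl
        intro i _
        ring
      rw [h6]
      simp only [Y]
      linear_combination h3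
    · simp only [Prod.snd_add, Prod.snd_sum, inc1] at h2 ⊢
      rw [← add_assoc, h2]
      abel
  · rintro ⟨g1, y1, g1'⟩ _ ⟨g2, y2, g2'⟩ _ he
    simp only [Prod.mk.injEq] at he
    obtain ⟨e1, e2, e3⟩ := he
    subst e3
    rw [add_left_inj] at e1 e2
    rw [e1, e2]

end Pool.Agent.ENC.M_UNI

namespace Pool.Agent.ENC

theorem t_UNI : St_UNI := by
  intro D M k x h a b
  exact le_antisymm (M_UNI.one_side x h a b) (M_UNI.one_side x h b a)

end Pool.Agent.ENC
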