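import Pool.Agent.ENC.Stmts

/-!
ENC_WRD: expansion of the chain without rare moves over words.
-/

namespace Pool.Agent.ENC.M_WRD

open Finset Pool.Agent.ENC

/-- One step as a sum over letters. -/
theorem Nop_eq (n : ℕ) (Φ : HS n → ℝ) (s : HS n) :
    Nop n Φ s = ∑ o : Option (Fin n), lw n o * Φ (stepL o s) := by
  rw [Fintype.sum_option]
  simp only [Nop, lw, stepL, mul_sum]

theorem run_snoc {n m : ℕ} (w : Wd n m) (o : Option (Fin n)) (s : HS n) :
    run (m + 1) (Fin.snoc w o : Fin (m + 1) → Option (Fin n)) s = stepL o (run m w s) := by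
  simp only [run, Fin.snoc_last, Fin.snoc_castSucc]

theorem ww_snoc {n m : ℕ} (w : Wd n m) (o : Option (Fin n)) :
    ww (Fin.snoc w o : Fin (m + 1) → Option (Fin n)) = ww w * lw n o := by
  simp only [ww, Fin.prod_univ_castSucc, Fin.snoc_last, Fin.snoc_castSucc]

theorem main (n : ℕ) : ∀ (m : ℕ) (Φ : HS n → ℝ) (s : HS n),
    (Nop n)^[m] Φ s = ∑ w : Wd n m, ww w * Φ (run m w s) := by
  intro m
  induction m with
  | zero =>
    intro Φ s
    simp [ww, run]
  | succ m ih =>
    intro Φ s
    rw [Function.iterate_succ_apply, ih]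
    have e : ∑ w : Wd n (m + 1), ww w * Φ (run (m + 1) w s) =
        ∑ p : Option (Fin n) × Wd n m,
          ww (Fin.snoc p.2 p.1 : Fin (m + 1) → Option (Fin n)) *
            Φ (run (m + 1) (Fin.snoc p.2 p.1 : Fin (m + 1) → Option (Fin n)) s) := by
      rw [← (Fin.snocEquiv (fun _ : Fin (m + 1) => Option (Fin n))).sum_comp]
      rfl
    rw [e, Fintype.sum_prod_type_right]
    refine Finset.sum_congr rfl fun w _ => ?_
    rw [Nop_eq, mul_sum]
    refine Finset.sum_congr rfl fun o _ => ?_
    rw [run_snoc, ww_snoc, mul_assoc]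

end Pool.Agent.ENC.M_WRD

namespace Pool.Agent.ENC

/-- Expansion of the chain without rare moves over words. -/
theorem t_WRD : St_WRD := fun n m Φ s => M_WRD.main n m Φ s

end Pool.Agent.ENC
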