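import Pool.Agent.ENC.Main
import Pool.Agent.ENC.LB2
import Pool.Agent.ENC.TRE
import Pool.Agent.ENC.ANT
import Pool.Agent.ENC.EXS
import Pool.Agent.ENC.TRG
import Pool.Agent.ENC.CSI
import Pool.Agent.ENC.LW
import Pool.Agent.ENC.EXP
import Pool.Agent.ENC.MIX
import Pool.Agent.ENC.CHN
import Pool.Agent.ENC.HX
import Pool.Agent.ENC.POT
import Pool.Agent.ENC.EXC
import Pool.Agent.ENC.DUH
import Pool.Agent.ENC.GOO
import Pool.Agent.ENC.LBP
import Pool.Agent.ENC.LBC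
import Pool.Agent.ENC.CAR
import Pool.Agent.ENC.GK
import Pool.Agent.ENC.GT
import Pool.Agent.ENC.GKL
import Pool.Agent.ENC.SUP
import Pool.Agent.ENC.NP
import Pool.Agent.ENC.ALP
import Pool.Agent.ENC.N1B
import Pool.Agent.ENC.N2B
import Pool.Agent.ENC.N3
import Pool.Agent.ENC.N4B
import Pool.Agent.ENC.N5
import Pool.Agent.ENC.SS
import Pool.Agent.ENC.SR
import Pool.Agent.ENC.DN
import Pool.Agent.ENC.EP
import Pool.Agent.ENC.EB
import Pool.Agent.ENC.HQ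
import Pool.Agent.ENC.EQ
import Pool.Agent.ENC.EX1
import Pool.Agent.ENC.WRD
import Pool.Agent.ENC.RUN
import Pool.Agent.ENC.REV
import Pool.Agent.ENC.MOM
import Pool.Agent.ENC.CHE
import Pool.Agent.ENC.CNT
import Pool.Agent.ENC.GRD
import Pool.Agent.ENC.SPN
import Pool.Agent.ENC.UNI
import Pool.Agent.ENC.EC
import Pool.Agent.ENC.LIN

/-!
All statements of the assembly hold.
-/

namespace Pool.Agent.ENC

/-- All statements of the assembly hold. -/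
theorem all : AllSt where
  lb := t_LB2
  tre := t_TRE
  ant := t_ANT
  exs := t_EXS
  trg := t_TRG
  csi := t_CSI
  lw := t_LW
  exp := t_EXP t_LW (t_SS t_DN) (t_SR t_DN)
  mix := t_MIX
  chn := t_CHN t_EP t_DN t_EB
  hx := t_HX t_HQ t_EQ t_MIX
  pot := t_POT t_EB t_DN
  exc := t_EXC (t_EXP t_LW (t_SS t_DN) (t_SR t_DN)) t_HQ t_EX1 t_TRG
  duh := t_DUH t_WRD t_RUN t_REV
  goo := t_GOO t_MOM (t_CHE t_MOM) t_CNT t_GRD
  lbp := t_LBP t_MIX t_DN
  lbc := t_LBC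
  car := t_CAR
  gk := t_GK t_SPN t_UNI t_CAR t_EC t_EB
  gt := t_GT
  gkl := t_GKL (t_GK t_SPN t_UNI t_CAR t_EC t_EB) t_GT t_DN t_CAR
  sup := t_SUP t_LIN
  np := t_NP t_CAR
  alp := t_ALP
  n1 := t_N1B
  n2 := t_N2B
  n3 := t_N3
  n4 := t_N4B
  n5 := t_N5

end Pool.Agent.ENC
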