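import Pool.Agent.Lib_helper97.SepDefs

/-!
Definitions for MP_1e9518_pr, Q1: relative entropy of the lazy simple random walk, entropy times,
entropy cutoff.
-/

namespace Pool.Agent.ENC

open Finset Filter Topology Pool.Agent.LazyWalk

/-- Relative entropy `H(t) = ∑_y P^t(x,y) log (P^t(x,y)/π(y))`, `π(y) = 1/|V|`, of the lazy simple
random walk started from `x`. -/
noncomputable def relEnt {V : Type} [Fintype V] (G : SimpleGraph V) (t : ℕ) (x : V) : ℝ :=
  ∑ y : V, stepProb G t x y * Real.log (stepProb G t x y / (1 / (Fintype.card V : ℝ)))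

/-- Relative entropy, maximised over the starting vertex (for a vertex-transitive graph it does not
depend on the starting vertex). -/
noncomputable def entDist {V : Type} [Fintype V] (G : SimpleGraph V) (t : ℕ) : ℝ :=
  ⨆ x : V, relEnt G t x

/-- `T_ent(ε) = min {t : H(t) ≤ ε}`. -/
noncomputable def Tent {V : Type} [Fintype V] (G : SimpleGraph V) (ε : ℝ) : ℕ :=
  sInf {t : ℕ | entDist G t ≤ ε}

/-- Entropy cutoff: `T_ent(ε)/T_ent(δ) → 1` for all fixed `0 < ε < δ`. -/
def EntropyCutoff {V : ℕ → Type} [∀ n, Fintype (V n)] (G : ∀ n, SimpleGraph (V n)) : Prop :=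
  ∀ ε δ : ℝ, 0 < ε → ε < δ →
    Tendsto (fun n => (Tent (G n) ε : ℝ) / (Tent (G n) δ : ℝ)) atTop (𝓝 1)

end Pool.Agent.ENC
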