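import Pool.Agent.Lib_helper97.SepBounds
import Pool.Agent.ENC.EntDefs

/-!
Definitions for MP_1e9518_pr, Q1 (entropy cutoff): relative entropy, the lamplighter type graph and
the hidden Markov chain that describes the lazy walk on it.
-/

namespace Pool.Agent.ENC

open Finset Filter Topology Pool.Agent.LazyWalk

/-! ### Entropy -/

/-- `x log x`. -/
noncomputable def phi (x : ℝ) : ℝ := x * Real.log x

/-- Average over a finite type. -/
noncomputable def avg {X : Type} [Fintype X] (g : X → ℝ) : ℝ := (∑ x, g x) / Fintype.card X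

/-- Entropy (relative to the uniform law) of a density. -/
noncomputable def Ent {X : Type} [Fintype X] (g : X → ℝ) : ℝ := avg fun x => phi (g x)

/-! ### The graph -/

/-- The hypercube. -/
abbrev Cube (n : ℕ) : Type := Fin n → ZMod 2

/-- Hamming weight. -/
def wt {n : ℕ} (x : Cube n) : ℕ := (univ.filter fun i => x i ≠ 0).card

/-- Unit vector. -/
def ee {n : ℕ} (i : Fin n) : Cube n := Pi.single i 1

/-- `∑_i (-1)^{x_i}`. -/
noncomputable def mag {n : ℕ} (x : Cube n) : ℝ := ∑ i, if x i = 0 then (1 : ℝ) else -1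

/-- Allowed increments of a lamp whose position relative to the walker moves from `x` to `x'`. -/
def inc {Λ : Type} [Fintype Λ] {n : ℕ} (S1 S2 : Finset Λ) (x x' : Cube n) : Finset Λ :=
  if 2 * wt x = n ∨ 2 * wt x' = n then univ
  else if 2 * wt x < n ∧ 2 * wt x' < n then S1 else S2

/-- Vertices: lamp configuration, position of the walker, auxiliary coordinate. -/
abbrev Vt (n : ℕ) (Λ J : Type) : Type := (Cube n → Λ) × Cube n × J

section Graph

variable {n : ℕ} {Λ J : Type} [AddCommGroup Λ] [Fintype Λ]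

/-- Common moves: the walker flips coordinate `i`, every lamp gets an allowed increment, the
auxiliary coordinate is arbitrary. -/
def adjS (S1 S2 : Finset Λ) (i : Fin n) (v v' : Vt n Λ J) : Prop :=
  v'.2.1 = v.2.1 + ee i ∧ ∀ z, v'.1 z - v.1 z ∈ inc S1 S2 (z - v.2.1) (z - v'.2.1)

/-- Rare moves: the walker flips all coordinates, all lamps are changed arbitrarily except the lamp
at the walker's old position and the lamp at its new position; the auxiliary coordinate does not
change. -/
def adjR (v v' : Vt n Λ J) : Prop :=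
  v'.2.1 = v.2.1 + 1 ∧ v'.2.2 = v.2.2 ∧ v'.1 v.2.1 = v.1 v.2.1 ∧ v'.1 v'.2.1 = v.1 v'.2.1

/-- The graph. -/
def LG (n : ℕ) (Λ J : Type) [AddCommGroup Λ] [Fintype Λ] (S1 S2 : Finset Λ) :
    SimpleGraph (Vt n Λ J) :=
  SimpleGraph.fromRel fun v v' => (∃ i, adjS S1 S2 i v v') ∨ adjR v v'

/-- Number of common moves that flip coordinate `i`. -/
def cS (n : ℕ) (Λ J : Type) [AddCommGroup Λ] [Fintype Λ] [Fintype J] (S1 S2 : Finset Λ)
    (i : Fin n) : ℕ :=
  Fintype.card J * ∏ z : Cube n, (inc S1 S2 z (z - ee i)).card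

/-- Number of rare moves. -/
def cR (n : ℕ) (Λ : Type) [Fintype Λ] : ℕ := Fintype.card Λ ^ (2 ^ n - 2)

end Graph

/-! ### The hidden chain -/

/-- Hidden state: position of the walker, status of the lamps (`none` = uniform, `some (k, l)` = `k`
picks of the first kind and `l` of the second kind), and whether the auxiliary coordinate is
uniform. -/
abbrev HS (n : ℕ) : Type := Cube n × (Cube n → Option (ℕ × ℕ)) × Bool

/-- Update of the status of a lamp whose relative position moves from `x` to `x'`. -/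
def upd {n : ℕ} (x x' : Cube n) (o : Option (ℕ × ℕ)) : Option (ℕ × ℕ) :=
  if 2 * wt x = n ∨ 2 * wt x' = n then none
  else if 2 * wt x < n ∧ 2 * wt x' < n then o.map fun p => (p.1 + 1, p.2)
  else o.map fun p => (p.1, p.2 + 1)

/-- Common move. -/
def stepS {n : ℕ} (i : Fin n) (s : HS n) : HS n :=
  (s.1 + ee i, fun z => upd (z - s.1) (z - (s.1 + ee i)) (s.2.1 z), true)

/-- Rare move. -/
def stepR {n : ℕ} (s : HS n) : HS n :=
  (s.1 + 1, fun z => if z = s.1 ∨ z = s.1 + 1 then s.2.1 z else none, s.2.2)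

/-- One step of the hidden chain acting on functions. -/
noncomputable def Eop (n : ℕ) (α : ℝ) (Φ : HS n → ℝ) : HS n → ℝ := fun s =>
  (1 / 2) * Φ s + (1 - α) / (2 * n) * ∑ i, Φ (stepS i s) + α / 2 * Φ (stepR s)

/-- Initial state. -/
def s0 (n : ℕ) : HS n := (0, fun _ => some (0, 0), false)

/-! ### Densities -/

section Dens

variable {n : ℕ} {Λ J : Type} [AddCommGroup Λ] [Fintype Λ] [DecidableEq Λ]

/-- Average over a set of increments. -/
noncomputable def avgOn (S : Finset Λ) (g : Λ → ℝ) : Λ → ℝ := fun a =>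
  (∑ b ∈ S, g (a + b)) / S.card

/-- Density of the point mass at `0`. -/
noncomputable def dzero (Λ : Type) [AddCommGroup Λ] [Fintype Λ] [DecidableEq Λ] : Λ → ℝ := fun a =>
  if a = 0 then (Fintype.card Λ : ℝ) else 0

/-- Density of a lamp after `k` picks of the first kind and `l` picks of the second kind. -/
noncomputable def GG (S1 S2 : Finset Λ) (k l : ℕ) : Λ → ℝ :=
  (avgOn S1)^[k] ((avgOn S2)^[l] (dzero Λ))

/-- Density of a lamp with given status. -/
noncomputable def dlam (S1 S2 : Finset Λ) (o : Option (ℕ × ℕ)) : Λ → ℝ :=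
  match o with
  | none => fun _ => 1
  | some p => GG S1 S2 p.1 p.2

/-- Density of the auxiliary coordinate. -/
noncomputable def dJ {J : Type} [AddCommGroup J] [Fintype J] [DecidableEq J] (b : Bool) (j : J) : ℝ :=
  if b = true then 1 else if j = 0 then (Fintype.card J : ℝ) else 0

/-- Density of the walk given the hidden state. -/
noncomputable def dens [AddCommGroup J] [Fintype J] [DecidableEq J] (S1 S2 : Finset Λ) (s : HS n)
    (v : Vt n Λ J) : ℝ :=
  (if v.2.1 = s.1 then (2 : ℝ) ^ n else 0) * (∏ z, dlam S1 S2 (s.2.1 z) (v.1 z)) * dJ s.2.2 v.2.2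

/-- Entropy of the lamps and of the auxiliary coordinate given the hidden state. -/
noncomputable def dentr (J : Type) [AddCommGroup J] [Fintype J] [DecidableEq J] (S1 S2 : Finset Λ)
    (s : HS n) : ℝ :=
  ∑ z, Ent (dlam S1 S2 (s.2.1 z)) + Ent (dJ (J := J) s.2.2)

end Dens

/-! ### The lamp group -/

/-- Tensors. -/
abbrev Ten (D M : ℕ) : Type := Fin (D + 1) → Fin (D + 1) → Fin M → ZMod 2

/-- The lamp group. -/
abbrev Lam (D M : ℕ) : Type := Ten D M × (Fin D → ZMod 2)

/-- `(1, x)`. -/
def hat {D : ℕ} (x : Fin D → ZMod 2) : Fin (D + 1) → ZMod 2 := Fin.cons 1 x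

/-- Increment of the first kind. -/
def inc1 {D M : ℕ} (x : Fin D → ZMod 2) (g : Fin (D + 1) → Fin M → ZMod 2) : Lam D M :=
  (fun i j m => hat x i * g j m, x)

/-- Increment of the second kind. -/
def inc2 {D M : ℕ} (y : Fin D → ZMod 2) (g : Fin (D + 1) → Fin M → ZMod 2) : Lam D M :=
  (fun i j m => g i m * hat y j, y)

/-- Increments of the first kind. -/
def S1 (D M : ℕ) : Finset (Lam D M) :=
  (univ : Finset ((Fin D → ZMod 2) × (Fin (D + 1) → Fin M → ZMod 2))).image fun p => inc1 p.1 p.2

/-- Increments of the second kind. -/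
def S2 (D M : ℕ) : Finset (Lam D M) :=
  (univ : Finset ((Fin D → ZMod 2) × (Fin (D + 1) → Fin M → ZMod 2))).image fun p => inc2 p.1 p.2

end Pool.Agent.ENC
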