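import Pool.Agent.ENC.Defs

/-!
Words, good words and parameters for MP_1e9518_pr, Q1.
-/

namespace Pool.Agent.ENC

open Finset Filter Topology Pool.Agent.LazyWalk

/-! ### Words without rare letters -/

/-- Words without rare letters: `none` = the walk rests, `some i` = common move in direction `i`. -/
abbrev Wd (n m : ℕ) : Type := Fin m → Option (Fin n)

/-- Weight of a letter (the weights of all letters add up to `1`). -/
noncomputable def lw (n : ℕ) (o : Option (Fin n)) : ℝ :=
  match o with
  | none => 1 / 2
  | some _ => 1 / (2 * n)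

/-- Weight of a word. -/
noncomputable def ww {n m : ℕ} (w : Wd n m) : ℝ := ∏ r, lw n (w r)

/-- Displacement of a letter. -/
def lv {n : ℕ} (o : Option (Fin n)) : Cube n :=
  match o with
  | none => 0
  | some i => ee i

/-- Number of moves of a word. -/
def cnt {n m : ℕ} (w : Wd n m) : ℕ := (univ.filter fun r => w r ≠ none).card

/-- Displacement of the first `b` letters. -/
def pre {n m : ℕ} (w : Wd n m) (b : ℕ) : Cube n :=
  ∑ r ∈ univ.filter (fun r : Fin m => (r : ℕ) < b), lv (w r)

/-- Displacement of the letters with index at least `a`. -/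
def suf {n m : ℕ} (w : Wd n m) (a : ℕ) : Cube n :=
  ∑ r ∈ univ.filter (fun r : Fin m => a ≤ (r : ℕ)), lv (w r)

/-- All initial displacements have weight less than `n/2`, and there are at most `u` moves. -/
def good2 {n m : ℕ} (u : ℕ) (w : Wd n m) : Prop :=
  (∀ b ≤ m, 2 * wt (pre w b) < n) ∧ cnt w ≤ u

/-- All final displacements have weight less than `n/2`, and there are at most `u` moves. -/
def good1 {n m : ℕ} (u : ℕ) (w : Wd n m) : Prop :=
  (∀ a ≤ m, 2 * wt (suf w a) < n) ∧ cnt w ≤ u

/-- Effect of a letter on the hidden state. -/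
def stepL {n : ℕ} (o : Option (Fin n)) (s : HS n) : HS n :=
  match o with
  | none => s
  | some i => stepS i s

/-- Effect of a word on the hidden state (the letter with index `0` acts first). -/
def run {n : ℕ} : (m : ℕ) → Wd n m → HS n → HS n
  | 0, _, s => s
  | m + 1, w, s => stepL (w (Fin.last m)) (run m (fun r => w r.castSucc) s)

/-- One step of the hidden chain conditioned to have no rare move. -/
noncomputable def Nop (n : ℕ) (Φ : HS n → ℝ) : HS n → ℝ := fun s =>
  (1 / 2) * Φ s + 1 / (2 * n) * ∑ i, Φ (stepS i s)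

/-- Some lamp has received at most `u` picks of each kind and no refresh. -/
def Bad {n : ℕ} (u : ℕ) (s : HS n) : Prop :=
  ∃ z k l, s.2.1 z = some (k, l) ∧ k ≤ u ∧ l ≤ u

open scoped Classical in
/-- Indicator of `Bad`. -/
noncomputable def ibad {n : ℕ} (u : ℕ) (s : HS n) : ℝ := if Bad u s then 1 else 0

/-! ### Parameters -/

/-- Dimension of the cube. -/
def nn (l : ℕ) : ℕ := 2 ^ (58 * l)

/-- Size of the tensors (minus one). -/
def DD (l : ℕ) : ℕ := 8 * nn l * l

/-- Threshold for the number of picks: `6.5 n l`. -/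
def uu (l : ℕ) : ℕ := 13 * 2 ^ (58 * l - 1) * l

/-- Rate of the rare moves (up to a factor at most two). -/
noncomputable def a0 (l : ℕ) : ℝ := 1 / ((nn l : ℝ) * l) ^ 3

/-- `log |Λ|` for the lamp group `Lam (DD l) 64`. -/
noncomputable def LL (l : ℕ) : ℝ := (64 * ((DD l : ℝ) + 1) ^ 2 + DD l) * Real.log 2

end Pool.Agent.ENC
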