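import Pool.Agent.ENC.Stmts

/-!
ENC_HQ: the law of the walker is given by the dual formula.
-/

namespace Pool.Agent.ENC

open Finset Filter Topology Pool.Agent.LazyWalk

namespace M_HQ

lemma aux (n : ℕ) (α : ℝ) (hn : 1 ≤ n) (h0 : 0 ≤ α) (h1 : α ≤ 1) (h : Cube n) (t : ℕ) :
    (Eop n α)^[t] (fun s => if s.1 = h then (2 : ℝ) ^ n else 0) =
      fun s => Dual.G n α t (zeros (h - s.1)) := by
  induction t with
  | zero =>
    funext s
    rw [Function.iterate_zero, id_eq, Dual.G_zero _ (zeros_le (h - s.1))]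
    by_cases hs : s.1 = h
    · rw [if_pos hs, if_pos ((zeros_eq_top _).2 (by rw [hs, sub_self]))]
    · rw [if_neg hs, if_neg]
      intro h'
      exact hs (sub_eq_zero.1 ((zeros_eq_top _).1 h')).symm
  | succ t ih =>
    funext s
    rw [Function.iterate_succ_apply', ih, Dual.G_succ h0 h1 (by omega) (zeros_le (h - s.1)) t,
      ← sum_zeros (h - s.1) (Dual.G n α t), ← zeros_sub_one]
    have e1 : ∀ i : Fin n, h - (stepS i s).1 = h - s.1 - Pi.single i 1 := by
      intro i
      show h - (s.1 + ee i) = h - s.1 - Pi.single i 1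
      rw [sub_add_eq_sub_sub]
      rfl
    have e2 : h - (stepR s).1 = h - s.1 - 1 := by
      show h - (s.1 + 1) = h - s.1 - 1
      rw [sub_add_eq_sub_sub]
    simp only [Eop, e1, e2]

end M_HQ

theorem t_HQ : St_HQ := by
  intro n α hn h0 h1 t h
  have := congrFun (M_HQ.aux n α hn h0 h1 h t) (s0 n)
  rw [this]
  show Dual.G n α t (zeros (h - 0)) = _
  rw [sub_zero]

end Pool.Agent.ENC
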