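import Pool.Agent.ENC.Stmts

/-!
# Size of the set of configurations with a lamp in `C` (module ENC_LBC)
-/

set_option autoImplicit false

namespace Pool.Agent.ENC

open Finset

namespace M_LBC

/-- Number of configurations whose lamp at `z` is in `C`. -/
theorem one (n : ℕ) (Λ J : Type) [Fintype Λ] [Fintype J] [DecidableEq Λ]
    (C : Finset Λ) (z : Cube n) :
    (univ.filter fun v : Vt n Λ J => v.1 z ∈ C).card * Fintype.card Λ ≤
      C.card * Fintype.card (Vt n Λ J) := by
  rw [← Finset.card_univ (α := Λ), ← Finset.card_product, ← Finset.card_univ (α := Vt n Λ J),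
    ← Finset.card_product]
  apply Finset.card_le_card_of_injOn
    (fun p : Vt n Λ J × Λ => (p.1.1 z, ((Function.update p.1.1 z p.2, p.1.2) : Vt n Λ J)))
  · intro p hp
    simp only [coe_product, coe_filter, mem_univ, true_and, coe_univ, Set.mem_prod,
      Set.mem_ofPred_eq, Set.mem_univ, and_true] at hp
    simp only [coe_product, coe_univ, Set.mem_prod, Set.mem_univ, and_true, mem_coe]
    exact hp
  · intro p _ q _ h
    simp only [Prod.mk.injEq] at h
    obtain ⟨h1, h2, h3⟩ := h
    have h4 : p.2 = q.2 := by
      have := congrFun h2 z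
      simpa using this
    have h5 : p.1.1 = q.1.1 := by
      funext y
      by_cases hy : y = z
      · rw [hy]; exact h1
      · have := congrFun h2 y
        simpa [Function.update_of_ne hy] using this
    exact Prod.ext (Prod.ext h5 h3) h4

end M_LBC

/-- **Size of `B`** -/
theorem t_LBC : St_LBC := by
  classical
  intro n Λ J _ _ _ _ C
  have hsub : (univ.filter fun v : Vt n Λ J => ∃ z, v.1 z ∈ C) ⊆
      univ.biUnion (fun z : Cube n => univ.filter fun v : Vt n Λ J => v.1 z ∈ C) := by
    intro v hv
    rw [mem_filter] at hv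
    obtain ⟨z, hz⟩ := hv.2
    exact mem_biUnion.2 ⟨z, mem_univ _, mem_filter.2 ⟨mem_univ _, hz⟩⟩
  have hc := (Finset.card_le_card hsub).trans Finset.card_biUnion_le
  have h2 : (univ.filter fun v : Vt n Λ J => ∃ z, v.1 z ∈ C).card * Fintype.card Λ ≤
      2 ^ n * C.card * Fintype.card (Vt n Λ J) := by
    calc (univ.filter fun v : Vt n Λ J => ∃ z, v.1 z ∈ C).card * Fintype.card Λ
        ≤ (∑ z : Cube n, (univ.filter fun v : Vt n Λ J => v.1 z ∈ C).card)
          * Fintype.card Λ := Nat.mul_le_mul_right _ hc
      _ = ∑ z : Cube n, (univ.filter fun v : Vt n Λ J => v.1 z ∈ C).card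
          * Fintype.card Λ := by rw [Finset.sum_mul]
      _ ≤ ∑ _z : Cube n, C.card * Fintype.card (Vt n Λ J) :=
          Finset.sum_le_sum fun z _ => M_LBC.one n Λ J C z
      _ = 2 ^ n * C.card * Fintype.card (Vt n Λ J) := by
          rw [Finset.sum_const, Finset.card_univ, smul_eq_mul]
          have : Fintype.card (Cube n) = 2 ^ n := by
            rw [Fintype.card_fun, ZMod.card, Fintype.card_fin]
          rw [this, mul_assoc]
  exact_mod_cast h2

end Pool.Agent.ENC
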