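import Pool.Agent.ENC.Stmts2

/-!
Assembly of the main theorem from the statements.
-/

namespace Pool.Agent.ENC

open Finset Filter Topology Pool.Agent.LazyWalk

/-- All statements used in the assembly. -/
structure AllSt : Prop where
  lb : St_LB2
  tre : St_TRE
  ant : St_ANT
  exs : St_EXS
  trg : St_TRG
  csi : St_CSI
  lw : St_LW
  exp : St_EXP
  mix : St_MIX
  chn : St_CHN
  hx : St_HX
  pot : St_POT
  exc : St_EXC
  duh : St_DUH
  goo : St_GOO
  lbp : St_LBP
  lbc : St_LBC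
  car : St_CAR
  gk : St_GK
  gt : St_GT
  gkl : St_GKL
  sup : St_SUP
  np : St_NP
  alp : St_ALP
  n1 : St_N1B
  n2 : St_N2B
  n3 : St_N3
  n4 : St_N4B
  n5 : St_N5

section Basic

lemma nn_pos (l : ℕ) : 0 < nn l := by unfold nn; positivity

lemma nn_ge {l : ℕ} (hl : 1 ≤ l) : 8 ≤ nn l := by
  unfold nn
  calc 8 = 2 ^ 3 := by norm_num
    _ ≤ 2 ^ (58 * l) := Nat.pow_le_pow_right (by norm_num) (by omega)

lemma nn_even {l : ℕ} (hl : 1 ≤ l) : Even (nn l) := by
  unfold nn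
  rw [show 58 * l = (58 * l - 1) + 1 by omega, pow_succ]
  exact ⟨2 ^ (58 * l - 1), by ring⟩

lemma two_uu {l : ℕ} (hl : 1 ≤ l) : 2 * uu l = 13 * nn l * l := by
  unfold uu nn
  conv_rhs => rw [show 58 * l = (58 * l - 1) + 1 by omega, pow_succ]
  ring

lemma uu_le {l : ℕ} (hl : 1 ≤ l) : uu l ≤ DD l + 1 := by
  have h := two_uu hl
  unfold DD
  nlinarith

lemma a0_pos {l : ℕ} (hl : 1 ≤ l) : 0 < a0 l := by
  unfold a0
  have : (0 : ℝ) < nn l := by exact_mod_cast nn_pos l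
  have : (0 : ℝ) < l := by exact_mod_cast hl
  positivity

lemma a0_le {l : ℕ} (hl : 1 ≤ l) : a0 l ≤ 1 / 2 := by
  unfold a0
  have h1 : (8 : ℝ) ≤ nn l := by exact_mod_cast nn_ge hl
  have h2 : (1 : ℝ) ≤ l := by exact_mod_cast hl
  have h3 : (8 : ℝ) ≤ (nn l : ℝ) * l := by nlinarith
  have h4 : (8 : ℝ) ^ 3 ≤ ((nn l : ℝ) * l) ^ 3 := pow_le_pow_left₀ (by norm_num) h3 3
  rw [div_le_div_iff₀ (by positivity) (by norm_num)]
  linarith

lemma LL_nonneg (l : ℕ) : 0 ≤ LL l := by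
  unfold LL
  have := Real.log_nonneg (by norm_num : (1 : ℝ) ≤ 2)
  positivity

end Basic

section One

variable (A : AllSt)

include A in
lemma log_card (l : ℕ) : Real.log (Fintype.card (Lam (DD l) 64)) = LL l := by
  have h := (A.car (DD l) 64).2.2.2.2.1
  rw [h]
  push_cast
  rw [Real.log_pow]
  unfold LL
  push_cast
  ring


include A in
lemma S1_ne (l : ℕ) : (S1 (DD l) 64).Nonempty := ⟨0, (A.car (DD l) 64).2.2.1⟩

include A in
lemma S2_ne (l : ℕ) : (S2 (DD l) 64).Nonempty := ⟨0, (A.car (DD l) 64).2.2.2.1⟩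

include A in
lemma neg_eq (l : ℕ) (a : Lam (DD l) 64) : -a = a := (A.car (DD l) 64).2.2.2.2.2 a

/-- The first direction. -/
def i0 (l : ℕ) : Fin (nn l) := ⟨0, nn_pos l⟩

/-- Number of lamp increments in a common move. -/
def PP (l : ℕ) : ℕ :=
  ∏ z : Cube (nn l), (inc (S1 (DD l) 64) (S2 (DD l) 64) z (z - ee (i0 l))).card

/-- Number of rare moves. -/
def RR (l : ℕ) : ℕ := cR (nn l) (Lam (DD l) 64)

include A in
lemma PP_pos (l : ℕ) : 1 ≤ PP l := by
  have h : 0 < PP l := by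
    unfold PP
    refine Finset.prod_pos fun z _ => ?_
    rw [Finset.card_pos]
    unfold inc
    split_ifs
    · exact (Finset.univ_nonempty : (Finset.univ : Finset (Lam (DD l) 64)).Nonempty)
    · exact S1_ne A l
    · exact S2_ne A l
  exact h

include A in
lemma exists_f {l : ℕ} (hl : 40 ≤ l) {c : ℝ} (hc0 : 0 < c) (hc1 : c ≤ 1) :
    ∃ f : ℕ, 1 ≤ f ∧ c * a0 l / 2 ≤ (RR l : ℝ) / ((nn l * (f * PP l) + RR l : ℕ) : ℝ) ∧
      (RR l : ℝ) / ((nn l * (f * PP l) + RR l : ℕ) : ℝ) ≤ c * a0 l ∧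
      (f : ℝ) ≤ 2 * RR l / (c * a0 l) := by
  have h1 : 1 ≤ l := by omega
  have hP : 1 ≤ nn l * PP l := Nat.mul_pos (nn_pos l) (PP_pos A l)
  have hPR : nn l * PP l ≤ RR l := A.np l h1 (i0 l)
  have ha : 0 < c * a0 l := mul_pos hc0 (a0_pos h1)
  have ha2 : c * a0 l ≤ 1 / 2 := by
    have := a0_le h1
    have := a0_pos h1
    nlinarith
  obtain ⟨f, hf1, hf2, hf3, hf4⟩ := A.alp (nn l * PP l) (RR l) (c * a0 l) hP hPR ha ha2
  have e : nn l * (f * PP l) + RR l = nn l * PP l * f + RR l := by ring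
  exact ⟨f, hf1, by rw [e]; exact hf2, by rw [e]; exact hf3, hf4⟩

/-- The lazy walk on the graph with parameters `l`, `f`. -/
abbrev VV (l f : ℕ) : Type := Vt (nn l) (Lam (DD l) 64) (ZMod f)

/-- The graph. -/
def GR (l f : ℕ) : SimpleGraph (VV l f) :=
  LG (nn l) (Lam (DD l) 64) (ZMod f) (S1 (DD l) 64) (S2 (DD l) 64)

/-- The rate of the rare moves. -/
noncomputable def al (l f : ℕ) : ℝ := (RR l : ℝ) / ((nn l * (f * PP l) + RR l : ℕ) : ℝ)

include A in
lemma cS_eq (l f : ℕ) [NeZero f] (i : Fin (nn l)) :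
    cS (nn l) (Lam (DD l) 64) (ZMod f) (S1 (DD l) 64) (S2 (DD l) 64) i = f * PP l := by
  have hc : (S1 (DD l) 64).card = (S2 (DD l) 64).card := by
    rw [(A.car (DD l) 64).1, (A.car (DD l) 64).2.1]
  rw [A.csi (nn l) (Lam (DD l) 64) (ZMod f) (S1 (DD l) 64) (S2 (DD l) 64) hc i (i0 l)]
  unfold cS PP
  rw [ZMod.card]

lemma RR_pos (l : ℕ) : 0 < RR l := by
  unfold RR cR
  exact pow_pos Fintype.card_pos _

section Params

variable {l f : ℕ} [NeZero f] (hl : 40 ≤ l)

include A hl in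
lemma regG : Reg (GR l f) (nn l * (f * PP l) + RR l) :=
  (A.lw (nn l) (Lam (DD l) 64) (ZMod f) (S1 (DD l) 64) (S2 (DD l) 64) (f * PP l)
    (by have := nn_ge (by omega : 1 ≤ l); omega) (neg_eq A l) (cS_eq A l f)).1

include A hl in
lemma expG (t : ℕ) (v : VV l f) :
    (Fintype.card (VV l f) : ℝ) * stepProb (GR l f) t 0 v =
      (Eop (nn l) (al l f))^[t] (fun s => dens (S1 (DD l) 64) (S2 (DD l) 64) s v) (s0 (nn l)) :=
  A.exp (nn l) (Lam (DD l) 64) (ZMod f) (S1 (DD l) 64) (S2 (DD l) 64) (f * PP l)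
    (S1_ne A l) (S2_ne A l) (by have := nn_ge (by omega : 1 ≤ l); omega) (neg_eq A l)
    (cS_eq A l f) t v

include A in
lemma transG : VertexTransitive (GR l f) :=
  A.trg (nn l) (Lam (DD l) 64) (ZMod f) (S1 (DD l) 64) (S2 (DD l) 64)

lemma al_pos (l f : ℕ) : 0 < al l f := by
  unfold al
  have h1 := RR_pos l
  have h2 : (0 : ℝ) < RR l := by exact_mod_cast h1
  have h3 : (0 : ℝ) < ((nn l * (f * PP l) + RR l : ℕ) : ℝ) := by
    exact_mod_cast (by omega : 0 < nn l * (f * PP l) + RR l)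
  exact div_pos h2 h3

include A hl in
lemma excG : ExpConv (GR l f) (1 - (1 - al l f) / nn l) := by
  have hf : 1 ≤ f := Nat.one_le_iff_ne_zero.2 (NeZero.ne f)
  exact A.exc (nn l) (Lam (DD l) 64) (ZMod f) (S1 (DD l) 64) (S2 (DD l) 64) (f * PP l)
    (2 ^ (DD l + 2) * Fintype.card (Lam (DD l) 64))
    (S1_ne A l) (S2_ne A l) (nn_ge (by omega)) (neg_eq A l)
    (Nat.mul_pos hf (PP_pos A l)) (cS_eq A l f) (by positivity)
    (fun k k' a => A.gkl (DD l) 64 k k' a)

include A in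
lemma entG (t : ℕ) : entDist (GR l f) t =
    Ent fun v : VV l f => (Fintype.card (VV l f) : ℝ) * stepProb (GR l f) t 0 v :=
  A.tre (VV l f) (GR l f) (transG A) t 0

include A hl in
lemma dens_avg (t : ℕ) :
    avg (fun v : VV l f => (Fintype.card (VV l f) : ℝ) * stepProb (GR l f) t 0 v) = 1 := by
  have h := stepProb_row_sum (regG A hl (f := f)) t 0
  unfold avg
  rw [← Finset.mul_sum, h, mul_one]
  have : (0 : ℝ) < Fintype.card (VV l f) := by exact_mod_cast Fintype.card_pos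
  field_simp

lemma dens_nn (t : ℕ) (v : VV l f) :
    0 ≤ (Fintype.card (VV l f) : ℝ) * stepProb (GR l f) t 0 v :=
  mul_nonneg (by positivity) (stepProb_nonneg t 0 v)

/-! ### Upper bound for the entropy -/

include A in
lemma Ent_GG (l k : ℕ) : Ent (GG (S1 (DD l) 64) (S2 (DD l) 64) k 0) ≤
    (2 ^ (DD l + 2) * LL l) / 2 ^ k := by
  have h := (A.gk (DD l) 64 k).2
  rw [log_card A l] at h
  refine h.trans (le_of_eq ?_)
  ring

include A in
lemma Ent_GG' (l k : ℕ) : Ent (GG (S1 (DD l) 64) (S2 (DD l) 64) 0 k) ≤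
    (2 ^ (DD l + 2) * LL l) / 2 ^ k := by
  rw [(A.gt (DD l) 64 k).2]
  exact Ent_GG A l k

include A hl in
lemma upper_al (h1 : al l f ≤ 1) (t : ℕ) : entDist (GR l f) t ≤
    ((1 + Real.exp (-(2 * (1 - al l f) * t / nn l))) ^ nn l - 1) +
    ((2 ^ nn l * (2 ^ (DD l + 2) * LL l) + Real.log f) * (3 / 4 + al l f / 4) ^ t +
      al l f * t * LL l) := by
  have hn8 := nn_ge (by omega : 1 ≤ l)
  have h0 := (al_pos l f).le
  obtain ⟨K, _, w, st, hw, hw1, hΦ⟩ := A.mix (nn l) (al l f) (by omega) h0 h1 t (s0 (nn l))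
  have e1 : (fun v : VV l f => (Fintype.card (VV l f) : ℝ) * stepProb (GR l f) t 0 v) =
      fun v : VV l f => ∑ k, w k * dens (S1 (DD l) 64) (S2 (DD l) 64) (st k) v := by
    funext v
    rw [expG A hl t v, hΦ]
  have e2 := A.chn (nn l) (Lam (DD l) 64) (ZMod f) (S1 (DD l) 64) (S2 (DD l) 64) (S1_ne A l)
    (S2_ne A l) K w st hw hw1
  have e3 := A.hx (nn l) (al l f) (by omega) h0 h1 t
  have e4 := A.pot (nn l) (Lam (DD l) 64) (ZMod f) (S1 (DD l) 64) (S2 (DD l) 64) (al l f)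
    (2 ^ (DD l + 2) * LL l) (S1_ne A l) (S2_ne A l) (by omega) (nn_even (by omega)) h0 h1
    (mul_nonneg (by positivity) (LL_nonneg l)) (Ent_GG A l) (Ent_GG' A l) t
  have e5 : (fun h : Cube (nn l) => (Eop (nn l) (al l f))^[t]
      (fun s => if s.1 = h then (2 : ℝ) ^ nn l else 0) (s0 (nn l))) =
      fun h : Cube (nn l) => ∑ k, w k * (if (st k).1 = h then (2 : ℝ) ^ nn l else 0) := by
    funext h
    rw [hΦ]
  rw [e5] at e3
  rw [hΦ, ZMod.card, log_card A l] at e4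
  rw [entG A t, e1]
  linarith

lemma log_f {c : ℝ} (hl : 40 ≤ l) (hc0 : 1 / (l : ℝ) ≤ c) (hRL : Real.log (RR l) ≤ 2 ^ nn l * LL l)
    (hf : (f : ℝ) ≤ 2 * RR l / (c * a0 l)) :
    Real.log f ≤ 2 ^ nn l * LL l + 10 * nn l * l := by
  have hl0 : (40 : ℝ) ≤ l := by exact_mod_cast hl
  have hn8 : (8 : ℝ) ≤ nn l := by exact_mod_cast nn_ge (by omega : 1 ≤ l)
  have hR : (0 : ℝ) < RR l := by exact_mod_cast RR_pos l
  have hf0 : (0 : ℝ) < f := by
    have := NeZero.pos f
    exact_mod_cast this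
  have hNl : (0 : ℝ) < (nn l : ℝ) * l := by positivity
  have hc : 0 < c := lt_of_lt_of_le (by positivity) hc0
  have h1 : 2 * (RR l : ℝ) / (c * a0 l) ≤ 2 * RR l * (l * ((nn l : ℝ) * l) ^ 3) := by
    unfold a0
    rw [div_le_iff₀ (by positivity)]
    have h2 : 1 ≤ (l : ℝ) * c := by
      rw [div_le_iff₀ (by positivity)] at hc0
      linarith
    have e : 2 * (RR l : ℝ) * (l * ((nn l : ℝ) * l) ^ 3) * (c * (1 / ((nn l : ℝ) * l) ^ 3)) =
      2 * RR l * (l * c) := by field_simp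
    rw [e]
    nlinarith
  have h2 : Real.log f ≤ Real.log (2 * RR l * (l * ((nn l : ℝ) * l) ^ 3)) :=
    Real.log_le_log hf0 (hf.trans h1)
  refine h2.trans ?_
  rw [Real.log_mul (by positivity) (by positivity), Real.log_mul (by norm_num) (by positivity),
    Real.log_mul (by positivity) (by positivity), Real.log_pow]
  have a1 : Real.log 2 ≤ 1 := by
    have := Real.log_two_lt_d9
    linarith
  have a2 : Real.log l ≤ l := by
    have := Real.log_le_sub_one_of_pos (show (0 : ℝ) < l by linarith)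
    linarith
  have a3 : Real.log ((nn l : ℝ) * l) ≤ (nn l : ℝ) * l := by
    have := Real.log_le_sub_one_of_pos hNl
    linarith
  push_cast
  nlinarith

include A in
lemma log_RR (l : ℕ) : Real.log (RR l) ≤ 2 ^ nn l * LL l := by
  unfold RR cR
  push_cast
  rw [Real.log_pow, log_card A l]
  apply mul_le_mul_of_nonneg_right _ (LL_nonneg l)
  have : 2 ^ nn l - 2 ≤ 2 ^ nn l := Nat.sub_le _ _
  exact_mod_cast this

include A hl in
lemma upper {c : ℝ} (hc0 : 1 / (l : ℝ) ≤ c) (hc1 : c ≤ 1) (ha : al l f ≤ c * a0 l)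
    (hf : (f : ℝ) ≤ 2 * RR l / (c * a0 l)) : entDist (GR l f) (21 * nn l * l) ≤ 70000 * c := by
  have h1 : 1 ≤ l := by omega
  have hl0 : (40 : ℝ) ≤ l := by exact_mod_cast hl
  have hc : 0 < c := lt_of_lt_of_le (by positivity) hc0
  have b1 := a0_le h1
  have b2 := a0_pos h1
  have ha0 : al l f ≤ a0 l := ha.trans (by nlinarith)
  have h := upper_al A hl (by linarith : al l f ≤ 1) (21 * nn l * l)
  have u1 := A.n1 l hl (al l f) (al_pos l f).le ha0
  have u2 := A.n2 l hl (al l f) (Real.log f) (al_pos l f).le ha0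
    (log_f hl hc0 (log_RR A l) hf)
  have u3 := A.n3 l hl (a0 l) b2.le le_rfl
  have u4 : al l f * ((21 * nn l * l : ℕ) : ℝ) * LL l ≤ 69000 * c := by
    have hx : 0 ≤ ((21 * nn l * l : ℕ) : ℝ) * LL l := mul_nonneg (by positivity) (LL_nonneg l)
    calc al l f * ((21 * nn l * l : ℕ) : ℝ) * LL l
        = al l f * (((21 * nn l * l : ℕ) : ℝ) * LL l) := by ring
      _ ≤ (c * a0 l) * (((21 * nn l * l : ℕ) : ℝ) * LL l) := mul_le_mul_of_nonneg_right ha hx
      _ = c * (a0 l * ((21 * nn l * l : ℕ) : ℝ) * LL l) := by ring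
      _ ≤ c * 69000 := mul_le_mul_of_nonneg_left u3 hc.le
      _ = 69000 * c := by ring
  linarith

/-! ### The bad set -/

open scoped Classical in
/-- Configurations in which some lamp lies in the support of `GG (uu l) (uu l)`. -/
noncomputable def BB (l f : ℕ) [NeZero f] : Finset (VV l f) :=
  univ.filter fun v : VV l f => ∃ z, GG (S1 (DD l) 64) (S2 (DD l) 64) (uu l) (uu l) (v.1 z) ≠ 0

/-- The exponent of the bad set. -/
noncomputable def KK (l : ℕ) : ℝ :=
  (64 * ((DD l : ℝ) + 1 - uu l) ^ 2 - 2 * uu l * DD l - DD l - nn l) * Real.log 2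

open scoped Classical in
/-- Support of `GG (uu l) (uu l)`. -/
noncomputable def CC (l : ℕ) : Finset (Lam (DD l) 64) :=
  univ.filter fun a => GG (S1 (DD l) 64) (S2 (DD l) 64) (uu l) (uu l) a ≠ 0

include A in
lemma CC_card (h : 1 ≤ l) : (CC l).card * 2 ^ (64 * (DD l + 1 - uu l) ^ 2) ≤
    2 ^ (64 * (DD l + 1) ^ 2 + 2 * uu l * DD l + DD l) := by
  have h2 := A.sup (DD l) 64 (uu l) (uu_le h)
  obtain ⟨S, hS, h3⟩ : ∃ S : Finset (Lam (DD l) 64),
      (∀ a, a ∈ S ↔ GG (S1 (DD l) 64) (S2 (DD l) 64) (uu l) (uu l) a ≠ 0) ∧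
      S.card * 2 ^ (64 * (DD l + 1 - uu l) ^ 2) ≤
        2 ^ (64 * (DD l + 1) ^ 2 + 2 * uu l * DD l + DD l) := by
    refine ⟨_, ?_, h2⟩
    intro a
    simp only [Finset.mem_filter, Finset.mem_univ, true_and]
  have e : S = CC l := by
    ext a
    rw [hS]
    unfold CC
    simp only [Finset.mem_filter, Finset.mem_univ, true_and]
  rw [← e]
  exact h3

include A in
lemma BB_card0 : ((BB l f).card : ℝ) * Fintype.card (Lam (DD l) 64) ≤
      2 ^ nn l * ((CC l).card : ℝ) * Fintype.card (VV l f) := by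
  have h1 := A.lbc (nn l) (Lam (DD l) 64) (ZMod f) (CC l)
  obtain ⟨S, hS, h3⟩ : ∃ S : Finset (VV l f), (∀ v, v ∈ S ↔ ∃ z, v.1 z ∈ CC l) ∧
      (S.card : ℝ) * Fintype.card (Lam (DD l) 64) ≤
      2 ^ nn l * ((CC l).card : ℝ) * Fintype.card (VV l f) := by
    refine ⟨_, ?_, h1⟩
    intro v
    simp only [Finset.mem_filter, Finset.mem_univ, true_and]
  have e : S = BB l f := by
    ext v
    rw [hS]
    unfold CC BB
    simp only [Finset.mem_filter, Finset.mem_univ, true_and]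
  rw [← e]
  exact h3

include A hl in
lemma BB_card : ((BB l f).card : ℝ) / Fintype.card (VV l f) ≤ Real.exp (-KK l) := by
  have hu := uu_le (by omega : 1 ≤ l)
  have h1' := BB_card0 A (l := l) (f := f)
  have h2 := CC_card A (by omega : 1 ≤ l)
  have h3 := (A.car (DD l) 64).2.2.2.2.1
  obtain ⟨C, hC⟩ : ∃ C : ℕ, C = (CC l).card := ⟨_, rfl⟩
  rw [← hC] at h1' h2
  have h2' : (C : ℝ) * 2 ^ (64 * (DD l + 1 - uu l) ^ 2) ≤
      2 ^ (64 * (DD l + 1) ^ 2 + 2 * uu l * DD l + DD l) := by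
    exact_mod_cast h2
  have h3' : (Fintype.card (Lam (DD l) 64) : ℝ) = 2 ^ (64 * (DD l + 1) ^ 2 + DD l) := by
    rw [h3]
    push_cast
    rfl
  rw [h3'] at h1'
  have hV : (0 : ℝ) < Fintype.card (VV l f) := by exact_mod_cast Fintype.card_pos
  rw [div_le_iff₀ hV]
  -- multiply everything
  have h4 : ((BB l f).card : ℝ) * 2 ^ (64 * (DD l + 1 - uu l) ^ 2) ≤
      2 ^ (nn l + 2 * uu l * DD l) * Fintype.card (VV l f) := by
    have p1 : (0 : ℝ) < 2 ^ (64 * (DD l + 1) ^ 2 + DD l) := by positivity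
    have h5 : (((BB l f).card : ℝ) * 2 ^ (64 * (DD l + 1 - uu l) ^ 2)) *
        2 ^ (64 * (DD l + 1) ^ 2 + DD l) ≤
        (2 ^ (nn l + 2 * uu l * DD l) * Fintype.card (VV l f)) *
        2 ^ (64 * (DD l + 1) ^ 2 + DD l) := by
      calc (((BB l f).card : ℝ) * 2 ^ (64 * (DD l + 1 - uu l) ^ 2)) *
            2 ^ (64 * (DD l + 1) ^ 2 + DD l)
          = (((BB l f).card : ℝ) * 2 ^ (64 * (DD l + 1) ^ 2 + DD l)) *
            2 ^ (64 * (DD l + 1 - uu l) ^ 2) := by ring
        _ ≤ (2 ^ nn l * (C : ℝ) * Fintype.card (VV l f)) * 2 ^ (64 * (DD l + 1 - uu l) ^ 2) :=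
            mul_le_mul_of_nonneg_right h1' (by positivity)
        _ = (2 ^ nn l * Fintype.card (VV l f)) * ((C : ℝ) * 2 ^ (64 * (DD l + 1 - uu l) ^ 2)) := by
            ring
        _ ≤ (2 ^ nn l * Fintype.card (VV l f)) *
            2 ^ (64 * (DD l + 1) ^ 2 + 2 * uu l * DD l + DD l) :=
            mul_le_mul_of_nonneg_left h2' (by positivity)
        _ = (2 ^ (nn l + 2 * uu l * DD l) * Fintype.card (VV l f)) *
            2 ^ (64 * (DD l + 1) ^ 2 + DD l) := by
            rw [show 64 * (DD l + 1) ^ 2 + 2 * uu l * DD l + DD l =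
              2 * uu l * DD l + (64 * (DD l + 1) ^ 2 + DD l) by ring, pow_add, pow_add]
            ring
    exact le_of_mul_le_mul_right h5 p1
  -- the exponential
  have h6 : Real.exp (KK l) ≤ 2 ^ (64 * (DD l + 1 - uu l) ^ 2) / 2 ^ (nn l + 2 * uu l * DD l) := by
    have e2 : ∀ m : ℕ, (2 : ℝ) ^ m = Real.exp (m * Real.log 2) := by
      intro m
      rw [Real.exp_nat_mul, Real.exp_log (by norm_num)]
    rw [e2, e2, ← Real.exp_sub]
    apply Real.exp_le_exp.2
    unfold KK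
    rw [← sub_mul]
    apply mul_le_mul_of_nonneg_right _ (Real.log_nonneg (by norm_num))
    push_cast [Nat.cast_sub hu]
    have : (0 : ℝ) ≤ DD l := by positivity
    linarith
  rw [Real.exp_neg, inv_mul_eq_div, le_div_iff₀ (Real.exp_pos _)]
  calc ((BB l f).card : ℝ) * Real.exp (KK l)
      ≤ ((BB l f).card : ℝ) * (2 ^ (64 * (DD l + 1 - uu l) ^ 2) / 2 ^ (nn l + 2 * uu l * DD l)) :=
        mul_le_mul_of_nonneg_left h6 (by positivity)
    _ = (((BB l f).card : ℝ) * 2 ^ (64 * (DD l + 1 - uu l) ^ 2)) /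
        2 ^ (nn l + 2 * uu l * DD l) := by ring
    _ ≤ (2 ^ (nn l + 2 * uu l * DD l) * Fintype.card (VV l f)) /
        2 ^ (nn l + 2 * uu l * DD l) := div_le_div_of_nonneg_right h4 (by positivity)
    _ = Fintype.card (VV l f) := by field_simp

include A hl in
lemma BB_prob (h1 : al l f ≤ 1) (t : ℕ) :
    (Eop (nn l) (al l f))^[t] (ibad (uu l)) (s0 (nn l)) ≤
    (∑ v ∈ BB l f, (Fintype.card (VV l f) : ℝ) * stepProb (GR l f) t 0 v) /
      Fintype.card (VV l f) := by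
  classical
  have hn8 := nn_ge (by omega : 1 ≤ l)
  have h := A.lbp (nn l) (Lam (DD l) 64) (ZMod f) (S1 (DD l) 64) (S2 (DD l) 64) (al l f) (uu l)
    (A.car (DD l) 64).2.2.1 (A.car (DD l) 64).2.2.2.1 (by omega) (al_pos l f).le h1 t
  refine h.trans (le_of_eq ?_)
  congr 1
  unfold BB
  refine Finset.sum_congr ?_ fun v _ => ?_
  · ext v
    simp only [Finset.mem_filter, Finset.mem_univ, true_and]
  · rw [expG A hl t v]

/-! ### Lower bound for the entropy -/

/-- Probability of a refresh-free stretch at the right time. -/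
noncomputable def p0 (l : ℕ) (α : ℝ) : ℝ :=
  ((nn l : ℝ) * l) * (α / 2) * (1 - α) ^ (23 * nn l * l) * (9 / 10) ^ 2

include A hl in
lemma p0_le (h1 : al l f ≤ 1) : p0 l (al l f) ≤
    (∑ v ∈ BB l f, (Fintype.card (VV l f) : ℝ) * stepProb (GR l f) (23 * nn l * l) 0 v) /
      Fintype.card (VV l f) := by
  have hn8 := nn_ge (by omega : 1 ≤ l)
  have hNl : 1 ≤ nn l * l := Nat.mul_pos (nn_pos l) (by omega)
  have hd := (A.duh (nn l) (uu l) (12 * nn l * l) (al l f) (9 / 10) (by omega) (al_pos l f).le h1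
    (by norm_num) (A.goo l hl)).2 (23 * nn l * l) (11 * nn l * l) (12 * nn l * l)
    (by nlinarith) (by nlinarith) (by omega) (by
      have e : 23 * nn l * l = 11 * nn l * l + 12 * nn l * l := by ring
      omega)
  refine le_trans ?_ (hd.trans (BB_prob A hl h1 (23 * nn l * l)))
  unfold p0
  apply le_of_eq
  push_cast
  ring

include A hl in
lemma lower {c : ℝ} (hc0 : 1 / (l : ℝ) ≤ c) (hc1 : c ≤ 1) (hb : c * a0 l / 2 ≤ al l f)
    (ha : al l f ≤ c * a0 l) : 4 * c ≤ entDist (GR l f) (23 * nn l * l) := by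
  have h1 : 1 ≤ l := by omega
  have hl0 : (40 : ℝ) ≤ l := by exact_mod_cast hl
  have hc : 0 < c := lt_of_lt_of_le (by positivity) hc0
  have b1 := a0_le h1
  have b2 := a0_pos h1
  have ha1 : al l f ≤ 1 := ha.trans (by nlinarith)
  have hV : (0 : ℝ) < Fintype.card (VV l f) := by exact_mod_cast Fintype.card_pos
  obtain ⟨n1, n2⟩ := A.n4 l hl c (al l f) hc0 hc1 hb ha
  have hp := p0_le A hl ha1 (f := f)
  have hp0 : 0 < p0 l (al l f) := lt_of_lt_of_le (Real.exp_pos _) n1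
  have hB := BB_card A hl (f := f)
  have hBne : (BB l f).Nonempty := by
    rw [Finset.nonempty_iff_ne_empty]
    intro h
    rw [h, Finset.sum_empty, zero_div] at hp
    linarith
  have hBpos : (0 : ℝ) < (BB l f).card := by exact_mod_cast hBne.card_pos
  have hlb := A.lb (VV l f) (fun v => (Fintype.card (VV l f) : ℝ) *
    stepProb (GR l f) (23 * nn l * l) 0 v) (BB l f) (p0 l (al l f))
    (fun v => dens_nn (23 * nn l * l) v) (dens_avg A hl (23 * nn l * l)) hBne (hB.trans n1) hp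
  rw [← entG A (23 * nn l * l)] at hlb
  refine n2.trans (le_trans ?_ hlb)
  change p0 l (al l f) * (Real.log (p0 l (al l f)) + KK l - 1) ≤ _
  apply mul_le_mul_of_nonneg_left _ hp0.le
  rw [Real.log_mul hp0.ne' (by positivity)]
  have h2 : KK l ≤ Real.log ((Fintype.card (VV l f) : ℝ) / (BB l f).card) := by
    rw [Real.le_log_iff_exp_le (by positivity), le_div_iff₀ hBpos]
    rw [div_le_iff₀ hV, Real.exp_neg, inv_mul_eq_div, le_div_iff₀ (Real.exp_pos _)] at hB
    linarith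
  linarith

/-! ### Product condition -/

include A hl in
lemma sep_ge (h1 : al l f ≤ a0 l) : 1 / 40 < sepDist (GR l f) (12 * nn l * l) := by
  have hn8 := nn_ge (by omega : 1 ≤ l)
  have b1 := a0_le (by omega : 1 ≤ l)
  have ha1 : al l f ≤ 1 := by linarith
  obtain ⟨n1, n2⟩ := A.n5 l hl (al l f) (al_pos l f).le h1 (12 * nn l * l) le_rfl
  have hd := (A.duh (nn l) (uu l) (12 * nn l * l) (al l f) (9 / 10) (by omega) (al_pos l f).le ha1
    (by norm_num) (A.goo l hl)).1 (12 * nn l * l) le_rfl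
  have hp := (n1.trans hd).trans (BB_prob A hl ha1 (12 * nn l * l))
  have hB := BB_card A hl (f := f)
  have hV : (0 : ℝ) < Fintype.card (VV l f) := by exact_mod_cast Fintype.card_pos
  have hK : Real.exp (-KK l) ≤ 1 / 16 := by
    have h2 : 4 * Real.log 2 ≤ KK l := by
      unfold KK
      exact mul_le_mul_of_nonneg_right n2 (Real.log_nonneg (by norm_num))
    have h3 : Real.exp (-KK l) ≤ Real.exp (-(4 * Real.log 2)) := Real.exp_le_exp.2 (by linarith)
    refine h3.trans (le_of_eq ?_)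
    rw [Real.exp_neg, show (4 : ℝ) * Real.log 2 = ((4 : ℕ) : ℝ) * Real.log 2 by norm_num,
      Real.exp_nat_mul, Real.exp_log (by norm_num)]
    norm_num
  have hB2 := hB.trans hK
  rw [div_le_iff₀ hV] at hB2
  rw [le_div_iff₀ hV] at hp
  by_contra hs
  push Not at hs
  have h4 : ∀ v, 1 - (Fintype.card (VV l f) : ℝ) * stepProb (GR l f) (12 * nn l * l) 0 v ≤
      1 / 40 := fun v => (le_sepDist (12 * nn l * l) 0 v).trans hs
  have h5 : ∑ v ∈ BB l f, ((Fintype.card (VV l f) : ℝ) *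
      stepProb (GR l f) (12 * nn l * l) 0 v - 39 / 40) ≤
      ∑ v, ((Fintype.card (VV l f) : ℝ) * stepProb (GR l f) (12 * nn l * l) 0 v - 39 / 40) := by
    apply Finset.sum_le_univ_sum_of_nonneg
    intro v
    linarith [h4 v]
  rw [Finset.sum_sub_distrib, Finset.sum_sub_distrib, Finset.sum_const, Finset.sum_const,
    nsmul_eq_mul, nsmul_eq_mul, ← Finset.mul_sum (s := Finset.univ),
    stepProb_row_sum (regG A hl (f := f)), mul_one, Finset.card_univ] at h5
  linarith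

include A hl in
lemma ratio_ge (h1 : al l f ≤ a0 l) : (l : ℝ) / 3 ≤ (Tmix (GR l f) (1 / 4) : ℝ) / Trel (GR l f) := by
  have hn8 : (8 : ℝ) ≤ nn l := by exact_mod_cast nn_ge (by omega : 1 ≤ l)
  have hl0 : (40 : ℝ) ≤ l := by exact_mod_cast hl
  have b1 := a0_le (by omega : 1 ≤ l)
  have g1 := lt_Tmix (regG A hl) (excG A hl) (sep_ge A hl h1)
  have g2 := (excG A hl (f := f)).one_sub_le
  have g3 : 1 / (2 * (nn l : ℝ)) ≤ 1 - lambdaTwo (GR l f) := by
    refine le_trans ?_ g2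
    rw [sub_sub_cancel, div_le_div_iff₀ (by positivity) (by positivity)]
    nlinarith
  have g1' : 12 * (nn l : ℝ) * l ≤ 14 * (Tmix (GR l f) (1 / 4) : ℝ) := by
    exact_mod_cast g1.le
  unfold Trel
  rw [div_div_eq_mul_div, div_one]
  have h4 : (Tmix (GR l f) (1 / 4) : ℝ) * (1 / (2 * (nn l : ℝ))) ≤
      (Tmix (GR l f) (1 / 4) : ℝ) * (1 - lambdaTwo (GR l f)) :=
    mul_le_mul_of_nonneg_left g3 (by positivity)
  refine le_trans ?_ h4
  rw [mul_one_div, le_div_iff₀ (by positivity)]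
  nlinarith

/-! ### Entropy times -/

include A hl in
lemma lt_Tent {ε : ℝ} (hε : 0 < ε) {T : ℕ} (hT : ε < entDist (GR l f) T) :
    T < Tent (GR l f) ε := by
  have h1 : entDist (GR l f) (Tent (GR l f) ε) ≤ ε :=
    Nat.sInf_mem (s := {t : ℕ | entDist (GR l f) t ≤ ε})
      (A.exs (VV l f) (GR l f) _ (excG A hl) ε hε)
  by_contra hlt
  push Not at hlt
  have := A.ant (VV l f) (GR l f) _ (regG A hl) hlt
  linarith

lemma Tent_le {ε : ℝ} {T : ℕ} (hT : entDist (GR l f) T ≤ ε) : Tent (GR l f) ε ≤ T :=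
  Nat.sInf_le hT

include A hl in
lemma ent_zero : Real.log (Fintype.card (VV l f)) - 1 ≤ entDist (GR l f) 0 := by
  have hV : (1 : ℝ) ≤ Fintype.card (VV l f) := by
    have : 1 ≤ Fintype.card (VV l f) := Fintype.card_pos
    exact_mod_cast this
  have hlb := A.lb (VV l f) (fun v => (Fintype.card (VV l f) : ℝ) *
    stepProb (GR l f) 0 0 v) {0} 1
    (fun v => dens_nn 0 v) (dens_avg A hl 0) (Finset.singleton_nonempty 0)
    (by
      rw [Finset.card_singleton, Nat.cast_one, div_le_one (by linarith)]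
      exact hV)
    (by
      rw [Finset.sum_singleton, stepProb_zero, if_pos rfl, mul_one, div_self (by linarith)])
  rw [← entG A 0] at hlb
  refine le_trans (le_of_eq ?_) hlb
  rw [Finset.card_singleton, Nat.cast_one, div_one, one_mul, one_mul]

lemma card_ge (h : 1 ≤ l) : (2 : ℝ) ^ l ≤ Fintype.card (VV l f) := by
  have h1 : Fintype.card (VV l f) = Fintype.card (Lam (DD l) 64) ^ Fintype.card (Cube (nn l)) *
      (Fintype.card (Cube (nn l)) * Fintype.card (ZMod f)) := by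
    rw [Fintype.card_prod, Fintype.card_prod, Fintype.card_fun]
  have h2 : Fintype.card (Cube (nn l)) = 2 ^ nn l := by
    rw [Fintype.card_fun, ZMod.card, Fintype.card_fin]
  have h3 : 2 ^ l ≤ Fintype.card (VV l f) := by
    rw [h1]
    have h4 : 1 ≤ Fintype.card (Lam (DD l) 64) ^ Fintype.card (Cube (nn l)) :=
      pow_pos Fintype.card_pos _
    have h5 : 1 ≤ Fintype.card (ZMod f) := Fintype.card_pos
    have h6 : l ≤ nn l := by
      unfold nn
      have : 58 * l < 2 ^ (58 * l) := Nat.lt_two_pow_self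
      omega
    have h7 : 2 ^ l ≤ Fintype.card (Cube (nn l)) := by
      rw [h2]
      exact Nat.pow_le_pow_right (by norm_num) h6
    calc 2 ^ l = 1 * (2 ^ l * 1) := by ring
      _ ≤ _ := Nat.mul_le_mul h4 (Nat.mul_le_mul h7 h5)
  exact_mod_cast h3

include A hl in
lemma ent_ratio {c δ : ℝ} (hc0 : 1 / (l : ℝ) ≤ c) (hc1 : c ≤ 1) (hb : c * a0 l / 2 ≤ al l f)
    (ha : al l f ≤ c * a0 l) (hf : (f : ℝ) ≤ 2 * RR l / (c * a0 l)) (hδ : 70000 * c ≤ δ)
    (hδl : δ < l * Real.log 2 - 1) :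
    (23 : ℝ) / 21 ≤ (Tent (GR l f) (3 * c) : ℝ) / (Tent (GR l f) δ : ℝ) := by
  have h1 : 1 ≤ l := by omega
  have hl0 : (40 : ℝ) ≤ l := by exact_mod_cast hl
  have hn8 : (8 : ℝ) ≤ nn l := by exact_mod_cast nn_ge h1
  have hc : 0 < c := lt_of_lt_of_le (by positivity) hc0
  have u := Tent_le ((upper A hl hc0 hc1 ha hf).trans hδ)
  have v := lt_Tent A hl (ε := 3 * c) (by positivity)
    (lt_of_lt_of_le (by linarith) (lower A hl hc0 hc1 hb ha))
  have w : 0 < Tent (GR l f) δ := by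
    apply lt_Tent A hl (by nlinarith)
    refine lt_of_lt_of_le hδl (le_trans ?_ (ent_zero A hl))
    have h2 := Real.log_le_log (by positivity) (card_ge h1 (l := l) (f := f))
    rw [Real.log_pow] at h2
    linarith
  have w' : (0 : ℝ) < Tent (GR l f) δ := by exact_mod_cast w
  have u' : (Tent (GR l f) δ : ℝ) ≤ 21 * nn l * l := by exact_mod_cast u
  have v' : (23 * nn l * l : ℝ) ≤ Tent (GR l f) (3 * c) := by exact_mod_cast v.le
  rw [le_div_iff₀ w']
  nlinarith

end Params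

end One

/-! ### The sequence -/

/-- The scale of the `N`-th graph. -/
noncomputable def cc (N : ℕ) : ℝ := 1 / (((Nat.unpair N).1 : ℝ) + 1)

lemma cc_pos (N : ℕ) : 0 < cc N := by
  unfold cc
  positivity

lemma cc_le (N : ℕ) : cc N ≤ 1 := by
  unfold cc
  rw [div_le_one (by positivity)]
  have : (0 : ℝ) ≤ (Nat.unpair N).1 := by positivity
  linarith

lemma le_cc (N : ℕ) : 1 / (((N + 40 : ℕ)) : ℝ) ≤ cc N := by
  unfold cc
  apply one_div_le_one_div_of_le (by positivity)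
  have h := Nat.unpair_left_le N
  have h' : ((Nat.unpair N).1 : ℝ) ≤ N := by exact_mod_cast h
  push_cast
  linarith

/-- No entropy cutoff: assembly. -/
theorem main_of (A : AllSt) :
    ∃ (V : ℕ → Type) (_ : ∀ n, Fintype (V n)) (G : ∀ n, SimpleGraph (V n)),
      (∀ n, (G n).Connected) ∧ (∀ n, VertexTransitive (G n)) ∧
      Tendsto (fun n => (Fintype.card (V n) : ℝ)) atTop atTop ∧
      ProductCondition G ∧
      ¬ EntropyCutoff G ∧
      (∀ δ : ℝ, 0 < δ → ∃ ε : ℝ, 0 < ε ∧ ε < δ ∧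
        ∃ᶠ n in atTop, (23 / 21 : ℝ) ≤ (Tent (G n) ε : ℝ) / (Tent (G n) δ : ℝ)) := by
  have hex := fun N : ℕ => exists_f A (l := N + 40) (by omega) (cc_pos N) (cc_le N)
  choose f hf1 hf2 hf3 hf4 using hex
  have hz : ∀ N, NeZero (f N) := fun N => ⟨by have := hf1 N; omega⟩
  have key : ∀ δ : ℝ, 0 < δ → ∃ ε : ℝ, 0 < ε ∧ ε < δ ∧
      ∃ᶠ n in atTop, (23 / 21 : ℝ) ≤ (Tent (GR (n + 40) (f n)) ε : ℝ) /
        (Tent (GR (n + 40) (f n)) δ : ℝ) := by
    intro δ hδ
    obtain ⟨m, hm⟩ := exists_nat_ge (70000 / δ)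
    have hm1 : 70000 * (1 / ((m : ℝ) + 1)) ≤ δ := by
      rw [div_le_iff₀ hδ] at hm
      rw [mul_one_div, div_le_iff₀ (by positivity)]
      nlinarith
    have hm0 : (0 : ℝ) < 1 / ((m : ℝ) + 1) := by positivity
    refine ⟨3 * (1 / ((m : ℝ) + 1)), by positivity, by linarith, ?_⟩
    rw [frequently_atTop]
    intro N0
    obtain ⟨k, hk⟩ := exists_nat_ge ((δ + 2) / Real.log 2)
    have hl2 : 0 < Real.log 2 := Real.log_pos (by norm_num)
    refine ⟨Nat.pair m (max N0 k), (le_max_left N0 k).trans (Nat.right_le_pair m _), ?_⟩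
    obtain ⟨N, hN⟩ : ∃ N, N = Nat.pair m (max N0 k) := ⟨_, rfl⟩
    rw [← hN]
    have hc : cc N = 1 / ((m : ℝ) + 1) := by
      unfold cc
      rw [hN, Nat.unpair_pair]
    have hkN : k ≤ N := by
      rw [hN]
      exact (le_max_right N0 k).trans (Nat.right_le_pair m _)
    rw [← hc]
    rw [← hc] at hm1
    refine ent_ratio A (l := N + 40) (f := f N) (by omega) (le_cc N) (cc_le N) (hf2 N) (hf3 N)
      (hf4 N) hm1 ?_
    rw [div_le_iff₀ hl2] at hk
    have h1 : (k : ℝ) ≤ ((N + 40 : ℕ) : ℝ) := by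
      exact_mod_cast (by omega : k ≤ N + 40)
    have h2 := mul_le_mul_of_nonneg_right h1 hl2.le
    linarith
  have ha0 : ∀ N, al (N + 40) (f N) ≤ a0 (N + 40) := by
    intro N
    have b1 := a0_pos (by omega : 1 ≤ N + 40)
    have b2 := cc_le N
    have b3 : al (N + 40) (f N) ≤ cc N * a0 (N + 40) := hf3 N
    nlinarith
  refine ⟨fun N => VV (N + 40) (f N), fun N => inferInstance, fun N => GR (N + 40) (f N),
    fun N => (excG A (l := N + 40) (f := f N) (by omega)).connected,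
    fun N => transG A (l := N + 40) (f := f N), ?_, ?_, ?_, key⟩
  · have h : ∀ n : ℕ, (n : ℝ) ≤ (Fintype.card (VV (n + 40) (f n)) : ℝ) := by
      intro n
      refine le_trans ?_ (card_ge (l := n + 40) (f := f n) (by omega))
      have h1 : n + 40 < 2 ^ (n + 40) := Nat.lt_two_pow_self
      have h2 : n ≤ 2 ^ (n + 40) := by omega
      exact_mod_cast h2
    exact tendsto_atTop_mono h tendsto_natCast_atTop_atTop
  · unfold ProductCondition
    have h : ∀ n : ℕ, (n : ℝ) / 3 ≤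
        (Tmix (GR (n + 40) (f n)) (1 / 4) : ℝ) / Trel (GR (n + 40) (f n)) := by
      intro n
      refine le_trans ?_ (ratio_ge A (l := n + 40) (f := f n) (by omega) (ha0 n))
      push_cast
      linarith
    exact tendsto_atTop_mono h (tendsto_natCast_atTop_atTop.atTop_div_const (by norm_num))
  · intro hcut
    obtain ⟨ε, h0, h1, h2⟩ := key 1 one_pos
    have h3 := hcut ε 1 h0 h1
    have h4 := h3.eventually (gt_mem_nhds (show (1 : ℝ) < 23 / 21 by norm_num))
    obtain ⟨n, hn1, hn2⟩ := (h2.and_eventually h4).exists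
    have hn2' : (Tent (GR (n + 40) (f n)) ε : ℝ) / (Tent (GR (n + 40) (f n)) 1 : ℝ) < 23 / 21 := hn2
    linarith

end Pool.Agent.ENC
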