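import Pool.Agent.ENC.Stmts

namespace Pool.Agent.ENC

namespace M_N1

theorem nn_ge (l : ℕ) (hl : 40 ≤ l) : (84 : ℝ) ≤ (nn l : ℝ) := by
  have h1 : 2 ^ 7 ≤ nn l := by
    unfold nn
    exact Nat.pow_le_pow_right (by norm_num) (by omega)
  have h2 : 84 ≤ nn l := by omega
  exact_mod_cast h2

theorem a0_bound (l : ℕ) (hl : 40 ≤ l) : 42 * a0 l * (l : ℝ) ≤ 1 / 2 := by
  have hn := nn_ge l hl
  have hl' : (40 : ℝ) ≤ (l : ℝ) := by exact_mod_cast hl
  have hpos : (0 : ℝ) < (nn l : ℝ) * l := by positivity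
  have hge1 : (1 : ℝ) ≤ (nn l : ℝ) * l := by nlinarith
  have hcube : (nn l : ℝ) * l ≤ ((nn l : ℝ) * l) ^ 3 := by
    calc (nn l : ℝ) * l = ((nn l : ℝ) * l) ^ 1 := (pow_one _).symm
      _ ≤ ((nn l : ℝ) * l) ^ 3 := pow_le_pow_right₀ hge1 (by norm_num)
  have ha : a0 l ≤ 1 / ((nn l : ℝ) * l) := by
    unfold a0
    exact one_div_le_one_div_of_le hpos hcube
  have h1 : a0 l * (l : ℝ) ≤ 1 / (nn l : ℝ) := by
    calc a0 l * (l : ℝ) ≤ 1 / ((nn l : ℝ) * l) * l := by
          apply mul_le_mul_of_nonneg_right ha; positivity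
      _ = 1 / (nn l : ℝ) := by field_simp
  have h2 : 1 / (nn l : ℝ) ≤ 1 / 84 := one_div_le_one_div_of_le (by norm_num) hn
  nlinarith

end M_N1

open M_N1 in
theorem t_N1 : St_N1 := by
  intro l hl α hα0 hα
  have hn := nn_ge l hl
  have hn0 : (nn l : ℝ) ≠ 0 := by positivity
  have hl' : (40 : ℝ) ≤ (l : ℝ) := by exact_mod_cast hl
  have hE : 2 * (1 - α) * ((21 * nn l * l : ℕ) : ℝ) / nn l = 42 * (1 - α) * l := by
    push_cast
    field_simp
    ring
  rw [hE]
  set x : ℝ := Real.exp (-(42 * (1 - α) * l)) with hx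
  have hx0 : 0 < x := Real.exp_pos _
  have h42 : 42 * α * (l : ℝ) ≤ 1 / 2 := by
    have := a0_bound l hl
    have h3 : 42 * α * (l : ℝ) ≤ 42 * a0 l * (l : ℝ) := by
      apply mul_le_mul_of_nonneg_right _ (by positivity)
      linarith
    linarith
  have hnexp : (nn l : ℝ) = Real.exp (58 * l * Real.log 2) := by
    unfold nn
    push_cast
    rw [show (58 * (l : ℝ) * Real.log 2) = Real.log 2 * ((58 * l : ℕ) : ℝ) by push_cast; ring,
      Real.exp_mul, Real.exp_log (by norm_num), Real.rpow_natCast]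
  have hlog : Real.log 2 < 0.6931471808 := Real.log_two_lt_d9
  have hnx : (nn l : ℝ) * x ≤ Real.exp (-1) := by
    rw [hx]
    conv_lhs => rw [hnexp]
    rw [← Real.exp_add]
    apply Real.exp_le_exp.mpr
    nlinarith
  have h1 : (1 + x) ^ nn l ≤ Real.exp ((nn l : ℝ) * x) := by
    have : 1 + x ≤ Real.exp x := by
      have := Real.add_one_le_exp x
      linarith
    calc (1 + x) ^ nn l ≤ (Real.exp x) ^ nn l := pow_le_pow_left₀ (by positivity) this _
      _ = Real.exp ((nn l : ℝ) * x) := by rw [← Real.exp_nat_mul]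
  have he1 : Real.exp (-1) ≤ Real.log 2 := by
    have hl2 : (0.6931471803 : ℝ) < Real.log 2 := Real.log_two_gt_d9
    have he := Real.exp_neg_one_lt_d9
    linarith
  have h2 : Real.exp ((nn l : ℝ) * x) ≤ 2 := by
    calc Real.exp ((nn l : ℝ) * x) ≤ Real.exp (Real.log 2) :=
          Real.exp_le_exp.mpr (le_trans hnx he1)
      _ = 2 := Real.exp_log (by norm_num)
  linarith

end Pool.Agent.ENC
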