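import Pool.Agent.ENC.Stmts

/-!
Numerical estimate N4 for MP_1e9518_pr, Q1.
-/

namespace Pool.Agent.ENC

open Finset Filter Topology Pool.Agent.LazyWalk

namespace M_N4

theorem uu_eq (l : ℕ) (hl : 40 ≤ l) : ((uu l : ℕ) : ℝ) = 13 / 2 * ((nn l : ℝ) * l) := by
  have h : nn l = 2 * 2 ^ (58 * l - 1) := by
    unfold nn
    rw [← pow_succ']
    congr 1
    omega
  unfold uu
  rw [h]
  push_cast
  ring

end M_N4

open M_N4 in
/-- Module N4. -/
theorem t_N4 : St_N4 := by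
  intro l hl α h0 h1
  have hnn : (1 : ℝ) ≤ (nn l : ℝ) := by
    unfold nn
    exact_mod_cast Nat.one_le_two_pow
  have hl' : (40 : ℝ) ≤ (l : ℝ) := by exact_mod_cast hl
  have hu := uu_eq l hl
  unfold a0 at h0 h1
  obtain ⟨x, hx⟩ : ∃ x : ℝ, x = (nn l : ℝ) * l := ⟨_, rfl⟩
  have hx40 : 40 ≤ x := by
    rw [hx]
    nlinarith
  have hx0 : 0 < x := by linarith
  have hnx : (nn l : ℝ) ≤ x := by
    rw [hx]
    nlinarith
  have hD : ((DD l : ℕ) : ℝ) = 8 * x := by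
    rw [hx]
    unfold DD
    push_cast
    ring
  have hc : ((23 * nn l * l : ℕ) : ℝ) = 23 * x := by
    rw [hx]
    push_cast
    ring
  rw [← hx] at h0 h1 hu ⊢
  rw [hD, hu]
  have hlog : (69 / 100 : ℝ) ≤ Real.log 2 := by
    have := Real.log_two_gt_d9
    linarith
  have hlog2 : Real.log 2 ≤ 7 / 10 := by
    have := Real.log_two_lt_d9
    linarith
  have hx3 : 0 < x ^ 3 := by positivity
  have hα0 : 0 ≤ α := le_trans (by positivity) h0
  have hαx : α * x ^ 3 ≤ 1 := by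
    rwa [le_div_iff₀ hx3] at h1
  have hαx' : 1 / 2 ≤ α * x ^ 3 := by
    rw [div_div, div_le_iff₀ (by positivity)] at h0
    linarith
  have hx2 : (1600 : ℝ) ≤ x ^ 2 := by nlinarith
  have hα23 : 23 * x * α ≤ 1 / 50 := by
    have h : 23 * x * α * x ^ 2 ≤ 1 / 50 * x ^ 2 := by nlinarith
    exact le_of_mul_le_mul_right h (by positivity)
  have hα1 : α ≤ 1 := by nlinarith
  have hpow : (49 / 50 : ℝ) ≤ (1 - α) ^ (23 * nn l * l) := by
    have hb := one_add_mul_le_pow (show (-2 : ℝ) ≤ -α by linarith) (23 * nn l * l)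
    rw [hc] at hb
    have he : (1 + -α : ℝ) = 1 - α := by ring
    rw [he] at hb
    nlinarith
  have hE : 40 * x ^ 2 ≤ 64 * (8 * x + 1 - 13 / 2 * x) ^ 2 - 2 * (13 / 2 * x) * (8 * x) - 8 * x - nn l := by
    nlinarith
  have hA : 1 / (4 * x ^ 2) ≤ x * (α / 2) := by
    rw [div_le_iff₀ (by positivity)]
    nlinarith
  have hA0 : 0 ≤ x * (α / 2) := by positivity
  have hP : 1 / (4 * x ^ 2) * (49 / 50) ≤ x * (α / 2) * (1 - α) ^ (23 * nn l * l) :=
    mul_le_mul hA hpow (by norm_num) hA0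
  have hP0 : 0 ≤ 1 / (4 * x ^ 2) * (49 / 50 : ℝ) := by positivity
  have hP' : 1 / (4 * x ^ 2) * (49 / 50) * (9 / 10) ^ 2 ≤
      x * (α / 2) * (1 - α) ^ (23 * nn l * l) * (9 / 10) ^ 2 :=
    mul_le_mul_of_nonneg_right hP (by norm_num)
  have hF : 40 * x ^ 2 * (69 / 100) ≤
      (64 * (8 * x + 1 - 13 / 2 * x) ^ 2 - 2 * (13 / 2 * x) * (8 * x) - 8 * x - nn l) * Real.log 2 :=
    mul_le_mul hE hlog (by norm_num) (le_trans (by positivity) hE)
  have hG : 1 / (4 * x ^ 2) * (49 / 50) * (9 / 10) ^ 2 * (40 * x ^ 2 * (69 / 100)) ≤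
      x * (α / 2) * (1 - α) ^ (23 * nn l * l) * (9 / 10) ^ 2 *
        ((64 * (8 * x + 1 - 13 / 2 * x) ^ 2 - 2 * (13 / 2 * x) * (8 * x) - 8 * x - nn l) * Real.log 2) :=
    mul_le_mul hP' hF (by positivity) (le_trans (by positivity) hP')
  have hv : 1 / (4 * x ^ 2) * (49 / 50) * (9 / 10) ^ 2 * (40 * x ^ 2 * (69 / 100)) = (10 * (49 / 50) * (9 / 10) ^ 2 * (69 / 100) : ℝ) := by
    field_simp
    ring
  rw [hv] at hG
  have hnum : (1 + 7 / 10 : ℝ) < 10 * (49 / 50) * (9 / 10) ^ 2 * (69 / 100) := by norm_num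
  linarith

end Pool.Agent.ENC
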