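import Pool.Agent.ENC.Defs2

/-!
# Statements for MP_1e9518_pr, Q1 (no entropy cutoff), with complete proofs in words

Overview. State of the walk: lamps `f : Cube n → Λ`, walker `h : Cube n`, auxiliary `j : J`.
Common move in direction `i`: `h → h + ee i`, lamp `z` gets a uniform increment from
`inc S1 S2 (z-h) (z-h-ee i)` (everything if the lamp is on the middle layer before or after, `S1` if
it is on the near side, `S2` if it is on the far side), `j` is refreshed. Rare move: `h → h + 1`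
(antipode), all lamps are refreshed except those at `h` and `h + 1`, `j` is kept. The lazy walk is
`1/2 I + (1-α)/2 (common) + α/2 (rare)`. Given the sequence of moves the lamps are independent and
the law of a lamp is `none` (uniform) or `GG k l` (`k` near picks, `l` far picks, no refresh). This
gives the exact formula `St_EXP`: density of the walk = expectation of `dens` over the hidden chain.
-/

namespace Pool.Agent.ENC

open Finset Filter Topology Pool.Agent.LazyWalk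

/-! ## Entropy of densities on finite types -/

/-- ENC_EB. For a density `g` (nonnegative, average one): `0 ≤ Ent g ≤ log |X|`.
Proof. `x log x ≥ x - 1` for `x ≥ 0` gives `Ent g ≥ avg g - 1 = 0`. Since `g x ≤ |X| avg g = |X|` we
have `g x log (g x) ≤ g x log |X|` (also for `g x = 0`), and we take the average. -/
def St_EB : Prop := ∀ (X : Type) [Fintype X] [Nonempty X] (g : X → ℝ), (∀ x, 0 ≤ g x) → avg g = 1 →
  0 ≤ Ent g ∧ Ent g ≤ Real.log (Fintype.card X)

/-- ENC_EQ. `Ent g ≤ avg g² - 1` for a density: `x log x ≤ x² - x` for `x ≥ 0`. -/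
def St_EQ : Prop := ∀ (X : Type) [Fintype X] [Nonempty X] (g : X → ℝ), (∀ x, 0 ≤ g x) → avg g = 1 →
  Ent g ≤ avg (fun x => g x ^ 2) - 1

/-- ENC_EC. Convexity of the entropy: `Ent (∑ w_k g_k) ≤ ∑ w_k Ent g_k`.
Proof. `phi` is convex on `[0,∞)` (`Real.convexOn_mul_log`), Jensen pointwise, then average. -/
def St_EC : Prop := ∀ (X K : Type) [Fintype X] [Fintype K] (w : K → ℝ) (g : K → X → ℝ),
  (∀ k, 0 ≤ w k) → ∑ k, w k = 1 → (∀ k x, 0 ≤ g k x) →
  Ent (fun x => ∑ k, w k * g k x) ≤ ∑ k, w k * Ent (g k)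

/-- ENC_EP. Entropy of a product density on `(Z → Λ) × J` is the sum of the entropies.
Proof. `phi (a b) = b phi a + a phi b` (also if `a b = 0`, since `log 0 = 0`; treat `a = 0` or
`b = 0` separately), so `phi` of the product is the sum over the factors of `phi` of the factor times
the product of the other factors, and averages of products of functions of different coordinates
factor (`Finset.prod_univ_sum`, `Fintype.card_pi`); all averages are one. Induction over the number of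
factors, or: first two factors (`X × Y`), then `Z → Λ` by `Finset.induction` / `Fintype` induction. -/
def St_EP : Prop := ∀ (Z Λ J : Type) [Fintype Z] [DecidableEq Z] [Fintype Λ] [Fintype J] [Nonempty Λ]
  [Nonempty J] (g : Z → Λ → ℝ) (q : J → ℝ), (∀ z a, 0 ≤ g z a) → (∀ z, avg (g z) = 1) →
  (∀ j, 0 ≤ q j) → avg q = 1 →
  avg (fun v : (Z → Λ) × J => (∏ z, g z (v.1 z)) * q v.2) = 1 ∧
  Ent (fun v : (Z → Λ) × J => (∏ z, g z (v.1 z)) * q v.2) = ∑ z, Ent (g z) + Ent q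

/-- ENC_LB. Lower bound for the entropy by one event `B`: if `p = ∑_{x ∈ B} g x / |X|` then
`p log (|X|/|B|) - log 2 ≤ Ent g`.
Proof. Log-sum inequality (Jensen for `phi`) on `B` and on the complement `Bᶜ`, with
`π = |B|/|X|`: `Ent g ≥ p log (p/π) + (1-p) log ((1-p)/(1-π))` (the second term is dropped/zero if
`Bᶜ` is empty, then `p = 1`); `p log p + (1-p) log (1-p) ≥ - log 2` (binary entropy), and
`-(1-p) log (1-π) ≥ 0`. -/
def St_LB : Prop := ∀ (X : Type) [Fintype X] [Nonempty X] (g : X → ℝ) (B : Finset X),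
  (∀ x, 0 ≤ g x) → avg g = 1 → B.Nonempty →
  (∑ x ∈ B, g x) / Fintype.card X * Real.log ((Fintype.card X : ℝ) / B.card) - Real.log 2 ≤ Ent g

/-! ## Graph -/

/-- ENC_TRE. For a vertex-transitive graph the entropy distance is the entropy of the density of the
walk from any start. Proof. `stepProb G t (φ x) (φ y) = stepProb G t x y` for an automorphism `φ`
(induction on `t` with `stepProb_succ`, `lazyWalk` is invariant because degree and adjacency are), so
`relEnt G t x` does not depend on `x` (reindex the sum); and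
`P log (P / (1/|V|)) = (1/|V|) phi (|V| P)`. -/
def St_TRE : Prop := ∀ (V : Type) [Fintype V] (G : SimpleGraph V), VertexTransitive G →
  ∀ (t : ℕ) (x : V), entDist G t = Ent fun y => (Fintype.card V : ℝ) * stepProb G t x y

/-- ENC_ANT. On a regular graph the entropy distance is antitone in `t`. Proof. For every `x`:
`stepProb G (t+1) x y = ∑ z, lazyWalk G x z * stepProb G t z y`, so by convexity (`ENC_EC` pattern:
`phi` convex, the weights `lazyWalk G x z`, `z ∈ V`, sum up to one, `lazyWalk_row_sum`)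
`relEnt G (t+1) x ≤ ∑ z, lazyWalk G x z * relEnt G t z ≤ entDist G t`. -/
def St_ANT : Prop := ∀ (V : Type) [Fintype V] [Nonempty V] (G : SimpleGraph V) (d : ℕ), Reg G d →
  Antitone (entDist G)

/-- ENC_EXS. Exponential convergence gives times with small entropy distance.
Proof. `ExpConv.tendsto` gives `t` with `| |V| P^t(x,y) - 1 | ≤ ε'` for all `x, y`; then
`relEnt G t x = avg phi(1+δ_y) ≤ (1+ε') log (1+ε') ≤ (1+ε') ε' ≤ ε` for `ε' = min (1/2) (ε/2)`. -/
def St_EXS : Prop := ∀ (V : Type) [Fintype V] [Nonempty V] (G : SimpleGraph V) (ρ : ℝ),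
  ExpConv G ρ → ∀ ε : ℝ, 0 < ε → ∃ t, entDist G t ≤ ε

/-- ENC_TRG. The graph is vertex-transitive: `(f,h,j) ↦ (f(· - c) + f₀, h + c, j + j₀)` is an
automorphism, because adjacency only depends on `h' - h`, `j' - j`, the differences `f' z - f z` and
the relative positions `z - h`, `z - h'`. -/
def St_TRG : Prop := ∀ (n : ℕ) (Λ J : Type) [AddCommGroup Λ] [Fintype Λ] [AddCommGroup J] [Fintype J]
  (S1 S2 : Finset Λ), VertexTransitive (LG n Λ J S1 S2)

/-- ENC_CSI. The number of common moves in direction `i` does not depend on `i`.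
Proof. All increment sets different from `univ` have the same cardinality, so
`(inc S1 S2 z (z - ee i)).card` is a function of `(wt z, wt (z - ee i))`; the permutation of the
coordinates that swaps `i` and `i'` is a bijection of the cube that maps `(z, z - ee i)` to
`(z', z' - ee i')` and preserves weights (`Fintype.prod_equiv`). -/
def St_CSI : Prop := ∀ (n : ℕ) (Λ J : Type) [AddCommGroup Λ] [Fintype Λ] [Fintype J]
  (S1 S2 : Finset Λ), S1.card = S2.card → ∀ i i' : Fin n, cS n Λ J S1 S2 i = cS n Λ J S1 S2 i'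

open scoped Classical in
/-- ENC_LW. Regularity of the graph and the formula for the transition matrix.
Proof. For `n ≥ 2` the relation in the definition of `LG` is symmetric (in `Cube n` `-x = x`,
`inc S1 S2` is symmetric in its two arguments by definition, `-a = a` in `Λ`) and irreflexive, so
adjacency is the relation itself; the cases `adjS i` (`n` of them) and `adjR` exclude each other since
`ee i`, `ee i'` (`i ≠ i'`) and `1` are different (`n ≥ 2`). The number of `v'` with `adjS i v v'` is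
`cS i`: `h' = h + ee i`, `f' z - f z` is any element of `inc (z-h) (z-h-ee i)`, `j'` is arbitrary;
substitute `z → z + h` in the product. The number of `v'` with `adjR v v'` is `|Λ|^(2^n-2)`: `f'` is
prescribed at the two different points `h` and `h + 1`. -/
def St_LW : Prop := ∀ (n : ℕ) (Λ J : Type) [AddCommGroup Λ] [Fintype Λ] [AddCommGroup J] [Fintype J]
  (S1 S2 : Finset Λ) (c : ℕ), 2 ≤ n → (∀ a : Λ, -a = a) → (∀ i, cS n Λ J S1 S2 i = c) →
  Reg (LG n Λ J S1 S2) (n * c + cR n Λ) ∧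
  ∀ (u : Vt n Λ J → ℝ) (v : Vt n Λ J),
    ∑ v', lazyWalk (LG n Λ J S1 S2) v v' * u v' = (1 / 2) * u v +
      1 / (2 * ((n * c + cR n Λ : ℕ) : ℝ)) *
        (∑ i, ∑ v', (if adjS S1 S2 i v v' then u v' else 0) +
          ∑ v', (if adjR v v' then u v' else 0))

/-- ENC_DN. Basic facts on the densities. Proof. `avgOn S` preserves nonnegativity, averages
(`S ≠ ∅`; sum over `a` of `g (a + b)` does not depend on `b`) and constants; `avgOn S1` and `avgOn S2`
commute; `dlam` of `none` is `1`; iterate. For `dens`: `ENC_EP` pattern or `Finset.prod_univ_sum`. -/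
def St_DN : Prop := ∀ (n : ℕ) (Λ J : Type) [AddCommGroup Λ] [Fintype Λ] [DecidableEq Λ]
  [AddCommGroup J] [Fintype J] [DecidableEq J] (S1 S2 : Finset Λ), S1.Nonempty → S2.Nonempty →
  (∀ o a, 0 ≤ dlam S1 S2 o a) ∧ (∀ o, avg (dlam S1 S2 o) = 1) ∧
  (∀ k l, avgOn S1 (GG S1 S2 k l) = GG S1 S2 (k + 1) l) ∧
  (∀ k l, avgOn S2 (GG S1 S2 k l) = GG S1 S2 k (l + 1)) ∧
  (∀ b, avg (dJ (J := J) b) = 1) ∧
  (∀ (s : HS n) (v : Vt n Λ J), 0 ≤ dens S1 S2 s v) ∧
  (∀ s : HS n, avg (fun v : Vt n Λ J => dens S1 S2 s v) = 1)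

open scoped Classical in
/-- ENC_SS. One common step of the density. Proof. Both sides vanish unless `v.2.1 = s.1 + ee i`
(`v'.2.1 = v.2.1 + ee i` must be `s.1`; characteristic two). Otherwise the sum over `v' = (f',h',j')`
factors (`Finset.prod_univ_sum` over `Fintype.piFinset`): lamp `z` gives
`∑_{b ∈ inc (z-v.2.1) (z-s.1)} dlam (s.2.1 z) (v.1 z + b)`, which is the cardinality of the increment
set times `dlam (upd (z - s.1) (z - (s.1 + ee i)) (s.2.1 z)) (v.1 z)` by `St_DN` (`inc` and `upd` are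
symmetric in the two positions; for `inc = univ` the average is one), and the sum over `j'` gives
`|J|`. Reindex `z → z + v.2.1` in the product of cardinalities to get `cS i`. -/
def St_SS : Prop := ∀ (n : ℕ) (Λ J : Type) [AddCommGroup Λ] [Fintype Λ] [DecidableEq Λ]
  [AddCommGroup J] [Fintype J] [DecidableEq J] (S1 S2 : Finset Λ), S1.Nonempty → S2.Nonempty →
  ∀ (i : Fin n) (s : HS n) (v : Vt n Λ J),
    ∑ v', (if adjS S1 S2 i v v' then dens S1 S2 s v' else 0) =
      (cS n Λ J S1 S2 i : ℝ) * dens S1 S2 (stepS i s) v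

open scoped Classical in
/-- ENC_SR. One rare step of the density. Proof. Both sides vanish unless `v.2.1 = s.1 + 1`; then
`{v.2.1, v.2.1 + 1} = {s.1, s.1 + 1}`, the lamps at these two (different, `n ≥ 1`) points are fixed
and each of the other `2^n - 2` lamps gives `∑_a dlam (s.2.1 z) a = |Λ|`; `j' = j`. -/
def St_SR : Prop := ∀ (n : ℕ) (Λ J : Type) [AddCommGroup Λ] [Fintype Λ] [DecidableEq Λ]
  [AddCommGroup J] [Fintype J] [DecidableEq J] (S1 S2 : Finset Λ), S1.Nonempty → S2.Nonempty →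
  1 ≤ n → ∀ (s : HS n) (v : Vt n Λ J),
    ∑ v', (if adjR v v' then dens S1 S2 s v' else 0) =
      (cR n Λ : ℝ) * dens S1 S2 (stepR s) v

/-- ENC_EXP (hypotheses `St_LW St_SS St_SR`). The density of the walk is the expectation of `dens`
over the hidden chain. Proof. `t = 0`: `dens S1 S2 (s0 n) v = |V| 1[v = 0]` (`GG 0 0 = dzero`). Step:
`|V| stepProb (t+1) 0 v = ∑_{v'} |V| stepProb t 0 v' * lazyWalk v' v`, `lazyWalk` is symmetric, insert
the induction hypothesis; `(Eop n α)^[t]` is linear and acts on the `s` variable, so it commutes with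
the finite sum over `v'`, and `∑_{v'} lazyWalk v v' dens s v' = Eop n α (fun s => dens s v) s` by
`St_LW`, `St_SS`, `St_SR`; finally `Function.iterate_succ`. -/
def St_EXP : Prop := ∀ (n : ℕ) (Λ J : Type) [AddCommGroup Λ] [Fintype Λ] [DecidableEq Λ]
  [AddCommGroup J] [Fintype J] [DecidableEq J] (S1 S2 : Finset Λ) (c : ℕ),
  S1.Nonempty → S2.Nonempty → 2 ≤ n → (∀ a : Λ, -a = a) → (∀ i, cS n Λ J S1 S2 i = c) →
  ∀ (t : ℕ) (v : Vt n Λ J),
    (Fintype.card (Vt n Λ J) : ℝ) * stepProb (LG n Λ J S1 S2) t 0 v =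
      (Eop n ((cR n Λ : ℝ) / ((n * c + cR n Λ : ℕ) : ℝ)))^[t] (fun s => dens S1 S2 s v) (s0 n)

/-! ## The hidden chain -/

/-- ENC_MIX. Expectations over the hidden chain are finite mixtures. Proof. Induction on `t`
(`Function.iterate_succ_apply'`, generalising the start): `K' = Unit ⊕ (Fin n) ⊕ Unit` combined with
the index types of the successors (for instance a sigma type, or `K × (Option (Option (Fin n)))` if the
induction appends the new letter at the end: `(Eop)^[t+1] Φ s = (Eop)^[t] (Eop Φ) s`, so the new family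
is `K × Option (Option (Fin n))` with states `st k`, `stepS i (st k)`, `stepR (st k)`). -/
def St_MIX : Prop := ∀ (n : ℕ) (α : ℝ), 1 ≤ n → 0 ≤ α → α ≤ 1 → ∀ (t : ℕ) (s : HS n),
  ∃ (K : Type) (_ : Fintype K) (w : K → ℝ) (st : K → HS n), (∀ k, 0 ≤ w k) ∧ ∑ k, w k = 1 ∧
    ∀ Φ : HS n → ℝ, (Eop n α)^[t] Φ s = ∑ k, w k * Φ (st k)

/-- ENC_CHN (hypotheses `St_EP St_DN St_EB`). Chain rule for the entropy of a mixture.
Proof. For fixed `h` put `q = ∑_{k : (st k).1 = h} w k`; the mixture at `(f,h,j)` is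
`2^n ∑_{k : (st k).1 = h} w k G_k(f,j)` with the product densities `G_k(f,j)`. If `q = 0` everything
vanishes. Otherwise it equals `(2^n q) * A(f,j)` with `A = ∑ (w k/q) G_k` a density, and
`phi (a b) = b phi a + a phi b`, Jensen for `phi` at `A`: `phi(2^n q A) ≤ A phi (2^n q) + 2^n ∑ w k
phi (G_k)`. Average over `(f,j)` (`avg A = 1`, `Ent G_k = dentr` by `St_EP`), then over `h`. -/
def St_CHN : Prop := ∀ (n : ℕ) (Λ J : Type) [AddCommGroup Λ] [Fintype Λ] [DecidableEq Λ]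
  [AddCommGroup J] [Fintype J] [DecidableEq J] (S1 S2 : Finset Λ), S1.Nonempty → S2.Nonempty →
  ∀ (K : Type) [Fintype K] (w : K → ℝ) (st : K → HS n), (∀ k, 0 ≤ w k) → ∑ k, w k = 1 →
  Ent (fun v : Vt n Λ J => ∑ k, w k * dens S1 S2 (st k) v) ≤
    Ent (fun h : Cube n => ∑ k, w k * (if (st k).1 = h then (2 : ℝ) ^ n else 0)) +
      ∑ k, w k * dentr J S1 S2 (st k)

/-- ENC_HQ. Law of the walker = helper97's dual formula. Proof. For `Φ s = ψ s.1` the function
`(Eop n α)^[t] Φ` again depends on `s.1` only; let `q_t(h)` be the left side divided by `2^n`, more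
generally let `q_t(x, h)` be the value with initial walker position `x`; it only depends on `h - x`
(translation invariance, induction), hence (apply the last recursion in the start variable)
`q_{t+1}(h) = 1/2 q_t(h) + (1-α)/(2n) ∑_i q_t(h - ee i) + α/2 q_t(h - 1)`. The right side satisfies the
same recursion by `Dual.G_succ`, `sum_zeros`, `zeros_sub_one`, and the same initial values
(`Dual.G_zero`, `zeros_eq_top`). Compare the lemma `marginal_eq` in `Lib_helper97/SepCube.lean`. -/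
def St_HQ : Prop := ∀ (n : ℕ) (α : ℝ), 1 ≤ n → 0 ≤ α → α ≤ 1 → ∀ (t : ℕ) (h : Cube n),
  (Eop n α)^[t] (fun s => if s.1 = h then (2 : ℝ) ^ n else 0) (s0 n) = Dual.G n α t (zeros h)

/-- ENC_HX (hypotheses `St_HQ St_EQ St_MIX`). Entropy of the walker.
Proof. `q_t(h) = 2^{-n} (left function)` is a probability on the cube. `Ent ≤ avg (2^n q_t)² - 1 =
2^n ∑_h q_t(h)² - 1 = 2^n q_{2t}(0) - 1` (semigroup property and `q_t(h) = q_t(-h)`, translation
invariance as in `St_HQ`; alternatively prove `∑_h q_s(h) q_t(h) = q_{s+t}(0)` by moving one step from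
`s` to `t` using the recursion) and this is `Dual.G n α (2t) n - 1`. Now `Phi n n U g ≤ 2^U =
∑_r C(U,r)` for `U ≤ n` (`Phi_le`, `Nat.sum_range_choose`), so by `Lm_pow_mono`, `Lm_pow_ch`:
`Dual.G n α (2t) n ≤ ∑_{r ≤ n} C(n,r) (1-(1-α) r/n)^(2t) ≤ ∑_r C(n,r) exp(-2(1-α) t/n)^r =
(1+exp(-2(1-α)t/n))^n`. -/
def St_HX : Prop := ∀ (n : ℕ) (α : ℝ), 1 ≤ n → 0 ≤ α → α ≤ 1 → ∀ t : ℕ,
  Ent (fun h : Cube n => (Eop n α)^[t] (fun s => if s.1 = h then (2 : ℝ) ^ n else 0) (s0 n)) ≤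
    (1 + Real.exp (-(2 * (1 - α) * t / n))) ^ n - 1

/-- ENC_POT. Upper bound for the expected entropy of the lamps.
Proof. Write `B = log |J|`, `C = 2^n A + B`, `λ = 3/4 + α/4`. Invariants of a state `s` reached with `k`
common moves: (1) no rare move so far: for every `z`, `s.2.1 z = none`, or `s.2.1 z = some (k,0)` and
`2 wt (z - s.1) < n`, or `s.2.1 z = some (0,k)` and `2 wt (z - s.1) > n`, or `k = 0` and
`s.2.1 z = some (0,0)` (one common move changes `wt (z - s.1)` by one, `n` is even, and a lamp that is on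
the middle layer before or after a common move becomes `none`); (2) after a rare move at most two `z`
have `s.2.1 z ≠ none` (`{s.1, s.1+1}` at the rare move; `none` stays `none`); in both cases
`s.2.2 = false → k = 0`. Entropies: `Ent (dlam none) = 0`, each `Ent (dlam _) ≤ log |Λ|` (`St_EB`),
`Ent (dJ true) = 0`, `Ent (dJ false) = B ≤ B / 2^0`. So `dentr s ≤ C/2^k` in case (1) and
`≤ 2 log |Λ| + B/2^k` in case (2). Now prove by induction on `t`, for all such `s`, that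
`(Eop n α)^[t] dentr s ≤ C λ^t/2^k + (if rare move used then 2 log |Λ| else α t log |Λ|)`:
`1/2 C λ^t/2^k + (1-α)/2 C λ^t/2^(k+1) + α/2 C λ^t/2^k = C λ^(t+1)/2^k`, and in case (1)
`(1 - α/2) α t log |Λ| + (α/2) 2 log |Λ| ≤ α (t+1) log |Λ|`. Start: `k = 0`, case (1). -/
def St_POT : Prop := ∀ (n : ℕ) (Λ J : Type) [AddCommGroup Λ] [Fintype Λ] [DecidableEq Λ]
  [AddCommGroup J] [Fintype J] [DecidableEq J] (S1 S2 : Finset Λ) (α A : ℝ), S1.Nonempty →
  S2.Nonempty → 2 ≤ n → Even n → 0 ≤ α → α ≤ 1 → 0 ≤ A →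
  (∀ k, Ent (GG S1 S2 k 0) ≤ A / 2 ^ k) → (∀ k, Ent (GG S1 S2 0 k) ≤ A / 2 ^ k) →
  ∀ t : ℕ, (Eop n α)^[t] (dentr J S1 S2) (s0 n) ≤
    (2 ^ n * A + Real.log (Fintype.card J)) * (3 / 4 + α / 4) ^ t +
      α * t * Real.log (Fintype.card Λ)

/-- ENC_EX1. Exponential convergence of the lamps. Proof. Invariant of a state reached with `k` common
moves: for every `z`, `s.2.1 z = none` or `s.2.1 z = some (a,b)` with `a + b = k`; and
`s.2.2 = false → k = 0`. Hence all factors `dlam (s.2.1 z) (v.1 z)` are within `B (3/4)^k` of `1` and at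
most `1 + B`, similarly `dJ` (within `|J| (3/4)^k`), so
`|dens s v - (if v.2.1 = s.1 then 2^n else 0)| ≤ C (3/4)^k` with a constant `C` not depending on `s`,
`v`, `k` (for instance `C = 2^n (1+B)^(2^n) (1+|J|) (2^n B + |J|)`; telescoping product). By induction on
`t`: for `s` reached with `k` common moves, `|(Eop n α)^[t] (fun s => dens s v - (if v.2.1 = s.1 then
2^n else 0)) s| ≤ C (3/4)^k (7/8+α/8)^t`, since `1/2 + (1-α)/2 * 3/4 + α/2 = 7/8 + α/8`. -/
def St_EX1 : Prop := ∀ (n : ℕ) (Λ J : Type) [AddCommGroup Λ] [Fintype Λ] [DecidableEq Λ]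
  [AddCommGroup J] [Fintype J] [DecidableEq J] (S1 S2 : Finset Λ) (α B : ℝ), 1 ≤ n → 0 ≤ α → α ≤ 1 →
  0 ≤ B → (∀ k l a, |GG S1 S2 k l a - 1| ≤ B * (3 / 4) ^ (k + l)) →
  ∃ C : ℝ, ∀ (t : ℕ) (v : Vt n Λ J),
    |(Eop n α)^[t] (fun s => dens S1 S2 s v) (s0 n) -
      (Eop n α)^[t] (fun s => if s.1 = v.2.1 then (2 : ℝ) ^ n else 0) (s0 n)| ≤
      C * (7 / 8 + α / 8) ^ t

/-- ENC_EXC (hypotheses `St_EXP St_HQ St_EX1 St_TRG`). The graph satisfies helper97's `ExpConv` with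
rate `1 - (1-α)/n`. Proof. Start at `0`: `| |V| stepProb t 0 v - 1| ≤ C (7/8+α/8)^t +
|Dual.G n α t (zeros v.2.1) - 1| ≤ C (7/8+α/8)^t + 2^n n (1-(1-α)/n)^t` (`Dual.G_sub_one_le`,
`Dual.rho`), and `7/8 + α/8 ≤ 1 - (1-α)/n` for `n ≥ 8`. Other starts: `stepProb t x y = stepProb t
(φ x) (φ y)` with an automorphism `φ x = 0` (`St_TRG`). `α < 1` since `c ≥ 1`. -/
def St_EXC : Prop := ∀ (n : ℕ) (Λ J : Type) [AddCommGroup Λ] [Fintype Λ] [DecidableEq Λ]
  [AddCommGroup J] [Fintype J] [DecidableEq J] (S1 S2 : Finset Λ) (c : ℕ) (B : ℝ),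
  S1.Nonempty → S2.Nonempty → 8 ≤ n → (∀ a : Λ, -a = a) → 1 ≤ c → (∀ i, cS n Λ J S1 S2 i = c) →
  0 ≤ B → (∀ k l a, |GG S1 S2 k l a - 1| ≤ B * (3 / 4) ^ (k + l)) →
  ExpConv (LG n Λ J S1 S2) (1 - (1 - (cR n Λ : ℝ) / ((n * c + cR n Λ : ℕ) : ℝ)) / n)

/-! ## Lower bounds for the hidden chain -/

/-- ENC_WRD. Expansion of the chain without rare moves over words. Proof. Induction on `m`
(`Function.iterate_succ_apply`: `(Nop)^[m+1] Φ s = (Nop)^[m] (Nop Φ) s = ∑_w ww w * Nop Φ (run m w s)`,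
and `Nop Φ s' = ∑_{o : Option (Fin n)} lw n o * Φ (stepL o s')`; the words of length `m+1` are
`Fin.snoc w o`, `Fin.snocEquiv` / `Fin.prod_univ_castSucc`). -/
def St_WRD : Prop := ∀ (n : ℕ) (m : ℕ) (Φ : HS n → ℝ) (s : HS n),
  (Nop n)^[m] Φ s = ∑ w : Wd n m, ww w * Φ (run m w s)

/-- ENC_RUN. Effect of good words on one lamp. Proof. `(run m w s).1 = s.1 + pre w m` by induction.
(0) Lamp `z`, start `s0`: if `2 wt (z - pre w b) < n` for all `b ≤ m` then the status of `z` after `w` is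
`some (cnt w, 0)` (induction on `m`, each common move is a near update, `upd` first component).
For `good2` and `z = 0`: `0 - pre w b = pre w b` (characteristic two). For `good1` and
`z = pre w m = suf w 0`: `z - pre w b = suf w b`. (2) If the lamp `z` has status `some (k,l)` in `s` and
`z - s.1 = 1` then during a `good2` word its relative position is `1 - pre w b`, of weight
`n - wt (pre w b) > n/2`, so every common move adds a far pick. -/
def St_RUN : Prop := ∀ (n m u : ℕ) (w : Wd n m),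
  (good2 u w → (run m w (s0 n)).2.1 0 = some (cnt w, 0)) ∧
  (good1 u w → (run m w (s0 n)).2.1 (run m w (s0 n)).1 = some (cnt w, 0)) ∧
  (good2 u w → ∀ (s : HS n) (z : Cube n) (k l : ℕ), s.2.1 z = some (k, l) → z - s.1 = 1 →
    (run m w s).2.1 z = some (k, l + cnt w))

open scoped Classical in
/-- ENC_REV. Reversal of words. Proof. `w ↦ w ∘ Fin.rev` is an involution of `Wd n m` preserving `ww`
and `cnt`, and `suf (w ∘ Fin.rev) a = pre w (m - a)` for `a ≤ m`. -/
def St_REV : Prop := ∀ (n m u : ℕ),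
  ∑ w : Wd n m, (if good1 u w then ww w else 0) = ∑ w : Wd n m, (if good2 u w then ww w else 0)

open scoped Classical in
/-- ENC_DUH (hypotheses `St_WRD St_RUN St_REV`). Lower bound for the probability of `Bad`.
Proof. Nonnegative functions throughout. (i) `Eop Φ ≥ (1-α) Nop Φ` for `Φ ≥ 0`, hence
`(Eop)^[m] Φ ≥ (1-α)^m (Nop)^[m] Φ`. (ii) Duhamel: for `Φ ≥ 0` and a finite set `I ⊆ {0,…,t-1}`,
`(Eop)^[t] Φ s ≥ ∑_{a ∈ I} ((1-α) Nop)^[a] (fun s => α/2 * ((1-α) Nop)^[t-1-a] Φ (stepR s)) s`: write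
`Eop = E' + R` with `E' ≥ (1-α) Nop` and `R Φ s = α/2 Φ (stepR s)`; induction on `t`
(`Eop^[t+1] Φ = E' (Eop^[t] Φ) + R (Eop^[t] Φ) ≥ ...`, the second term gives `a = 0`, the first one the
terms `a ≥ 1`). (iii) For `a` in `[p, q)`: a `good1` word `w₁` of length `a` from `s0` leads to a state
`s` with status `some (cnt w₁, 0)` at `z = s.1`; `stepR` keeps it and `z - (s.1 + 1) = 1`
(characteristic two); a `good2` word `w₂` of length `t-1-a` gives `some (cnt w₁, cnt w₂)`: `Bad u`. So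
each term is at least `(1-α)^(t-1) α/2 g²`. First claim: one `good2` word from `s0`, lamp `0`. -/
def St_DUH : Prop := ∀ (n u mx : ℕ) (α g : ℝ), 2 ≤ n → 0 ≤ α → α ≤ 1 → 0 ≤ g →
  (∀ m ≤ mx, g ≤ ∑ w : Wd n m, (if good2 u w then ww w else 0)) →
  (∀ m ≤ mx, (1 - α) ^ m * g ≤ (Eop n α)^[m] (ibad u) (s0 n)) ∧
  ∀ t p q : ℕ, p ≤ q → q ≤ t → q ≤ mx + 1 → t - 1 - p ≤ mx →
    ((q : ℝ) - p) * (α / 2) * (1 - α) ^ t * g ^ 2 ≤ (Eop n α)^[t] (ibad u) (s0 n)

/-- ENC_MOM. First two moments of the magnetisation of an initial segment. Proof. Induction on `b` (the weights of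
the other letters sum up to one): one letter maps `mag x` to `mag x` (probability 1/2) or
`mag x - 2 (-1)^{x_i}` (probability 1/(2n) each), so `E mag` is multiplied by `1 - 1/n` and
`E mag²` becomes `(1 - 2/n) E mag² + 2`; at `b = 0`: `mag 0 = n`. -/
def St_MOM : Prop := ∀ (n m b : ℕ), 1 ≤ n → b ≤ m →
  (∑ w : Wd n m, ww w = 1) ∧
  (∑ w : Wd n m, ww w * mag (pre w b) = n * (1 - 1 / (n : ℝ)) ^ b) ∧
  (∑ w : Wd n m, ww w * mag (pre w b) ^ 2 =
    n + ((n : ℝ) ^ 2 - n) * (1 - 2 / (n : ℝ)) ^ b)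

open scoped Classical in
/-- ENC_CHE (hypothesis `St_MOM`). Chebyshev. Proof. `(1-2/n) ≤ (1-1/n)²`, so the variance is at most
`n` (for `n ≥ 2`), and on the event the deviation from the mean is at least half the mean. -/
def St_CHE : Prop := ∀ (n m b : ℕ), 2 ≤ n → b ≤ m →
  ∑ w : Wd n m, (if mag (pre w b) ≤ (1 / 2) * (n * (1 - 1 / (n : ℝ)) ^ b) then ww w else 0) ≤
    4 / (n * (1 - 1 / (n : ℝ)) ^ (2 * b))

open scoped Classical in
/-- ENC_CNT. The number of moves is binomial with mean `m/2` and variance `m/4`; Chebyshev. -/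
def St_CNT : Prop := ∀ (n m u : ℕ), 1 ≤ n → (m : ℝ) / 2 < u →
  ∑ w : Wd n m, (if u < cnt w then ww w else 0) ≤ m / (4 * ((u : ℝ) - m / 2) ^ 2)

/-- ENC_GRD. Control on a grid is enough. Proof. `mag x = n - 2 wt x`; one letter changes `mag` by at
most 2; for `b ≤ m` let `j = b / g` (floor), then `mag (pre w b) ≥ mag (pre w (j g)) - 2 (b - j g) >
2 g - 2 g = 0`. -/
def St_GRD : Prop := ∀ (n m g : ℕ) (w : Wd n m), 1 ≤ g →
  (∀ j, j * g ≤ m → 2 * (g : ℝ) < mag (pre w (j * g))) → ∀ b ≤ m, 2 * wt (pre w b) < n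

open scoped Classical in
/-- ENC_GOO (hypotheses `St_MOM St_CHE St_CNT St_GRD`). Words of length at most `12 n l` are good with
probability at least `9/10`. Proof. `n = 2^(58 l)`, `(1-1/n)^(12 n l) ≥ 2^(-18 l)` (since
`(1-1/n)^n ≥ 2^(-3/2)`, i.e. `(1-1/n)^(2n) ≥ 1/8`, for `n ≥ 20`). So for `b ≤ m` half of the mean is
`≥ (1/2) 2^(58l-18l) = 2^(40 l - 1) ≥ 2 g` for the spacing `g = 2^(38 l)`, and the probability in
`St_CHE` is at most `4 · 2^(36 l) / 2^(58 l) = 4 · 2^(-22 l)`. There are at most `12 n l / g + 1 =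
12 l 2^(20 l) + 1` grid points: total at most `52 l 2^(-2 l) ≤ 1/20`. Number of moves: `u = 6.5 n l`,
`m/2 ≤ 6 n l`, probability at most `12 n l/(4 (n l/2)²) = 12/(n l) ≤ 1/20`. Complement: `good2`. -/
def St_GOO : Prop := ∀ l : ℕ, 40 ≤ l → ∀ m ≤ 12 * nn l * l,
  (9 / 10 : ℝ) ≤ ∑ w : Wd (nn l) m, (if good2 (uu l) w then ww w else 0)

open scoped Classical in
/-- ENC_LBP (hypotheses `St_MIX St_DN`). The walk is in the set `B` (some lamp in
`C = {a | GG u u a ≠ 0}`) with probability at least that of `Bad u`. Proof. If `0 ∈ S1`, `0 ∈ S2` then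
`GG k l a ≠ 0 → GG (k+1) l a ≠ 0` (the average contains the term `b = 0`, all terms are nonnegative),
so for `k, l ≤ u`: `GG k l a ≠ 0 → GG u u a ≠ 0`. If `Bad u s` then `dens s v ≠ 0` implies `v ∈ B`, so
`avg (dens s · 1_B) = avg (dens s) = 1`; in general it is `≥ 0`. Exchange the sum over `v` and the
expectation (`St_MIX`). -/
def St_LBP : Prop := ∀ (n : ℕ) (Λ J : Type) [AddCommGroup Λ] [Fintype Λ] [DecidableEq Λ]
  [AddCommGroup J] [Fintype J] [DecidableEq J] (S1 S2 : Finset Λ) (α : ℝ) (u : ℕ),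
  (0 : Λ) ∈ S1 → (0 : Λ) ∈ S2 → 1 ≤ n → 0 ≤ α → α ≤ 1 → ∀ t : ℕ,
  (Eop n α)^[t] (ibad u) (s0 n) ≤
    (∑ v ∈ (univ.filter fun v : Vt n Λ J => ∃ z, GG S1 S2 u u (v.1 z) ≠ 0),
      (Eop n α)^[t] (fun s => dens S1 S2 s v) (s0 n)) / Fintype.card (Vt n Λ J)

open scoped Classical in
/-- ENC_LBC. Size of `B`. Proof. Union over `z` of `{v | v.1 z ∈ C}`; each has
`|C| |Λ|^(2^n - 1) 2^n |J|` elements, `|V| = |Λ|^(2^n) 2^n |J|`. -/
def St_LBC : Prop := ∀ (n : ℕ) (Λ J : Type) [AddCommGroup Λ] [Fintype Λ]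
  [AddCommGroup J] [Fintype J] (C : Finset Λ),
  ((univ.filter fun v : Vt n Λ J => ∃ z, v.1 z ∈ C).card : ℝ) * Fintype.card Λ ≤
    2 ^ n * C.card * Fintype.card (Vt n Λ J)

/-! ## The lamp group -/

/-- ENC_CAR. Proof. `inc1`, `inc2` are injective (`hat x 0 = 1`, so `x` and `g` can be read off). -/
def St_CAR : Prop := ∀ (D M : ℕ), (S1 D M).card = 2 ^ (D + (D + 1) * M) ∧
  (S2 D M).card = 2 ^ (D + (D + 1) * M) ∧ (0 : Lam D M) ∈ S1 D M ∧ (0 : Lam D M) ∈ S2 D M ∧
  Fintype.card (Lam D M) = 2 ^ (M * (D + 1) ^ 2 + D) ∧ ∀ a : Lam D M, -a = a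

open scoped Classical in
/-- ENC_SPN. Most `k`-tuples `hat (x i)` are spanning (in dual form). Proof. For fixed `c ≠ 0` the number
of `x : Fin D → ZMod 2` with `∑_j c_j hat x j = 0` is at most `2^D/2` (if some `c_{j+1} ≠ 0` flip `x_j`;
otherwise `c_0 = 1` and the number is `0`). Union bound over the `2^(D+1) - 1` vectors `c ≠ 0`. -/
def St_SPN : Prop := ∀ (D k : ℕ),
  2 ^ k * (univ.filter fun x : Fin k → (Fin D → ZMod 2) =>
    ∃ c : Fin (D + 1) → ZMod 2, c ≠ 0 ∧ ∀ i, ∑ j, c j * hat (x i) j = 0).card ≤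
    2 ^ (D + 1) * (2 ^ D) ^ k

/-- ENC_UNI. If `hat (x i)`, `i < k`, is spanning then `∑_{i<k} inc1 (x i) (g i) + inc1 y g'` is exactly
uniform for uniform `(g, y, g')`: the number of representations of `a` does not depend on `a`.
Proof. The map `Ψ : g ↦ ∑_{i<k} (fun a j m => hat (x i) a * g i j m)` is a surjective group homomorphism
onto `Ten D M` (surjective because its image is `span ⊗ everything`; in dual form: a subgroup of
`ZMod 2`-vectors that is not everything is killed by some nonzero linear form, work for every fixed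
`(j,m)`), so all its fibres have the same size `N`. For given `a = (X, r)`: `y = r - ∑ x i` is forced,
`g'` is arbitrary, `g` ranges over a fibre of `Ψ`: `2^((D+1)M) N` representations. -/
def St_UNI : Prop := ∀ (D M k : ℕ) (x : Fin k → (Fin D → ZMod 2)),
  (∀ c : Fin (D + 1) → ZMod 2, (∀ i, ∑ j, c j * hat (x i) j = 0) → c = 0) →
  ∀ a b : Lam D M,
    (univ.filter fun p : (Fin k → Fin (D + 1) → Fin M → ZMod 2) × (Fin D → ZMod 2) ×
      (Fin (D + 1) → Fin M → ZMod 2) => ∑ i, inc1 (x i) (p.1 i) + inc1 p.2.1 p.2.2 = a).card =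
    (univ.filter fun p : (Fin k → Fin (D + 1) → Fin M → ZMod 2) × (Fin D → ZMod 2) ×
      (Fin (D + 1) → Fin M → ZMod 2) => ∑ i, inc1 (x i) (p.1 i) + inc1 p.2.1 p.2.2 = b).card

/-- ENC_GK (hypotheses `St_SPN St_UNI St_CAR St_EC St_EB`). Entropy and sup norm after `k` near picks.
Proof. `k = 0`: `GG 0 0 = dzero`, `|dzero a - 1| ≤ |Λ|`, `Ent dzero = log |Λ|`. For `k + 1`: as `inc1` is
injective, `avgOn (S1 D M) g a = avg over (x,g') of g (a + inc1 x g')`; so `GG (k+1) 0 a` is the average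
over `x : Fin k → (Fin D → ZMod 2)` of `D_x(a) = |Λ| · P(a + ∑ inc1 (x i) (g i) + inc1 y g' = 0)` for
uniform `(g,y,g')`. Each `D_x` is a density (values in `[0,|Λ|]`, average one), `D_x ≡ 1` if `x` is
spanning (`St_UNI`), and the fraction of non spanning `x` is at most `2^(D+1)/2^k` (`St_SPN`). Sup norm:
average of `|D_x(a) - 1| ≤ |Λ|`. Entropy: convexity (`St_EC`), `Ent D_x ≤ log |Λ|` (`St_EB`), `Ent 1 = 0`.
Finally `2^(D+1)/2^k = 2^(D+2)/2^(k+1)`. -/
def St_GK : Prop := ∀ (D M k : ℕ),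
  (∀ a, |GG (S1 D M) (S2 D M) k 0 a - 1| ≤ 2 ^ (D + 2) / 2 ^ k * Fintype.card (Lam D M)) ∧
  Ent (GG (S1 D M) (S2 D M) k 0) ≤ 2 ^ (D + 2) / 2 ^ k * Real.log (Fintype.card (Lam D M))

/-- ENC_GT. Transposition. Proof. `τ (X, r) = (fun i j => X j i, r)` is an additive automorphism of
`Lam D M` with `τ (inc2 y g) = inc1 y g`, so it maps `S2` onto `S1`; `dzero (τ a) = dzero a` and
`avgOn (S1) g (τ a) = avgOn (S2) (g ∘ τ) a`; induction on `k`. The average and the entropy are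
invariant under the bijection `τ`. -/
def St_GT : Prop := ∀ (D M k : ℕ),
  (∀ (X : Ten D M) (r : Fin D → ZMod 2), GG (S1 D M) (S2 D M) 0 k (X, r) =
    GG (S1 D M) (S2 D M) k 0 ((fun i j => X j i), r)) ∧
  Ent (GG (S1 D M) (S2 D M) 0 k) = Ent (GG (S1 D M) (S2 D M) k 0)

/-- ENC_GKL (hypotheses `St_GK St_GT St_DN St_CAR`). Sup norm bound for mixed picks. Proof. `avgOn S` does
not increase `sup |g - 1|` and `GG k l = (avgOn S1)^[k] (GG 0 l) = (avgOn S2)^[l] (GG k 0)` (`St_DN`), so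
`|GG k l a - 1| ≤ 2^(D+2) |Λ| / 2^(max k l)`, and `2^(-max k l) ≤ (3/4)^(k+l)` because
`k + l ≤ 2 max k l` and `(3/4)² ≥ 1/2`. -/
def St_GKL : Prop := ∀ (D M k l : ℕ) (a : Lam D M),
  |GG (S1 D M) (S2 D M) k l a - 1| ≤
    (2 ^ (D + 2) * Fintype.card (Lam D M)) * (3 / 4) ^ (k + l)

open scoped Classical in
/-- ENC_LIN. Linear algebra bound. Proof. Let `A = span (x a)`, `dim A ≤ k ≤ N`; there is a linear map
`P : (Fin N → ZMod 2) → (Fin (N-k) → ZMod 2)` that is surjective and kills `A` (quotient by `A` has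
dimension at least `N - k`, project further), with a right inverse `P'`; similarly `Q, Q'` for the
`y b`. For `X` in the set, `(P ⊗ Q) X = 0` (for every `m`). The map `(X, Y) ↦ X + (P' ⊗ Q') Y` from the
set times `(Fin (N-k) → Fin (N-l) → Fin M → ZMod 2)` to all tensors is injective: apply `P ⊗ Q` to
recover `Y`. Compare cardinalities. (Matrices: `(P ⊗ Q) X a b m = ∑ i j, P a i * Q b j * X i j m`.) -/
def St_LIN : Prop := ∀ (N M k l : ℕ) (x : Fin k → Fin N → ZMod 2) (y : Fin l → Fin N → ZMod 2),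
  k ≤ N → l ≤ N →
  (univ.filter fun X : Fin N → Fin N → Fin M → ZMod 2 =>
    ∃ (g : Fin k → Fin N → Fin M → ZMod 2) (g' : Fin l → Fin N → Fin M → ZMod 2),
      X = fun i j m => ∑ a, x a i * g a j m + ∑ b, g' b i m * y b j).card *
    2 ^ (M * (N - k) * (N - l)) ≤ 2 ^ (M * N ^ 2)

open scoped Classical in
/-- ENC_SUP (hypothesis `St_LIN`). Size of the support of `GG u u`. Proof. If `GG k l a ≠ 0` then
`a = ∑_{i<k} inc1 (x i) (g i) + ∑_{j<l} inc2 (y j) (g' j)` for some `x, g, y, g'` (induction on `k`, `l`;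
`-b = b`). For fixed `x, y` the first component of such `a` lies in the set of `St_LIN` (`N = D+1`,
vectors `hat (x i)`, `hat (y j)`), the second one is arbitrary (`2^D`); there are `(2^D)^(2u)` pairs. -/
def St_SUP : Prop := ∀ (D M u : ℕ), u ≤ D + 1 →
  (univ.filter fun a : Lam D M => GG (S1 D M) (S2 D M) u u a ≠ 0).card *
    2 ^ (M * (D + 1 - u) ^ 2) ≤ 2 ^ (M * (D + 1) ^ 2 + 2 * u * D + D)

/-- ENC_NP (hypothesis `St_CAR`). There are fewer common moves than rare ones before the blow-up by `J`.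
Proof. `∏_z |inc z (z - ee i)| ≤ |Λ|^(2^n-4) s^4` with `s = |S1| = |S2| = 2^(D+(D+1)M)`, since for the four
points `z = 0, ee i, 1, 1 - ee i` (different for `n ≥ 4`) the increment set is `S1` or `S2` (weights
`0,1,n,n-1`, none equal to `n/2` if `n ≥ 4`), and all factors are at most `|Λ|`. Then
`n s^4 ≤ |Λ|^2` because `2^58 ≤ n ≤ 2^D`, `D + 4D + 4(D+1)M ≤ 2(M(D+1)²+D)` for `M = 64`, `D ≥ 8`. -/
def St_NP : Prop := ∀ l : ℕ, 1 ≤ l → ∀ i : Fin (nn l),
  nn l * (∏ z : Cube (nn l), (inc (S1 (DD l) 64) (S2 (DD l) 64) z (z - ee i)).card) ≤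
    cR (nn l) (Lam (DD l) 64)

/-- ENC_ALP. Choice of the blow-up. Proof. `f = ⌈cR (1/a - 1)/P⌉` (as a natural number, it is `≥ 1`): then
`cR (1/a-1) ≤ P f ≤ cR (1/a-1) + P ≤ cR/a`, so `cR/a ≤ P f + cR ≤ cR/a + cR ≤ 2 cR/a`; and
`f ≤ cR/a + 1 ≤ 2 cR/a` as `P ≥ 1`. -/
def St_ALP : Prop := ∀ (P R : ℕ) (a : ℝ), 1 ≤ P → P ≤ R → 0 < a → a ≤ 1 / 2 →
  ∃ f : ℕ, 1 ≤ f ∧ a / 2 ≤ (R : ℝ) / ((P * f + R : ℕ) : ℝ) ∧ (R : ℝ) / ((P * f + R : ℕ) : ℝ) ≤ a ∧
    (f : ℝ) ≤ 2 * R / a

/-! ## Numerical estimates (all for `l ≥ 40`) -/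

/-- ENC_N1. Proof. `58 log 2 < 40.21`, `(1+x)^n ≤ exp(n x)`, `n x = exp(58 l log 2 - 42(1-α) l) ≤
exp(-l)` since `42 α l ≤ 1/2`; `exp y - 1 ≤ 1` for `y ≤ 1/2`. -/
def St_N1 : Prop := ∀ l : ℕ, 40 ≤ l → ∀ α : ℝ, 0 ≤ α → α ≤ a0 l →
  (1 + Real.exp (-(2 * (1 - α) * ((21 * nn l * l : ℕ) : ℝ) / nn l))) ^ nn l - 1 ≤ 1

/-- ENC_N2. Proof. With `n = nn l`, `D = 8 n l`: `(3/4+α/4)^(21nl) ≤ (3/4)^(21 n l) exp(α 21 n l/3) ≤
2 (3/4)^(21nl)` and `(3/4)^21 ≤ 0.61 · 2^(-8)`, `0.61^l 2 ≤ 2^(-20)` for `l ≥ 40`, so the product is at most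
`(2^(D+2) LL + LL + 10) · 2^n · 2 · 2^(-8nl) · 0.61^(nl) ≤ 1`; `LL ≤ 2^(200 l)`. -/
def St_N2 : Prop := ∀ l : ℕ, 40 ≤ l → ∀ α B : ℝ, 0 ≤ α → α ≤ a0 l →
  B ≤ 2 ^ nn l * LL l + 10 * nn l * l →
  (2 ^ nn l * (2 ^ (DD l + 2) * LL l) + B) * (3 / 4 + α / 4) ^ (21 * nn l * l) ≤ 1

/-- ENC_N3. Proof. `LL l ≤ 4300 (n l)² log 2`, `α ≤ 1/(n l)³`, `21 · 4300 · 0.7 < 69000`. -/
def St_N3 : Prop := ∀ l : ℕ, 40 ≤ l → ∀ α : ℝ, 0 ≤ α → α ≤ a0 l →
  α * ((21 * nn l * l : ℕ) : ℝ) * LL l ≤ 69000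

/-- ENC_N4. Proof. `p ≥ (n l) (α/2) (1-α)^(23 n l) 0.81 ≥ 0.2 /(n l)²` (with `α ≥ a0/2`,
`(1-α)^(23nl) ≥ 1 - 23 n l α ≥ 0.99`), `D + 1 - u ≥ 1.5 n l`, `64 (D+1-u)² - 2 u D - D - n ≥
(144 - 104) (n l)² - 9 n l ≥ 39 (n l)²`; so the product is at least `0.2 · 39 · 0.69 > 5`. -/
def St_N4 : Prop := ∀ l : ℕ, 40 ≤ l → ∀ α : ℝ, a0 l / 2 ≤ α → α ≤ a0 l →
  1 < ((nn l : ℝ) * l) * (α / 2) * (1 - α) ^ (23 * nn l * l) * (9 / 10) ^ 2 *
    ((64 * ((DD l : ℝ) + 1 - uu l) ^ 2 - 2 * uu l * DD l - DD l - nn l) * Real.log 2) - Real.log 2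

/-- ENC_N5. Proof. `(1-α)^(12 n l) ≥ 1 - 12 n l α ≥ 0.99`; the exponent is at least `39 (n l)² ≥ 4`. -/
def St_N5 : Prop := ∀ l : ℕ, 40 ≤ l → ∀ α : ℝ, 0 ≤ α → α ≤ a0 l → ∀ m ≤ 12 * nn l * l,
  (1 / 2 : ℝ) ≤ (1 - α) ^ m * (9 / 10) ∧
  64 * ((DD l : ℝ) + 1 - uu l) ^ 2 - 2 * uu l * DD l - DD l - nn l ≥ 4

end Pool.Agent.ENC
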