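import Pool.Agent.ENC.Stmts

/-!
# Stronger numerical statements (a free scale parameter `c`)

They replace `St_LB`, `St_N1`, `St_N2`, `St_N4`: the rare moves get the rate `c * a0 l`, so that entropy
cutoff fails at every scale.
-/

namespace Pool.Agent.ENC

open Finset Filter Topology Pool.Agent.LazyWalk

/-- ENC_LB2 (replaces `St_LB`). If `|B|/|X| ≤ p0 ≤ p = ∑_{x ∈ B} g x / |X|` then
`p0 (log (p0 |X|/|B|) - 1) ≤ Ent g`.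
Proof. With `π = |B|/|X|`: Jensen for `phi` on `B` and on the complement gives
`Ent g ≥ p log (p/π) + (1-p) log ((1-p)/(1-π))` (if `Bᶜ` is empty, `p = 1` and the second term is absent),
and `(1-p) log ((1-p)/(1-π)) ≥ (1-p) log (1-p) ≥ -p` (`x log x ≥ x - 1`). So
`Ent g ≥ F(p)`, `F(p) = p (log (p/π) - 1)`; `F' = log (p/π) ≥ 0` for `p ≥ π`, so `F(p) ≥ F(p0)`
(elementary: `p log (p/p0) ≥ p - p0` and `(p - p0) log (p0/π) ≥ 0`). -/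
def St_LB2 : Prop := ∀ (X : Type) [Fintype X] [Nonempty X] (g : X → ℝ) (B : Finset X) (p0 : ℝ),
  (∀ x, 0 ≤ g x) → avg g = 1 → B.Nonempty → (B.card : ℝ) / Fintype.card X ≤ p0 →
  p0 ≤ (∑ x ∈ B, g x) / Fintype.card X →
  p0 * (Real.log (p0 * ((Fintype.card X : ℝ) / B.card)) - 1) ≤ Ent g

/-- ENC_N1B (replaces `St_N1`). Proof. As `St_N1`: the exponent `n x ≤ exp(-l)`, and
`exp y - 1 ≤ 2 y` for `0 ≤ y ≤ 1`; `2 exp(-l) ≤ 1/l`. -/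
def St_N1B : Prop := ∀ l : ℕ, 40 ≤ l → ∀ α : ℝ, 0 ≤ α → α ≤ a0 l →
  (1 + Real.exp (-(2 * (1 - α) * ((21 * nn l * l : ℕ) : ℝ) / nn l))) ^ nn l - 1 ≤ 1 / l

/-- ENC_N2B (replaces `St_N2`). Proof. As `St_N2`: the product is at most `2^(-n) ≤ 1/l`. Here `B` may be
slightly larger (`B = log |J|`, `|J| ≤ 2 |Λ|^(2^n) (n l)^3 l`). -/
def St_N2B : Prop := ∀ l : ℕ, 40 ≤ l → ∀ α B : ℝ, 0 ≤ α → α ≤ a0 l →
  B ≤ 2 ^ nn l * LL l + 10 * nn l * l →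
  (2 ^ nn l * (2 ^ (DD l + 2) * LL l) + B) * (3 / 4 + α / 4) ^ (21 * nn l * l) ≤ 1 / l

/-- ENC_N4B (replaces `St_N4`). Write `q = n l`, `p0 = q (α/2) (1-α)^(23 q) (9/10)²` and
`K = (64 (D+1-u)² - 2 u D - D - n) log 2`. Claim: `exp(-K) ≤ p0` and `4 c ≤ p0 (log p0 + K - 1)`.
Proof. `α ≥ c/(2 q³)` and `(1-α)^(23 q) ≥ 1 - 23 q α ≥ 0.99` give `p0 ≥ 0.2 c/q²`; `D + 1 - u ≥ 1.5 q`,
`K ≥ (144 q² - 104 q² + 96 · 2 q - 9 q) log 2 ≥ 40 · 0.69 q² ≥ 27 q²`;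
`log p0 ≥ log 0.2 - 2 log q + log c ≥ - 2 - 2 q - l` (as `c ≥ 1/l ≥ exp(-l)`), so
`log p0 + K - 1 ≥ 27 q² - 2 q - l - 3 ≥ 26 q²`, and `0.2 · 26 > 5`. -/
def St_N4B : Prop := ∀ l : ℕ, 40 ≤ l → ∀ c α : ℝ, 1 / (l : ℝ) ≤ c → c ≤ 1 → c * a0 l / 2 ≤ α →
  α ≤ c * a0 l →
  Real.exp (-((64 * ((DD l : ℝ) + 1 - uu l) ^ 2 - 2 * uu l * DD l - DD l - nn l) * Real.log 2)) ≤
    ((nn l : ℝ) * l) * (α / 2) * (1 - α) ^ (23 * nn l * l) * (9 / 10) ^ 2 ∧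
  4 * c ≤ ((nn l : ℝ) * l) * (α / 2) * (1 - α) ^ (23 * nn l * l) * (9 / 10) ^ 2 *
    (Real.log (((nn l : ℝ) * l) * (α / 2) * (1 - α) ^ (23 * nn l * l) * (9 / 10) ^ 2) +
      (64 * ((DD l : ℝ) + 1 - uu l) ^ 2 - 2 * uu l * DD l - DD l - nn l) * Real.log 2 - 1)

end Pool.Agent.ENC
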